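import Pool.Agent.H28.UE.AxisCore

set_option autoImplicit false

/-!
JOB UE-AX2 (axes of elements of a free group acting on its Cayley tree).

From `exists_line_core` (job UE-AX1, may be used with its sorry): `range L` is convex (a vertex `z`
with `B (L i) z (L j)` is `L k` with `k` at the right distance: two vertices between the same two
vertices at the same distance are equal, by `TreeDist.four`). For a vertex `x` with gate `p` on
`range L` we have `p ≠ g p` and `g p` is the gate of `g x`, so `D x (g x) = n + 2 D x p`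
(`TreeDist.IsGate.dist_eq`). Hence `tl g = n`, `Ax g = range L` (`exists_line`), `disp_gate`.
`L` is also a line for `g ^ k`, `g⁻¹` (reversed), `f g f⁻¹` (translated). Everything else follows
from `exists_line`, gates and the tree axioms. (`g = 1`: `tl 1 = 0`, `Ax 1 = univ`.)
`mem_Ax_of_two`: `D x (g g x) = 2 tl g + 2 D x p` (`p` the gate) and `= 2 (tl g + 2 D x p)`.
`Ax_subset_of_inv`: for `x ∈ S` with gate `p` on the axis, the points `p, g^n p` are between `x` and
`g^n x` hence in `S`, and every vertex of the axis lies between `g^-n p` and `g^n p` for large `n`.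
-/

namespace Pool.Agent.H28.UE

variable {α : Type*} [DecidableEq α]

private theorem eq_of_betw {x y z z' : FreeGroup α} (h : (TT α).B x z y) (h' : (TT α).B x z' y)
    (hd : D x z = D x z') : z = z' := by
  unfold TreeDist.B at h h'
  rw [← D_eq, ← D_eq, ← D_eq] at h h'
  have h1 := (TT α).four z z' x y
  simp only [← D_eq] at h1
  have h2 := D_symm z x
  have h3 := D_symm z' x
  apply D_eq_zero
  omega

private theorem line_between {L : ℤ → FreeGroup α}
    (iso : ∀ i j : ℤ, D (L i) (L j) = (i - j).natAbs) {i j : ℤ}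
    (hij : i ≤ j) {z : FreeGroup α} (hz : (TT α).B (L i) z (L j)) :
    ∃ k, i ≤ k ∧ k ≤ j ∧ z = L k := by
  have hz' : D (L i) z + D z (L j) = D (L i) (L j) := hz
  have h1 := iso i j
  refine ⟨i + D (L i) z, by omega, by omega, ?_⟩
  have h2 := iso i (i + D (L i) z)
  have h3 := iso (i + D (L i) z) j
  refine eq_of_betw hz ?_ (by omega)
  show D (L i) (L (i + D (L i) z)) + D (L (i + D (L i) z)) (L j) = D (L i) (L j)
  omega

private theorem line_convex {L : ℤ → FreeGroup α}
    (iso : ∀ i j : ℤ, D (L i) (L j) = (i - j).natAbs) : (TT α).Convex (Set.range L) := by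
  rintro _ ⟨i, rfl⟩ _ ⟨j, rfl⟩ z hz
  rcases le_total i j with h | h
  · obtain ⟨k, _, _, hk⟩ := line_between iso h hz
    exact ⟨k, hk.symm⟩
  · obtain ⟨k, _, _, hk⟩ := line_between iso h ((TT α).B_symm hz)
    exact ⟨k, hk.symm⟩

private theorem line_gate_mul {g : FreeGroup α} {n : ℕ} {L : ℤ → FreeGroup α}
    (step : ∀ i : ℤ, g * L i = L (i + n)) {x p : FreeGroup α}
    (hp : (TT α).IsGate (Set.range L) x p) : (TT α).IsGate (Set.range L) (g * x) (g * p) := by
  obtain ⟨⟨i, rfl⟩, h⟩ := hp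
  refine ⟨⟨i + n, (step i).symm⟩, ?_⟩
  rintro _ ⟨j, rfl⟩
  have h1 := h (L (j - n)) ⟨j - n, rfl⟩
  have h2 : L j = g * L (j - n) := by rw [step, sub_add_cancel]
  rw [h2, B_mul_iff]
  exact h1

private theorem line_disp {g : FreeGroup α} {n : ℕ} {L : ℤ → FreeGroup α} (hn : 0 < n)
    (iso : ∀ i j : ℤ, D (L i) (L j) = (i - j).natAbs)
    (step : ∀ i : ℤ, g * L i = L (i + n)) {x p : FreeGroup α}
    (hp : (TT α).IsGate (Set.range L) x p) : D x (g * x) = n + 2 * D x p := by
  have hq := line_gate_mul step hp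
  have hd : D p (g * p) = n := by
    obtain ⟨⟨i, rfl⟩, h⟩ := hp
    rw [step, iso]
    omega
  have hne : p ≠ g * p := by
    intro h
    rw [← h, D_self] at hd
    omega
  have h1 := hp.dist_eq (TT α) hq hne
  simp only [← D_eq] at h1
  have h2 : D (g * p) (g * x) = D x p := by rw [D_mul, D_symm]
  omega

private theorem core {g : FreeGroup α} {n : ℕ} {L : ℤ → FreeGroup α} (hn : 0 < n)
    (iso : ∀ i j : ℤ, D (L i) (L j) = (i - j).natAbs)
    (step : ∀ i : ℤ, g * L i = L (i + n)) : tl g = n ∧ Ax g = Set.range L := by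
  have hg : ∀ x, ∃ p, (TT α).IsGate (Set.range L) x p := fun x =>
    (TT α).exists_gate (line_convex iso) ⟨L 0, 0, rfl⟩ x
  have htl : tl g = n := by
    apply le_antisymm
    · have h := tl_le g (L 0)
      rw [step, iso] at h
      omega
    · unfold tl
      refine le_csInf ⟨_, 1, rfl⟩ ?_
      rintro _ ⟨x, rfl⟩
      obtain ⟨p, hp⟩ := hg x
      have := line_disp hn iso step hp
      show n ≤ D x (g * x)
      omega
  refine ⟨htl, ?_⟩
  ext x
  obtain ⟨p, hp⟩ := hg x
  have h1 := line_disp hn iso step hp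
  constructor
  · intro hx
    have hx' : D x (g * x) = tl g := hx
    have h0 : D x p = 0 := by omega
    rw [D_eq_zero h0]
    exact hp.1
  · intro hx
    have h2 := hp.of_mem (TT α) hx
    rw [h2, D_self] at h1
    show D x (g * x) = tl g
    omega

theorem exists_line {g : FreeGroup α} (hg : g ≠ 1) : ∃ L : ℤ → FreeGroup α, IsLine g L := by
  obtain ⟨n, L, hn, iso, step⟩ := exists_line_core hg
  obtain ⟨h1, h2⟩ := core hn iso step
  exact ⟨L, iso, by rw [h1]; exact step, h2.symm⟩

theorem tl_pos {g : FreeGroup α} (hg : g ≠ 1) : 0 < tl g := by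
  obtain ⟨n, L, hn, iso, step⟩ := exists_line_core hg
  rw [(core hn iso step).1]
  exact hn

private theorem tl_one : tl (1 : FreeGroup α) = 0 := by
  have h := tl_le (1 : FreeGroup α) 1
  rw [one_mul, D_self] at h
  omega

private theorem mem_Ax_one (x : FreeGroup α) : x ∈ Ax (1 : FreeGroup α) := by
  show D x (1 * x) = tl 1
  rw [one_mul, D_self, tl_one]

theorem convex_Ax (g : FreeGroup α) : (TT α).Convex (Ax g) := by
  by_cases hg : g = 1
  · subst hg
    intro x _ y _ z _
    exact mem_Ax_one z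
  · obtain ⟨L, hL⟩ := exists_line hg
    rw [← hL.range]
    exact line_convex hL.iso

/-- the displacement formula -/
theorem disp_gate {g x p : FreeGroup α} (hg : g ≠ 1) (hp : (TT α).IsGate (Ax g) x p) :
    D x (g * x) = tl g + 2 * D x p := by
  obtain ⟨L, hL⟩ := exists_line hg
  rw [← hL.range] at hp
  exact line_disp (tl_pos hg) hL.iso hL.step hp

theorem tl_conj (f g : FreeGroup α) : tl (f * g * f⁻¹) = tl g := by
  unfold tl
  congr 1
  ext m
  constructor
  · rintro ⟨x, rfl⟩
    refine ⟨f⁻¹ * x, ?_⟩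
    show D (f⁻¹ * x) (g * (f⁻¹ * x)) = D x (f * g * f⁻¹ * x)
    rw [← D_mul f]
    congr 1 <;> group
  · rintro ⟨x, rfl⟩
    refine ⟨f * x, ?_⟩
    show D (f * x) (f * g * f⁻¹ * (f * x)) = D x (g * x)
    rw [← D_mul f x]
    congr 1; group

theorem mem_Ax_conj {f g x : FreeGroup α} : f * x ∈ Ax (f * g * f⁻¹) ↔ x ∈ Ax g := by
  show D (f * x) (f * g * f⁻¹ * (f * x)) = tl (f * g * f⁻¹) ↔ D x (g * x) = tl g
  rw [tl_conj, ← D_mul f x]
  have : f * g * f⁻¹ * (f * x) = f * (g * x) := by group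
  rw [this]

private theorem D_inv_mul (g x : FreeGroup α) : D x (g⁻¹ * x) = D x (g * x) := by
  rw [← D_mul g x (g⁻¹ * x), mul_inv_cancel_left, D_symm]

theorem tl_inv (g : FreeGroup α) : tl g⁻¹ = tl g := by
  unfold tl
  simp only [D_inv_mul]

theorem Ax_inv (g : FreeGroup α) : Ax g⁻¹ = Ax g := by
  unfold Ax
  simp only [D_inv_mul, tl_inv]

/-! ### lines -/

theorem IsLine.zpow {g : FreeGroup α} {L : ℤ → FreeGroup α} (h : IsLine g L) (n i : ℤ) :
    g ^ n * L i = L (i + n * tl g) := by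
  have hinv : ∀ i : ℤ, g⁻¹ * L i = L (i - tl g) := by
    intro i
    rw [inv_mul_eq_iff_eq_mul, h.step, sub_add_cancel]
  induction n using Int.induction_on with
  | zero => simp
  | succ n ih =>
    rw [zpow_add_one, (Commute.refl g).zpow_left n |>.eq, mul_assoc, ih, h.step]
    congr 1
    ring
  | pred n ih =>
    rw [zpow_sub_one, (Commute.refl g).zpow_left _ |>.inv_right |>.eq, mul_assoc, ih, hinv]
    congr 1
    ring

theorem IsLine.shift {g : FreeGroup α} {L : ℤ → FreeGroup α} (h : IsLine g L) (c : ℤ) :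
    IsLine g (fun i => L (i + c)) := by
  refine ⟨fun i j => ?_, fun i => ?_, ?_⟩
  · show D (L (i + c)) (L (j + c)) = (i - j).natAbs
    rw [h.iso]
    congr 1
    ring
  · show g * L (i + c) = L (i + tl g + c)
    rw [h.step]
    congr 1
    ring
  · rw [← h.range]
    ext x
    constructor
    · rintro ⟨i, rfl⟩
      exact ⟨i + c, rfl⟩
    · rintro ⟨i, rfl⟩
      exact ⟨i - c, by simp⟩

theorem IsLine.conj {g : FreeGroup α} {L : ℤ → FreeGroup α} (h : IsLine g L)
    (f : FreeGroup α) : IsLine (f * g * f⁻¹) (fun i => f * L i) := by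
  refine ⟨fun i j => ?_, fun i => ?_, ?_⟩
  · show D (f * L i) (f * L j) = (i - j).natAbs
    rw [D_mul, h.iso]
  · show f * g * f⁻¹ * (f * L i) = f * L (i + tl (f * g * f⁻¹))
    rw [tl_conj, ← h.step]
    group
  · ext x
    constructor
    · rintro ⟨i, rfl⟩
      show f * L i ∈ _
      rw [mem_Ax_conj, ← h.range]
      exact ⟨i, rfl⟩
    · intro hx
      have h1 : f * (f⁻¹ * x) ∈ Ax (f * g * f⁻¹) := by rwa [mul_inv_cancel_left]
      rw [mem_Ax_conj, ← h.range] at h1
      obtain ⟨i, hi⟩ := h1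
      exact ⟨i, by show f * L i = x; rw [hi, mul_inv_cancel_left]⟩

theorem IsLine.mem {g : FreeGroup α} {L : ℤ → FreeGroup α} (h : IsLine g L) (i : ℤ) :
    L i ∈ Ax g := by
  rw [← h.range]
  exact ⟨i, rfl⟩

theorem IsLine.inj {g : FreeGroup α} {L : ℤ → FreeGroup α} (h : IsLine g L) {i j : ℤ}
    (hij : L i = L j) : i = j := by
  have h1 := h.iso i j
  rw [hij, D_self] at h1
  omega

theorem IsLine.inv {g : FreeGroup α} {L : ℤ → FreeGroup α} (h : IsLine g L) :
    IsLine g⁻¹ (fun i => L (-i)) := by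
  refine ⟨fun i j => ?_, fun i => ?_, ?_⟩
  · show D (L (-i)) (L (-j)) = (i - j).natAbs
    rw [h.iso]
    omega
  · show g⁻¹ * L (-i) = L (-(i + tl g⁻¹))
    rw [tl_inv]
    have h1 := h.zpow (-1) (-i)
    rw [zpow_neg_one] at h1
    rw [h1]
    congr 1
    ring
  · rw [Ax_inv, ← h.range]
    ext x
    constructor
    · rintro ⟨i, rfl⟩
      exact ⟨-i, rfl⟩
    · rintro ⟨i, rfl⟩
      exact ⟨-i, by simp⟩

/-- two lines with the same range differ by a shift and possibly a reflection -/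
theorem line_unique {g h : FreeGroup α} {L L' : ℤ → FreeGroup α} (hL : IsLine g L)
    (hL' : IsLine h L') (hr : Ax g = Ax h) :
    ∃ c : ℤ, (∀ i, L' i = L (i + c)) ∨ (∀ i, L' i = L (c - i)) := by
  have h1 : ∀ i, ∃ j, L' i = L j := by
    intro i
    have h2 := hL'.mem i
    rw [← hr, ← hL.range] at h2
    obtain ⟨j, hj⟩ := h2
    exact ⟨j, hj.symm⟩
  choose f hf using h1
  have hiso : ∀ i j, (f i - f j).natAbs = (i - j).natAbs := by
    intro i j
    rw [← hL.iso, ← hf, ← hf, hL'.iso]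
  refine ⟨f 0, ?_⟩
  have h01 := hiso 1 0
  rcases (show f 1 = f 0 + 1 ∨ f 1 = f 0 - 1 by omega) with h | h
  · left
    intro i
    rw [hf]
    congr 1
    have h2 := hiso i 0
    have h3 := hiso i 1
    omega
  · right
    intro i
    rw [hf]
    congr 1
    have h2 := hiso i 0
    have h3 := hiso i 1
    omega

/-- a vertex between two vertices of a line -/
theorem IsLine.between {g : FreeGroup α} {L : ℤ → FreeGroup α} (h : IsLine g L) {i j : ℤ}
    (hij : i ≤ j) {z : FreeGroup α} (hz : (TT α).B (L i) z (L j)) :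
    ∃ k, i ≤ k ∧ k ≤ j ∧ z = L k := line_between h.iso hij hz

/-! ### powers -/

private theorem zpow_core {g : FreeGroup α} (hg : g ≠ 1) {n : ℤ} (hn : n ≠ 0) :
    tl (g ^ n) = n.natAbs * tl g ∧ Ax (g ^ n) = Ax g := by
  obtain ⟨L, hL⟩ := exists_line hg
  have hpos := tl_pos hg
  rcases lt_or_gt_of_ne hn with h | h
  · have h1 := core (g := g ^ n) (n := n.natAbs * tl g) (L := fun i => L (-i))
      (Nat.mul_pos (by omega) hpos) (fun i j => hL.inv.iso i j) (fun i => by
        show g ^ n * L (-i) = L (-(i + _))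
        rw [hL.zpow]
        congr 1
        push_cast
        rw [abs_of_neg h]
        ring)
    refine ⟨h1.1, h1.2.trans ?_⟩
    rw [hL.inv.range, Ax_inv]
  · have h1 := core (g := g ^ n) (n := n.natAbs * tl g) (L := L)
      (Nat.mul_pos (by omega) hpos) hL.iso (fun i => by
        rw [hL.zpow]
        congr 1
        push_cast
        rw [abs_of_pos h])
    exact ⟨h1.1, h1.2.trans hL.range⟩

theorem tl_zpow (g : FreeGroup α) (n : ℤ) : tl (g ^ n) = n.natAbs * tl g := by
  by_cases hg : g = 1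
  · subst hg
    rw [one_zpow, tl_one, mul_zero]
  by_cases hn : n = 0
  · subst hn
    rw [zpow_zero, tl_one]
    simp
  · exact (zpow_core hg hn).1

theorem tl_pow (g : FreeGroup α) (n : ℕ) : tl (g ^ n) = n * tl g := by
  have := tl_zpow g n
  rwa [zpow_natCast, Int.natAbs_natCast] at this

private theorem Ax_zpow (g : FreeGroup α) {n : ℤ} (hn : n ≠ 0) : Ax (g ^ n) = Ax g := by
  by_cases hg : g = 1
  · subst hg
    rw [one_zpow]
  · exact (zpow_core hg hn).2

theorem Ax_pow (g : FreeGroup α) {n : ℕ} (hn : n ≠ 0) : Ax (g ^ n) = Ax g := by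
  have := Ax_zpow g (n := n) (by exact_mod_cast hn)
  rwa [zpow_natCast] at this

theorem zpow_mem_Ax {g x : FreeGroup α} (hx : x ∈ Ax g) (n : ℤ) : g ^ n * x ∈ Ax g := by
  show D (g ^ n * x) (g * (g ^ n * x)) = tl g
  rw [← mul_assoc, ← ((Commute.refl g).zpow_left n).eq, mul_assoc, D_mul]
  exact hx

theorem D_zpow {g x : FreeGroup α} (hx : x ∈ Ax g) (n : ℤ) :
    D x (g ^ n * x) = n.natAbs * tl g := by
  by_cases hn : n = 0
  · subst hn
    rw [zpow_zero, one_mul, D_self]
    simp
  · rw [← tl_zpow]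
    have h : x ∈ Ax (g ^ n) := by rwa [Ax_zpow g hn]
    exact h

private theorem gate_zpow {g x p : FreeGroup α} (hp : (TT α).IsGate (Ax g) x p) (n : ℤ) :
    (TT α).IsGate (Ax g) (g ^ n * x) (g ^ n * p) := by
  refine ⟨zpow_mem_Ax hp.1 n, fun c hc => ?_⟩
  have h1 := hp.2 (g ^ (-n) * c) (zpow_mem_Ax hc (-n))
  rw [← B_mul_iff (g ^ n)] at h1
  rwa [← mul_assoc (g ^ n), ← zpow_add, add_neg_cancel, zpow_zero, one_mul] at h1

/-- criterion for lying on the axis -/
theorem mem_Ax_of_two {g x : FreeGroup α} (h : D x (g * (g * x)) = 2 * D x (g * x)) :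
    x ∈ Ax g := by
  by_cases hg : g = 1
  · subst hg
    exact mem_Ax_one x
  obtain ⟨p, hp⟩ := (TT α).exists_gate (convex_Ax g) (Ax_nonempty g) x
  have h1 := disp_gate hg hp
  have h2 : g ^ 2 ≠ 1 := by
    intro h3
    have h4 := tl_pow g 2
    rw [h3, tl_one] at h4
    have := tl_pos hg
    omega
  have h5 := disp_gate h2 (x := x) (p := p) (by rwa [Ax_pow g two_ne_zero])
  rw [tl_pow, pow_two, mul_assoc] at h5
  have h0 : D x p = 0 := by omega
  rw [D_eq_zero h0]
  exact hp.1

/-- an invariant convex set contains the axis -/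
theorem Ax_subset_of_inv {g : FreeGroup α} (hg : g ≠ 1) {S : Set (FreeGroup α)}
    (hS : (TT α).Convex S) (hne : S.Nonempty) (h1 : ∀ x ∈ S, g * x ∈ S)
    (h2 : ∀ x ∈ S, g⁻¹ * x ∈ S) : Ax g ⊆ S := by
  obtain ⟨x, hx⟩ := hne
  obtain ⟨L, hL⟩ := exists_line hg
  have hpos := tl_pos hg
  obtain ⟨p, hp⟩ := (TT α).exists_gate (convex_Ax g) (Ax_nonempty g) x
  have hpow : ∀ n : ℕ, g ^ n * x ∈ S ∧ (g⁻¹) ^ n * x ∈ S := by
    intro n
    induction n with
    | zero => simpa using hx
    | succ n ih =>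
      constructor
      · rw [pow_succ', mul_assoc]
        exact h1 _ ih.1
      · rw [pow_succ', mul_assoc]
        exact h2 _ ih.2
  obtain ⟨i, hi⟩ : ∃ i, L i = p := by
    have := hp.1
    rwa [← hL.range] at this
  intro y hy
  obtain ⟨j, hj⟩ : ∃ j, L j = y := by rwa [← hL.range] at hy
  set n : ℕ := (j - i).natAbs + 1 with hn
  have hx1 : g ^ (n : ℤ) * x ∈ S := by
    rw [zpow_natCast]; exact (hpow n).1
  have hx2 : g ^ (-(n : ℤ)) * x ∈ S := by
    have := (hpow n).2
    rwa [inv_pow, ← zpow_natCast, ← zpow_neg] at this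
  have g1 := gate_zpow hp (n : ℤ)
  have g2 := gate_zpow hp (-(n : ℤ))
  rw [← hi, hL.zpow] at g1 g2
  have hnt : ((j - i).natAbs : ℤ) + 1 ≤ (n : ℤ) * tl g := by
    have h3 : (1 : ℤ) ≤ tl g := by exact_mod_cast hpos
    have hn0 : (0 : ℤ) ≤ n := Int.natCast_nonneg _
    have hn1 : (n : ℤ) = ((j - i).natAbs : ℤ) + 1 := by exact_mod_cast hn
    have h4 : (n : ℤ) * 1 ≤ (n : ℤ) * tl g := mul_le_mul_of_nonneg_left h3 hn0
    linarith
  have hne' : L (i + -(n : ℤ) * tl g) ≠ L (i + (n : ℤ) * tl g) := by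
    intro h
    have := hL.inj h
    nlinarith
  obtain ⟨b1, b2⟩ := g2.between (TT α) g1 hne'
  have m1 := hS _ hx2 _ hx1 _ b1
  have m2 := hS _ hx2 _ hx1 _ b2
  rw [← hj]
  refine hS _ m1 _ m2 _ ?_
  show D _ _ + D _ _ = D _ _
  rw [hL.iso, hL.iso, hL.iso]
  rw [neg_mul]
  generalize (n : ℤ) * tl g = w at *
  omega

/-- points at distance at least `D x (Ax g)` from both ends of `[x, g ^ n x]` are on the axis. -/
theorem mem_Ax_between {g x p z : FreeGroup α} (hg : g ≠ 1) (hp : (TT α).IsGate (Ax g) x p)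
    (n : ℤ) (hz : (TT α).B x z (g ^ n * x)) (h1 : D x p ≤ D x z)
    (h2 : D x p ≤ D z (g ^ n * x)) (hn : n ≠ 0) : z ∈ Ax g := by
  have hq := gate_zpow hp n
  have hd : D (g ^ n * p) (g ^ n * x) = D x p := by rw [D_mul, D_symm]
  rcases (TT α).B_or hz p with hb | hb
  · have hb' : D x z + D z p = D x p := hb
    have : D z p = 0 := by omega
    rw [D_eq_zero this]
    exact hp.1
  · rcases (TT α).B_or hb (g ^ n * p) with hc | hc
    · exact convex_Ax g _ hp.1 _ hq.1 _ hc
    · have hc' : D (g ^ n * p) z + D z (g ^ n * x) = D (g ^ n * p) (g ^ n * x) := hc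
      have : D (g ^ n * p) z = 0 := by omega
      rw [← D_eq_zero this]
      exact hq.1

theorem D_zpow_gate {g x p : FreeGroup α} (hg : g ≠ 1) (hp : (TT α).IsGate (Ax g) x p)
    {n : ℤ} (hn : n ≠ 0) : D x (g ^ n * x) = n.natAbs * tl g + 2 * D x p := by
  have h2 : g ^ n ≠ 1 := by
    intro h3
    have h4 := tl_zpow g n
    rw [h3, tl_one] at h4
    have := tl_pos hg
    have h5 : n.natAbs = 0 ∨ tl g = 0 := by
      rcases Nat.eq_zero_or_pos n.natAbs with h | h
      · exact Or.inl h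
      · right
        exact (Nat.mul_eq_zero.1 h4.symm).resolve_left (by omega)
    omega
  rw [disp_gate h2 (x := x) (p := p) (by rwa [Ax_zpow g hn]), tl_zpow]

end Pool.Agent.H28.UE
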