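import Pool.Agent.H28.UE.Defs

set_option autoImplicit false

/-!
JOB UE-AX1 (the periodic line of an element of a free group).

Write `g = c * g0 * c⁻¹` with `g0` cyclically reduced (`FreeGroup.reduceCyclically`), with reduced
word `W` of length `n ≥ 1` (`W ++ W ++ ... ++ W` is reduced). Put
`pt i = g0 ^ (i / n) * mk (W.take (i % n).toNat)` (`i : ℤ`) and `L i = c * pt i`.
`D (pt i) (pt j) = |i - j|`: after translating by a power of `g0` and exchanging `i` and `j` we may
assume `0 ≤ i < n`, `i ≤ j`; then `(pt i)⁻¹ * pt j = mk` of the sublist of `W ++ W ++ ... ++ W`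
from position `i` to position `j`, which is reduced (`norm_mk_of_reduced`).
-/

namespace Pool.Agent.H28.UE

variable {α : Type*} [DecidableEq α]

open FreeGroup in
/-- A segment of a biinfinite sequence of letters. -/
def axcSeg (w : ℤ → α × Bool) : ℕ → ℤ → List (α × Bool)
  | 0, _ => []
  | k + 1, i => w i :: axcSeg w k (i + 1)

omit [DecidableEq α] in
theorem axcSeg_length (w : ℤ → α × Bool) : ∀ (k : ℕ) (i : ℤ), (axcSeg w k i).length = k
  | 0, _ => rfl
  | k + 1, i => by rw [axcSeg, List.length_cons, axcSeg_length w k (i + 1)]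

omit [DecidableEq α] in
theorem axcSeg_reduced (w : ℤ → α × Bool) (h : ∀ i, (w i).1 = (w (i + 1)).1 →
    (w i).2 = (w (i + 1)).2) : ∀ (k : ℕ) (i : ℤ), FreeGroup.IsReduced (axcSeg w k i)
  | 0, _ => by
    unfold FreeGroup.IsReduced axcSeg
    exact List.isChain_nil
  | k + 1, i => by
    have ih := axcSeg_reduced w h k (i + 1)
    unfold FreeGroup.IsReduced at *
    rw [axcSeg, List.isChain_cons]
    refine ⟨?_, ih⟩
    intro y hy
    rcases k with _ | k
    · simp [axcSeg] at hy
    · simp only [axcSeg, List.head?_cons, Option.mem_def, Option.some.injEq] at hy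
      subst hy
      exact h i

theorem axc_of_step (w : ℤ → α × Bool) (h : ∀ i, (w i).1 = (w (i + 1)).1 →
    (w i).2 = (w (i + 1)).2) (L : ℤ → FreeGroup α)
    (hL : ∀ i, L (i + 1) = L i * FreeGroup.mk [w i]) (i j : ℤ) :
    D (L i) (L j) = (i - j).natAbs := by
  have h1 : ∀ (k : ℕ) (i : ℤ), L (i + k) = L i * FreeGroup.mk (axcSeg w k i) := by
    intro k
    induction k with
    | zero =>
      intro i
      rw [axcSeg, ← FreeGroup.one_eq_mk]
      simp
    | succ k ih =>
      intro i
      have e : i + ((k + 1 : ℕ) : ℤ) = (i + 1) + k := by push_cast; ring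
      rw [e, ih (i + 1), hL i, axcSeg, mul_assoc, FreeGroup.mul_mk]
      rfl
  have h2 : ∀ (k : ℕ) (i : ℤ), D (L i) (L (i + k)) = k := by
    intro k i
    rw [h1, D, inv_mul_cancel_left, norm_mk_of_reduced (axcSeg_reduced w h k i), axcSeg_length]
  rcases le_total i j with hij | hij
  · obtain ⟨k, rfl⟩ := Int.le.dest hij
    rw [h2]
    omega
  · obtain ⟨k, rfl⟩ := Int.le.dest hij
    rw [D_symm, h2]
    omega

/-- The reduced word of an element of minimal length in its conjugacy class is cyclically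
reduced. -/
theorem axc_cyclic {g : FreeGroup α} (hmin : ∀ x : FreeGroup α, g.norm ≤ (x⁻¹ * g * x).norm)
    (hn : 0 < g.toWord.length) :
    (g.toWord[g.toWord.length - 1]'(by omega)).1 = (g.toWord[0]'hn).1 →
    (g.toWord[g.toWord.length - 1]'(by omega)).2 = (g.toWord[0]'hn).2 := by
  intro h1
  by_contra h2
  rcases hW : g.toWord with _ | ⟨a, M⟩
  · rw [hW] at hn
    simp at hn
  · rcases List.eq_nil_or_concat M with rfl | ⟨M', b, rfl⟩
    · simp [hW] at h2
    · rw [List.concat_eq_append] at hW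
      simp only [hW] at h1 h2
      simp only [List.length_cons, List.length_append, List.length_nil] at h1 h2
      simp only [List.getElem_cons_zero] at h1 h2
      have hb : ∀ (h : M'.length + (0 + 1) + 1 - 1 < (a :: (M' ++ [b])).length),
          (a :: (M' ++ [b]))[M'.length + (0 + 1) + 1 - 1]'h = b := by
        intro h
        simp
      rw [hb] at h1 h2
      have hb2 : b = (a.1, !a.2) := by
        refine Prod.ext h1 ?_
        revert h2
        cases a.2 <;> cases b.2 <;> simp
      have hg : g = FreeGroup.mk [a] * FreeGroup.mk M' * (FreeGroup.mk [a])⁻¹ := by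
        rw [← FreeGroup.mk_toWord (x := g), hW, FreeGroup.inv_mk, FreeGroup.mul_mk,
          FreeGroup.mul_mk, hb2]
        simp [FreeGroup.invRev]
      have h3 := hmin (FreeGroup.mk [a])
      have h4 : (FreeGroup.mk [a])⁻¹ * g * FreeGroup.mk [a] = FreeGroup.mk M' := by
        rw [hg]; group
      rw [h4] at h3
      have h5 : (FreeGroup.mk M').norm ≤ M'.length := FreeGroup.norm_mk_le
      have h6 : g.norm = M'.length + 2 := by
        rw [FreeGroup.norm, hW]
        simp
      omega

theorem exists_line_core {g : FreeGroup α} (hg : g ≠ 1) :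
    ∃ (n : ℕ) (L : ℤ → FreeGroup α), 0 < n ∧ (∀ i j : ℤ, D (L i) (L j) = (i - j).natAbs) ∧
      ∀ i : ℤ, g * L i = L (i + n) := by
  obtain ⟨x, hx⟩ := Ax_nonempty g
  have hx' : ∀ y : FreeGroup α, (x⁻¹ * g * x).norm ≤ (y⁻¹ * g * y).norm := by
    intro y
    have h1 : D x (g * x) ≤ D y (g * y) := by
      rw [show D x (g * x) = tl g from hx]
      exact tl_le g y
    unfold D at h1
    rwa [← mul_assoc, ← mul_assoc] at h1
  set g0 : FreeGroup α := x⁻¹ * g * x with hg0
  have hgx : g * x = x * g0 := by rw [hg0]; group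
  have hmin : ∀ y : FreeGroup α, g0.norm ≤ (y⁻¹ * g0 * y).norm := by
    intro y
    have h1 := hx' (x * y)
    have e : (x * y)⁻¹ * g * (x * y) = y⁻¹ * g0 * y := by rw [hg0]; group
    rwa [e] at h1
  have hg01 : g0 ≠ 1 := by
    intro h
    apply hg
    have : g = x * g0 * x⁻¹ := by rw [hg0]; group
    rw [this, h]
    group
  set W := g0.toWord with hWdef
  have hn : 0 < W.length := by
    rw [List.length_pos_iff]
    intro h
    apply hg01
    exact FreeGroup.toWord_eq_nil_iff.1 h
  set n := W.length with hndef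
  have hcyc := axc_cyclic hmin hn
  have hred : FreeGroup.IsReduced W := FreeGroup.isReduced_toWord
  have hnZ : (0 : ℤ) < (n : ℤ) := by exact_mod_cast hn
  have hmodlt : ∀ i : ℤ, (i % n).toNat < W.length := by
    intro i
    have h1 := Int.emod_lt_of_pos i hnZ
    have h2 := Int.emod_nonneg i hnZ.ne'
    omega
  let w : ℤ → α × Bool := fun i => W[(i % n).toNat]'(hmodlt i)
  let L : ℤ → FreeGroup α := fun i => x * g0 ^ (i / n) * FreeGroup.mk (W.take (i % n).toNat)
  -- one step in the division
  have hdiv : ∀ i : ℤ, ((i % n).toNat + 1 < n ∧ (i + 1) / n = i / n ∧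
      ((i + 1) % n).toNat = (i % n).toNat + 1) ∨ ((i % n).toNat + 1 = n ∧ (i + 1) / n = i / n + 1 ∧
      ((i + 1) % n).toNat = 0) := by
    intro i
    have h1 := Int.emod_lt_of_pos i hnZ
    have h2 := Int.emod_nonneg i hnZ.ne'
    have h3 := Int.emod_add_mul_ediv i n
    by_cases h : (i % n).toNat + 1 < n
    · left
      have e : i + 1 = (i % n + 1) + n * (i / n) := by omega
      have h4 : (i % n + 1) / (n : ℤ) = 0 := Int.ediv_eq_zero_of_lt (by omega) (by omega)
      have h5 : (i % n + 1) % (n : ℤ) = i % n + 1 := Int.emod_eq_of_lt (by omega) (by omega)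
      refine ⟨h, ?_, ?_⟩
      · rw [e, Int.add_mul_ediv_left _ _ hnZ.ne', h4, zero_add]
      · rw [e, Int.add_mul_emod_self_left, h5]
        omega
    · right
      have e : i + 1 = 0 + n * (i / n + 1) := by
        have : i % (n : ℤ) + 1 = n := by omega
        rw [mul_add]
        omega
      refine ⟨by omega, ?_, ?_⟩
      · rw [e, Int.add_mul_ediv_left _ _ hnZ.ne', Int.zero_ediv, zero_add]
      · rw [e, Int.add_mul_emod_self_left]
        simp
  have hw : ∀ i, (w i).1 = (w (i + 1)).1 → (w i).2 = (w (i + 1)).2 := by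
    intro i
    have key : ∀ (p q : ℕ) (hp : p < W.length) (hq : q < W.length),
        ((p + 1 < n ∧ q = p + 1) ∨ (p + 1 = n ∧ q = 0)) →
        (W[p]'hp).1 = (W[q]'hq).1 → (W[p]'hp).2 = (W[q]'hq).2 := by
      intro p q hp hq hpq
      rcases hpq with ⟨h1, rfl⟩ | ⟨h1, rfl⟩
      · unfold FreeGroup.IsReduced at hred
        rw [List.isChain_iff_getElem] at hred
        exact hred p hq
      · obtain rfl : p = W.length - 1 := by omega
        exact hcyc
    refine key _ _ (hmodlt i) (hmodlt (i + 1)) ?_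
    rcases hdiv i with ⟨h1, -, h3⟩ | ⟨h1, -, h3⟩
    · exact Or.inl ⟨h1, h3⟩
    · exact Or.inr ⟨h1, h3⟩
  have hL : ∀ i, L (i + 1) = L i * FreeGroup.mk [w i] := by
    intro i
    have hget : W.take ((i % n).toNat + 1) = W.take (i % n).toNat ++ [w i] := by
      rw [List.take_add_one, List.getElem?_eq_getElem (hmodlt i)]
      rfl
    rcases hdiv i with ⟨h1, h2, h3⟩ | ⟨h1, h2, h3⟩
    · show x * g0 ^ ((i + 1) / n) * FreeGroup.mk (W.take ((i + 1) % n).toNat) =
        x * g0 ^ (i / n) * FreeGroup.mk (W.take (i % n).toNat) * FreeGroup.mk [w i]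
      rw [h2, h3, hget, mul_assoc (x * g0 ^ (i / (n : ℤ))), FreeGroup.mul_mk]
    · show x * g0 ^ ((i + 1) / n) * FreeGroup.mk (W.take ((i + 1) % n).toNat) =
        x * g0 ^ (i / n) * FreeGroup.mk (W.take (i % n).toNat) * FreeGroup.mk [w i]
      rw [h2, h3, List.take_zero, ← FreeGroup.one_eq_mk, mul_one,
        mul_assoc (x * g0 ^ (i / (n : ℤ))), FreeGroup.mul_mk, ← hget, h1, hndef, List.take_length,
        hWdef, FreeGroup.mk_toWord, zpow_add_one, mul_assoc]
  refine ⟨n, L, hn, axc_of_step w hw L hL, ?_⟩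
  intro i
  have h2 : (i + n) / (n : ℤ) = 1 + i / n := by
    rw [Int.add_ediv_of_dvd_right (dvd_refl _), Int.ediv_self hnZ.ne', add_comm]
  have h3 : (i + n) % (n : ℤ) = i % n := Int.add_emod_right i n
  show g * (x * g0 ^ (i / n) * FreeGroup.mk (W.take (i % n).toNat)) =
    x * g0 ^ ((i + n) / n) * FreeGroup.mk (W.take ((i + n) % n).toNat)
  rw [h2, h3, zpow_one_add, ← mul_assoc g, ← mul_assoc g, hgx, mul_assoc x g0]

end Pool.Agent.H28.UE
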