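import Pool.Agent.H28.UE.Defs

set_option autoImplicit false

/-!
JOB UE-BO (a total order of a free group invariant under conjugation, by the Magnus expansion).

`V = List α → ℤ` (power series in noncommuting variables). For `a : α` let
`(T_a f) w = f w + (if w = a :: w' then f w' else 0)`  (left multiplication by `1 + a`) and
`(R_a f) w = f w + (if w = w' ++ [a] then f w' else 0)` (right multiplication by `1 + a`).
Both are bijections of `V`, every `T_a` commutes with every `R_b`, `T_a δ = R_a δ` for
`δ = indicator of []`.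
`ρ : FreeGroup α →* Equiv.Perm V` the extension of `T`, `μ g = ρ g δ`; then
`μ (g * h) = ρ g (μ h)` and `μ (g * a) = R_a (μ g)`.
Order on `V`: the lexicographic order `Pi.Lex` for the well order of `List α` that compares the
lengths first and then uses any well order. `T_a` and `R_a` (and their inverses) preserve it: at
the first word where `f` and `f'` differ the values of `T_a f` and `T_a f'` differ by the same
amount, because the correction terms only see strictly shorter words.
`lt g h := μ g < μ h`. Injectivity of `μ` (Magnus): if `g = a_1^{e_1} ⋯ a_k^{e_k}` with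
`a_i ≠ a_{i+1}`, `e_i ≠ 0`, then the coefficient of `μ g` at `[a_1, …, a_k]` is `e_1 ⋯ e_k`, and
the coefficients at words without two equal consecutive letters of length `> k` vanish (induction
on `k`, using `(ρ (a^e) f) (a :: w') = f (a :: w') + e * f w'` if `w'` does not start with `a`
and `(ρ (a^e) f) w = f w` if `w` does not start with `a`).
-/

namespace Pool.Agent.H28.UE

section bo

variable {α : Type*}

open Classical in
/-- Left multiplication by `(1 + a)⁻¹`. -/
noncomputable def bo_inv (a : α) (f : List α → ℤ) : List α → ℤ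
  | [] => f []
  | (b :: w) => f (b :: w) - if b = a then bo_inv a f w else 0

open Classical in
/-- Left multiplication by `1 + a`. -/
noncomputable def bo_left (a : α) (f : List α → ℤ) : List α → ℤ
  | [] => f []
  | (b :: w) => f (b :: w) + if b = a then f w else 0

open Classical in
/-- Right multiplication by `1 + b`. -/
noncomputable def bo_R (b : α) (f : List α → ℤ) (w : List α) : ℤ :=
  f w + if w.getLast? = some b then f w.dropLast else 0

theorem bo_left_inv (a : α) (f : List α → ℤ) : bo_inv a (bo_left a f) = f := by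
  funext w
  induction w with
  | nil => rfl
  | cons b w ih =>
    simp only [bo_inv, bo_left, ih]
    split_ifs <;> ring

theorem bo_right_inv (a : α) (f : List α → ℤ) : bo_left a (bo_inv a f) = f := by
  funext w
  cases w with
  | nil => rfl
  | cons b w =>
    simp only [bo_inv, bo_left]
    split_ifs <;> ring

theorem bo_left_add (a : α) (f g : List α → ℤ) :
    bo_left a (f + g) = bo_left a f + bo_left a g := by
  funext w
  cases w with
  | nil => rfl
  | cons b w =>
    simp only [bo_left, Pi.add_apply]
    split_ifs <;> ring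

theorem bo_left_smul (a : α) (c : ℤ) (f : List α → ℤ) :
    bo_left a (c • f) = c • bo_left a f := by
  funext w
  cases w with
  | nil => rfl
  | cons b w =>
    simp only [bo_left, Pi.smul_apply, smul_eq_mul]
    split_ifs <;> ring

/-- Left multiplication by `1 + a` as a linear automorphism. -/
noncomputable def bo_T (a : α) : (List α → ℤ) ≃ₗ[ℤ] (List α → ℤ) where
  toFun := bo_left a
  invFun := bo_inv a
  left_inv := bo_left_inv a
  right_inv := bo_right_inv a
  map_add' := bo_left_add a
  map_smul' := fun c f => bo_left_smul a c f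

/-- The Magnus representation. -/
noncomputable def bo_rho (α : Type*) : FreeGroup α →* ((List α → ℤ) ≃ₗ[ℤ] (List α → ℤ)) :=
  FreeGroup.lift bo_T

/-- The unit series. -/
def bo_one (α : Type*) : List α → ℤ
  | [] => 1
  | (_ :: _) => 0

theorem bo_rho_of (a : α) (f : List α → ℤ) : bo_rho α (FreeGroup.of a) f = bo_left a f := by
  simp only [bo_rho, FreeGroup.lift_apply_of]
  rfl

theorem bo_rho_inv (a : α) (f : List α → ℤ) : bo_rho α (FreeGroup.of a)⁻¹ f = bo_inv a f := by
  rw [map_inv]
  simp only [bo_rho, FreeGroup.lift_apply_of]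
  rfl

theorem bo_rho_mul (g h : FreeGroup α) (f : List α → ℤ) :
    bo_rho α (g * h) f = bo_rho α g (bo_rho α h f) := by
  rw [map_mul]
  rfl

/-- The Magnus expansion. -/
noncomputable def bo_mu (g : FreeGroup α) : List α → ℤ := bo_rho α g (bo_one α)

theorem bo_mu_mul (g h : FreeGroup α) : bo_mu (g * h) = bo_rho α g (bo_mu h) := by
  rw [bo_mu, bo_rho_mul, bo_mu]

theorem bo_comm_left (a b : α) (f : List α → ℤ) :
    bo_left a (bo_R b f) = bo_R b (bo_left a f) := by
  classical
  funext w
  cases w with
  | nil => simp [bo_left, bo_R]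
  | cons c u =>
    rcases List.eq_nil_or_concat u with rfl | ⟨v, d, hv⟩
    · simp only [bo_left, bo_R, List.getLast?_singleton, List.dropLast_singleton, List.getLast?_nil]
      split_ifs <;> simp_all <;> ring
    · rw [List.concat_eq_append] at hv
      subst hv
      have e1 : (c :: (v ++ [d])).getLast? = some d := by
        rw [← List.cons_append, List.getLast?_concat]
      have e2 : (c :: (v ++ [d])).dropLast = c :: v := by
        rw [← List.cons_append, List.dropLast_concat]
      have e3 : (v ++ [d]).getLast? = some d := List.getLast?_concat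
      have e4 : (v ++ [d]).dropLast = v := List.dropLast_concat
      simp only [bo_left, bo_R, e1, e2, e3, e4, Option.some.injEq]
      split_ifs <;> ring

theorem bo_comm_inv (a b : α) (f : List α → ℤ) :
    bo_inv a (bo_R b f) = bo_R b (bo_inv a f) := by
  have h := bo_comm_left a b (bo_inv a f)
  rw [bo_right_inv] at h
  rw [← h, bo_left_inv]

theorem bo_comm (g : FreeGroup α) (b : α) : ∀ f : List α → ℤ,
    bo_rho α g (bo_R b f) = bo_R b (bo_rho α g f) := by
  induction g using FreeGroup.induction_on with
  | C1 => intro f; simp [map_one]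
  | of a => intro f; rw [bo_rho_of, bo_rho_of, bo_comm_left]
  | inv_of a _ => intro f; rw [bo_rho_inv, bo_rho_inv, bo_comm_inv]
  | mul g h ih1 ih2 => intro f; rw [bo_rho_mul, bo_rho_mul, ih2, ih1]

theorem bo_one_comm (b : α) : bo_left b (bo_one α) = bo_R b (bo_one α) := by
  classical
  funext w
  cases w with
  | nil => simp [bo_left, bo_R, bo_one]
  | cons c u =>
    rcases List.eq_nil_or_concat u with rfl | ⟨v, d, hv⟩
    · simp [bo_left, bo_R, bo_one, Option.some.injEq]
    · rw [List.concat_eq_append] at hv
      subst hv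
      have e2 : (c :: (v ++ [d])).dropLast = c :: v := by
        rw [← List.cons_append, List.dropLast_concat]
      have e5 : bo_one α (v ++ [d]) = 0 := by
        cases v <;> rfl
      simp only [bo_left, bo_R, e2, e5]
      simp [bo_one]

theorem bo_mu_mul_of (g : FreeGroup α) (b : α) : bo_mu (g * FreeGroup.of b) = bo_R b (bo_mu g) := by
  rw [bo_mu_mul, bo_mu, bo_rho_of, bo_one_comm, bo_comm, ← bo_mu]

/-- The order of the words. -/
def bo_wlt (u v : List α) : Prop :=
  u.length < v.length ∨ (u.length = v.length ∧ WellOrderingRel u v)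

theorem bo_wlt_wf : WellFounded (bo_wlt (α := α)) := by
  have h : WellFounded (Prod.Lex (fun a b : ℕ => a < b) (WellOrderingRel (α := List α))) :=
    WellFounded.prod_lex wellFounded_lt WellOrderingRel.isWellOrder.wf
  refine Subrelation.wf ?_ (InvImage.wf (fun u : List α => (u.length, u)) h)
  intro u v huv
  rcases huv with h1 | ⟨h1, h2⟩
  · exact Prod.Lex.left _ _ h1
  · show Prod.Lex _ _ (u.length, u) (v.length, v)
    rw [h1]
    exact Prod.Lex.right _ h2

theorem bo_wlt_tri (u v : List α) : bo_wlt u v ∨ u = v ∨ bo_wlt v u := by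
  rcases lt_trichotomy u.length v.length with h | h | h
  · exact Or.inl (Or.inl h)
  · rcases trichotomous_of (WellOrderingRel (α := List α)) u v with h2 | h2 | h2
    · exact Or.inl (Or.inr ⟨h, h2⟩)
    · exact Or.inr (Or.inl h2)
    · exact Or.inr (Or.inr (Or.inr ⟨h.symm, h2⟩))
  · exact Or.inr (Or.inr (Or.inl h))

theorem bo_wlt_trans {u v w : List α} (h1 : bo_wlt u v) (h2 : bo_wlt v w) : bo_wlt u w := by
  rcases h1 with h1 | ⟨h1, h1'⟩ <;> rcases h2 with h2 | ⟨h2, h2'⟩
  · exact Or.inl (by omega)
  · exact Or.inl (by omega)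
  · exact Or.inl (by omega)
  · exact Or.inr ⟨by omega, _root_.trans h1' h2'⟩

theorem bo_wlt_irrefl (u : List α) : ¬ bo_wlt u u := by
  rintro (h | ⟨_, h⟩)
  · omega
  · exact irrefl _ h

/-- Positive leading coefficient. -/
def bo_pos (h : List α → ℤ) : Prop := ∃ w, 0 < h w ∧ ∀ u, bo_wlt u w → h u = 0

theorem bo_pos_or (h : List α → ℤ) (hh : h ≠ 0) : bo_pos h ∨ bo_pos (-h) := by
  have hne : {w : List α | h w ≠ 0}.Nonempty := by
    by_contra hcon
    rw [Set.not_nonempty_iff_eq_empty] at hcon
    apply hh
    funext w
    by_contra hw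
    have : w ∈ {w : List α | h w ≠ 0} := hw
    rw [hcon] at this
    exact this
  obtain ⟨w, hw, hmin⟩ := bo_wlt_wf.has_min _ hne
  have hz : ∀ u, bo_wlt u w → h u = 0 := by
    intro u hu
    by_contra hc
    exact hmin u hc hu
  rcases lt_or_gt_of_ne (show h w ≠ 0 from hw) with h1 | h1
  · right
    refine ⟨w, ?_, ?_⟩
    · simp only [Pi.neg_apply]; omega
    · intro u hu
      simp only [Pi.neg_apply, hz u hu, neg_zero]
  · left
    exact ⟨w, h1, hz⟩

theorem bo_pos_neg (h : List α → ℤ) (h1 : bo_pos h) (h2 : bo_pos (-h)) : False := by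
  obtain ⟨w, hw, hz⟩ := h1
  obtain ⟨w', hw', hz'⟩ := h2
  simp only [Pi.neg_apply] at hw' hz'
  rcases bo_wlt_tri w w' with h | h | h
  · have := hz' w h
    omega
  · subst h
    omega
  · have := hz w' h
    omega

theorem bo_pos_add (h h' : List α → ℤ) (h1 : bo_pos h) (h2 : bo_pos h') : bo_pos (h + h') := by
  obtain ⟨w, hw, hz⟩ := h1
  obtain ⟨w', hw', hz'⟩ := h2
  rcases bo_wlt_tri w w' with h | h | h
  · refine ⟨w, ?_, ?_⟩
    · simp only [Pi.add_apply, hz' w h]; omega
    · intro u hu
      simp only [Pi.add_apply, hz u hu, hz' u (bo_wlt_trans hu h), add_zero]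
  · subst h
    refine ⟨w, ?_, ?_⟩
    · simp only [Pi.add_apply]; omega
    · intro u hu
      simp only [Pi.add_apply, hz u hu, hz' u hu, add_zero]
  · refine ⟨w', ?_, ?_⟩
    · simp only [Pi.add_apply, hz w' h]; omega
    · intro u hu
      simp only [Pi.add_apply, hz' u hu, hz u (bo_wlt_trans hu h), add_zero]

theorem bo_pos_of (F : (List α → ℤ) → (List α → ℤ))
    (hF : ∀ h : List α → ℤ, ∀ w, (∀ u : List α, u.length < w.length → h u = 0) → F h w = h w)
    (h : List α → ℤ) (hp : bo_pos h) : bo_pos (F h) := by
  obtain ⟨w, hw, hz⟩ := hp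
  refine ⟨w, ?_, ?_⟩
  · rw [hF h w (fun u hu => hz u (Or.inl hu))]
    exact hw
  · intro u hu
    rw [hF h u ?_]
    · exact hz u hu
    · intro v hv
      apply hz
      exact bo_wlt_trans (Or.inl hv) hu

theorem bo_left_eq (a : α) (h : List α → ℤ) (w : List α)
    (hw : ∀ u : List α, u.length < w.length → h u = 0) : bo_left a h w = h w := by
  cases w with
  | nil => rfl
  | cons b w =>
    simp only [bo_left, hw w (by simp)]
    split_ifs <;> ring

theorem bo_inv_eq (a : α) (h : List α → ℤ) (w : List α)
    (hw : ∀ u : List α, u.length < w.length → h u = 0) : bo_inv a h w = h w := by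
  induction w with
  | nil => rfl
  | cons b w ih =>
    have h1 : bo_inv a h w = 0 := by
      rw [ih (fun u hu => hw u (by simp only [List.length_cons]; omega))]
      exact hw w (by simp)
    simp only [bo_inv, h1]
    split_ifs <;> ring

theorem bo_R_eq (a : α) (h : List α → ℤ) (w : List α)
    (hw : ∀ u : List α, u.length < w.length → h u = 0) : bo_R a h w = h w := by
  unfold bo_R
  split_ifs with h1
  · have hne : w ≠ [] := by
      rintro rfl
      simp at h1
    rw [hw w.dropLast ?_, add_zero]
    rw [List.length_dropLast]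
    have := List.length_pos_of_ne_nil hne
    omega
  · rw [add_zero]

theorem bo_pos_rho (g : FreeGroup α) : ∀ h : List α → ℤ, bo_pos h → bo_pos (bo_rho α g h) := by
  induction g using FreeGroup.induction_on with
  | C1 => intro h hh; simpa [map_one] using hh
  | of a =>
    intro h hh
    rw [bo_rho_of]
    exact bo_pos_of (bo_left a) (bo_left_eq a) h hh
  | inv_of a _ =>
    intro h hh
    rw [bo_rho_inv]
    exact bo_pos_of (bo_inv a) (bo_inv_eq a) h hh
  | mul g h ih1 ih2 =>
    intro f hf
    rw [bo_rho_mul]
    exact ih1 _ (ih2 _ hf)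

/-- The order. -/
def bo_lt (g h : FreeGroup α) : Prop := bo_pos (bo_mu h - bo_mu g)

theorem bo_R_sub (b : α) (f g : List α → ℤ) : bo_R b (f - g) = bo_R b f - bo_R b g := by
  funext w
  simp only [bo_R, Pi.sub_apply]
  split_ifs <;> ring

theorem bo_lt_left (x g h : FreeGroup α) (hh : bo_lt g h) : bo_lt (x * g) (x * h) := by
  unfold bo_lt at *
  rw [bo_mu_mul, bo_mu_mul, ← map_sub]
  exact bo_pos_rho x _ hh

theorem bo_lt_right_of (b : α) (g h : FreeGroup α) (hh : bo_lt g h) :
    bo_lt (g * FreeGroup.of b) (h * FreeGroup.of b) := by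
  unfold bo_lt at *
  rw [bo_mu_mul_of, bo_mu_mul_of, ← bo_R_sub]
  exact bo_pos_of (bo_R b) (bo_R_eq b) _ hh

/-- Words without two equal consecutive letters. -/
def bo_alt (w : List α) : Prop := w.IsChain (fun a b => a ≠ b)

/-- One letter. -/
noncomputable def bo_let (x : α × Bool) (f : List α → ℤ) : List α → ℤ :=
  cond x.2 (bo_left x.1 f) (bo_inv x.1 f)

/-- The sign. -/
def bo_sg (b : Bool) : ℤ := cond b 1 (-1)

theorem bo_sg_sq (b : Bool) : bo_sg b * bo_sg b = 1 := by cases b <;> rfl

theorem bo_inv_ne (a : α) (f : List α → ℤ) (w : List α) (h : w.head? ≠ some a) :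
    bo_inv a f w = f w := by
  cases w with
  | nil => rfl
  | cons b w =>
    have hb : b ≠ a := by
      rintro rfl
      simp at h
    simp [bo_inv, hb]

theorem bo_let_ne (x : α × Bool) (f : List α → ℤ) (w : List α) (h : w.head? ≠ some x.1) :
    bo_let x f w = f w := by
  obtain ⟨a, b⟩ := x
  cases b
  · exact bo_inv_ne a f w h
  · cases w with
    | nil => rfl
    | cons b w =>
      have hb : b ≠ a := by
        rintro rfl
        simp at h
      simp [bo_let, bo_left, hb]

theorem bo_let_cons (x : α × Bool) (f : List α → ℤ) (w : List α) (h : w.head? ≠ some x.1) :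
    bo_let x f (x.1 :: w) = f (x.1 :: w) + bo_sg x.2 * f w := by
  obtain ⟨a, b⟩ := x
  cases b
  · simp only [bo_let, bo_sg, cond_false, bo_inv]
    rw [bo_inv_ne a f w h]
    simp
    ring
  · simp only [bo_let, bo_sg, cond_true, bo_left]
    simp

theorem bo_alt_cons (a : α) (w : List α) (h : bo_alt w) (h1 : w.head? ≠ some a) :
    bo_alt (a :: w) := by
  cases w with
  | nil => exact List.isChain_singleton a
  | cons b w =>
    have hb : a ≠ b := by
      rintro rfl
      simp at h1
    exact List.isChain_cons_cons.2 ⟨hb, h⟩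

theorem bo_alt_tail {a : α} {w : List α} (h : bo_alt (a :: w)) : bo_alt w ∧ w.head? ≠ some a := by
  cases w with
  | nil => exact ⟨List.isChain_nil, by simp⟩
  | cons b w =>
    have h' := List.isChain_cons_cons.1 h
    refine ⟨h'.2, ?_⟩
    simp only [List.head?_cons, ne_eq, Option.some.injEq]
    exact fun e => h'.1 e.symm

theorem bo_magnus (L : List (α × Bool)) : ∀ x : α × Bool, FreeGroup.IsReduced (x :: L) →
    ∃ W : List α, bo_alt W ∧ W.head? ≠ some x.1 ∧
      0 < bo_sg x.2 * bo_rho α (FreeGroup.mk (x :: L)) (bo_one α) (x.1 :: W) *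
        bo_rho α (FreeGroup.mk (x :: L)) (bo_one α) W ∧
      (∀ w : List α, bo_alt w → W.length + 1 < w.length →
        bo_rho α (FreeGroup.mk (x :: L)) (bo_one α) w = 0) ∧
      (∀ w : List α, bo_alt w → W.length + 1 = w.length → w.head? ≠ some x.1 →
        bo_rho α (FreeGroup.mk (x :: L)) (bo_one α) w = 0) := by
  have key : ∀ (x : α × Bool) (L : List (α × Bool)) (f : List α → ℤ),
      bo_rho α (FreeGroup.mk (x :: L)) f = bo_let x (bo_rho α (FreeGroup.mk L) f) := by
    intro x L f
    have e : FreeGroup.mk (x :: L) = FreeGroup.mk [x] * FreeGroup.mk L := by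
      rw [FreeGroup.mul_mk]; rfl
    rw [e, bo_rho_mul]
    obtain ⟨a, b⟩ := x
    cases b
    · have e2 : FreeGroup.mk [(a, false)] = (FreeGroup.of a)⁻¹ := by
        simp [FreeGroup.of, FreeGroup.inv_mk, FreeGroup.invRev]
      rw [e2, bo_rho_inv]
      rfl
    · have e2 : FreeGroup.mk [(a, true)] = FreeGroup.of a := rfl
      rw [e2, bo_rho_of]
      rfl
  induction L with
  | nil =>
    intro x _
    refine ⟨[], List.isChain_nil, by simp, ?_, ?_, ?_⟩
    · rw [key]
      have e0 : bo_rho α (FreeGroup.mk []) (bo_one α) = bo_one α := by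
        rw [← FreeGroup.one_eq_mk, map_one]; rfl
      rw [e0, bo_let_cons _ _ _ (by simp), bo_let_ne _ _ _ (by simp)]
      simp only [bo_one, zero_add, mul_one]
      rw [bo_sg_sq]
      exact one_pos
    · intro w hw hlen
      rw [key]
      have e0 : bo_rho α (FreeGroup.mk []) (bo_one α) = bo_one α := by
        rw [← FreeGroup.one_eq_mk, map_one]; rfl
      rw [e0]
      cases w with
      | nil => simp at hlen
      | cons c w =>
        cases w with
        | nil => simp at hlen
        | cons d w =>
          by_cases hc : c = x.1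
          · subst hc
            rw [bo_let_cons _ _ _ (bo_alt_tail hw).2]
            simp [bo_one]
          · rw [bo_let_ne _ _ _ (by simpa using hc)]
            rfl
    · intro w hw hlen hhead
      rw [key, bo_let_ne _ _ _ hhead]
      have e0 : bo_rho α (FreeGroup.mk []) (bo_one α) = bo_one α := by
        rw [← FreeGroup.one_eq_mk, map_one]; rfl
      rw [e0]
      cases w with
      | nil => simp at hlen
      | cons c w => rfl
  | cons y L ih =>
    intro x hred
    have hred' := FreeGroup.isReduced_cons_cons.1 hred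
    obtain ⟨W, hW, hhead, hpos, hI1, hI2⟩ := ih y hred'.2
    generalize hf : bo_rho α (FreeGroup.mk (y :: L)) (bo_one α) = f at hpos hI1 hI2
    rw [key x (y :: L), hf]
    by_cases hxy : x.1 = y.1
    · have hxy2 := hred'.1 hxy
      refine ⟨W, hW, by rw [hxy]; exact hhead, ?_, ?_, ?_⟩
      · rw [bo_let_cons _ _ _ (by rw [hxy]; exact hhead),
          bo_let_ne _ _ _ (by rw [hxy]; exact hhead), hxy, hxy2]
        have h2 : f W ≠ 0 := by
          intro h0
          rw [h0, mul_zero] at hpos
          exact lt_irrefl _ hpos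
        have h3 : 0 < f W * f W := mul_self_pos.2 h2
        have h4 : bo_sg y.2 * (f (y.1 :: W) + bo_sg y.2 * f W) * f W =
            bo_sg y.2 * f (y.1 :: W) * f W + (bo_sg y.2 * bo_sg y.2) * (f W * f W) := by ring
        rw [h4, bo_sg_sq]
        linarith
      · intro w hw hlen
        by_cases hc : w.head? = some x.1
        · cases w with
          | nil => simp at hc
          | cons c w =>
            have hc' : c = x.1 := by simpa using hc
            subst hc'
            have ht := bo_alt_tail hw
            rw [bo_let_cons _ _ _ ht.2, hI1 _ hw hlen]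
            have h5 : f w = 0 := by
              simp only [List.length_cons] at hlen
              rcases Nat.lt_or_ge (W.length + 1) w.length with h6 | h6
              · exact hI1 w ht.1 h6
              · exact hI2 w ht.1 (by omega) (by rw [← hxy]; exact ht.2)
            rw [h5]
            ring
        · rw [bo_let_ne _ _ _ hc]
          exact hI1 w hw hlen
      · intro w hw hlen hh
        rw [bo_let_ne _ _ _ hh]
        exact hI2 w hw hlen (by rw [← hxy]; exact hh)
    · refine ⟨y.1 :: W, bo_alt_cons _ _ hW hhead, ?_, ?_, ?_, ?_⟩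
      · simp only [List.head?_cons, ne_eq, Option.some.injEq]
        exact fun e => hxy e.symm
      · have hh : (y.1 :: W).head? ≠ some x.1 := by
          simp only [List.head?_cons, ne_eq, Option.some.injEq]
          exact fun e => hxy e.symm
        have halt : bo_alt (x.1 :: y.1 :: W) :=
          bo_alt_cons _ _ (bo_alt_cons _ _ hW hhead) hh
        rw [bo_let_cons _ _ _ hh, bo_let_ne _ _ _ hh, hI1 _ halt (by simp)]
        have h2 : f (y.1 :: W) ≠ 0 := by
          intro h0
          rw [h0, mul_zero, zero_mul] at hpos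
          exact lt_irrefl _ hpos
        have h3 : 0 < f (y.1 :: W) * f (y.1 :: W) := mul_self_pos.2 h2
        have h4 : bo_sg x.2 * (0 + bo_sg x.2 * f (y.1 :: W)) * f (y.1 :: W) =
            (bo_sg x.2 * bo_sg x.2) * (f (y.1 :: W) * f (y.1 :: W)) := by ring
        rw [h4, bo_sg_sq]
        linarith
      · intro w hw hlen
        simp only [List.length_cons] at hlen
        by_cases hc : w.head? = some x.1
        · cases w with
          | nil => simp at hc
          | cons c w =>
            have hc' : c = x.1 := by simpa using hc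
            subst hc'
            have ht := bo_alt_tail hw
            simp only [List.length_cons] at hlen
            rw [bo_let_cons _ _ _ ht.2, hI1 _ hw (by simp only [List.length_cons]; omega),
              hI1 w ht.1 (by omega)]
            ring
        · rw [bo_let_ne _ _ _ hc]
          exact hI1 w hw (by omega)
      · intro w hw hlen hh
        rw [bo_let_ne _ _ _ hh]
        simp only [List.length_cons] at hlen
        exact hI1 w hw (by omega)

theorem bo_mu_one (g : FreeGroup α) (h : bo_mu g = bo_one α) : g = 1 := by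
  classical
  by_contra hg
  have hw : g.toWord ≠ [] := by
    intro h0
    exact hg (FreeGroup.toWord_eq_nil_iff.1 h0)
  obtain ⟨x, L, hL⟩ := List.exists_cons_of_ne_nil hw
  have hred : FreeGroup.IsReduced (x :: L) := by
    rw [← hL]
    exact FreeGroup.isReduced_toWord
  obtain ⟨W, _, _, hpos, _, _⟩ := bo_magnus L x hred
  have hg2 : FreeGroup.mk (x :: L) = g := by
    rw [← hL, FreeGroup.mk_toWord]
  rw [hg2] at hpos
  have h' : bo_rho α g (bo_one α) = bo_one α := h
  rw [h'] at hpos
  simp [bo_one] at hpos

theorem bo_mu_inj (g h : FreeGroup α) (e : bo_mu g = bo_mu h) : g = h := by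
  have h1 : bo_mu (h⁻¹ * g) = bo_one α := by
    rw [bo_mu_mul, e, ← bo_mu_mul]
    simp only [inv_mul_cancel, bo_mu, map_one]
    rfl
  have h2 := bo_mu_one _ h1
  have h3 : h⁻¹ * g = 1 := h2
  rw [inv_mul_eq_one] at h3
  exact h3.symm

theorem bo_total (g h : FreeGroup α) (hne : g ≠ h) : bo_lt g h ∨ bo_lt h g := by
  unfold bo_lt
  have h1 : bo_mu h - bo_mu g ≠ 0 := by
    intro h0
    apply hne
    apply bo_mu_inj
    exact (sub_eq_zero.1 h0).symm
  rcases bo_pos_or _ h1 with h2 | h2
  · exact Or.inl h2
  · right
    rwa [neg_sub] at h2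

theorem bo_irrefl (g : FreeGroup α) : ¬ bo_lt g g := by
  rintro ⟨w, hw, _⟩
  simp at hw

theorem bo_trans (a b c : FreeGroup α) (h1 : bo_lt a b) (h2 : bo_lt b c) : bo_lt a c := by
  unfold bo_lt at *
  have h := bo_pos_add _ _ h1 h2
  have e : bo_mu b - bo_mu a + (bo_mu c - bo_mu b) = bo_mu c - bo_mu a := by abel
  rwa [e] at h

theorem bo_lt_right (x : FreeGroup α) : ∀ g h : FreeGroup α, bo_lt g h → bo_lt (g * x) (h * x) := by
  induction x using FreeGroup.induction_on with
  | C1 => intro g h hh; simpa using hh
  | of a => intro g h hh; exact bo_lt_right_of a g h hh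
  | inv_of a _ =>
    intro g h hh
    have hne : g * (FreeGroup.of a)⁻¹ ≠ h * (FreeGroup.of a)⁻¹ := by
      intro e
      have e' := mul_right_cancel e
      rw [e'] at hh
      exact bo_irrefl _ hh
    rcases bo_total _ _ hne with h1 | h1
    · exact h1
    · exfalso
      have h2 := bo_lt_right_of a _ _ h1
      rw [inv_mul_cancel_right, inv_mul_cancel_right] at h2
      exact bo_irrefl _ (bo_trans _ _ _ hh h2)
  | mul x y ih1 ih2 =>
    intro g h hh
    rw [← mul_assoc, ← mul_assoc]
    exact ih2 _ _ (ih1 _ _ hh)

end bo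

theorem exists_cord (α : Type*) :
    ∃ lt : FreeGroup α → FreeGroup α → Prop, COrd (FreeGroup α) lt := by
  refine ⟨bo_lt, bo_irrefl, bo_trans, bo_total, ?_⟩
  intro a b x h
  exact bo_lt_right _ _ _ (bo_lt_left _ _ _ h)

end Pool.Agent.H28.UE
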