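import Pool.Agent.H28.UE.Broken

set_option autoImplicit false

/-!
The block structure of the axis of `σ = u ^ M v ^ M u ^ (2 M) v ^ (3 M)`.
-/

namespace Pool.Agent.H28.UE

variable {α : Type*} [DecidableEq α]

structure Blocks (M : ℕ) (u v σ : FreeGroup α) (L : ℤ → FreeGroup α) (t : ℤ → ℤ)
    (τ : ℤ → FreeGroup α) : Prop where
  ne_one : σ ≠ 1
  sigma : σ = u ^ M * v ^ M * u ^ (2 * M) * v ^ (3 * M)
  line : IsLine σ L
  nc : ¬ Commute u v
  pos_u : 0 < tl u
  pos_v : 0 < tl v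
  uv : tl u ≤ 3 * tl v
  vu : tl v ≤ 3 * tl u
  t4 : ∀ i, t (i + 4) = t i + tl σ
  tau4 : ∀ i, τ (i + 4) = σ * τ i * σ⁻¹
  tau0 : τ 0 = u
  tau1 : τ 1 = u ^ M * v * (u ^ M)⁻¹
  tau2 : τ 2 = (u ^ M * v ^ M) * u * (u ^ M * v ^ M)⁻¹
  tau3 : τ 3 = (u ^ M * v ^ M * u ^ (2 * M)) * v * (u ^ M * v ^ M * u ^ (2 * M))⁻¹
  tltau : ∀ i, tl (τ i) ≤ tl u + tl v
  nctau : ∀ i, ¬ Commute (τ i) (τ (i + 1))
  mem : ∀ i x, t i + 8 * (tl u + tl v : ℕ) ≤ x → x ≤ t (i + 1) - 8 * (tl u + tl v : ℕ) →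
    L x ∈ Ax (τ i)
  len0 : ∀ k, |t (4 * k + 1) - t (4 * k) - (M * tl u : ℕ)| ≤ 8 * (tl u + tl v : ℕ)
  len1 : ∀ k, |t (4 * k + 2) - t (4 * k + 1) - (M * tl v : ℕ)| ≤ 8 * (tl u + tl v : ℕ)
  len2 : ∀ k, |t (4 * k + 3) - t (4 * k + 2) - 2 * (M * tl u : ℕ)| ≤ 8 * (tl u + tl v : ℕ)
  len3 : ∀ k, |t (4 * k + 4) - t (4 * k + 3) - 3 * (M * tl v : ℕ)| ≤ 8 * (tl u + tl v : ℕ)

/-- corners are small -/
theorem bl_corner {g h o pg ph : FreeGroup α} (hnc : ¬ Commute g h) (hg : g ≠ 1) (hh : h ≠ 1)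
    (hpg : (TT α).IsGate (Ax g) o pg) (hph : (TT α).IsGate (Ax h) o ph) {c : ℕ}
    (hcg : D o pg ≤ c) (hch : D o ph ≤ c) {m n : ℤ}
    (hm : 2 * c + (tl g + tl h) ≤ m.natAbs * tl g) (hn : 2 * c + (tl g + tl h) ≤ n.natAbs * tl h) :
    D (g ^ m * o) o + D o (h ^ n * o) ≤ D (g ^ m * o) (h ^ n * o) + 2 * (c + (tl g + tl h)) := by
  have hg0 := tl_pos hg
  have hh0 := tl_pos hh
  have hm0 : m ≠ 0 := by
    rintro rfl
    simp at hm
    omega
  have hn0 : n ≠ 0 := by
    rintro rfl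
    simp at hn
    omega
  obtain ⟨z, hz1, hz2, hz3⟩ := (TT α).med (g ^ m * o) (h ^ n * o) o
  have e1 : ∀ x y : FreeGroup α, (TT α).d x y = D x y := fun _ _ => rfl
  simp only [e1] at hz1 hz2 hz3
  by_cases hlt : D o z < c + (tl g + tl h)
  · have s1 := D_symm o z
    have s2 := D_symm o (h ^ n * o)
    have s4 := D_symm z (h ^ n * o)
    omega
  · exfalso
    have hdg := D_zpow_gate hg hpg hm0
    have hdh := D_zpow_gate hh hph hn0
    obtain ⟨z2, h2a, h2b⟩ := (TT α).interp o z (c + (tl g + tl h)) (by rw [e1]; omega)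
    obtain ⟨z1, h1a, h1b⟩ := (TT α).interp o z2 c (by rw [h2a]; omega)
    simp only [e1] at h2a h2b h1a h1b
    have s1 := D_symm o z
    have s2 := D_symm o (h ^ n * o)
    have s3 := D_symm o (g ^ m * o)
    have s4 := D_symm z (h ^ n * o)
    have s5 := D_symm z (g ^ m * o)
    -- distances to the far ends
    have t1 := D_tri z2 z (g ^ m * o)
    have t2 := D_tri o z2 (g ^ m * o)
    have t3 := D_tri z2 z (h ^ n * o)
    have t4 := D_tri o z2 (h ^ n * o)
    have t5 := D_tri z1 z2 (g ^ m * o)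
    have t6 := D_tri o z1 (g ^ m * o)
    have t7 := D_tri z1 z2 (h ^ n * o)
    have t8 := D_tri o z1 (h ^ n * o)
    have a1 : z1 ∈ Ax g := mem_Ax_between hg hpg m (by unfold TreeDist.B; simp only [e1]; omega)
      (by omega) (by omega) hm0
    have a2 : z2 ∈ Ax g := mem_Ax_between hg hpg m (by unfold TreeDist.B; simp only [e1]; omega)
      (by omega) (by omega) hm0
    have a3 : z1 ∈ Ax h := mem_Ax_between hh hph n (by unfold TreeDist.B; simp only [e1]; omega)
      (by omega) (by omega) hn0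
    have a4 : z2 ∈ Ax h := mem_Ax_between hh hph n (by unfold TreeDist.B; simp only [e1]; omega)
      (by omega) (by omega) hn0
    exact hnc (commute_of_overlap a1 a3 a2 a4 (by omega))

/-- the letters -/
def bl_g (u v : FreeGroup α) (i : ℤ) : FreeGroup α := if i % 4 = 0 ∨ i % 4 = 2 then u else v

/-- the exponents -/
def bl_e (M : ℕ) (i : ℤ) : ℕ := if i % 4 = 2 then 2 * M else if i % 4 = 3 then 3 * M else M

/-- the partial products -/
def bl_w (M : ℕ) (u v : FreeGroup α) (i : ℤ) : FreeGroup α :=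
  if i % 4 = 0 then 1 else if i % 4 = 1 then u ^ M else if i % 4 = 2 then u ^ M * v ^ M else
    u ^ M * v ^ M * u ^ (2 * M)

/-- the product -/
def bl_s (M : ℕ) (u v : FreeGroup α) : FreeGroup α :=
  u ^ M * v ^ M * u ^ (2 * M) * v ^ (3 * M)

def bl_W (M : ℕ) (u v : FreeGroup α) (i : ℤ) : FreeGroup α :=
  bl_s M u v ^ (i / 4) * bl_w M u v i

theorem bl_W_four (M : ℕ) (u v : FreeGroup α) (i : ℤ) :
    bl_W M u v (i + 4) = bl_s M u v * bl_W M u v i := by
  unfold bl_W bl_w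
  have h1 : (i + 4) % 4 = i % 4 := by omega
  have h2 : (i + 4) / 4 = 1 + i / 4 := by omega
  rw [h1, h2, zpow_add, zpow_one, mul_assoc]

theorem bl_W_succ (M : ℕ) (u v : FreeGroup α) (i : ℤ) :
    bl_W M u v (i + 1) = bl_W M u v i * bl_g u v i ^ bl_e M i := by
  have h : i % 4 = 0 ∨ i % 4 = 1 ∨ i % 4 = 2 ∨ i % 4 = 3 := by omega
  unfold bl_W bl_w bl_g bl_e
  rcases h with h | h | h | h
  · have h1 : (i + 1) % 4 = 1 := by omega
    have h2 : (i + 1) / 4 = i / 4 := by omega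
    rw [h1, h2, h]
    norm_num
  · have h1 : (i + 1) % 4 = 2 := by omega
    have h2 : (i + 1) / 4 = i / 4 := by omega
    rw [h1, h2, h]
    norm_num [mul_assoc]
  · have h1 : (i + 1) % 4 = 3 := by omega
    have h2 : (i + 1) / 4 = i / 4 := by omega
    rw [h1, h2, h]
    norm_num [mul_assoc]
  · have h1 : (i + 1) % 4 = 0 := by omega
    have h2 : (i + 1) / 4 = i / 4 + 1 := by omega
    rw [h1, h2, h, zpow_add, zpow_one]
    norm_num [mul_assoc, bl_s]

theorem blocks_of {M : ℕ} (hM : 1000 ≤ M) {u v : FreeGroup α} (hnc : ¬ Commute u v)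
    (huv : tl u ≤ 3 * tl v) (hvu : tl v ≤ 3 * tl u) {o q : FreeGroup α} (ho : o ∈ Ax u)
    (hq : (TT α).IsGate (Ax v) o q) (hc : 2 * D o q ≤ 3 * tl u) :
    ∃ L t τ, Blocks M u v (u ^ M * v ^ M * u ^ (2 * M) * v ^ (3 * M)) L t τ := by
  have hu : u ≠ 1 := by rintro rfl; exact hnc (Commute.one_left v)
  have hv : v ≠ 1 := by rintro rfl; exact hnc (Commute.one_right u)
  have hu0 := tl_pos hu
  have hv0 := tl_pos hv
  let W := bl_W M u v
  let g := bl_g u v
  let e := bl_e M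
  let P : ℤ → FreeGroup α := fun i => W i * o
  let τ : ℤ → FreeGroup α := fun i => W i * g i * (W i)⁻¹
  set κ : ℕ := D o q + (tl u + tl v) with hκ
  -- facts about the letters
  have hgcase : ∀ i, (g i = u ∧ g (i + 1) = v) ∨ (g i = v ∧ g (i + 1) = u) := by
    intro i
    have h : i % 4 = 0 ∨ i % 4 = 1 ∨ i % 4 = 2 ∨ i % 4 = 3 := by omega
    simp only [g, bl_g]
    rcases h with h | h | h | h
    · have h1 : (i + 1) % 4 = 1 := by omega
      left; rw [h1, h]; norm_num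
    · have h1 : (i + 1) % 4 = 2 := by omega
      right; rw [h1, h]; norm_num
    · have h1 : (i + 1) % 4 = 3 := by omega
      left; rw [h1, h]; norm_num
    · have h1 : (i + 1) % 4 = 0 := by omega
      right; rw [h1, h]; norm_num
  have heM : ∀ i, M ≤ e i := by
    intro i
    simp only [e, bl_e]
    split_ifs <;> omega
  have hgu : (TT α).IsGate (Ax u) o o := ⟨ho, fun c _ => (TT α).B_left o c⟩
  have hgate : ∀ i, g i ≠ 1 ∧ ∃ p, (TT α).IsGate (Ax (g i)) o p ∧ D o p ≤ D o q := by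
    intro i
    rcases hgcase i with ⟨h, _⟩ | ⟨h, _⟩
    · rw [h]
      exact ⟨hu, o, hgu, by rw [D_self]; exact Nat.zero_le _⟩
    · rw [h]
      exact ⟨hv, q, hq, le_rfl⟩
  have htg : ∀ i, tl (g i) ≤ tl u + tl v ∧ tl u + tl v ≤ 4 * tl (g i) := by
    intro i
    rcases hgcase i with ⟨h, _⟩ | ⟨h, _⟩ <;> rw [h] <;> constructor <;> omega
  have hlong : ∀ i, 250 * (tl u + tl v) ≤ e i * tl (g i) := by
    intro i
    have h1 : 1000 * tl (g i) ≤ e i * tl (g i) :=
      Nat.mul_le_mul (hM.trans (heM i)) le_rfl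
    have := (htg i).2
    omega
  have hPsucc : ∀ i, P (i + 1) = τ i ^ (e i : ℤ) * P i := by
    intro i
    show W (i + 1) * o = (W i * g i * (W i)⁻¹) ^ (e i : ℤ) * (W i * o)
    rw [conj_zpow, zpow_natCast]
    show bl_W M u v (i + 1) * o = _
    rw [bl_W_succ]
    simp only [W, g, e]
    group
  have hdist : ∀ i, ∃ p, (TT α).IsGate (Ax (τ i)) (P i) p ∧ D (P i) p ≤ D o q ∧
      D (P i) (P (i + 1)) = e i * tl (g i) + 2 * D (P i) p := by
    intro i
    obtain ⟨hg1, p, hp, hpc⟩ := hgate i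
    have hp' : (TT α).IsGate (Ax (τ i)) (P i) (W i * p) := by
      refine ⟨mem_Ax_conj.mpr hp.1, fun c hc => ?_⟩
      have h1 : (W i)⁻¹ * c ∈ Ax (g i) := by
        rw [← mem_Ax_conj (f := W i)]
        rw [mul_inv_cancel_left]
        exact hc
      have h2 := (B_mul_iff (W i) o p ((W i)⁻¹ * c)).mpr (hp.2 _ h1)
      rwa [mul_inv_cancel_left] at h2
    have hd : D (P i) (W i * p) = D o p := D_mul _ _ _
    have he0 : (e i : ℤ) ≠ 0 := by
      have := heM i
      omega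
    have hτ1 : τ i ≠ 1 := by
      intro h
      apply hg1
      have : W i * g i * (W i)⁻¹ = 1 := h
      rw [mul_inv_eq_one] at this
      exact mul_eq_left.mp this
    refine ⟨_, hp', by rw [hd]; exact hpc, ?_⟩
    rw [hPsucc, D_zpow_gate hτ1 hp' he0, Int.natAbs_natCast]
    congr 2
    exact tl_conj _ _
  have hside : ∀ i, 2 * κ < D (P i) (P (i + 1)) := by
    intro i
    obtain ⟨p, _, _, h⟩ := hdist i
    have := hlong i
    omega
  have hcorner : ∀ i, D (P i) (P (i + 1)) + D (P (i + 1)) (P (i + 2)) ≤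
      D (P i) (P (i + 2)) + 2 * κ := by
    intro i
    have e2 : (i + 2 : ℤ) = (i + 1) + 1 := by ring
    have h1 : P i = W (i + 1) * (g i ^ (-(e i : ℤ)) * o) := by
      show W i * o = bl_W M u v (i + 1) * _
      rw [bl_W_succ, zpow_neg, zpow_natCast]
      simp only [W, g, e]
      group
    have h2 : P (i + 2) = W (i + 1) * (g (i + 1) ^ (e (i + 1) : ℤ) * o) := by
      rw [e2]
      show bl_W M u v (i + 1 + 1) * o = _
      rw [bl_W_succ, zpow_natCast]
      simp only [W, g, e]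
      group
    have h3 : P (i + 1) = W (i + 1) * o := rfl
    rw [h1, h2, h3, D_mul, D_mul, D_mul]
    obtain ⟨hg1, p, hp, hpc⟩ := hgate i
    obtain ⟨hg1', p', hp', hpc'⟩ := hgate (i + 1)
    have hl1 := hlong i
    have hl2 := hlong (i + 1)
    have hsum : tl (g i) + tl (g (i + 1)) = tl u + tl v := by
      rcases hgcase i with ⟨h, h'⟩ | ⟨h, h'⟩ <;> rw [h, h']
      rw [add_comm]
    have hnc' : ¬ Commute (g i) (g (i + 1)) := by
      rcases hgcase i with ⟨h, h'⟩ | ⟨h, h'⟩ <;> rw [h, h']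
      · exact hnc
      · exact fun hcc => hnc hcc.symm
    have h4 := bl_corner hnc' hg1 hg1' hp hp' hpc hpc' (m := -(e i : ℤ)) (n := (e (i + 1) : ℤ))
      (by rw [Int.natAbs_neg, Int.natAbs_natCast, hsum]; omega)
      (by rw [Int.natAbs_natCast, hsum]; omega)
    rw [hsum] at h4
    exact h4
  have hP4 : ∀ i, P (i + 4) = bl_s M u v * P i := by
    intro i
    show bl_W M u v (i + 4) * o = _
    rw [bl_W_four, mul_assoc]
  obtain ⟨hσ1, L, t, hL, ht4, htmono, hclose, hlen, hbet⟩ := broken hP4 κ hside hcorner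
  -- lengths of blocks
  have hblock : ∀ i, |t (i + 1) - t i - (e i * tl (g i) : ℕ)| ≤ 8 * (tl u + tl v : ℕ) := by
    intro i
    obtain ⟨p, _, h1, h2⟩ := hdist i
    have h3 := hlen i
    have h4 := hclose i
    have h5 := hclose (i + 1)
    have h6 := D_symm (P (i + 1)) (L (t (i + 1)))
    have h2' : (D (P i) (P (i + 1)) : ℤ) = (e i * tl (g i) : ℕ) + 2 * (D (P i) p : ℤ) := by
      rw [h2]
      push_cast
      ring
    rw [abs_le]
    constructor <;> omega
  have hW0 : ∀ k : ℤ, (4 * k) % 4 = 0 := fun k => by omega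
  have hW1 : ∀ k : ℤ, (4 * k + 1) % 4 = 1 := fun k => by omega
  have hW2 : ∀ k : ℤ, (4 * k + 2) % 4 = 2 := fun k => by omega
  have hW3 : ∀ k : ℤ, (4 * k + 3) % 4 = 3 := fun k => by omega
  refine ⟨L, t, τ, ?_⟩
  refine
    { ne_one := hσ1
      sigma := rfl
      line := hL
      nc := hnc
      pos_u := hu0
      pos_v := hv0
      uv := huv
      vu := hvu
      t4 := ht4
      tau4 := ?_
      tau0 := ?_
      tau1 := ?_
      tau2 := ?_
      tau3 := ?_
      tltau := ?_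
      nctau := ?_
      mem := ?_
      len0 := ?_
      len1 := ?_
      len2 := ?_
      len3 := ?_ }
  · intro i
    have h1 : g (i + 4) = g i := by
      simp only [g, bl_g]
      have : (i + 4) % 4 = i % 4 := by omega
      rw [this]
    show bl_W M u v (i + 4) * g (i + 4) * (bl_W M u v (i + 4))⁻¹ =
      bl_s M u v * (bl_W M u v i * g i * (bl_W M u v i)⁻¹) * (bl_s M u v)⁻¹
    rw [bl_W_four, h1]
    group
  · simp [τ, W, g, bl_W, bl_w, bl_g]
  · simp [τ, W, g, bl_W, bl_w, bl_g]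
  · simp [τ, W, g, bl_W, bl_w, bl_g]
  · simp [τ, W, g, bl_W, bl_w, bl_g]
  · intro i
    show tl (W i * g i * (W i)⁻¹) ≤ _
    rw [tl_conj]
    exact (htg i).1
  · intro i hcom
    have h1 : Commute (W i * g i * (W i)⁻¹) (W (i + 1) * g (i + 1) * (W (i + 1))⁻¹) := hcom
    have h2 : W (i + 1) = W i * g i ^ e i := bl_W_succ M u v i
    rw [h2] at h1
    have h3 : Commute (g i) (g (i + 1)) := by
      have h4 : W i * g i * (W i)⁻¹ * (W i * g i ^ e i * g (i + 1) * (W i * g i ^ e i)⁻¹) =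
        W i * g i ^ e i * g (i + 1) * (W i * g i ^ e i)⁻¹ * (W i * g i * (W i)⁻¹) := h1
      have h5 := congrArg (fun z => (g i ^ e i)⁻¹ * (W i)⁻¹ * z * W i * g i ^ e i) h4
      have h6 : (g i ^ e i)⁻¹ * (W i)⁻¹ * (W i * g i * (W i)⁻¹ *
          (W i * g i ^ e i * g (i + 1) * (W i * g i ^ e i)⁻¹)) * W i * g i ^ e i =
          g i * g (i + 1) := by
        have : (g i ^ e i)⁻¹ * g i = g i * (g i ^ e i)⁻¹ :=
          (((Commute.refl (g i)).pow_left (e i)).inv_left).eq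
        calc _ = ((g i ^ e i)⁻¹ * g i) * g i ^ e i * g (i + 1) := by group
          _ = _ := by rw [this]; group
      have h7 : (g i ^ e i)⁻¹ * (W i)⁻¹ * (W i * g i ^ e i * g (i + 1) * (W i * g i ^ e i)⁻¹ *
          (W i * g i * (W i)⁻¹)) * W i * g i ^ e i = g (i + 1) * g i := by
        have : (g i ^ e i)⁻¹ * g i = g i * (g i ^ e i)⁻¹ :=
          (((Commute.refl (g i)).pow_left (e i)).inv_left).eq
        calc _ = g (i + 1) * ((g i ^ e i)⁻¹ * g i) * g i ^ e i := by group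
          _ = _ := by rw [this]; group
      have h8 : g i * g (i + 1) = g (i + 1) * g i := by
        rw [← h6, ← h7]
        exact h5
      exact h8
    rcases hgcase i with ⟨h, h'⟩ | ⟨h, h'⟩ <;> rw [h, h'] at h3
    · exact hnc h3
    · exact hnc h3.symm
  · intro i x h1 h2
    obtain ⟨p, hp, hpc, hd⟩ := hdist i
    have h3 := hbet i x (by omega) (by omega)
    have h4 := hclose i
    have h5 := hclose (i + 1)
    have h6 : D (L (t i)) (L x) = (t i - x).natAbs := hL.iso _ _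
    have h7 : D (L x) (L (t (i + 1))) = (x - t (i + 1)).natAbs := hL.iso _ _
    have h8 := D_tri (L (t i)) (P i) (L x)
    have h9 := D_symm (L (t i)) (P i)
    have h10 := D_tri (L x) (P (i + 1)) (L (t (i + 1)))
    have he0 : (e i : ℤ) ≠ 0 := by
      have := heM i
      omega
    have hτ1 : τ i ≠ 1 := by
      intro h
      obtain ⟨hg1, _⟩ := hgate i
      apply hg1
      have : W i * g i * (W i)⁻¹ = 1 := h
      rw [mul_inv_eq_one] at this
      exact mul_eq_left.mp this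
    rw [hPsucc] at h3
    refine mem_Ax_between hτ1 hp (e i : ℤ) h3 ?_ ?_ he0
    · omega
    · rw [← hPsucc]
      omega
  · intro k
    have h1 := hblock (4 * k)
    simp only [e, g, bl_e, bl_g, hW0] at h1
    norm_num at h1
    push_cast
    exact h1
  · intro k
    have h1 := hblock (4 * k + 1)
    simp only [e, g, bl_e, bl_g, hW1] at h1
    norm_num at h1
    push_cast
    rw [show (4 * k + 2 : ℤ) = 4 * k + 1 + 1 by ring]
    exact h1
  · intro k
    have h1 := hblock (4 * k + 2)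
    simp only [e, g, bl_e, bl_g, hW2] at h1
    norm_num at h1
    push_cast
    rw [show (4 * k + 3 : ℤ) = 4 * k + 2 + 1 by ring, ← mul_assoc]
    exact h1
  · intro k
    have h1 := hblock (4 * k + 3)
    simp only [e, g, bl_e, bl_g, hW3] at h1
    norm_num at h1
    push_cast
    rw [show (4 * k + 4 : ℤ) = 4 * k + 3 + 1 by ring, ← mul_assoc]
    exact h1

theorem nc_pair {X Y : FreeGroup α} (hXY : ¬ Commute X Y) :
    ¬ Commute (X ^ 10 * Y ^ 10) (X ^ 12 * Y ^ 10) := by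
  intro hc
  have hX : X ≠ 1 := by rintro rfl; exact hXY (Commute.one_left Y)
  set u := X ^ 10 * Y ^ 10 with hu
  have hv : X ^ 12 * Y ^ 10 = X ^ 2 * u := by
    rw [hu, ← mul_assoc, ← pow_add]
  rw [hv] at hc
  -- `X ^ 2` commutes with `u`
  have h1 : Commute (X ^ 2) u := by
    have h2 : u * (X ^ 2 * u) = X ^ 2 * u * u := hc
    have h3 : u * X ^ 2 = X ^ 2 * u := by
      have := congrArg (fun z => z * u⁻¹) h2
      simpa [mul_assoc] using this
    exact h3.symm
  have h2 : Commute X u := commute_of_pow (by norm_num) h1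
  have h3 : Commute X (Y ^ 10) := by
    have h4 : Commute X (X ^ 10)⁻¹ := ((Commute.refl X).pow_right 10).inv_right
    have h5 := h4.mul_right h2
    rwa [hu, inv_mul_cancel_left] at h5
  exact hXY (commute_of_pow (n := 10) (by norm_num) h3.symm).symm

theorem exists_blocks {M : ℕ} (hM : 1000 ≤ M) {X Y : FreeGroup α} (hXY : ¬ Commute X Y) :
    ∃ L t τ, Blocks M (X ^ 10 * Y ^ 10) (X ^ 12 * Y ^ 10) (rW M X Y) L t τ := by
  obtain ⟨o, ho, h1⟩ := star hXY (i := 10) (j := 10) le_rfl le_rfl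
  obtain ⟨o', ho', h2⟩ := star hXY (i := 12) (j := 10) (by norm_num) le_rfl
  have hnc := nc_pair hXY
  set u := X ^ 10 * Y ^ 10 with hu
  have hv : X ^ 12 * Y ^ 10 = X ^ 2 * u := by
    rw [hu, ← mul_assoc, ← pow_add]
  set v := X ^ 12 * Y ^ 10 with hv'
  have hv1 : v ≠ 1 := by intro h; rw [h] at hnc; exact hnc (Commute.one_right u)
  have hou : D o (u * o) = tl u := ho
  have hov : D o' (v * o') = tl v := ho'
  obtain ⟨q, hq⟩ := (TT α).exists_gate (convex_Ax v) (Ax_nonempty v) o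
  have h3 := disp_gate hv1 hq
  -- displacement of `v` at `o`
  have h4 : D o (v * o) ≤ 3 * tl u := by
    rw [hv]
    have t1 := D_tri o (X * o) (X ^ 2 * u * o)
    have t2 := D_tri (X * o) (X ^ 2 * o) (X ^ 2 * u * o)
    have e1 : D (X * o) (X ^ 2 * o) = D o (X * o) := by
      rw [pow_two, mul_assoc, D_mul]
    have e2 : D (X ^ 2 * o) (X ^ 2 * u * o) = D o (u * o) := by
      rw [mul_assoc, D_mul]
    omega
  have h5 : tl u ≤ 3 * tl v := by
    have e0 : u = (X ^ 2)⁻¹ * v := by rw [hv]; group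
    have h6 := tl_le u o'
    rw [e0] at h6
    have t1 := D_tri o' ((X ^ 2)⁻¹ * o') ((X ^ 2)⁻¹ * v * o')
    have e1 : D ((X ^ 2)⁻¹ * o') ((X ^ 2)⁻¹ * v * o') = D o' (v * o') := by
      rw [mul_assoc, D_mul]
    have e2 : D o' ((X ^ 2)⁻¹ * o') = D o' (X ^ 2 * o') := by
      rw [← D_mul (X ^ 2) o', mul_inv_cancel_left, D_symm]
    have t2 := D_tri o' (X * o') (X ^ 2 * o')
    have e3 : D (X * o') (X ^ 2 * o') = D o' (X * o') := by
      rw [pow_two, mul_assoc, D_mul]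
    rw [← e0] at h6
    have h7 : D o' (u * o') ≤ 3 * tl v := by
      rw [e0]
      omega
    omega
  have h6 : tl v ≤ 3 * tl u := by omega
  obtain ⟨L, t, τ, hB⟩ := blocks_of hM hnc h5 h6 ho hq (by omega)
  exact ⟨L, t, τ, hB⟩

end Pool.Agent.H28.UE
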