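import Pool.Agent.H28.UE.Chi

set_option autoImplicit false

/-!
JOB UE-WI1 (few branch vertices).

`V0 = T`; `H0` = a choice of two oriented edges `(t, y)`, `y ∈ A`, starting at each `t ∈ T`, and
of three if `t` is equivalent to an element of `Br` (then `t` has three neighbours in `A`, by
invariance of `A`). `H0` is inequivalent: `(t', y') = j (t, y)` gives `t = t'`, `j = 1`. `chi_half`:
`2 |T| + |Br| + 2 ≤ 2 (|T| + |S|)`.
-/

namespace Pool.Agent.H28.UE

variable {α : Type*} [DecidableEq α]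

/-- `x` has three neighbours in `A` -/
def Branch (A : Set (FreeGroup α)) (x : FreeGroup α) : Prop :=
  ∃ y1 ∈ A, ∃ y2 ∈ A, ∃ y3 ∈ A, y1 ≠ y2 ∧ y1 ≠ y3 ∧ y2 ≠ y3 ∧ D x y1 = 1 ∧ D x y2 = 1 ∧
    D x y3 = 1

/-- every vertex of `A` has two neighbours in `A` -/
def Deg2 (A : Set (FreeGroup α)) : Prop :=
  ∀ x ∈ A, ∃ y1 ∈ A, ∃ y2 ∈ A, y1 ≠ y2 ∧ D x y1 = 1 ∧ D x y2 = 1

theorem branch_card (S T : Finset (FreeGroup α)) (A : Set (FreeGroup α)) (hT : T.Nonempty)
    (hTA : ∀ t ∈ T, t ∈ A)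
    (hinv : ∀ j ∈ Subgroup.closure (S : Set (FreeGroup α)), ∀ x ∈ A, j * x ∈ A)
    (hcov : ∀ x ∈ A, ∃ j ∈ Subgroup.closure (S : Set (FreeGroup α)), ∃ t ∈ T, x = j * t)
    (hTi : ∀ t ∈ T, ∀ t' ∈ T, ∀ j ∈ Subgroup.closure (S : Set (FreeGroup α)), t' = j * t → t = t')
    (hdeg : Deg2 A) (Br : Finset (FreeGroup α)) (hBA : ∀ x ∈ Br, x ∈ A ∧ Branch A x)
    (hBi : ∀ x ∈ Br, ∀ x' ∈ Br, ∀ j ∈ Subgroup.closure (S : Set (FreeGroup α)),
      x' = j * x → x = x') :
    Br.card ≤ 2 * S.card := by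
  classical
  set J := Subgroup.closure (S : Set (FreeGroup α)) with hJdef
  -- the elements of `T` equivalent to an element of `Br`
  set T' : Finset (FreeGroup α) := T.filter (fun t => ∃ x ∈ Br, ∃ j ∈ J, x = j * t) with hT'
  -- neighbours
  have hN : ∀ t : FreeGroup α, ∃ N : Finset (FreeGroup α), t ∈ T →
      (∀ y ∈ N, y ∈ A ∧ D t y = 1) ∧ N.card = 2 + (if t ∈ T' then 1 else 0) := by
    intro t
    by_cases ht : t ∈ T
    · by_cases ht' : t ∈ T'
      · obtain ⟨x, hx, j, hj, hxj⟩ := (Finset.mem_filter.1 ht').2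
        obtain ⟨y1, h1, y2, h2, y3, h3, h12, h13, h23, d1, d2, d3⟩ := (hBA x hx).2
        have hji : j⁻¹ ∈ J := J.inv_mem hj
        have hd : ∀ y, D t (j⁻¹ * y) = D x y := by
          intro y
          rw [← D_mul j t (j⁻¹ * y), ← hxj, mul_inv_cancel_left]
        refine ⟨{j⁻¹ * y1, j⁻¹ * y2, j⁻¹ * y3}, fun _ => ⟨?_, ?_⟩⟩
        · intro y hy
          simp only [Finset.mem_insert, Finset.mem_singleton] at hy
          rcases hy with rfl | rfl | rfl
          · exact ⟨hinv _ hji _ h1, by rw [hd, d1]⟩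
          · exact ⟨hinv _ hji _ h2, by rw [hd, d2]⟩
          · exact ⟨hinv _ hji _ h3, by rw [hd, d3]⟩
        · rw [if_pos ht', Finset.card_insert_of_notMem, Finset.card_insert_of_notMem,
            Finset.card_singleton]
          · simpa using h23
          · simpa using ⟨h12, h13⟩
      · obtain ⟨y1, h1, y2, h2, h12, d1, d2⟩ := hdeg t (hTA t ht)
        refine ⟨{y1, y2}, fun _ => ⟨?_, ?_⟩⟩
        · intro y hy
          simp only [Finset.mem_insert, Finset.mem_singleton] at hy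
          rcases hy with rfl | rfl
          · exact ⟨h1, d1⟩
          · exact ⟨h2, d2⟩
        · rw [if_neg ht', Finset.card_insert_of_notMem, Finset.card_singleton]
          simpa using h12
    · exact ⟨∅, fun h => absurd h ht⟩
  choose N hN using hN
  -- the oriented edges
  set H0 : Finset (FreeGroup α × FreeGroup α) :=
    T.biUnion (fun t => (N t).image (fun y => (t, y))) with hH0
  have hmem : ∀ e : FreeGroup α × FreeGroup α, e ∈ H0 ↔ e.1 ∈ T ∧ e.2 ∈ N e.1 := by
    rintro ⟨a, b⟩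
    rw [hH0, Finset.mem_biUnion]
    constructor
    · rintro ⟨t, ht, he⟩
      obtain ⟨y, hy, hyy⟩ := Finset.mem_image.1 he
      simp only [Prod.mk.injEq] at hyy
      obtain ⟨rfl, rfl⟩ := hyy
      exact ⟨ht, hy⟩
    · rintro ⟨h1, h2⟩
      exact ⟨a, h1, Finset.mem_image.2 ⟨b, h2, rfl⟩⟩
  have hcard : H0.card = 2 * T.card + T'.card := by
    rw [hH0, Finset.card_biUnion]
    · have h1 : ∀ t ∈ T, ((N t).image (fun y => (t, y))).card = 2 + (if t ∈ T' then 1 else 0) := by
        intro t ht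
        rw [Finset.card_image_of_injective _ (fun a b h => (Prod.mk.inj h).2), (hN t ht).2]
      rw [Finset.sum_congr rfl h1, Finset.sum_add_distrib, Finset.sum_const, smul_eq_mul,
        Finset.sum_boole]
      have h2 : T.filter (fun t => t ∈ T') = T' := by
        ext t
        rw [Finset.mem_filter]
        exact ⟨fun h => h.2, fun h => ⟨(Finset.mem_filter.1 h).1, h⟩⟩
      rw [h2]
      simp only [Nat.cast_id]
      ring
    · intro t _ t' _ htt'
      rw [Function.onFun, Finset.disjoint_left]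
      intro e he he'
      obtain ⟨y, _, hy⟩ := Finset.mem_image.1 he
      obtain ⟨y', _, hy'⟩ := Finset.mem_image.1 he'
      apply htt'
      have h3 := congrArg Prod.fst (hy.trans hy'.symm)
      simpa using h3
  have hchi := chi_half S H0 (fun e he => ((hN _ ((hmem e).1 he).1).1 _ ((hmem e).1 he).2).2)
    (by
      intro e he e' he' j hj h1 h2
      have ht := ((hmem e).1 he).1
      have ht' := ((hmem e').1 he').1
      have h3 := hTi e.1 ht e'.1 ht' j hj h1
      have hj1 : j = 1 := by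
        rw [← h3] at h1
        exact (mul_eq_right.1 h1.symm)
      rw [hj1, one_mul] at h2
      exact Prod.ext h3 h2.symm)
    T hT
    (by
      intro e he
      have ht := ((hmem e).1 he).1
      refine ⟨⟨e.1, ht, 1, J.one_mem, (one_mul _).symm⟩, ?_⟩
      have hy := ((hN _ ((hmem e).1 he).1).1 _ ((hmem e).1 he).2).1
      obtain ⟨j, hj, t, htT, hjt⟩ := hcov e.2 hy
      exact ⟨t, htT, j, hj, hjt⟩)
  have hBr : Br.card ≤ T'.card := by
    have hf : ∀ x : FreeGroup α, ∃ t, x ∈ Br → t ∈ T' ∧ ∃ j ∈ J, x = j * t := by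
      intro x
      by_cases hx : x ∈ Br
      · obtain ⟨j, hj, t, ht, hjt⟩ := hcov x (hBA x hx).1
        exact ⟨t, fun _ => ⟨Finset.mem_filter.2 ⟨ht, x, hx, j, hj, hjt⟩, j, hj, hjt⟩⟩
      · exact ⟨1, fun h => absurd h hx⟩
    choose f hf using hf
    refine Finset.card_le_card_of_injOn f (fun x hx => (hf x hx).1) ?_
    intro x hx x' hx' hff
    obtain ⟨_, j, hj, h1⟩ := hf x hx
    obtain ⟨_, j', hj', h2⟩ := hf x' hx'
    refine hBi x hx x' hx' (j' * j⁻¹) (J.mul_mem hj' (J.inv_mem hj)) ?_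
    rw [h2, ← hff]
    nth_rewrite 2 [h1]
    group
  omega

end Pool.Agent.H28.UE
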