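import Pool.Agent.H28.UE.Star

set_option autoImplicit false

/-!
JOB UE-BR (broken geodesics with small corners).

Hypotheses: `σ P_i = P_{i+4}`, and at every corner the Gromov product is at most `κ`, all sides are
longer than `2 κ`. `Q i` = the median of `P (i-1), P i, P (i+1)` (choose it for `i = 0,1,2,3` and
extend by `σ`, or use uniqueness of medians): `D (P i) (Q i) ≤ κ`. Since `Q i, Q (i+1)` lie on
`[P i, P (i+1)]` near the two ends, `B (P i) (Q i) (Q (i+1))`, `B (Q i) (Q (i+1)) (P (i+1))`,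
`Q i ≠ Q (i+1)`; as `Q (i+1)` is the median of `P i, P (i+1), P (i+2)`,
`B (Q i) (Q (i+1)) (Q (i+2))`. By `D_concat` and induction
`D (Q i) (Q j) = ∑_{i ≤ k < j} D (Q k) (Q (k+1))`. So `D (Q i) (σ σ Q i) = 2 D (Q i) (σ Q i)` and
`Q i ∈ Ax σ` (`mem_Ax_of_two`), `tl σ = D (Q 0) (Q 4) > 0`. Take a line `L` of `σ`
(`exists_line`) and `t i` with `L (t i) = Q i`; `t (i+4) = t i + tl σ`; `t (i+1) - t i = ± D (Q i) (Q (i+1))`
and betweenness of consecutive triples shows that the sign is constant, positive because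
`t 4 = t 0 + tl σ`.
-/

namespace Pool.Agent.H28.UE

variable {α : Type*} [DecidableEq α]

theorem bk_four (x y z w : FreeGroup α) : D x y + D z w ≤ max (D x z + D y w) (D x w + D y z) :=
  (TT α).four x y z w

/-- Uniqueness of medians. -/
theorem bk_med_unique {x y z m m' : FreeGroup α} (h1 : D x m + D m y = D x y)
    (h2 : D x m + D m z = D x z) (h3 : D y m + D m z = D y z) (h1' : D x m' + D m' y = D x y)
    (h2' : D x m' + D m' z = D x z) (h3' : D y m' + D m' z = D y z) : m = m' := by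
  have a1 := D_symm m y
  have a2 := D_symm m' y
  have a3 := bk_four x y m m'
  have a4 := D_symm y m'
  apply D_eq_zero
  omega

/-- Two points on a geodesic. -/
theorem bk_order {x y u v : FreeGroup α} (hu : D x u + D u y = D x y) (hv : D x v + D v y = D x y)
    (h : D x u + D v y ≤ D x y) : D x u + D u v + D v y = D x y := by
  have a1 := bk_four x y u v
  have a2 := D_symm y v
  have a3 := D_symm y u
  have a4 := D_tri x u v
  have a5 := D_tri u v y
  omega

theorem broken {σ : FreeGroup α} {P : ℤ → FreeGroup α} (hP : ∀ i, P (i + 4) = σ * P i) (κ : ℕ)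
    (hside : ∀ i, 2 * κ < D (P i) (P (i + 1)))
    (hcorner : ∀ i, D (P i) (P (i + 1)) + D (P (i + 1)) (P (i + 2)) ≤
      D (P i) (P (i + 2)) + 2 * κ) :
    σ ≠ 1 ∧ ∃ (L : ℤ → FreeGroup α) (t : ℤ → ℤ), IsLine σ L ∧ (∀ i, t (i + 4) = t i + tl σ) ∧
      (∀ i, t i < t (i + 1)) ∧ (∀ i, D (P i) (L (t i)) ≤ κ) ∧
      (∀ i, D (P i) (L (t i)) + (t (i + 1) - t i) + D (L (t (i + 1))) (P (i + 1)) =
        D (P i) (P (i + 1))) ∧
      ∀ i x, t i ≤ x → x ≤ t (i + 1) → (TT α).B (P i) (L x) (P (i + 1)) := by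
  have hmed : ∀ i, ∃ m, D (P i) m + D m (P (i + 2)) = D (P i) (P (i + 2)) ∧
      D (P i) m + D m (P (i + 1)) = D (P i) (P (i + 1)) ∧
      D (P (i + 2)) m + D m (P (i + 1)) = D (P (i + 2)) (P (i + 1)) :=
    fun i => (TT α).med (P i) (P (i + 2)) (P (i + 1))
  choose R hR1 hR2 hR3 using hmed
  -- `R i` is the median at the corner `i + 1`
  have hRσ : ∀ i, R (i + 4) = σ * R i := by
    intro i
    have e1 : P (i + 4 + 2) = σ * P (i + 2) := by rw [← hP]; congr 1; ring
    have e2 : P (i + 4 + 1) = σ * P (i + 1) := by rw [← hP]; congr 1; ring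
    have e3 := hP i
    refine bk_med_unique (hR1 (i + 4)) (hR2 (i + 4)) (hR3 (i + 4)) ?_ ?_ ?_
    · rw [e1, e3, D_mul, D_mul, D_mul]; exact hR1 i
    · rw [e2, e3, D_mul, D_mul, D_mul]; exact hR2 i
    · rw [e1, e2, D_mul, D_mul, D_mul]; exact hR3 i
  obtain ⟨Q, hQ⟩ : ∃ Q : ℤ → FreeGroup α, ∀ i, Q i = R (i - 1) := ⟨fun i => R (i - 1), fun _ => rfl⟩
  have hQσ : ∀ i, Q (i + 4) = σ * Q i := by
    intro i
    rw [hQ, hQ, ← hRσ]
    congr 1
    ring
  have hQ1 : ∀ i, D (P i) (Q (i + 1)) + D (Q (i + 1)) (P (i + 2)) = D (P i) (P (i + 2)) := by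
    intro i
    rw [hQ, show i + 1 - 1 = i by ring]; exact hR1 i
  have hQ2 : ∀ i, D (P i) (Q (i + 1)) + D (Q (i + 1)) (P (i + 1)) = D (P i) (P (i + 1)) := by
    intro i
    rw [hQ, show i + 1 - 1 = i by ring]; exact hR2 i
  have hQ3 : ∀ i, D (P (i + 2)) (Q (i + 1)) + D (Q (i + 1)) (P (i + 1)) =
      D (P (i + 2)) (P (i + 1)) := by
    intro i
    rw [hQ, show i + 1 - 1 = i by ring]; exact hR3 i
  have hQ3' : ∀ i, D (P i) (Q i) + D (Q i) (P (i + 1)) = D (P i) (P (i + 1)) := by
    intro i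
    have h := hQ3 (i - 1)
    rw [show i - 1 + 2 = i + 1 by ring, show i - 1 + 1 = i by ring] at h
    have a1 := D_symm (P (i + 1)) (Q i)
    have a2 := D_symm (P i) (Q i)
    have a3 := D_symm (P (i + 1)) (P i)
    omega
  have hg : ∀ i, D (P i) (Q i) ≤ κ := by
    intro i
    have h1 := hQ1 (i - 1)
    have h2 := hQ2 (i - 1)
    have h3 := hQ3 (i - 1)
    have h4 := hcorner (i - 1)
    rw [show i - 1 + 2 = i + 1 by ring, show i - 1 + 1 = i by ring] at h1 h3 h4
    rw [show i - 1 + 1 = i by ring] at h2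
    have a1 := D_symm (P (i + 1)) (Q i)
    have a2 := D_symm (P i) (Q i)
    have a3 := D_symm (P (i + 1)) (P i)
    omega
  have hseg : ∀ i, D (P i) (Q i) + D (Q i) (Q (i + 1)) + D (Q (i + 1)) (P (i + 1)) =
      D (P i) (P (i + 1)) := by
    intro i
    apply bk_order (hQ3' i) (hQ2 i)
    have h1 := hg i
    have h2 := hg (i + 1)
    have h3 := hside i
    have a2 := D_symm (P (i + 1)) (Q (i + 1))
    omega
  have hpos : ∀ i, 0 < D (Q i) (Q (i + 1)) := by
    intro i
    have h0 := hseg i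
    have h1 := hg i
    have h2 := hg (i + 1)
    have h3 := hside i
    have a2 := D_symm (P (i + 1)) (Q (i + 1))
    omega
  have hB : ∀ i, D (Q i) (Q (i + 1)) + D (Q (i + 1)) (Q (i + 2)) = D (Q i) (Q (i + 2)) := by
    intro i
    have h0 := hseg i
    have h1 := hseg (i + 1)
    rw [show i + 1 + 1 = i + 2 by ring] at h1
    have h2 := hQ1 i
    have h3 := hQ2 i
    have h4 := hQ3' (i + 1)
    rw [show i + 1 + 1 = i + 2 by ring] at h4
    have h5 := D_tri (P i) (Q i) (P (i + 2))
    have h6 := D_tri (Q i) (Q (i + 2)) (P (i + 2))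
    have h7 := D_tri (Q i) (Q (i + 1)) (Q (i + 2))
    omega
  have hstep : ∀ (n : ℕ) (i : ℤ), D (Q i) (Q (i + n)) + D (Q (i + n)) (Q (i + n + 1)) =
      D (Q i) (Q (i + n + 1)) := by
    intro n
    induction n with
    | zero =>
      intro i
      simp only [Nat.cast_zero, add_zero, D_self, zero_add]
    | succ n ih =>
      intro i
      have h1 := ih i
      have h2 := hB (i + n)
      rw [show i + (n : ℤ) + 2 = i + n + 1 + 1 by ring] at h2
      have h3 := D_concat (a := Q i) (b := Q (i + n)) (c := Q (i + n + 1))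
        (d := Q (i + n + 1 + 1)) h1 h2 (fun h => by
          have := hpos (i + n)
          rw [h, D_self] at this
          omega)
      push_cast
      rw [show i + ((n : ℤ) + 1) = i + n + 1 by ring]
      omega
  have hper : ∀ i, D (Q (i + 4)) (Q (i + 4 + 1)) = D (Q i) (Q (i + 1)) := by
    intro i
    rw [show i + 4 + 1 = i + 1 + 4 by ring, hQσ, hQσ, D_mul]
  have h48 : ∀ i, D (Q i) (Q (i + 8)) = 2 * D (Q i) (Q (i + 4)) ∧ 0 < D (Q i) (Q (i + 4)) := by
    intro i
    have e0 := hstep 0 i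
    have e1 := hstep 1 i
    have e2 := hstep 2 i
    have e3 := hstep 3 i
    have e4 := hstep 4 i
    have e5 := hstep 5 i
    have e6 := hstep 6 i
    have e7 := hstep 7 i
    have p0 := hper i
    have p1 := hper (i + 1)
    have p2 := hper (i + 2)
    have p3 := hper (i + 3)
    have q0 := hpos i
    simp only [Nat.cast_ofNat, Nat.cast_zero, Nat.cast_one, add_zero, D_self, add_assoc] at e0 e1 e2 e3 e4 e5 e6 e7 p0 p1 p2 p3
    norm_num at e0 e1 e2 e3 e4 e5 e6 e7 p0 p1 p2 p3
    omega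
  have hσ1 : σ ≠ 1 := by
    intro h
    have h1 := (h48 0).2
    rw [hQσ, h, one_mul, D_self] at h1
    omega
  have hAx : ∀ i, Q i ∈ Ax σ := by
    intro i
    apply mem_Ax_of_two
    rw [← hQσ, ← hQσ, show i + 4 + 4 = i + 8 by ring]
    exact (h48 i).1
  obtain ⟨L, hL⟩ := exists_line hσ1
  have hLt : ∀ i, ∃ t, L t = Q i := fun i => by
    have := hAx i
    rw [← hL.range] at this
    exact this
  choose t ht using hLt
  have ht4 : ∀ i, t (i + 4) = t i + tl σ := by
    intro i
    apply hL.inj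
    rw [ht, hQσ, ← ht i, hL.step]
  have hd1 : ∀ i, (t i - t (i + 1)).natAbs = D (Q i) (Q (i + 1)) := by
    intro i
    rw [← hL.iso, ht, ht]
  have hd2 : ∀ i, (t i - t (i + 2)).natAbs = D (Q i) (Q (i + 2)) := by
    intro i
    rw [← hL.iso, ht, ht]
  have hsign : ∀ i, t i < t (i + 1) ↔ t (i + 1) < t (i + 2) := by
    intro i
    have h1 := hd1 i
    have h2 := hd2 i
    have h3 := hd1 (i + 1)
    rw [show i + 1 + 1 = i + 2 by ring] at h3
    have h4 := hpos i
    have h5 := hpos (i + 1)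
    rw [show i + 1 + 1 = i + 2 by ring] at h5
    have h6 := hB i
    omega
  have hsign' : ∀ i, t i < t (i + 1) := by
    have h0 : t 0 < t 1 := by
      by_contra hcon
      have s0 := hsign 0
      have s1 := hsign 1
      have s2 := hsign 2
      norm_num at s0 s1 s2
      have h4 := ht4 0
      norm_num at h4
      have p0 := hpos 0
      have d0 := hd1 0
      norm_num at p0 d0
      have hn : (0 : ℤ) ≤ tl σ := Int.natCast_nonneg _
      omega
    intro i
    induction i using Int.induction_on with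
    | zero => simpa using h0
    | succ n ih =>
      have := (hsign n).1 ih
      rw [show (n : ℤ) + 1 + 1 = n + 2 by ring]
      exact this
    | pred n ih =>
      apply (hsign (-n - 1)).2
      rw [show -(n : ℤ) - 1 + 1 = -n by ring, show -(n : ℤ) - 1 + 2 = -n + 1 by ring]
      exact ih
  have hd1' : ∀ i, t (i + 1) - t i = D (Q i) (Q (i + 1)) := by
    intro i
    have h1 := hd1 i
    have h2 := hsign' i
    omega
  refine ⟨hσ1, L, t, hL, ht4, hsign', ?_, ?_, ?_⟩
  · intro i
    rw [ht]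
    exact hg i
  · intro i
    rw [ht, ht, hd1']
    have := hseg i
    omega
  · intro i x hx1 hx2
    show D (P i) (L x) + D (L x) (P (i + 1)) = D (P i) (P (i + 1))
    have h1 := D_tri (P i) (Q i) (L x)
    have h2 := D_tri (L x) (Q (i + 1)) (P (i + 1))
    have h3 := D_tri (P i) (L x) (P (i + 1))
    have h4 := hseg i
    have h5 : D (Q i) (L x) = (t i - x).natAbs := by rw [← ht i, hL.iso]
    have h6 : D (L x) (Q (i + 1)) = (x - t (i + 1)).natAbs := by rw [← ht (i + 1), hL.iso]
    have h7 := hd1' i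
    omega

end Pool.Agent.H28.UE
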