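import Pool.Agent.H28.UE.Coc

set_option autoImplicit false

/-!
JOB UE-CO2 (the Euler characteristic inequality).
-/

namespace Pool.Agent.H28.UE

variable {α : Type*} [DecidableEq α]

/-- `e'` is the translate of `e` by `j`, with the same or the opposite orientation. -/
def EdgeRel (j : FreeGroup α) (e e' : FreeGroup α × FreeGroup α) : Prop :=
  (e'.1 = j * e.1 ∧ e'.2 = j * e.2) ∨ (e'.1 = j * e.2 ∧ e'.2 = j * e.1)

omit [DecidableEq α] in
/-- a nontrivial translation never reverses an edge (`j ^ 2 = 1` would follow) -/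
theorem no_inversion {j x y : FreeGroup α} (h1 : j * x = y) (h2 : j * y = x) : j = 1 := by
  have h : j ^ 2 = 1 := by
    rw [← h1, ← mul_assoc] at h2
    have := mul_eq_right.1 h2
    rw [pow_two]; exact this
  exact (pow_eq_one_iff_left (by norm_num)).1 h

open Classical in
/-- the antisymmetric invariant function on the edges attached to a function on `E0` -/
noncomputable def chi_g (J : Subgroup (FreeGroup α)) (E0 : Finset (FreeGroup α × FreeGroup α))
    (f : E0 → ℚ) (x y : FreeGroup α) : ℚ :=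
  ∑ e : E0, f e * ((if ∃ j ∈ J, x = j * e.1.1 ∧ y = j * e.1.2 then 1 else 0) -
    (if ∃ j ∈ J, y = j * e.1.1 ∧ x = j * e.1.2 then 1 else 0))

theorem chi_g_anti (J : Subgroup (FreeGroup α)) (E0 : Finset (FreeGroup α × FreeGroup α))
    (f : E0 → ℚ) : Anti (chi_g J E0 f) := by
  intro x y _
  unfold chi_g
  rw [← Finset.sum_neg_distrib]
  refine Finset.sum_congr rfl fun e _ => ?_
  ring

omit [DecidableEq α] in
theorem chi_g_inv (J : Subgroup (FreeGroup α)) (E0 : Finset (FreeGroup α × FreeGroup α))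
    (f : E0 → ℚ) (i : FreeGroup α) (hi : i ∈ J) (x y : FreeGroup α) :
    chi_g J E0 f (i * x) (i * y) = chi_g J E0 f x y := by
  classical
  have key : ∀ a b c d : FreeGroup α, (∃ j ∈ J, i * a = j * c ∧ i * b = j * d) ↔
      ∃ j ∈ J, a = j * c ∧ b = j * d := by
    intro a b c d
    constructor
    · rintro ⟨j, hj, h1, h2⟩
      refine ⟨i⁻¹ * j, J.mul_mem (J.inv_mem hi) hj, ?_, ?_⟩
      · rw [mul_assoc, ← h1, inv_mul_cancel_left]
      · rw [mul_assoc, ← h2, inv_mul_cancel_left]
    · rintro ⟨j, hj, h1, h2⟩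
      refine ⟨i * j, J.mul_mem hi hj, ?_, ?_⟩
      · rw [h1, mul_assoc]
      · rw [h2, mul_assoc]
  unfold chi_g
  refine Finset.sum_congr rfl fun e _ => ?_
  congr 2
  · exact if_congr (key x y e.1.1 e.1.2) rfl rfl
  · exact if_congr (key y x e.1.1 e.1.2) rfl rfl

theorem chi_g_edge (J : Subgroup (FreeGroup α)) (E0 : Finset (FreeGroup α × FreeGroup α))
    (hadj : ∀ e ∈ E0, D e.1 e.2 = 1)
    (hE : ∀ e ∈ E0, ∀ e' ∈ E0, ∀ j ∈ J, EdgeRel j e e' → e = e')
    (f : E0 → ℚ) (e : E0) : chi_g J E0 f e.1.1 e.1.2 = f e := by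
  have hne : e.1.1 ≠ e.1.2 := by
    intro h
    have := hadj e.1 e.2
    rw [h, D_self] at this
    omega
  unfold chi_g
  rw [Finset.sum_eq_single e]
  · rw [if_pos ⟨1, J.one_mem, by simp, by simp⟩, if_neg]
    · ring
    · rintro ⟨j, _, h1, h2⟩
      have h3 := no_inversion h1.symm h2.symm
      rw [h3, one_mul] at h2
      exact hne h2
  · intro e' _ hee
    have hne' : ∀ j ∈ J, ¬ EdgeRel j e'.1 e.1 := fun j hj h =>
      hee (Subtype.ext (hE e'.1 e'.2 e.1 e.2 j hj h))
    rw [if_neg, if_neg]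
    · ring
    · rintro ⟨j, hj, h1, h2⟩
      exact hne' j hj (Or.inr ⟨h2, h1⟩)
    · rintro ⟨j, hj, h1, h2⟩
      exact hne' j hj (Or.inl ⟨h1, h2⟩)
  · intro h
    exact absurd (Finset.mem_univ e) h

omit [DecidableEq α] in
theorem chi_g_add (J : Subgroup (FreeGroup α)) (E0 : Finset (FreeGroup α × FreeGroup α))
    (f f' : E0 → ℚ) : chi_g J E0 (f + f') =
      fun x y => chi_g J E0 f x y + chi_g J E0 f' x y := by
  funext x y
  unfold chi_g
  rw [← Finset.sum_add_distrib]
  refine Finset.sum_congr rfl fun e _ => ?_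
  rw [Pi.add_apply]; ring

omit [DecidableEq α] in
theorem chi_g_smul (J : Subgroup (FreeGroup α)) (E0 : Finset (FreeGroup α × FreeGroup α))
    (c : ℚ) (f : E0 → ℚ) : chi_g J E0 (c • f) =
      fun x y => AddMonoidHom.mulLeft c (chi_g J E0 f x y) := by
  funext x y
  unfold chi_g
  rw [AddMonoidHom.coe_mulLeft, Finset.mul_sum]
  refine Finset.sum_congr rfl fun e _ => ?_
  rw [Pi.smul_apply, smul_eq_mul]; ring

/-- the linear map of the proof -/
noncomputable def chi_map (J : Subgroup (FreeGroup α))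
    (E0 : Finset (FreeGroup α × FreeGroup α)) (S V : Finset (FreeGroup α)) (v1 : FreeGroup α) :
    (E0 → ℚ) →ₗ[ℚ] (S → ℚ) × (V → ℚ) where
  toFun f := (fun s => pint (chi_g J E0 f) v1 (s * v1), fun v => pint (chi_g J E0 f) v1 v)
  map_add' f f' := by
    rw [chi_g_add]
    ext i
    · exact pint_add_fun _ _ _ _
    · exact pint_add_fun _ _ _ _
  map_smul' c f := by
    rw [chi_g_smul]
    ext i
    · exact pint_map _ _ _ _
    · exact pint_map _ _ _ _

theorem chi_pint_zero (S : Finset (FreeGroup α)) (g : FreeGroup α → FreeGroup α → ℚ)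
    (hinv : ∀ j ∈ Subgroup.closure (S : Set (FreeGroup α)), ∀ x y, D x y = 1 →
      g (j * x) (j * y) = g x y) (v1 : FreeGroup α)
    (h0 : ∀ s ∈ S, pint g v1 (s * v1) = 0) :
    ∀ j ∈ Subgroup.closure (S : Set (FreeGroup α)), ∀ x, pint g x (j * x) = 0 := by
  obtain ⟨F, hF⟩ := pint_hom (Subgroup.closure (S : Set (FreeGroup α))) hinv
  intro j hj
  induction hj using Subgroup.closure_induction with
  | mem s hs =>
    intro x
    have h1 := hF ⟨s, Subgroup.subset_closure hs⟩ x
    have h2 := hF ⟨s, Subgroup.subset_closure hs⟩ v1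
    rw [h1] at h2
    have h3 := Multiplicative.ofAdd.injective h2
    exact h3.trans (h0 s hs)
  | one => intro x; rw [one_mul]; exact pint_self _ _
  | mul a b _ _ ha hb =>
    intro x
    rw [← pint_add g x (b * x) (a * b * x), hb, zero_add, mul_assoc]
    exact ha _
  | inv a _ ha =>
    intro x
    have h1 := ha (a⁻¹ * x)
    rw [mul_inv_cancel_left] at h1
    have h2 := pint_add g x (a⁻¹ * x) x
    rw [h1, add_zero, pint_self] at h2
    exact h2

/-- **Euler characteristic inequality.** `J` generated by `S`; `E0` a finite set of edges of the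
tree, inequivalent under `J`; `V0` a finite set of vertices such that every endpoint of an edge of
`E0` is equivalent to an element of `V0`. Then `|E0| + 1 ≤ |V0| + |S|`.
Proof. For `f : E0 → ℚ` let `g_f x y = f e` if `(x, y) = j e` for some `j ∈ J`, `e ∈ E0`,
`= - f e` if `(y, x) = j e`, and `0` otherwise (well defined: `J` acts without inversions, `hE`);
`g_f` is antisymmetric, `J`-invariant and linear in `f`. The linear map
`f ↦ ((pint g_f v1 (s * v1))_{s ∈ S}, (pint g_f v1 v)_{v ∈ V0 \ {v1}})` into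
`ℚ^S × ℚ^(V0 \ {v1})` is injective: if the first part vanishes then the homomorphism of `pint_hom`
is zero on `J`, so `F v = pint g_f v1 v` is `J`-invariant; if also the second vanishes then
`F = 0` on `J V0`, hence `f e = F e.2 - F e.1 = 0`. Compare dimensions
(`LinearMap.finrank_le_finrank_of_injective`). -/
theorem chi (S : Finset (FreeGroup α)) (E0 : Finset (FreeGroup α × FreeGroup α))
    (hadj : ∀ e ∈ E0, D e.1 e.2 = 1)
    (hE : ∀ e ∈ E0, ∀ e' ∈ E0, ∀ j ∈ Subgroup.closure (S : Set (FreeGroup α)),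
      EdgeRel j e e' → e = e')
    (V0 : Finset (FreeGroup α)) (hne : V0.Nonempty)
    (hV : ∀ e ∈ E0, (∃ v ∈ V0, ∃ j ∈ Subgroup.closure (S : Set (FreeGroup α)), e.1 = j * v) ∧
      ∃ v ∈ V0, ∃ j ∈ Subgroup.closure (S : Set (FreeGroup α)), e.2 = j * v) :
    E0.card + 1 ≤ V0.card + S.card := by
  obtain ⟨v1, hv1⟩ := hne
  set J := Subgroup.closure (S : Set (FreeGroup α)) with hJ
  have hinj : Function.Injective (chi_map J E0 S (V0.erase v1) v1) := by
    rw [← LinearMap.ker_eq_bot, LinearMap.ker_eq_bot']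
    intro f hf
    have hf1 : ∀ s ∈ S, pint (chi_g J E0 f) v1 (s * v1) = 0 := by
      intro s hs
      have := congrFun (congrArg Prod.fst hf) ⟨s, hs⟩
      simpa [chi_map] using this
    have hf2 : ∀ v ∈ V0, pint (chi_g J E0 f) v1 v = 0 := by
      intro v hv
      by_cases hvv : v = v1
      · rw [hvv]; exact pint_self _ _
      · have := congrFun (congrArg Prod.snd hf) ⟨v, Finset.mem_erase.2 ⟨hvv, hv⟩⟩
        simpa [chi_map] using this
    have hz := chi_pint_zero S (chi_g J E0 f)
      (fun j hj x y _ => chi_g_inv J E0 f j hj x y) v1 hf1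
    have hF : ∀ x, (∃ v ∈ V0, ∃ j ∈ J, x = j * v) → pint (chi_g J E0 f) v1 x = 0 := by
      rintro x ⟨v, hv, j, hj, rfl⟩
      rw [← pint_add _ v1 v (j * v), hf2 v hv, hz j hj v, add_zero]
    funext e
    have h1 := hF e.1.1 (hV e.1 e.2).1
    have h2 := hF e.1.2 (hV e.1 e.2).2
    have h3 := pint_add (chi_g J E0 f) v1 e.1.1 e.1.2
    rw [h1, h2, zero_add, pint_adj (chi_g_anti J E0 f) (hadj e.1 e.2),
      chi_g_edge J E0 hadj hE f e] at h3
    exact h3
  have hrank := LinearMap.finrank_le_finrank_of_injective hinj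
  rw [Module.finrank_prod, Module.finrank_fintype_fun_eq_card,
    Module.finrank_fintype_fun_eq_card, Module.finrank_fintype_fun_eq_card,
    Fintype.card_coe, Fintype.card_coe, Fintype.card_coe, Finset.card_erase_of_mem hv1] at hrank
  have : 1 ≤ V0.card := Finset.card_pos.2 ⟨v1, hv1⟩
  omega

/-- The version for oriented edges: choose a maximal subset of `H0` inequivalent in the sense of
`chi`; it has at least half as many elements (every `e' ∈ H0` is equivalent to an element of the
subset with the same or with the opposite orientation, the first case only for itself). -/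
theorem chi_half (S : Finset (FreeGroup α)) (H0 : Finset (FreeGroup α × FreeGroup α))
    (hadj : ∀ e ∈ H0, D e.1 e.2 = 1)
    (hE : ∀ e ∈ H0, ∀ e' ∈ H0, ∀ j ∈ Subgroup.closure (S : Set (FreeGroup α)),
      e'.1 = j * e.1 → e'.2 = j * e.2 → e = e')
    (V0 : Finset (FreeGroup α)) (hne : V0.Nonempty)
    (hV : ∀ e ∈ H0, (∃ v ∈ V0, ∃ j ∈ Subgroup.closure (S : Set (FreeGroup α)), e.1 = j * v) ∧
      ∃ v ∈ V0, ∃ j ∈ Subgroup.closure (S : Set (FreeGroup α)), e.2 = j * v) :
    H0.card + 2 ≤ 2 * (V0.card + S.card) := by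
  classical
  set J := Subgroup.closure (S : Set (FreeGroup α)) with hJ
  -- a maximal inequivalent subset
  let P : Finset (FreeGroup α × FreeGroup α) → Prop := fun E =>
    ∀ e ∈ E, ∀ e' ∈ E, ∀ j ∈ J, EdgeRel j e e' → e = e'
  obtain ⟨E0, hE0, hmax⟩ : ∃ E0 ∈ H0.powerset.filter P, ∀ E ∈ H0.powerset.filter P,
      E.card ≤ E0.card := by
    refine Finset.exists_max_image _ _ ⟨∅, ?_⟩
    rw [Finset.mem_filter, Finset.mem_powerset]
    exact ⟨Finset.empty_subset _, fun e he => absurd he (Finset.notMem_empty e)⟩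
  rw [Finset.mem_filter, Finset.mem_powerset] at hE0
  obtain ⟨hsub, hP⟩ := hE0
  have h1 := chi S E0 (fun e he => hadj e (hsub he)) hP V0 hne (fun e he => hV e (hsub he))
  -- opposite edges
  have hop : ∀ e' ∈ H0 \ E0, ∃ e ∈ E0, ∃ j ∈ J, e'.1 = j * e.2 ∧ e'.2 = j * e.1 := by
    intro e' he'
    obtain ⟨he'H, he'E⟩ := Finset.mem_sdiff.1 he'
    by_contra hcon
    push Not at hcon
    have hno : ∀ e ∈ E0, ∀ j ∈ J, ¬ EdgeRel j e e' := by
      rintro e he j hj (⟨h2, h3⟩ | ⟨h2, h3⟩)
      · exact he'E ((hE e (hsub he) e' he'H j hj h2 h3) ▸ he)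
      · exact hcon e he j hj h2 h3
    have hno' : ∀ e ∈ E0, ∀ j ∈ J, ¬ EdgeRel j e' e := by
      rintro e he j hj (⟨h2, h3⟩ | ⟨h2, h3⟩)
      · refine hno e he j⁻¹ (J.inv_mem hj) (Or.inl ⟨?_, ?_⟩)
        · rw [h2, inv_mul_cancel_left]
        · rw [h3, inv_mul_cancel_left]
      · refine hno e he j⁻¹ (J.inv_mem hj) (Or.inr ⟨?_, ?_⟩)
        · rw [h3, inv_mul_cancel_left]
        · rw [h2, inv_mul_cancel_left]
    have hbig := hmax (insert e' E0) (by
      rw [Finset.mem_filter, Finset.mem_powerset]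
      refine ⟨Finset.insert_subset he'H hsub, ?_⟩
      intro a ha b hb j hj hab
      rcases Finset.mem_insert.1 ha with ha1 | ha1
      · rcases Finset.mem_insert.1 hb with hb1 | hb1
        · rw [ha1, hb1]
        · rw [ha1] at hab
          exact absurd hab (hno' b hb1 j hj)
      · rcases Finset.mem_insert.1 hb with hb1 | hb1
        · rw [hb1] at hab
          exact absurd hab (hno a ha1 j hj)
        · exact hP a ha1 b hb1 j hj hab)
    rw [Finset.card_insert_of_notMem he'E] at hbig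
    omega
  have h2 : (H0 \ E0).card ≤ E0.card := by
    choose! φ hφ1 jj hjj hφ2 using hop
    refine Finset.card_le_card_of_injOn φ (fun e he => hφ1 e he) ?_
    intro a ha b hb hab
    have ha' := hφ2 a ha
    have hb' := hφ2 b hb
    have hja := hjj a ha
    have hjb := hjj b hb
    rw [hab] at ha'
    refine hE a (Finset.mem_sdiff.1 ha).1 b (Finset.mem_sdiff.1 hb).1 (jj b * (jj a)⁻¹)
      (J.mul_mem hjb (J.inv_mem hja)) ?_ ?_
    · rw [hb'.1, ha'.1, mul_assoc, inv_mul_cancel_left]
    · rw [hb'.2, ha'.2, mul_assoc, inv_mul_cancel_left]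
  have h3 : H0.card = E0.card + (H0 \ E0).card := by
    rw [Finset.card_sdiff_of_subset hsub]
    have := Finset.card_le_card hsub
    omega
  omega

end Pool.Agent.H28.UE
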