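import Pool.Agent.H28.UE.Axis

set_option autoImplicit false

/-!
JOB UE-CO1 (cocycles and path integrals on the Cayley tree).

`coc κ x w` = the product of the values of `κ` along the path starting at `x` and reading `w`.
It is the first component at `x` of the image of `w` under
`FreeGroup.lift (fun a => (κ · a, of a)) : FreeGroup α →* (FreeGroup α → A) ⋊ FreeGroup α`
(`(φ w g) x = g (x w)`).
`pint g x y` = the sum of the values of an antisymmetric function `g` on the oriented edges over the
path from `x` to `y`.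
-/

namespace Pool.Agent.H28.UE

section cocycle

variable {α : Type*} {A : Type*} [Group A]

/-- the action by right translation of the argument -/
def shiftAut (α A : Type*) [Group A] : FreeGroup α →* MulAut (FreeGroup α → A) where
  toFun w :=
    { toFun := fun g x => g (x * w)
      invFun := fun g x => g (x * w⁻¹)
      left_inv := fun g => by funext x; simp [mul_assoc]
      right_inv := fun g => by funext x; simp [mul_assoc]
      map_mul' := fun g h => rfl }
  map_one' := by ext g x; simp
  map_mul' := fun w w' => by ext g x; simp [mul_assoc]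

/-- the crossing cocycle -/
def coc (κ : FreeGroup α → α → A) (x w : FreeGroup α) : A :=
  ((FreeGroup.lift (fun a => (⟨fun x => κ x a, FreeGroup.of a⟩ :
    (FreeGroup α → A) ⋊[shiftAut α A] FreeGroup α)) w)).left x

theorem coc_right (κ : FreeGroup α → α → A) (w : FreeGroup α) :
    (FreeGroup.lift (fun a => (⟨fun x => κ x a, FreeGroup.of a⟩ :
      (FreeGroup α → A) ⋊[shiftAut α A] FreeGroup α)) w).right = w := by
  have h : (SemidirectProduct.rightHom.comp (FreeGroup.lift (fun a => (⟨fun x => κ x a,
      FreeGroup.of a⟩ : (FreeGroup α → A) ⋊[shiftAut α A] FreeGroup α)))) =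
      MonoidHom.id (FreeGroup α) := by
    apply FreeGroup.ext_hom
    intro a
    simp
  have h2 := DFunLike.congr_fun h w
  exact h2

theorem coc_mul (κ : FreeGroup α → α → A) (x w w' : FreeGroup α) :
    coc κ x (w * w') = coc κ x w * coc κ (x * w) w' := by
  unfold coc
  rw [map_mul, SemidirectProduct.mul_left, coc_right]
  rfl

theorem coc_of (κ : FreeGroup α → α → A) (x : FreeGroup α) (a : α) :
    coc κ x (FreeGroup.of a) = κ x a := by
  unfold coc
  rw [FreeGroup.lift_apply_of]

theorem coc_one (κ : FreeGroup α → α → A) (x : FreeGroup α) : coc κ x 1 = 1 := by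
  unfold coc
  rw [map_one]
  rfl

theorem coc_inv (κ : FreeGroup α → α → A) (x w : FreeGroup α) :
    coc κ x w⁻¹ = (coc κ (x * w⁻¹) w)⁻¹ := by
  have h := coc_mul κ x w⁻¹ w
  rw [inv_mul_cancel, coc_one] at h
  exact eq_inv_of_mul_eq_one_left h.symm

theorem coc_of_inv (κ : FreeGroup α → α → A) (x : FreeGroup α) (a : α) :
    coc κ x (FreeGroup.of a)⁻¹ = (κ (x * (FreeGroup.of a)⁻¹) a)⁻¹ := by
  rw [coc_inv, coc_of]

/-- values in a subgroup -/
theorem coc_mem (κ : FreeGroup α → α → A) (K : Subgroup A) (h : ∀ x a, κ x a ∈ K)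
    (x w : FreeGroup α) : coc κ x w ∈ K := by
  induction w using FreeGroup.induction_on generalizing x with
  | C1 =>
    rw [coc_one]
    exact K.one_mem
  | of a =>
    rw [coc_of]
    exact h x a
  | inv_of a _ =>
    rw [coc_of_inv]
    exact K.inv_mem (h _ a)
  | mul w w' h1 h2 =>
    rw [coc_mul]
    exact K.mul_mem (h1 x) (h2 _)

/-- equivariance -/
theorem coc_equiv (κ : FreeGroup α → α → A) (j : FreeGroup α) (σ : A →* A)
    (h : ∀ x a, κ (j * x) a = σ (κ x a)) (x w : FreeGroup α) :
    coc κ (j * x) w = σ (coc κ x w) := by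
  induction w using FreeGroup.induction_on generalizing x with
  | C1 => rw [coc_one, coc_one, map_one]
  | of a => rw [coc_of, coc_of, h]
  | inv_of a _ => rw [coc_of_inv, coc_of_inv, mul_assoc, h, map_inv]
  | mul w w' h1 h2 => rw [coc_mul, coc_mul, h1, mul_assoc, h2, map_mul]

/-- functoriality in the coefficients -/
theorem coc_map {A' : Type*} [Group A'] (σ : A →* A') (κ : FreeGroup α → α → A)
    (x w : FreeGroup α) : coc (fun z a => σ (κ z a)) x w = σ (coc κ x w) := by
  induction w using FreeGroup.induction_on generalizing x with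
  | C1 => rw [coc_one, coc_one, map_one]
  | of a => rw [coc_of, coc_of]
  | inv_of a _ => rw [coc_of_inv, coc_of_inv, map_inv]
  | mul w w' h1 h2 => rw [coc_mul, coc_mul, h1, h2, map_mul]

/-- products of functions with commuting values -/
theorem coc_mul_fun {A' : Type*} [CommGroup A'] (κ κ' : FreeGroup α → α → A')
    (x w : FreeGroup α) : coc (fun z a => κ z a * κ' z a) x w = coc κ x w * coc κ' x w := by
  induction w using FreeGroup.induction_on generalizing x with
  | C1 => rw [coc_one, coc_one, coc_one, mul_one]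
  | of a => rw [coc_of, coc_of, coc_of]
  | inv_of a _ => rw [coc_of_inv, coc_of_inv, coc_of_inv, mul_inv]
  | mul w w' h1 h2 =>
    rw [coc_mul, coc_mul, coc_mul, h1, h2]
    exact mul_mul_mul_comm _ _ _ _

end cocycle

section adjacent

variable {α : Type*} [DecidableEq α]

/-- neighbours in the Cayley tree -/
theorem adj_iff {x y : FreeGroup α} :
    D x y = 1 ↔ ∃ a : α, y = x * FreeGroup.of a ∨ y = x * (FreeGroup.of a)⁻¹ := by
  unfold D
  constructor
  · intro h
    unfold FreeGroup.norm at h
    obtain ⟨⟨a, b⟩, hab⟩ := List.length_eq_one_iff.1 h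
    have h2 : x⁻¹ * y = FreeGroup.mk [(a, b)] := by
      rw [← hab, FreeGroup.mk_toWord]
    have h3 : y = x * FreeGroup.mk [(a, b)] := by
      rw [← h2]
      group
    refine ⟨a, ?_⟩
    cases b
    · right
      rw [h3]
      rfl
    · left
      rw [h3]
      rfl
  · rintro ⟨a, rfl | rfl⟩
    · rw [inv_mul_cancel_left, FreeGroup.norm_of]
    · rw [inv_mul_cancel_left, FreeGroup.norm_inv_eq, FreeGroup.norm_of]

theorem D_of (x : FreeGroup α) (a : α) : D x (x * FreeGroup.of a) = 1 :=
  adj_iff.2 ⟨a, Or.inl rfl⟩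

end adjacent

section path

variable {α : Type*} [DecidableEq α] {A : Type*} [AddCommGroup A]

/-- antisymmetric functions on the edges -/
def Anti (g : FreeGroup α → FreeGroup α → A) : Prop := ∀ x y, D x y = 1 → g y x = - g x y

/-- the path integral -/
def pint (g : FreeGroup α → FreeGroup α → A) (x y : FreeGroup α) : A :=
  Multiplicative.toAdd (coc (fun z a => Multiplicative.ofAdd (g z (z * FreeGroup.of a))) x (x⁻¹ * y))

theorem pint_add (g : FreeGroup α → FreeGroup α → A) (x y z : FreeGroup α) :
    pint g x y + pint g y z = pint g x z := by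
  unfold pint
  have h : x⁻¹ * z = (x⁻¹ * y) * (y⁻¹ * z) := by group
  rw [h, coc_mul _ x (x⁻¹ * y) (y⁻¹ * z), mul_inv_cancel_left, toAdd_mul]

theorem pint_self (g : FreeGroup α → FreeGroup α → A) (x : FreeGroup α) : pint g x x = 0 := by
  unfold pint
  rw [inv_mul_cancel, coc_one, toAdd_one]

theorem pint_adj {g : FreeGroup α → FreeGroup α → A} (hg : Anti g) {x y : FreeGroup α}
    (h : D x y = 1) : pint g x y = g x y := by
  obtain ⟨a, rfl | rfl⟩ := adj_iff.1 h
  · unfold pint
    rw [inv_mul_cancel_left, coc_of, toAdd_ofAdd]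
  · unfold pint
    rw [inv_mul_cancel_left, coc_of_inv, toAdd_inv, toAdd_ofAdd, inv_mul_cancel_right, hg _ _ h,
      neg_neg]

theorem pint_smul {g : FreeGroup α → FreeGroup α → A} {j : FreeGroup α}
    (hj : ∀ x y, D x y = 1 → g (j * x) (j * y) = g x y) (x y : FreeGroup α) :
    pint g (j * x) (j * y) = pint g x y := by
  unfold pint
  have h1 : (j * x)⁻¹ * (j * y) = x⁻¹ * y := by group
  rw [h1, coc_equiv _ j (MonoidHom.id _)]
  · rfl
  · intro z a
    rw [MonoidHom.id_apply, mul_assoc, hj z _ (D_of z a)]

/-- linearity -/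
theorem pint_map {A' : Type*} [AddCommGroup A'] (f : A →+ A')
    (g : FreeGroup α → FreeGroup α → A) (x y : FreeGroup α) :
    pint (fun a b => f (g a b)) x y = f (pint g x y) := by
  unfold pint
  have h := coc_map (AddMonoidHom.toMultiplicative f)
    (fun z a => Multiplicative.ofAdd (g z (z * FreeGroup.of a))) x (x⁻¹ * y)
  have h2 := congrArg Multiplicative.toAdd h
  exact h2

theorem pint_add_fun (g g' : FreeGroup α → FreeGroup α → A) (x y : FreeGroup α) :
    pint (fun a b => g a b + g' a b) x y = pint g x y + pint g' x y := by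
  unfold pint
  rw [← toAdd_mul, ← coc_mul_fun]
  rfl

theorem pint_zero {x y : FreeGroup α} : pint (fun _ _ => (0 : A)) x y = 0 := by
  have h := pint_add_fun (fun _ _ => (0 : A)) (fun _ _ => (0 : A)) x y
  simpa using h

/-- the integral along a line -/
theorem pint_line {g : FreeGroup α → FreeGroup α → A} (hg : Anti g) {L : ℤ → FreeGroup α}
    (hL : ∀ i j : ℤ, D (L i) (L j) = (i - j).natAbs) (i : ℤ) (n : ℕ) :
    pint g (L i) (L (i + n)) =
      ∑ k ∈ Finset.range n, g (L (i + (k : ℤ))) (L (i + (k : ℤ) + 1)) := by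
  induction n with
  | zero => simp [pint_self]
  | succ n ih =>
    rw [Finset.sum_range_succ, ← ih, ← pint_add g (L i) (L (i + n)) (L (i + (n + 1 : ℕ)))]
    congr 1
    have h1 : (i + ((n + 1 : ℕ) : ℤ)) = i + (n : ℤ) + 1 := by push_cast; ring
    rw [h1]
    apply pint_adj hg
    rw [hL]
    have : i + (n : ℤ) - (i + (n : ℤ) + 1) = -1 := by ring
    rw [this]
    rfl

/-- the homomorphism defined by an invariant antisymmetric function -/
theorem pint_hom {g : FreeGroup α → FreeGroup α → A} (J : Subgroup (FreeGroup α))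
    (hJ : ∀ j ∈ J, ∀ x y, D x y = 1 → g (j * x) (j * y) = g x y) :
    ∃ f : J →* Multiplicative A, ∀ (j : J) (x : FreeGroup α),
      f j = Multiplicative.ofAdd (pint g x (j * x)) := by
  have hind : ∀ (j : J) (x : FreeGroup α), pint g x (j * x) = pint g 1 (j : FreeGroup α) := by
    intro j x
    have h1 := pint_add g x 1 (j * x)
    have h2 := pint_add g 1 (j : FreeGroup α) (j * x)
    have h3 := pint_smul (hJ j j.2) 1 x
    rw [mul_one] at h3
    have h4 := pint_add g x 1 x
    rw [pint_self] at h4
    rw [← h1, ← h2, h3, add_left_comm, h4, add_zero]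
  refine ⟨MonoidHom.mk' (fun j => Multiplicative.ofAdd (pint g 1 (j : FreeGroup α))) ?_, ?_⟩
  · intro j j'
    rw [← ofAdd_add]
    congr 1
    have h2 := pint_add g 1 (j : FreeGroup α) ((j : FreeGroup α) * j')
    have h3 := pint_smul (hJ j j.2) 1 (j' : FreeGroup α)
    rw [mul_one] at h3
    rw [Subgroup.coe_mul, ← h2, h3]
  · intro j x
    rw [hind]
    rfl

end path

end Pool.Agent.H28.UE
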