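import Pool.Agent.H28.UE.Chi

set_option autoImplicit false

/-!
JOB UE-CN (connected = convex in the tree; existence of invariant subtrees).

`convex_of_joined`: if `z` is between `x` and `y`, `z ≠ x`, `z ≠ y`, then along an edge path from `x`
to `y` avoiding `z` the property 'z is not between x and the current vertex' is preserved
(if `D u v = 1`, `v ≠ z`, `B x z v`, then `B x z u`: `TreeDist.B_or` gives `B x z u` or `B u z v`, and the
latter means `z = u` or `z = v`), so the path passes through `z`, which lies in `A`.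
`exists_initial`: `T` = the vertices between `1` and `ψ (of i)` (finitely many, `interp`: one for each
distance) and `1`; `A = {ψ h * t}`. Every `ψ h * t` is joined in `A` to `ψ h`, and `ψ h` is joined to
`1` by induction on `h` (`FreeGroup.induction_on` or word induction: `ψ (h * of i)` is joined to
`ψ h` by a translate of `[1, ψ (of i)]`).
-/

namespace Pool.Agent.H28.UE

variable {α : Type*} [DecidableEq α]

/-- `x` and `y` are joined by an edge path inside `A` -/
def Joined (A : Set (FreeGroup α)) (x y : FreeGroup α) : Prop :=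
  x ∈ A ∧ Relation.ReflTransGen (fun u v => D u v = 1 ∧ v ∈ A) x y

theorem cn_mem_right {A : Set (FreeGroup α)} {x y : FreeGroup α} (h : Joined A x y) : y ∈ A := by
  obtain ⟨hx, h⟩ := h
  rcases Relation.ReflTransGen.cases_tail h with h | ⟨z, _, hz⟩
  · exact h ▸ hx
  · exact hz.2

theorem Joined.trans {A : Set (FreeGroup α)} {x y z : FreeGroup α} (h : Joined A x y)
    (h' : Joined A y z) : Joined A x z :=
  ⟨h.1, h.2.trans h'.2⟩

theorem cn_refl {A : Set (FreeGroup α)} {x : FreeGroup α} (h : x ∈ A) : Joined A x x :=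
  ⟨h, Relation.ReflTransGen.refl⟩

theorem cn_edge {A : Set (FreeGroup α)} {x y : FreeGroup α} (hx : x ∈ A) (hy : y ∈ A)
    (h : D x y = 1) : Joined A x y :=
  ⟨hx, Relation.ReflTransGen.single ⟨h, hy⟩⟩

theorem Joined.symm {A : Set (FreeGroup α)} {x y : FreeGroup α} (h : Joined A x y) :
    Joined A y x := by
  obtain ⟨hx, h⟩ := h
  induction h with
  | refl => exact cn_refl hx
  | tail hab hbc ih =>
    refine Joined.trans (cn_edge hbc.2 ih.1 ?_) ih
    rw [D_symm]
    exact hbc.1

/-- if the segment `[x, y]` lies in `A`, then `x` and `y` are joined in `A` -/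
theorem cn_joined_of_seg {A : Set (FreeGroup α)} : ∀ (n : ℕ) (x y : FreeGroup α), D x y = n →
    (∀ z, (TT α).B x z y → z ∈ A) → Joined A x y := by
  intro n
  induction n with
  | zero =>
    intro x y h hA
    have := D_eq_zero h
    subst this
    exact cn_refl (hA x ((TT α).B_left x x))
  | succ n ih =>
    intro x y h hA
    obtain ⟨z, hz1, hz2⟩ := (TT α).interp x y n (by rw [← D_eq]; omega)
    have hzB : (TT α).B x z y := hz2
    have hzy : D z y = 1 := by
      have h1 := D_eq x y
      have h2 := D_eq z y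
      omega
    refine Joined.trans (ih x z (by rw [D_eq]; exact hz1) fun w hw => hA w ?_)
      (cn_edge (hA z hzB) (hA y ((TT α).B_right x y)) hzy)
    have h1 := (TT α).tri w z y
    have h2 := (TT α).tri x w y
    unfold TreeDist.B at hw hzB ⊢
    omega

/-- convex sets are connected (induction on `D x y`) -/
theorem joined_of_convex {A : Set (FreeGroup α)} (hA : (TT α).Convex A) {x y : FreeGroup α}
    (hx : x ∈ A) (hy : y ∈ A) : Joined A x y :=
  cn_joined_of_seg _ x y rfl fun z hz => hA x hx y hy z hz

/-- connected sets are convex: a path from `x` to `y` passes through every vertex between. -/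
theorem convex_of_joined {A : Set (FreeGroup α)} (hA : ∀ x ∈ A, ∀ y ∈ A, Joined A x y) :
    (TT α).Convex A := by
  intro x hx y hy z hz
  obtain ⟨-, h⟩ := hA x hx y hy
  clear hy
  induction h with
  | refl =>
    have h1 : (TT α).d x z = 0 := by
      have h2 := (TT α).self x
      unfold TreeDist.B at hz
      omega
    have := (TT α).eq_of _ _ h1
    exact this ▸ hx
  | @tail u v hab hbc ih =>
    rcases (TT α).B_or hz u with h | h
    · exact ih h
    · have huv : (TT α).d u v = 1 := hbc.1
      unfold TreeDist.B at h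
      rcases Nat.eq_zero_or_pos ((TT α).d u z) with h1 | h1
      · have := (TT α).eq_of _ _ h1
        subst this
        exact ih ((TT α).B_right x u)
      · have h2 : (TT α).d z v = 0 := by omega
        have := (TT α).eq_of _ _ h2
        exact this ▸ hbc.2

theorem cn_seg_unique {x y z z' : FreeGroup α} (h : (TT α).B x z y) (h' : (TT α).B x z' y)
    (hd : (TT α).d x z = (TT α).d x z') : z = z' := by
  have h1 := (TT α).four x y z z'
  have h2 := (TT α).symm y z
  have h3 := (TT α).symm y z'
  unfold TreeDist.B at h h'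
  exact (TT α).eq_of _ _ (by omega)

theorem cn_seg_finite (x y : FreeGroup α) : {z | (TT α).B x z y}.Finite := by
  refine Set.Finite.of_finite_image (f := fun z => (TT α).d x z)
    ((Set.finite_Iic ((TT α).d x y)).subset ?_) ?_
  · rintro _ ⟨z, hz, rfl⟩
    have hz' : (TT α).B x z y := hz
    unfold TreeDist.B at hz'
    simp only [Set.mem_Iic]
    omega
  · intro z hz z' hz' hd
    exact cn_seg_unique hz hz' hd

/-- Every homomorphism of a free group of finite rank has an invariant subtree covered by the
translates of a finite set: the union of the translates of the geodesics `[1, ψ (of i)]`. -/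
theorem exists_initial {k : ℕ} (ψ : FreeGroup (Fin k) →* FreeGroup α) :
    ∃ (A : Set (FreeGroup α)) (T : Finset (FreeGroup α)), (TT α).Convex A ∧ A.Nonempty ∧
      (∀ h, ∀ x ∈ A, ψ h * x ∈ A) ∧ ∀ x ∈ A, ∃ h, ∃ t ∈ T, x = ψ h * t := by
  classical
  have hfin : ({1} ∪ ⋃ i : Fin k, {z | (TT α).B 1 z (ψ (FreeGroup.of i))}).Finite :=
    (Set.finite_singleton _).union (Set.finite_iUnion fun i => cn_seg_finite _ _)
  obtain ⟨T, hT⟩ : ∃ T : Finset (FreeGroup α),
      ∀ z, z ∈ T ↔ z = 1 ∨ ∃ i : Fin k, (TT α).B 1 z (ψ (FreeGroup.of i)) := by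
    refine ⟨hfin.toFinset, fun z => ?_⟩
    simp only [Set.Finite.mem_toFinset, Set.mem_union, Set.mem_singleton_iff, Set.mem_iUnion,
      Set.mem_ofPred_eq]
  set A : Set (FreeGroup α) := {x | ∃ h, ∃ t ∈ T, x = ψ h * t} with hAdef
  have h1T : (1 : FreeGroup α) ∈ T := (hT 1).2 (Or.inl rfl)
  have hψA : ∀ h, ψ h ∈ A := fun h => ⟨h, 1, h1T, (mul_one _).symm⟩
  -- translates of the segments
  have hseg : ∀ (g : FreeGroup (Fin k)) (t : FreeGroup α),
      (∀ z, (TT α).B 1 z t → z ∈ T) → Joined A (ψ g) (ψ g * t) := by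
    intro g t ht
    refine cn_joined_of_seg _ _ _ rfl fun z hz => ?_
    refine ⟨g, (ψ g)⁻¹ * z, ht _ ?_, by group⟩
    rw [← B_mul_iff (ψ g)]
    simpa [mul_inv_cancel_left] using hz
  have hsegT : ∀ t ∈ T, ∀ z, (TT α).B 1 z t → z ∈ T := by
    intro t ht z hz
    rcases (hT t).1 ht with rfl | ⟨i, hi⟩
    · have h0 : (TT α).d 1 z = 0 := by
        have h2 := (TT α).self (1 : FreeGroup α)
        unfold TreeDist.B at hz
        omega
      have := (TT α).eq_of _ _ h0
      exact this ▸ h1T
    · refine (hT z).2 (Or.inr ⟨i, ?_⟩)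
      have h1 := (TT α).tri z t (ψ (FreeGroup.of i))
      have h2 := (TT α).tri 1 z (ψ (FreeGroup.of i))
      unfold TreeDist.B at hz hi ⊢
      omega
  have hgen : ∀ (h g : FreeGroup (Fin k)), Joined A (ψ g) (ψ (g * h)) := by
    intro h
    induction h using FreeGroup.induction_on with
    | C1 => intro g; rw [mul_one]; exact cn_refl (hψA g)
    | of i =>
      intro g
      rw [map_mul]
      exact hseg g _ fun z hz => (hT z).2 (Or.inr ⟨i, hz⟩)
    | inv_of i ih =>
      intro g
      have h1 := ih (g * (FreeGroup.of i)⁻¹)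
      rw [inv_mul_cancel_right] at h1
      exact h1.symm
    | mul x y hx hy =>
      intro g
      have h1 := hx g
      have h2 := hy (g * x)
      rw [mul_assoc] at h2
      exact h1.trans h2
  refine ⟨A, T, convex_of_joined ?_, ⟨ψ 1, hψA 1⟩, ?_, fun x hx => hx⟩
  · rintro x ⟨h, t, ht, rfl⟩ y ⟨h', t', ht', rfl⟩
    have h1 := hseg h t (hsegT t ht)
    have h2 := hseg h' t' (hsegT t' ht')
    have h3 := hgen (h⁻¹ * h') h
    rw [mul_inv_cancel_left] at h3
    exact h1.symm.trans (h3.trans h2)
  · rintro h x ⟨h', t, ht, rfl⟩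
    exact ⟨h * h', t, ht, by rw [map_mul, mul_assoc]⟩

end Pool.Agent.H28.UE
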