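import Mathlib
import Pool.Agent.H28.FreeTree

set_option autoImplicit false

/-!
MP_63d20d_al: basic definitions (geometry of the Cayley tree of a free group).
-/

namespace Pool.Agent.H28.UE

section geometry

variable {α : Type*} [DecidableEq α]

/-- The tree of a free group (left translations are isometries). -/
abbrev TT (α : Type*) [DecidableEq α] : TreeDist (FreeGroup α) := freeDist α

/-- The distance in the Cayley tree. -/
def D (x y : FreeGroup α) : ℕ := (x⁻¹ * y).norm

/-- Translation length. -/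
noncomputable def tl (g : FreeGroup α) : ℕ :=
  sInf (Set.range fun x : FreeGroup α => D x (g * x))

/-- The axis. -/
def Ax (g : FreeGroup α) : Set (FreeGroup α) := {x | D x (g * x) = tl g}

/-- `L` parametrises the axis of `g`. -/
structure IsLine (g : FreeGroup α) (L : ℤ → FreeGroup α) : Prop where
  iso : ∀ i j : ℤ, D (L i) (L j) = (i - j).natAbs
  step : ∀ i : ℤ, g * L i = L (i + tl g)
  range : Set.range L = Ax g

theorem D_eq (x y : FreeGroup α) : D x y = (TT α).d x y := rfl

theorem D_mul (f x y : FreeGroup α) : D (f * x) (f * y) = D x y := freeDist_mul f x y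

theorem D_self (x : FreeGroup α) : D x x = 0 := (TT α).self x

theorem D_symm (x y : FreeGroup α) : D x y = D y x := (TT α).symm x y

theorem D_tri (x y z : FreeGroup α) : D x z ≤ D x y + D y z := (TT α).tri x y z

theorem D_eq_zero {x y : FreeGroup α} (h : D x y = 0) : x = y := (TT α).eq_of x y h

theorem tl_le (g x : FreeGroup α) : tl g ≤ D x (g * x) := Nat.sInf_le ⟨x, rfl⟩

theorem Ax_nonempty (g : FreeGroup α) : (Ax g).Nonempty := by
  have h : (Set.range fun x : FreeGroup α => D x (g * x)).Nonempty := ⟨_, 1, rfl⟩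
  obtain ⟨x, hx⟩ := Nat.sInf_mem h
  exact ⟨x, hx⟩

theorem B_mul_iff (f x z y : FreeGroup α) :
    (TT α).B (f * x) (f * z) (f * y) ↔ (TT α).B x z y := by
  unfold TreeDist.B
  rw [← D_eq, ← D_eq, ← D_eq, ← D_eq, ← D_eq, ← D_eq, D_mul, D_mul, D_mul]

end geometry

/-- A strict total order invariant under conjugation. -/
structure COrd (G : Type*) [Group G] (lt : G → G → Prop) : Prop where
  irrefl : ∀ a, ¬ lt a a
  trans : ∀ a b c, lt a b → lt b c → lt a c
  total : ∀ a b, a ≠ b → lt a b ∨ lt b a
  conj : ∀ a b x, lt a b → lt (x * a * x⁻¹) (x * b * x⁻¹)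

theorem COrd.flip {G : Type*} [Group G] {lt : G → G → Prop} (h : COrd G lt) :
    COrd G (fun a b => lt b a) where
  irrefl := h.irrefl
  trans := fun a b c h1 h2 => h.trans _ _ _ h2 h1
  total := fun a b hab => (h.total a b hab).symm
  conj := fun a b x h1 => h.conj _ _ _ h1

/-- `s` generates its centralizer. -/
def IsRoot {G : Type*} [Group G] (s : G) : Prop := ∀ g : G, Commute g s → g ∈ Subgroup.zpowers s

/-- The long power word. -/
def rW {G : Type*} [Monoid G] (M : ℕ) (x y : G) : G :=
  (x ^ 10 * y ^ 10) ^ M * (x ^ 12 * y ^ 10) ^ M * (x ^ 10 * y ^ 10) ^ (2 * M) *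
    (x ^ 12 * y ^ 10) ^ (3 * M)

/-- The nested word in three variables. -/
def omW {G : Type*} [Monoid G] (M : ℕ) (x y z : G) : G := rW M (rW M x y) (rW M y z)

theorem map_rW {G H Φ : Type*} [Monoid G] [Monoid H] [FunLike Φ G H] [MonoidHomClass Φ G H]
    (f : Φ) (M : ℕ) (x y : G) : f (rW M x y) = rW M (f x) (f y) := by
  simp [rW, map_mul, map_pow]

theorem map_omW {G H Φ : Type*} [Monoid G] [Monoid H] [FunLike Φ G H] [MonoidHomClass Φ G H]
    (f : Φ) (M : ℕ) (x y z : G) : f (omW M x y z) = omW M (f x) (f y) (f z) := by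
  simp [omW, map_rW]

theorem conj_rW {G : Type*} [Group G] (M : ℕ) (g x y : G) :
    rW M (g * x * g⁻¹) (g * y * g⁻¹) = g * rW M x y * g⁻¹ := by
  have h := map_rW (MulAut.conj g) M x y
  simp only [MulAut.conj_apply] at h
  exact h.symm

end Pool.Agent.H28.UE
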