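import Pool.Agent.H28.UE.Defs
import Pool.Agent.H28.Hopf

set_option autoImplicit false

/-!
JOB UE-IN (injectivity from the abelianisation mod p; `io` is injective; exponent sums).

`inj_of_ker`: `J = ψ.range` is free (`subgroupIsFreeOfIsFree`), on a set `ι`. Homomorphisms
`J →* Multiplicative (ZMod p)` correspond to functions `ι → ZMod p`, and by composition with the
surjection `FreeGroup (Fin k) → J` to homomorphisms `FreeGroup (Fin k) →* Multiplicative (ZMod p)`
killing `ker ψ`, i.e. to all functions `Fin k → ZMod p`. So `ι` is finite and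
`p ^ |ι| = p ^ k`, `|ι| = k`, `J ≃* FreeGroup (Fin k)`, and `ψ` is injective by `Pool.Agent.H28.hopf`.
`io_injective`: `io x = a², io y = b, io z = a b a⁻¹`. For a homomorphism
`χ : FreeGroup (Fin 3) →* Multiplicative (ZMod 2)` there is a homomorphism from
`FreeGroup (Fin 2)` to `(A × A) ⋊ Perm/ZMod 2` (swap), `a ↦ ((χ x, 1), swap)`,
`b ↦ ((χ y, χ z), 1)`; the first component of the image of `io g` is `χ g` (check on `x, y, z`, the
set of elements with trivial swap component is a subgroup on which the first component is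
multiplicative). So `io g = 1` implies `χ g = 1`; apply `inj_of_ker` (`p = 2`).
-/

namespace Pool.Agent.H28.UE

theorem inj_of_ker {β : Type*} {k p : ℕ} (hp : p.Prime) (ψ : FreeGroup (Fin k) →* FreeGroup β)
    (h : ∀ g, ψ g = 1 → ∀ χ : FreeGroup (Fin k) →* Multiplicative (ZMod p), χ g = 1) :
    Function.Injective ψ := by
  classical
  have : Fact p.Prime := ⟨hp⟩
  have hfree : IsFreeGroup ψ.range := subgroupIsFreeOfIsFree ψ.range
  let R : (ψ.range →* Multiplicative (ZMod p)) → (FreeGroup (Fin k) →* Multiplicative (ZMod p)) :=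
    fun f => f.comp ψ.rangeRestrict
  have hRi : Function.Injective R := by
    intro f g hfg
    ext x : 1
    obtain ⟨y, hy⟩ := ψ.rangeRestrict_surjective x
    rw [← hy]
    exact DFunLike.congr_fun hfg y
  have hRs : Function.Surjective R := by
    intro χ
    have hker : ψ.rangeRestrict.ker ≤ χ.ker := by
      intro g hg
      rw [MonoidHom.mem_ker] at hg ⊢
      apply h g
      have := congrArg Subtype.val hg
      simpa using this
    refine ⟨ψ.rangeRestrict.liftOfSurjective ψ.rangeRestrict_surjective ⟨χ, hker⟩, ?_⟩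
    exact MonoidHom.liftOfRightInverse_comp ψ.rangeRestrict _
      (Function.rightInverse_surjInv ψ.rangeRestrict_surjective) ⟨χ, hker⟩
  let e : (IsFreeGroup.Generators ψ.range → Multiplicative (ZMod p)) ≃
      (Fin k → Multiplicative (ZMod p)) :=
    (IsFreeGroup.lift.trans (Equiv.ofBijective R ⟨hRi, hRs⟩)).trans FreeGroup.lift.symm
  have hfin1 : Finite (Multiplicative (ZMod p)) := inferInstanceAs (Finite (ZMod p))
  have hfin2 : Finite (IsFreeGroup.Generators ψ.range → Multiplicative (ZMod p)) :=
    Finite.of_equiv _ e.symm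
  have hnt : (Multiplicative.ofAdd (1 : ZMod p)) ≠ 1 := by
    intro h0
    exact one_ne_zero (α := ZMod p) (Multiplicative.ofAdd.injective h0)
  have hfin3 : Finite (IsFreeGroup.Generators ψ.range) := by
    refine Finite.of_injective (fun i : IsFreeGroup.Generators ψ.range =>
      (fun j => if j = i then Multiplicative.ofAdd (1 : ZMod p) else 1)) ?_
    intro i j hij
    have h1 := congrFun hij i
    by_contra hne
    have h2 : (if i = i then Multiplicative.ofAdd (1 : ZMod p) else 1) =
      (if i = j then Multiplicative.ofAdd (1 : ZMod p) else 1) := h1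
    rw [if_pos rfl, if_neg hne] at h2
    exact hnt h2
  have hcard : Nat.card (IsFreeGroup.Generators ψ.range) = k := by
    have h1 := Nat.card_congr e
    rw [Nat.card_fun, Nat.card_fun, Nat.card_fin] at h1
    have h2 : Nat.card (Multiplicative (ZMod p)) = p := Nat.card_zmod p
    rw [h2] at h1
    exact Nat.pow_right_injective hp.two_le h1
  let e2 : IsFreeGroup.Generators ψ.range ≃ Fin k := Finite.equivFinOfCardEq hcard
  let E : ψ.range ≃* FreeGroup (Fin k) :=
    (IsFreeGroup.toFreeGroup ψ.range).trans (FreeGroup.freeGroupCongr e2)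
  have hinj := Pool.Agent.H28.hopf (E.toMonoidHom.comp ψ.rangeRestrict)
    (E.surjective.comp ψ.rangeRestrict_surjective)
  have h3 : Function.Injective ψ.rangeRestrict := by
    intro x y hxy
    apply hinj
    show E (ψ.rangeRestrict x) = E (ψ.rangeRestrict y)
    rw [hxy]
  intro x y hxy
  apply h3
  exact Subtype.ext hxy

/-- the embedding `x ↦ a², y ↦ b, z ↦ a b a⁻¹` -/
def io : FreeGroup (Fin 3) →* FreeGroup (Fin 2) :=
  FreeGroup.lift ![FreeGroup.of 0 * FreeGroup.of 0, FreeGroup.of 1,
    FreeGroup.of 0 * FreeGroup.of 1 * (FreeGroup.of 0)⁻¹]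

/-- the permutation induced by the first generator -/
def inj_pa {A : Type*} [CommGroup A] (c : A) : Equiv.Perm (Bool × A) where
  toFun x := match x with
    | (false, u) => (true, u)
    | (true, u) => (false, u * c)
  invFun x := match x with
    | (true, u) => (false, u)
    | (false, u) => (true, u * c⁻¹)
  left_inv := by rintro ⟨_ | _, u⟩ <;> simp
  right_inv := by rintro ⟨_ | _, u⟩ <;> simp

/-- the permutation induced by the second generator -/
def inj_pb {A : Type*} [CommGroup A] (c d : A) : Equiv.Perm (Bool × A) where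
  toFun x := match x with
    | (false, u) => (false, u * c)
    | (true, u) => (true, u * d)
  invFun x := match x with
    | (false, u) => (false, u * c⁻¹)
    | (true, u) => (true, u * d⁻¹)
  left_inv := by rintro ⟨_ | _, u⟩ <;> simp
  right_inv := by rintro ⟨_ | _, u⟩ <;> simp

theorem io_injective : Function.Injective io := by
  apply inj_of_ker (p := 2) Nat.prime_two
  intro g hg χ
  let Φ : FreeGroup (Fin 2) →* Equiv.Perm (Bool × Multiplicative (ZMod 2)) :=
    FreeGroup.lift ![inj_pa (χ (FreeGroup.of 0)), inj_pb (χ (FreeGroup.of 1)) (χ (FreeGroup.of 2))]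
  have h0 : Φ (FreeGroup.of 0) = inj_pa (χ (FreeGroup.of 0)) := by simp [Φ]
  have h1 : Φ (FreeGroup.of 1) = inj_pb (χ (FreeGroup.of 1)) (χ (FreeGroup.of 2)) := by simp [Φ]
  have key : ∀ g : FreeGroup (Fin 3), ∀ u, Φ (io g) (false, u) = (false, u * χ g) := by
    intro g
    induction g using FreeGroup.induction_on with
    | C1 => intro u; simp
    | of i =>
      intro u
      fin_cases i
      · simp only [io, FreeGroup.lift_apply_of]
        show Φ (FreeGroup.of 0 * FreeGroup.of 0) (false, u) = _
        rw [map_mul, h0]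
        rfl
      · simp only [io, FreeGroup.lift_apply_of]
        show Φ (FreeGroup.of 1) (false, u) = _
        rw [h1]
        rfl
      · simp only [io, FreeGroup.lift_apply_of]
        show Φ (FreeGroup.of 0 * FreeGroup.of 1 * (FreeGroup.of 0)⁻¹) (false, u) = _
        rw [map_mul, map_mul, map_inv, h0, h1]
        show (false, u * (χ (FreeGroup.of 0))⁻¹ * χ (FreeGroup.of 2) * χ (FreeGroup.of 0)) = _
        have h5 : u * (χ (FreeGroup.of 0))⁻¹ * χ (FreeGroup.of 2) * χ (FreeGroup.of 0) =
            u * χ (FreeGroup.of 2) := by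
          rw [mul_right_comm, inv_mul_cancel_right]
        rw [h5]
        rfl
    | inv_of i ih =>
      intro u
      rw [map_inv, map_inv, Equiv.Perm.inv_eq_iff_eq, ih, map_inv, inv_mul_cancel_right]
    | mul x y ihx ihy =>
      intro u
      rw [map_mul, map_mul, Equiv.Perm.mul_apply, ihy, ihx, map_mul, mul_assoc, mul_comm (χ x)]
  have h2 := key g 1
  rw [hg, map_one, Equiv.Perm.one_apply, one_mul] at h2
  exact (congrArg Prod.snd h2).symm

/-- the generator `a` is not in the image (count `a` modulo 2) -/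
theorem not_mem_io (g : FreeGroup (Fin 3)) : io g ≠ FreeGroup.of 0 := by
  intro hg
  let χ : FreeGroup (Fin 2) →* Multiplicative (ZMod 2) :=
    FreeGroup.lift ![Multiplicative.ofAdd (1 : ZMod 2), 1]
  have h1 : χ.comp io = 1 := by
    apply FreeGroup.ext_hom
    intro i
    fin_cases i
    · simp only [io, MonoidHom.comp_apply, FreeGroup.lift_apply_of]
      show χ (FreeGroup.of 0 * FreeGroup.of 0) = 1
      simp only [χ, map_mul, FreeGroup.lift_apply_of]
      rfl
    · simp only [io, MonoidHom.comp_apply, FreeGroup.lift_apply_of]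
      show χ (FreeGroup.of 1) = 1
      simp only [χ, FreeGroup.lift_apply_of]
      rfl
    · simp only [io, MonoidHom.comp_apply, FreeGroup.lift_apply_of]
      show χ (FreeGroup.of 0 * FreeGroup.of 1 * (FreeGroup.of 0)⁻¹) = 1
      simp only [χ, map_mul, map_inv, FreeGroup.lift_apply_of]
      rfl
  have h2 : χ (io g) = 1 := DFunLike.congr_fun h1 g
  rw [hg] at h2
  have h3 : χ (FreeGroup.of 0) = Multiplicative.ofAdd (1 : ZMod 2) := by
    simp [χ]
  rw [h3] at h2
  exact one_ne_zero (α := ZMod 2) (Multiplicative.ofAdd.injective h2)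

/-- the relator of `U2` -/
def om (M : ℕ) : FreeGroup (Fin 3) := omW M (FreeGroup.of 0) (FreeGroup.of 1) (FreeGroup.of 2)

/-- the relator of `P` -/
def ww (M : ℕ) : FreeGroup (Fin 2) := io (om M)

theorem ww_eq (M : ℕ) : ww M = omW M (FreeGroup.of 0 * FreeGroup.of 0) (FreeGroup.of 1)
    (FreeGroup.of 0 * FreeGroup.of 1 * (FreeGroup.of 0)⁻¹) := by
  unfold ww om
  rw [map_omW]
  simp only [io, FreeGroup.lift_apply_of]
  rfl

theorem inj_conj_omW {G : Type*} [Group G] (M : ℕ) (g x y z : G) :
    omW M (g * x * g⁻¹) (g * y * g⁻¹) (g * z * g⁻¹) = g * omW M x y z * g⁻¹ := by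
  have h := map_omW (MulAut.conj g) M x y z
  simp only [MulAut.conj_apply] at h
  exact h.symm

/-- the element `c = omW x z (x y x⁻¹)` -/
def cc (M : ℕ) : FreeGroup (Fin 3) := omW M (FreeGroup.of 0) (FreeGroup.of 2)
    (FreeGroup.of 0 * FreeGroup.of 1 * (FreeGroup.of 0)⁻¹)

theorem io_cc (M : ℕ) : io (cc M) = FreeGroup.of 0 * ww M * (FreeGroup.of 0)⁻¹ := by
  rw [ww_eq, ← inj_conj_omW]
  unfold cc
  rw [map_omW, map_mul, map_mul, map_inv]
  have h0 : io (FreeGroup.of 0) = FreeGroup.of 0 * FreeGroup.of 0 := by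
    simp only [io, FreeGroup.lift_apply_of]; rfl
  have h1 : io (FreeGroup.of 1) = FreeGroup.of 1 := by
    simp only [io, FreeGroup.lift_apply_of]; rfl
  have h2 : io (FreeGroup.of 2) = FreeGroup.of 0 * FreeGroup.of 1 * (FreeGroup.of 0)⁻¹ := by
    simp only [io, FreeGroup.lift_apply_of]; rfl
  rw [h0, h1, h2]
  congr 1
  group

/-- exponent sum of the generator `i` -/
def es {k : ℕ} (i : Fin k) : FreeGroup (Fin k) →* Multiplicative ℤ :=
  FreeGroup.lift fun j => Multiplicative.ofAdd (if j = i then 1 else 0)

theorem es_rW {k : ℕ} (i : Fin k) (M : ℕ) (x y : FreeGroup (Fin k)) :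
    Multiplicative.toAdd (es i (rW M x y)) =
      78 * M * Multiplicative.toAdd (es i x) + 70 * M * Multiplicative.toAdd (es i y) := by
  simp only [rW, map_mul, map_pow, toAdd_mul, toAdd_pow, nsmul_eq_mul]
  push_cast
  ring

/-- `x` and `y` etc. do not commute; the two halves of `om` do not commute: project `x ↦ 1`; then
`y ^ (70 M)` would commute with `rW y z`, so `y` would (`commute_of_pow`), so `rW y z` would be a
power of `y` (`isRoot_of`), but its exponent sum in `z` is `70 M ≠ 0`. -/
theorem nc_of {k : ℕ} {i j : Fin k} (h : i ≠ j) :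
    ¬ Commute (FreeGroup.of i : FreeGroup (Fin k)) (FreeGroup.of j) := by
  intro hc
  let Φ : FreeGroup (Fin k) →* Equiv.Perm (Fin 3) :=
    FreeGroup.lift fun l => if l = i then Equiv.swap 0 1 else Equiv.swap 1 2
  have h1 := congrArg Φ hc.eq
  rw [map_mul, map_mul] at h1
  have h2 : Φ (FreeGroup.of i) = Equiv.swap 0 1 := by simp [Φ]
  have h3 : Φ (FreeGroup.of j) = Equiv.swap 1 2 := by simp [Φ, h.symm]
  rw [h2, h3] at h1
  have h4 := DFunLike.congr_fun h1 0
  revert h4
  decide

/-- the mod `p` abelianisation kills `p`-th powers, hence the normal closure of a `p`-th power -/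
theorem chi_pow {k p : ℕ} (hp : p.Prime) (u g : FreeGroup (Fin k))
    (hg : g ∈ Subgroup.normalClosure {u ^ p}) (χ : FreeGroup (Fin k) →* Multiplicative (ZMod p)) :
    χ g = 1 := by
  have : Fact p.Prime := ⟨hp⟩
  have h1 : Subgroup.normalClosure {u ^ p} ≤ χ.ker := by
    apply Subgroup.normalClosure_le_normal
    intro x hx
    rw [Set.mem_singleton_iff] at hx
    rw [hx]
    show χ (u ^ p) = 1
    rw [map_pow]
    apply Multiplicative.toAdd.injective
    rw [toAdd_pow]
    simp
  exact h1 hg

end Pool.Agent.H28.UE
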