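import Pool.Agent.H28.UE.Pair
import Pool.Agent.H28.UE.Inj

set_option autoImplicit false

/-!
JOB UE-RI (rigidity of `om`).

`nc_halves`: project `x ↦ 1` (and `y, z` to themselves): if `R1 = rW x y` and `R2 = rW y z` commute
then `y ^ (70 M)` (`rW M 1 y`, a positive power of `y`) commutes with `rW y z`, so `y` commutes with
`rW y z` (`commute_of_pow`), which is then a power of `y` (`isRoot_of`); its exponent sum in `z` is
`70 M ≠ 0` (`es_rW`): contradiction.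
`rigid`: `θ (om M) = rW (θ R1) (θ R2)`, `θ R1` and `θ R2` do not commute (`θ` injective).
`pair_conj`: `g` with `θ' R1 = g θ R1 g⁻¹`, `θ' R2 = g θ R2 g⁻¹`. Replace `θ` by `g θ g⁻¹`. Then
`rW (θ' x) (θ' y) = rW (θ x) (θ y)`: `pair_eq` gives `i` with
`θ' x = σ1 ^ i θ x σ1 ^ -i`, `θ' y = σ1 ^ i θ y σ1 ^ -i`, `σ1 = θ R1`, and similarly
`θ' y = σ2 ^ j θ y σ2 ^ -j`, `θ' z = σ2 ^ j θ z σ2 ^ -j`, `σ2 = θ R2`. So `σ2 ^ -j σ1 ^ i` commutes with
`θ y`, by injectivity `R2 ^ -j R1 ^ i` commutes with `y`, so it is a power of `y`. The exponent sum in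
`x` is `78 M i = 0`, in `z` it is `- 70 M j = 0`. So `i = j = 0`, `θ' = θ` on `x, y, z`.
-/

namespace Pool.Agent.H28.UE

variable {α : Type*} [DecidableEq α]

theorem es_of {k : ℕ} (i j : Fin k) :
    Multiplicative.toAdd (es i (FreeGroup.of j)) = if j = i then 1 else 0 := by
  unfold es
  rw [FreeGroup.lift_apply_of]
  rfl

theorem nc_halves {M : ℕ} (hM : 1000000 ≤ M) :
    ¬ Commute (rW M (FreeGroup.of 0) (FreeGroup.of 1) : FreeGroup (Fin 3))
      (rW M (FreeGroup.of 1) (FreeGroup.of 2)) := by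
  intro hc
  let φ : FreeGroup (Fin 3) →* FreeGroup (Fin 3) :=
    FreeGroup.lift ![1, FreeGroup.of 1, FreeGroup.of 2]
  have h0 : φ (FreeGroup.of 0) = 1 := by simp [φ]
  have h1 : φ (FreeGroup.of 1) = FreeGroup.of 1 := by simp [φ]
  have h2 : φ (FreeGroup.of 2) = FreeGroup.of 2 := by simp [φ]
  have hc' := hc.map φ
  rw [map_rW, map_rW, h0, h1, h2] at hc'
  have hp : rW M (1 : FreeGroup (Fin 3)) (FreeGroup.of 1) = (FreeGroup.of 1) ^ (70 * M) := by
    unfold rW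
    rw [one_pow, one_pow, one_mul, ← pow_mul, ← pow_mul, ← pow_mul, ← pow_add, ← pow_add,
      ← pow_add]
    congr 1
    ring
  rw [hp] at hc'
  have hc2 := commute_of_pow (by omega) hc'
  have hmem := isRoot_of (1 : Fin 3) _ hc2.symm
  obtain ⟨k, hk⟩ := Subgroup.mem_zpowers_iff.mp hmem
  have he := congrArg (fun g => Multiplicative.toAdd (es (2 : Fin 3) g)) hk
  simp only [map_zpow, toAdd_zpow, es_rW, es_of] at he
  simp at he
  omega

theorem rigid {M : ℕ} (hM : 1000000 ≤ M) {θ θ' : FreeGroup (Fin 3) →* FreeGroup α}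
    (hθ : Function.Injective θ) (hθ' : Function.Injective θ') {s f f' : FreeGroup α}
    (hs : IsRoot s) {l l' : ℤ} (e : θ (om M) = f * s ^ l * f⁻¹)
    (e' : θ' (om M) = f' * s ^ l' * f'⁻¹) : ∃ g, ∀ h, θ' h = g * θ h * g⁻¹ := by
  have hnc : ∀ {ρ : FreeGroup (Fin 3) →* FreeGroup α}, Function.Injective ρ →
      ∀ {u v : FreeGroup (Fin 3)}, ¬ Commute u v → ¬ Commute (ρ u) (ρ v) := by
    intro ρ hρ u v huv hc
    apply huv
    unfold Commute SemiconjBy at hc ⊢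
    rw [← map_mul, ← map_mul] at hc
    exact hρ hc
  have hom : ∀ ρ : FreeGroup (Fin 3) →* FreeGroup α, ρ (om M) =
      rW M (ρ (rW M (FreeGroup.of 0) (FreeGroup.of 1))) (ρ (rW M (FreeGroup.of 1) (FreeGroup.of 2))) := by
    intro ρ
    unfold om omW
    rw [map_rW]
  rw [hom] at e e'
  obtain ⟨g, hg1, hg2⟩ := pair_conj hM (hnc hθ (nc_halves hM)) (hnc hθ' (nc_halves hM)) hs e e'
  -- replace θ by its conjugate
  let θ1 : FreeGroup (Fin 3) →* FreeGroup α := (MulAut.conj g).toMonoidHom.comp θ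
  have hθ1 : ∀ h, θ1 h = g * θ h * g⁻¹ := fun h => by simp [θ1, MulAut.conj_apply]
  have hinj1 : Function.Injective θ1 := by
    intro u v huv
    rw [hθ1, hθ1] at huv
    exact hθ (mul_left_cancel (mul_right_cancel huv))
  rw [← hθ1] at hg1 hg2
  have n01 : ¬ Commute (FreeGroup.of (0 : Fin 3)) (FreeGroup.of (1 : Fin 3)) := nc_of (by decide)
  have n12 : ¬ Commute (FreeGroup.of (1 : Fin 3)) (FreeGroup.of (2 : Fin 3)) := nc_of (by decide)
  have E1 : rW M (θ1 (FreeGroup.of 0)) (θ1 (FreeGroup.of 1)) =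
      rW M (θ' (FreeGroup.of 0)) (θ' (FreeGroup.of 1)) := by
    rw [← map_rW, ← map_rW, hg1]
  have E2 : rW M (θ1 (FreeGroup.of 1)) (θ1 (FreeGroup.of 2)) =
      rW M (θ' (FreeGroup.of 1)) (θ' (FreeGroup.of 2)) := by
    rw [← map_rW, ← map_rW, hg2]
  obtain ⟨i, hi0, hi1⟩ := pair_eq hM (hnc hinj1 n01) (hnc hθ' n01) E1
  obtain ⟨j, hj1, hj2⟩ := pair_eq hM (hnc hinj1 n12) (hnc hθ' n12) E2
  rw [← map_rW] at hi0 hi1 hj1 hj2
  set R1 : FreeGroup (Fin 3) := rW M (FreeGroup.of 0) (FreeGroup.of 1) with hR1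
  set R2 : FreeGroup (Fin 3) := rW M (FreeGroup.of 1) (FreeGroup.of 2) with hR2
  have hy : R1 ^ i * FreeGroup.of 1 * (R1 ^ i)⁻¹ = R2 ^ j * FreeGroup.of 1 * (R2 ^ j)⁻¹ := by
    apply hinj1
    simp only [map_mul, map_inv, map_zpow]
    rw [← hi1, ← hj1]
  have hcomm : Commute ((R2 ^ j)⁻¹ * R1 ^ i) (FreeGroup.of (1 : Fin 3)) := by
    unfold Commute SemiconjBy
    have h3 : R1 ^ i * FreeGroup.of 1 = R2 ^ j * FreeGroup.of 1 * (R2 ^ j)⁻¹ * R1 ^ i := by
      rw [← hy]; group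
    calc (R2 ^ j)⁻¹ * R1 ^ i * FreeGroup.of 1 = (R2 ^ j)⁻¹ * (R1 ^ i * FreeGroup.of 1) := by group
      _ = (R2 ^ j)⁻¹ * (R2 ^ j * FreeGroup.of 1 * (R2 ^ j)⁻¹ * R1 ^ i) := by rw [h3]
      _ = FreeGroup.of 1 * ((R2 ^ j)⁻¹ * R1 ^ i) := by group
  obtain ⟨k, hk⟩ := Subgroup.mem_zpowers_iff.mp (isRoot_of (1 : Fin 3) _ hcomm)
  have e0 := congrArg (fun g => Multiplicative.toAdd (es (0 : Fin 3) g)) hk
  have e2 := congrArg (fun g => Multiplicative.toAdd (es (2 : Fin 3) g)) hk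
  simp only [map_zpow, map_mul, map_inv, toAdd_mul, toAdd_inv, toAdd_zpow, es_rW, es_of, hR1,
    hR2] at e0 e2
  simp at e0 e2
  have hi : i = 0 := by
    rcases e0 with h | h
    · exact h
    · omega
  have hj : j = 0 := by
    rcases e2 with h | h
    · exact h
    · omega
  subst hi
  subst hj
  simp only [zpow_zero, one_mul, inv_one, mul_one] at hi0 hi1 hj1 hj2
  refine ⟨g, fun h => ?_⟩
  rw [← hθ1]
  have : θ' = θ1 := by
    apply FreeGroup.ext_hom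
    intro a
    fin_cases a
    · exact hi0
    · exact hi1
    · exact hj2
  rw [this]

end Pool.Agent.H28.UE
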