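import Pool.Agent.H28.UE.Solve

set_option autoImplicit false

/-!
JOB UE-TR3 (torsion in one-relator groups: `p`-torsion only if `p` divides the exponent).

Proof of `torsion`. Let `R = normalClosure {s ^ N}`, `h ^ p ∈ R`, suppose `h ∉ R`. `N ≠ 0`.
(a) `h ^ p` is a product of elements `r^±1`, `r = f s ^ N f⁻¹ = (f s f⁻¹) ^ N`
(`Subgroup.normalClosure`, `Group.conjugatesOfSet`, closure induction): there is a finite set `I0` of
conjugates `σ` of `s` with `h ^ p ∈ closure {σ ^ N : σ ∈ I0}`. Let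
`J = closure ({h} ∪ {σ ^ N : σ ∈ I0})`. `J` is free (`subgroupIsFreeOfIsFree`).
(b) The quotient map to `F/R` maps `J` onto the cyclic group `⟨h⟩` of order `p`: there is
`μ : J →* Multiplicative (ZMod p)` with `μ h = ofAdd 1` (so `μ ≠ 1`) and `μ y = 1` for
`y ∈ J ∩ R`. If `y ∈ J` and `y = σ ^ k`, `σ` a conjugate of `s`, then `y ^ N ∈ R`, so
`N • μ y = 0`, `p ∤ N`, hence `μ y = 1`.
(c) Detecting: for a finite set `I` of conjugates of `s` with some positive power in `J`, call `I`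
detecting if every `f : J →* Multiplicative ℚ` with `f y = 1` for all `y ∈ J` that are powers of
elements of `I` is trivial. `I0` is detecting: `f (h ^ p) = 1`, `ℚ` torsion free, so `f h = 1` and
`f (σ ^ N) = 1`. Take a detecting `I` with `I.card` minimal (`Nat.find`). Then `TSys.ineq`: if
`j σ j⁻¹ = σ'`, `σ ≠ σ'` in `I`, then `I.erase σ'` is detecting. `d σ` = the least positive `d` with
`σ ^ d ∈ J`. So `TSys J s I d`.
(d) `QQ J I d`: given `g` let `f = ` the homomorphism of `pint_hom`; `f (σ ^ d σ) = 1` so `f` is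
trivial; put `F x = pint g 1 x`: `F (j x) - F x = pint g x (j x) = 0`, `F y - F x = pint g x y = g x y`.
(e) `J` free: lift `μ` to `μ' : J →* Multiplicative ℤ` (choose integer lifts on a basis:
`IsFreeGroup.lift`/`FreeGroupBasis.lift`). `μ' (σ ^ d σ) = ofAdd (p * b σ)` for `σ ∈ I` by (b).
`solve` gives `f : J →* Multiplicative ℤ` with `f (σ ^ d σ) = ofAdd (b σ)`. The homomorphism
`μ' - p f` to `ℤ ⊆ ℚ` vanishes on the powers of elements of `I` in `J` (they are powers of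
`σ ^ d σ`), so it is trivial (detecting): `μ' = p f`, `μ = 1`: contradiction.
-/

namespace Pool.Agent.H28.UE

variable {α : Type*} [DecidableEq α]

/-- membership in the normal closure only uses finitely many conjugates -/
theorem to_exists_finset (s : FreeGroup α) (N : ℕ) {y : FreeGroup α}
    (hy : y ∈ Subgroup.normalClosure {s ^ N}) :
    ∃ I0 : Finset (FreeGroup α), (∀ σ ∈ I0, ∃ f, σ = f * s * f⁻¹) ∧
      y ∈ Subgroup.closure ((fun σ => σ ^ N) '' (I0 : Set (FreeGroup α))) := by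
  have hmono : ∀ I I' : Finset (FreeGroup α), I ⊆ I' →
      Subgroup.closure ((fun σ => σ ^ N) '' (I : Set (FreeGroup α))) ≤
      Subgroup.closure ((fun σ => σ ^ N) '' (I' : Set (FreeGroup α))) := by
    intro I I' hI
    exact Subgroup.closure_mono (Set.image_mono (by exact_mod_cast hI))
  refine Subgroup.closure_induction (p := fun y _ => ∃ I0 : Finset (FreeGroup α),
    (∀ σ ∈ I0, ∃ f, σ = f * s * f⁻¹) ∧
      y ∈ Subgroup.closure ((fun σ => σ ^ N) '' (I0 : Set (FreeGroup α)))) ?_ ?_ ?_ ?_ hy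
  · intro x hx
    obtain ⟨a, ha, hax⟩ := Group.mem_conjugatesOfSet_iff.mp hx
    rw [Set.mem_singleton_iff] at ha
    subst ha
    obtain ⟨c, hc⟩ := isConj_iff.mp hax
    refine ⟨{c * s * c⁻¹}, fun σ hσ => ⟨c, Finset.mem_singleton.mp hσ⟩, ?_⟩
    apply Subgroup.subset_closure
    refine ⟨c * s * c⁻¹, by simp, ?_⟩
    show (c * s * c⁻¹) ^ N = x
    rw [conj_pow, hc]
  · exact ⟨∅, by simp, Subgroup.one_mem _⟩
  · rintro x y _ _ ⟨I1, h1, h1'⟩ ⟨I2, h2, h2'⟩
    refine ⟨I1 ∪ I2, ?_, ?_⟩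
    · intro σ hσ
      rcases Finset.mem_union.mp hσ with h | h
      · exact h1 σ h
      · exact h2 σ h
    · exact Subgroup.mul_mem _ (hmono _ _ Finset.subset_union_left h1')
        (hmono _ _ Finset.subset_union_right h2')
  · rintro x _ ⟨I1, h1, h1'⟩
    exact ⟨I1, h1, Subgroup.inv_mem _ h1'⟩

omit [DecidableEq α] in
/-- cyclic groups of order `p` -/
theorem to_cyc {G : Type*} [Group G] {g : G} {p : ℕ} (h : orderOf g = p) :
    ∃ e : Subgroup.zpowers g →* Multiplicative (ZMod p), Function.Injective e := by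
  subst h
  rw [← Nat.card_zpowers g]
  exact ⟨(zmodCyclicMulEquiv (inferInstance : IsCyclic (Subgroup.zpowers g))).symm.toMonoidHom,
    (zmodCyclicMulEquiv _).symm.injective⟩

/-- the character of order `p` -/
theorem to_exists_mu {R : Subgroup (FreeGroup α)} [R.Normal] {p : ℕ} (hp : p.Prime)
    {h : FreeGroup α} (hR : h ∉ R) (hpow : h ^ p ∈ R) {J : Subgroup (FreeGroup α)}
    (hJ : ∀ y ∈ J, ∃ k : ℤ, h ^ k * y⁻¹ ∈ R) (hhJ : h ∈ J) :
    ∃ μ : J →* Multiplicative (ZMod p), μ ⟨h, hhJ⟩ ≠ 1 ∧ ∀ y : J, (y : FreeGroup α) ∈ R → μ y = 1 := by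
  have : Fact p.Prime := ⟨hp⟩
  set g : FreeGroup α ⧸ R := QuotientGroup.mk' R h with hg
  have hg1 : g ≠ 1 := by
    intro h1
    apply hR
    exact (QuotientGroup.eq_one_iff h).mp h1
  have hgp : g ^ p = 1 := by
    rw [hg, ← map_pow]
    exact (QuotientGroup.eq_one_iff (h ^ p)).mpr hpow
  have hord : orderOf g = p := orderOf_eq_prime hgp hg1
  obtain ⟨e, he⟩ := to_cyc hord
  have hmem : ∀ y : J, ((QuotientGroup.mk' R).comp J.subtype) y ∈ Subgroup.zpowers g := by
    intro y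
    obtain ⟨k, hk⟩ := hJ y y.2
    refine ⟨k, ?_⟩
    show g ^ k = QuotientGroup.mk' R (y : FreeGroup α)
    have h1 : QuotientGroup.mk' R (h ^ k * (y : FreeGroup α)⁻¹) = 1 :=
      (QuotientGroup.eq_one_iff _).mpr hk
    rw [map_mul, map_zpow, map_inv] at h1
    exact mul_inv_eq_one.mp h1
  refine ⟨e.comp (((QuotientGroup.mk' R).comp J.subtype).codRestrict _ hmem), ?_, ?_⟩
  · intro h1
    have h2 : (((QuotientGroup.mk' R).comp J.subtype).codRestrict _ hmem) ⟨h, hhJ⟩ = 1 :=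
      he (by rw [map_one]; exact h1)
    have h3 := congrArg Subtype.val h2
    exact hg1 h3
  · intro y hy
    have h2 : (((QuotientGroup.mk' R).comp J.subtype).codRestrict _ hmem) y = 1 := by
      apply Subtype.ext
      show QuotientGroup.mk' R (y : FreeGroup α) = 1
      exact (QuotientGroup.eq_one_iff _).mpr hy
    show e _ = 1
    rw [h2, map_one]

/-- homomorphisms from a free group lift from `ZMod p` to `ℤ`. -/
theorem to_lift {G : Type*} [Group G] [IsFreeGroup G] (p : ℕ)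
    (μ : G →* Multiplicative (ZMod p)) : ∃ μ' : G →* Multiplicative ℤ,
      ∀ y, ((Multiplicative.toAdd (μ' y) : ℤ) : ZMod p) = Multiplicative.toAdd (μ y) := by
  refine ⟨IsFreeGroup.lift (fun b => Multiplicative.ofAdd
    (Function.surjInv (ZMod.intCast_surjective (n := p))
      (Multiplicative.toAdd (μ (IsFreeGroup.of b))))), ?_⟩
  set μ' := IsFreeGroup.lift (fun b => Multiplicative.ofAdd
    (Function.surjInv (ZMod.intCast_surjective (n := p))
      (Multiplicative.toAdd (μ (IsFreeGroup.of b))))) with hμ'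
  have h1 : (AddMonoidHom.toMultiplicative (Int.castAddHom (ZMod p))).comp μ' = μ := by
    apply IsFreeGroup.ext_hom
    intro b
    have h2 : μ' (IsFreeGroup.of b) = Multiplicative.ofAdd
        (Function.surjInv (ZMod.intCast_surjective (n := p))
        (Multiplicative.toAdd (μ (IsFreeGroup.of b)))) := by
      rw [hμ', IsFreeGroup.lift_of]
    rw [MonoidHom.comp_apply, h2]
    have h3 := Function.surjInv_eq (ZMod.intCast_surjective (n := p))
      (Multiplicative.toAdd (μ (IsFreeGroup.of b)))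
    exact congrArg Multiplicative.ofAdd h3
  intro y
  rw [← h1]
  rfl

/-- detecting families -/
def to_Det (J : Subgroup (FreeGroup α)) (s : FreeGroup α) (I : Finset (FreeGroup α)) : Prop :=
  (∀ σ ∈ I, ∃ f, σ = f * s * f⁻¹) ∧ (∀ σ ∈ I, ∃ k : ℕ, 0 < k ∧ σ ^ k ∈ J) ∧
    ∀ f : J →* Multiplicative ℚ,
      (∀ y : J, (∃ σ ∈ I, ∃ k : ℤ, (y : FreeGroup α) = σ ^ k) → f y = 1) → ∀ y, f y = 1

omit [DecidableEq α] in
theorem to_gen {J : Subgroup (FreeGroup α)} {σ : FreeGroup α} (h : ∃ k : ℕ, 0 < k ∧ σ ^ k ∈ J) :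
    ∃ d, Gen J σ d := by
  classical
  refine ⟨Nat.find h, (Nat.find_spec h).1, (Nat.find_spec h).2, fun k hk => ?_⟩
  set d := Nat.find h with hd
  have hd0 : 0 < d := (Nat.find_spec h).1
  have hdJ : σ ^ d ∈ J := (Nat.find_spec h).2
  have h1 : σ ^ (k % d) ∈ J := by
    have h2 : k % d = k - d * (k / d) := by
      have := Int.emod_add_mul_ediv k d
      linarith
    rw [h2, zpow_sub, zpow_mul, zpow_natCast]
    exact J.mul_mem hk (J.inv_mem (J.zpow_mem hdJ _))
  have h3 : 0 ≤ k % d := Int.emod_nonneg _ (by omega)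
  have h4 : k % d < d := Int.emod_lt_of_pos _ (by omega)
  rcases eq_or_lt_of_le h3 with h5 | h5
  · exact Int.dvd_of_emod_eq_zero h5.symm
  · exfalso
    obtain ⟨m, hm⟩ := Int.eq_ofNat_of_zero_le h3
    rw [hm] at h1 h4 h5
    have h6 : d ≤ m := Nat.find_min' h ⟨by omega, by rwa [zpow_natCast] at h1⟩
    omega

/-- a minimal detecting family gives the data `TSys`. -/
theorem to_ineq {J : Subgroup (FreeGroup α)} {s : FreeGroup α} {I : Finset (FreeGroup α)}
    (hI : to_Det J s I) (hmin : ∀ I', to_Det J s I' → I.card ≤ I'.card) :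
    ∀ σ ∈ I, ∀ σ' ∈ I, ∀ j ∈ J, j * σ * j⁻¹ = σ' → σ = σ' := by
  intro σ hσ σ' hσ' j hj hjσ
  by_contra hne
  have h1 : to_Det J s (I.erase σ') := by
    refine ⟨fun τ hτ => hI.1 τ (Finset.mem_of_mem_erase hτ),
      fun τ hτ => hI.2.1 τ (Finset.mem_of_mem_erase hτ), fun f hf => hI.2.2 f ?_⟩
    rintro y ⟨τ, hτ, k, hk⟩
    by_cases hττ : τ = σ'
    · subst hττ
      have h2 : f (⟨j, hj⟩⁻¹ * y * ⟨j, hj⟩) = 1 := by
        apply hf
        refine ⟨σ, Finset.mem_erase.mpr ⟨hne, hσ⟩, k, ?_⟩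
        show j⁻¹ * (y : FreeGroup α) * j = σ ^ k
        rw [hk, ← hjσ, conj_zpow]
        group
      rw [map_mul, map_mul, map_inv, mul_comm (f ⟨j, hj⟩)⁻¹, mul_assoc, inv_mul_cancel,
        mul_one] at h2
      exact h2
    · exact hf y ⟨τ, Finset.mem_erase.mpr ⟨hττ, hτ⟩, k, hk⟩
  have h2 := hmin _ h1
  have h3 := Finset.card_erase_lt_of_mem hσ'
  omega

theorem to_QQ {J : Subgroup (FreeGroup α)} {s : FreeGroup α} {I : Finset (FreeGroup α)}
    {d : FreeGroup α → ℕ} (hI : to_Det J s I) (hd : ∀ σ ∈ I, Gen J σ (d σ)) : QQ J I d := by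
  intro g hanti hinv _ hzero
  obtain ⟨f, hf⟩ := pint_hom J hinv
  have hf1 : ∀ y, f y = 1 := by
    apply hI.2.2 f
    rintro y ⟨σ, hσ, k, hk⟩
    obtain ⟨m, hm⟩ := (hd σ hσ).dvd k (by rw [← hk]; exact y.2)
    obtain ⟨x, hx⟩ := Ax_nonempty σ
    have h1 : f ⟨σ ^ d σ, (hd σ hσ).mem⟩ = 1 := by
      rw [hf _ x]
      show Multiplicative.ofAdd (pint g x (σ ^ d σ * x)) = 1
      rw [hzero σ hσ x hx]
      rfl
    have h2 : y = (⟨σ ^ d σ, (hd σ hσ).mem⟩ : J) ^ m := by
      apply Subtype.ext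
      rw [SubgroupClass.coe_zpow, hk, hm, zpow_mul, zpow_natCast]
    rw [h2, map_zpow, h1, one_zpow]
  have hf2 : ∀ j ∈ J, ∀ x, pint g x (j * x) = 0 := by
    intro j hj x
    have h1 := hf ⟨j, hj⟩ x
    rw [hf1] at h1
    exact (Multiplicative.ofAdd.injective (h1.symm.trans (by rfl : (1 : Multiplicative ℚ) =
      Multiplicative.ofAdd 0)))
  refine ⟨fun x => pint g 1 x, ?_, ?_⟩
  · intro j hj x
    show pint g 1 (j * x) = pint g 1 x
    rw [← pint_add g 1 x (j * x), hf2 j hj x, add_zero]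
  · intro x y hxy _
    show g x y = pint g 1 y - pint g 1 x
    rw [← pint_adj hanti hxy, ← pint_add g 1 x y]
    ring

theorem torsion (s : FreeGroup α) (hs : s ≠ 1) (hroot : IsRoot s) (N p : ℕ) (hp : p.Prime)
    (hpN : ¬ p ∣ N) (h : FreeGroup α) (hh : h ^ p ∈ Subgroup.normalClosure {s ^ N}) :
    h ∈ Subgroup.normalClosure {s ^ N} := by
  classical
  by_contra hR
  set R := Subgroup.normalClosure {s ^ N} with hRdef
  have hN : 0 < N := by
    rcases Nat.eq_zero_or_pos N with h0 | h0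
    · exact absurd (h0 ▸ dvd_zero p) hpN
    · exact h0
  have hsR : s ^ N ∈ R := Subgroup.subset_normalClosure (Set.mem_singleton _)
  have hconjR : ∀ f, (f * s * f⁻¹) ^ N ∈ R := by
    intro f
    rw [conj_pow]
    exact Subgroup.normalClosure_normal.conj_mem _ hsR f
  obtain ⟨I0, hI0, hclos⟩ := to_exists_finset s N hh
  set J : Subgroup (FreeGroup α) := Subgroup.closure
    ({h} ∪ (fun σ => σ ^ N) '' (I0 : Set (FreeGroup α))) with hJdef
  have hhJ : h ∈ J := Subgroup.subset_closure (Or.inl rfl)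
  have hσJ : ∀ σ ∈ I0, σ ^ N ∈ J := fun σ hσ => Subgroup.subset_closure (Or.inr ⟨σ, hσ, rfl⟩)
  -- the image of `J` in the quotient
  have hJ : ∀ y ∈ J, ∃ k : ℤ, h ^ k * y⁻¹ ∈ R := by
    have hle : J ≤ (Subgroup.zpowers (QuotientGroup.mk' R h)).comap (QuotientGroup.mk' R) := by
      rw [hJdef, Subgroup.closure_le]
      rintro y (hy | ⟨σ, hσ, rfl⟩)
      · rw [Set.mem_singleton_iff] at hy
        subst hy
        exact Subgroup.mem_zpowers _
      · obtain ⟨f, rfl⟩ := hI0 σ hσ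
        show QuotientGroup.mk' R ((f * s * f⁻¹) ^ N) ∈ Subgroup.zpowers (QuotientGroup.mk' R h)
        have h1 : QuotientGroup.mk' R ((f * s * f⁻¹) ^ N) = 1 :=
          (QuotientGroup.eq_one_iff _).mpr (hconjR f)
        rw [h1]
        exact Subgroup.one_mem _
    intro y hy
    obtain ⟨k, hk⟩ := hle hy
    refine ⟨k, (QuotientGroup.eq_one_iff _).mp ?_⟩
    have hk' : QuotientGroup.mk' R h ^ k = QuotientGroup.mk' R y := hk
    show QuotientGroup.mk' R (h ^ k * y⁻¹) = 1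
    rw [map_mul, map_zpow, map_inv, hk', mul_inv_cancel]
  obtain ⟨μ, hμh, hμR⟩ := to_exists_mu hp hR hh hJ hhJ
  -- `μ` kills the powers of conjugates of `s`
  have hμ : ∀ y : J, (∃ f, ∃ k : ℤ, (y : FreeGroup α) = (f * s * f⁻¹) ^ k) → μ y = 1 := by
    rintro y ⟨f, k, hk⟩
    have h1 : μ (y ^ N) = 1 := by
      apply hμR
      rw [SubgroupClass.coe_pow, hk, ← zpow_natCast, ← zpow_mul, mul_comm, zpow_mul, zpow_natCast]
      exact Subgroup.zpow_mem _ (hconjR f) _
    rw [map_pow] at h1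
    have h2 : (N : ZMod p) * Multiplicative.toAdd (μ y) = 0 := by
      have h3 := congrArg Multiplicative.toAdd h1
      rw [toAdd_pow, toAdd_one, nsmul_eq_mul] at h3
      exact h3
    have : Fact p.Prime := ⟨hp⟩
    rcases mul_eq_zero.mp h2 with h3 | h3
    · exact absurd ((ZMod.natCast_eq_zero_iff N p).mp h3) hpN
    · exact toAdd_eq_zero.mp h3
  -- a minimal detecting family
  have hdet0 : to_Det J s I0 := by
    refine ⟨hI0, fun σ hσ => ⟨N, hN, hσJ σ hσ⟩, fun f hf => ?_⟩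
    have hmapmem : ∀ y (hy : y ∈ J), y ∈ f.ker.map J.subtype ↔ f ⟨y, hy⟩ = 1 := by
      intro y hy
      constructor
      · rintro ⟨z, hz, hzy⟩
        have : z = ⟨y, hy⟩ := Subtype.ext hzy
        rw [← this]
        exact hz
      · intro h1
        exact ⟨⟨y, hy⟩, h1, rfl⟩
    have hK : Subgroup.closure ((fun σ => σ ^ N) '' (I0 : Set (FreeGroup α))) ≤
        f.ker.map J.subtype := by
      rw [Subgroup.closure_le]
      rintro _ ⟨σ, hσ, rfl⟩
      have h1 : σ ^ N ∈ J := hσJ σ hσ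
      exact (hmapmem _ h1).mpr (hf ⟨σ ^ N, h1⟩ ⟨σ, hσ, N, by simp⟩)
    have hhp : f ⟨h, hhJ⟩ = 1 := by
      have h1 : h ^ p ∈ J := J.pow_mem hhJ p
      have h2 := (hmapmem _ h1).mp (hK hclos)
      have h3 : f ⟨h, hhJ⟩ ^ p = 1 := by
        rw [← map_pow]
        exact h2
      have h4 : (p : ℚ) * Multiplicative.toAdd (f ⟨h, hhJ⟩) = 0 := by
        have h5 := congrArg Multiplicative.toAdd h3
        rw [toAdd_pow, toAdd_one, nsmul_eq_mul] at h5
        exact h5
      rcases mul_eq_zero.mp h4 with h5 | h5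
      · exact absurd h5 (by exact_mod_cast hp.ne_zero)
      · exact toAdd_eq_zero.mp h5
    have hall : J ≤ f.ker.map J.subtype := by
      conv_lhs => rw [hJdef]
      rw [Subgroup.closure_le]
      rintro y (hy | hy)
      · rw [Set.mem_singleton_iff] at hy
        subst hy
        exact (hmapmem _ hhJ).mpr hhp
      · exact hK (Subgroup.subset_closure hy)
    intro y
    exact (hmapmem y y.2).mp (hall y.2)
  have hex : ∃ n, ∃ I, to_Det J s I ∧ I.card = n := ⟨_, I0, hdet0, rfl⟩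
  obtain ⟨I, hI, hIcard⟩ := Nat.find_spec hex
  have hmin : ∀ I', to_Det J s I' → I.card ≤ I'.card := by
    intro I' hI'
    rw [hIcard]
    exact Nat.find_min' hex ⟨I', hI', rfl⟩
  have hgen : ∀ σ, ∃ d, σ ∈ I → Gen J σ d := by
    intro σ
    by_cases hσ : σ ∈ I
    · obtain ⟨d, hd⟩ := to_gen (hI.2.1 σ hσ)
      exact ⟨d, fun _ => hd⟩
    · exact ⟨0, fun h1 => absurd h1 hσ⟩
  choose d hd using hgen
  have hS : TSys J s I d := ⟨hI.1, hd, to_ineq hI hmin⟩
  have hQ : QQ J I d := to_QQ hI hd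
  obtain ⟨lt, hO⟩ := exists_cord α
  -- the integral lift
  obtain ⟨μ', hμ'⟩ := to_lift p μ
  have hb : ∀ σ, ∃ b : ℤ, ∀ (hσ : σ ∈ I), Multiplicative.toAdd (μ' ⟨σ ^ d σ, (hd σ hσ).mem⟩) =
      p * b := by
    intro σ
    by_cases hσ : σ ∈ I
    · have h1 : μ ⟨σ ^ d σ, (hd σ hσ).mem⟩ = 1 := by
        apply hμ
        obtain ⟨f, hf⟩ := hI.1 σ hσ
        exact ⟨f, d σ, by rw [zpow_natCast, ← hf]⟩
      have h2 := hμ' ⟨σ ^ d σ, (hd σ hσ).mem⟩
      rw [h1, toAdd_one] at h2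
      obtain ⟨b, hb⟩ := (ZMod.intCast_zmod_eq_zero_iff_dvd _ p).mp h2
      exact ⟨b, fun _ => hb⟩
    · exact ⟨0, fun h1 => absurd h1 hσ⟩
  choose b hb using hb
  obtain ⟨f, hf⟩ := solve hO hroot hs I.card I rfl hS hQ b
  -- the difference is trivial
  let φ : J →* Multiplicative ℚ := AddMonoidHom.toMultiplicative (Int.castAddHom ℚ) |>.comp
    (μ' / f ^ p)
  have hφ : ∀ y, φ y = Multiplicative.ofAdd
      (((Multiplicative.toAdd (μ' y) - p * Multiplicative.toAdd (f y) : ℤ)) : ℚ) := by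
    intro y
    show Multiplicative.ofAdd (((Multiplicative.toAdd (μ' y / f y ^ p) : ℤ)) : ℚ) = _
    rw [toAdd_div, toAdd_pow, nsmul_eq_mul]
  have hφ1 : ∀ y, φ y = 1 := by
    apply hI.2.2 φ
    rintro y ⟨σ, hσ, k, hk⟩
    obtain ⟨m, hm⟩ := (hd σ hσ).dvd k (by rw [← hk]; exact y.2)
    have h1 : φ ⟨σ ^ d σ, (hd σ hσ).mem⟩ = 1 := by
      rw [hφ, hb σ hσ, hf σ hσ (hd σ hσ).mem]
      simp
    have h2 : y = (⟨σ ^ d σ, (hd σ hσ).mem⟩ : J) ^ m := by
      apply Subtype.ext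
      rw [SubgroupClass.coe_zpow, hk, hm, zpow_mul, zpow_natCast]
    rw [h2, map_zpow, h1, one_zpow]
  apply hμh
  have h1 := hφ1 ⟨h, hhJ⟩
  rw [hφ] at h1
  have h2 : Multiplicative.toAdd (μ' ⟨h, hhJ⟩) - p * Multiplicative.toAdd (f ⟨h, hhJ⟩) = 0 := by
    have h3 := congrArg Multiplicative.toAdd h1
    rw [toAdd_ofAdd, toAdd_one] at h3
    exact_mod_cast h3
  have h3 := hμ' ⟨h, hhJ⟩
  have h4 : Multiplicative.toAdd (μ' ⟨h, hhJ⟩) = p * Multiplicative.toAdd (f ⟨h, hhJ⟩) := by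
    linarith
  rw [h4] at h3
  push_cast at h3
  rw [ZMod.natCast_self, zero_mul] at h3
  exact toAdd_eq_zero.mp h3.symm

end Pool.Agent.H28.UE
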