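import Pool.Agent.H28.UE.Lift
import Pool.Agent.H28.UE.Torsion
import Pool.Agent.H28.UE.Rigid

set_option autoImplicit false

namespace Pool.Agent.H28.UE

/-- total exponent sum -/
def fi_tot (k : ℕ) : FreeGroup (Fin k) →* Multiplicative ℤ :=
  FreeGroup.lift (fun _ => Multiplicative.ofAdd (1 : ℤ))

theorem fi_tot_mk {k : ℕ} (L : List (Fin k × Bool)) :
    (Multiplicative.toAdd (fi_tot k (FreeGroup.mk L))).natAbs ≤ L.length := by
  induction L with
  | nil =>
    have : (FreeGroup.mk ([] : List (Fin k × Bool))) = 1 := rfl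
    rw [this, map_one]
    simp
  | cons a L ih =>
    have e : FreeGroup.mk (a :: L) = FreeGroup.mk [a] * FreeGroup.mk L := by
      rw [FreeGroup.mul_mk]; rfl
    rw [e, map_mul, toAdd_mul]
    have h1 : (Multiplicative.toAdd (fi_tot k (FreeGroup.mk [a]))).natAbs = 1 := by
      obtain ⟨i, b⟩ := a
      cases b with
      | true =>
        have : FreeGroup.mk [(i, true)] = FreeGroup.of i := rfl
        rw [this]
        simp [fi_tot]
      | false =>
        have : FreeGroup.mk [(i, false)] = (FreeGroup.of i)⁻¹ := rfl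
        rw [this, map_inv]
        simp [fi_tot]
    have h2 := Int.natAbs_add_le (Multiplicative.toAdd (fi_tot k (FreeGroup.mk [a])))
      (Multiplicative.toAdd (fi_tot k (FreeGroup.mk L)))
    simp only [List.length_cons]
    omega

theorem fi_tot_norm {k : ℕ} (g : FreeGroup (Fin k)) :
    (Multiplicative.toAdd (fi_tot k g)).natAbs ≤ g.norm := by
  have h := fi_tot_mk g.toWord
  rw [FreeGroup.mk_toWord] at h
  exact h

theorem tl_lower {k : ℕ} (g : FreeGroup (Fin k)) :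
    (Multiplicative.toAdd
      (FreeGroup.lift (fun _ => Multiplicative.ofAdd (1 : ℤ)) g)).natAbs ≤ tl g := by
  obtain ⟨x, hx⟩ := Ax_nonempty g
  have hx' : D x (g * x) = tl g := hx
  rw [← hx']
  have h1 := fi_tot_norm (x⁻¹ * (g * x))
  have h2 : fi_tot k (x⁻¹ * (g * x)) = fi_tot k g := by
    rw [map_mul, map_mul, map_inv, mul_comm (fi_tot k g), ← mul_assoc, inv_mul_cancel, one_mul]
  rw [h2] at h1
  exact h1

theorem fi_norm_pow {α : Type*} [DecidableEq α] (x : FreeGroup α) (n : ℕ) :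
    (x ^ n).norm ≤ n * x.norm := by
  induction n with
  | zero => simp
  | succ n ih =>
    rw [pow_succ]
    have := FreeGroup.norm_mul_le (x ^ n) x
    rw [Nat.add_mul, one_mul]
    omega

theorem fi_norm_mul_le {α : Type*} [DecidableEq α] {x y : FreeGroup α} {a b : ℕ}
    (hx : x.norm ≤ a) (hy : y.norm ≤ b) : (x * y).norm ≤ a + b :=
  (FreeGroup.norm_mul_le x y).trans (Nat.add_le_add hx hy)

theorem fi_norm_pow_le {α : Type*} [DecidableEq α] {x : FreeGroup α} {a : ℕ}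
    (hx : x.norm ≤ a) (n : ℕ) : (x ^ n).norm ≤ n * a :=
  (fi_norm_pow x n).trans (Nat.mul_le_mul le_rfl hx)

theorem fi_norm_rW {α : Type*} [DecidableEq α] (M : ℕ) (x y : FreeGroup α) (a b : ℕ)
    (hx : x.norm ≤ a) (hy : y.norm ≤ b) :
    (rW M x y).norm ≤ M * (78 * a + 70 * b) := by
  have h1 : (x ^ 10 * y ^ 10).norm ≤ 10 * a + 10 * b :=
    fi_norm_mul_le (fi_norm_pow_le hx 10) (fi_norm_pow_le hy 10)
  have h2 : (x ^ 12 * y ^ 10).norm ≤ 12 * a + 10 * b :=
    fi_norm_mul_le (fi_norm_pow_le hx 12) (fi_norm_pow_le hy 10)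
  have h3 := fi_norm_mul_le (fi_norm_mul_le (fi_norm_mul_le (fi_norm_pow_le h1 M)
    (fi_norm_pow_le h2 M)) (fi_norm_pow_le h1 (2 * M))) (fi_norm_pow_le h2 (3 * M))
  unfold rW
  refine h3.trans (le_of_eq ?_)
  ring

theorem fi_tot_rW {k : ℕ} (M : ℕ) (x y : FreeGroup (Fin k)) :
    Multiplicative.toAdd (fi_tot k (rW M x y)) =
      M * (78 * Multiplicative.toAdd (fi_tot k x) + 70 * Multiplicative.toAdd (fi_tot k y)) := by
  rw [map_rW]
  unfold rW
  simp only [toAdd_mul, toAdd_pow, nsmul_eq_mul]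
  push_cast
  ring

theorem tl_cc {M : ℕ} (hM : 1000000 ≤ M) : tl (cc M) ≤ 3 * tl (om M) := by
  have h1 : tl (cc M) ≤ (cc M).norm := by
    have := tl_le (cc M) 1
    simpa [D] using this
  have hx : (FreeGroup.of (0 : Fin 3)).norm ≤ 1 := by rw [FreeGroup.norm_of]
  have hy : (FreeGroup.of (1 : Fin 3)).norm ≤ 1 := by rw [FreeGroup.norm_of]
  have hz : (FreeGroup.of (2 : Fin 3)).norm ≤ 1 := by rw [FreeGroup.norm_of]
  have hx' : (FreeGroup.of (0 : Fin 3))⁻¹.norm ≤ 1 := by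
    rw [FreeGroup.norm_inv_eq, FreeGroup.norm_of]
  have h2 := fi_norm_mul_le (fi_norm_mul_le hx hy) hx'
  have h3 := fi_norm_rW M _ _ _ _ hx hz
  have h4 := fi_norm_rW M _ _ _ _ hz h2
  have h5 : (cc M).norm ≤ _ := fi_norm_rW M _ _ _ _ h3 h4
  have h6 := tl_lower (om M)
  have h7 : Multiplicative.toAdd (fi_tot 3 (om M)) = 21904 * (M : ℤ) ^ 2 := by
    unfold om omW
    rw [fi_tot_rW, fi_tot_rW, fi_tot_rW]
    simp [fi_tot]
    ring
  have h8 : (Multiplicative.toAdd (fi_tot 3 (om M))).natAbs ≤ tl (om M) := h6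
  rw [h7] at h8
  have h9 : (21904 * (M : ℤ) ^ 2).natAbs = 21904 * M ^ 2 := by
    have : (21904 * (M : ℤ) ^ 2) = ((21904 * M ^ 2 : ℕ) : ℤ) := by push_cast; ring
    rw [this, Int.natAbs_natCast]
  rw [h9] at h8
  have h10 : M * (78 * (M * (78 * 1 + 70 * 1)) + 70 * (M * (78 * 1 + 70 * (1 + 1 + 1)))) =
      31704 * M ^ 2 := by ring
  rw [h10] at h5
  omega

theorem order {α : Type*} [DecidableEq α] {v : FreeGroup α} (hv : v ≠ 1) {n : ℕ} (hn : 7 ≤ n) :
    v ∉ Subgroup.normalClosure {v ^ n} := by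
  intro hmem
  obtain ⟨x, hx⟩ := Ax_nonempty v
  obtain ⟨j, p, q, _, _, h3, h4, h5⟩ := greendlinger_top v hv n hn v hmem hv x
  have h6 : D x (v * x) = tl v := hx
  have h7 := tl_pos hv
  have h8 : D p q ≤ D x (v * x) := by
    unfold TreeDist.B at h3 h4
    rcases le_total (D x p) (D x q) with h | h
    · have h9 := (TT α).tri p x q
      have h10 := (TT α).tri p (v * x) q
      have h11 := (TT α).symm p x
      have h12 := (TT α).symm (v * x) q
      have e1 : D p q = (TT α).d p q := rfl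
      have e2 : D x (v * x) = (TT α).d x (v * x) := rfl
      omega
    · have h9 := (TT α).tri p x q
      have h10 := (TT α).tri p (v * x) q
      have h11 := (TT α).symm p x
      have h12 := (TT α).symm (v * x) q
      have e1 : D p q = (TT α).d p q := rfl
      have e2 : D x (v * x) = (TT α).d x (v * x) := rfl
      omega
  have h9 : 3 * tl v ≤ (n - 4) * tl v := Nat.mul_le_mul (by omega) le_rfl
  omega

theorem fi_between {α : Type*} [DecidableEq α] {c x z : FreeGroup α} (hx : x ∈ Ax c) (n : ℕ)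
    (hz : (TT α).B x z (c ^ n * x)) : z ∈ Ax c := by
  have h := zpow_mem_Ax hx (n : ℤ)
  rw [zpow_natCast] at h
  exact convex_Ax c x hx _ h z hz

theorem fi_io_inj_nc {g h : FreeGroup (Fin 3)} (hnc : ¬ Commute g h) :
    ¬ Commute (io g) (io h) := by
  intro hc
  apply hnc
  apply io_injective
  rw [map_mul, map_mul]
  exact hc

theorem fi_conj_nc {G : Type*} [Group G] {g h f : G} (hnc : ¬ Commute g h) :
    ¬ Commute (f * g * f⁻¹) (f * h * f⁻¹) := by
  intro hc
  apply hnc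
  have h1 : f * g * f⁻¹ * (f * h * f⁻¹) = f * h * f⁻¹ * (f * g * f⁻¹) := hc
  have h2 := congrArg (fun z => f⁻¹ * z * f) h1
  show g * h = h * g
  simpa [mul_assoc] using h2

theorem fi_root_om {M : ℕ} (hM : 1000000 ≤ M) : IsRoot (om M) :=
  isRoot_rW hM (nc_halves hM)

theorem fi_om_ne {M : ℕ} (hM : 1000000 ≤ M) : om M ≠ 1 :=
  rW_ne_one hM (nc_halves hM)

theorem fi_ww_eq (M : ℕ) : ww M = rW M (io (rW M (FreeGroup.of 0) (FreeGroup.of 1)))
    (io (rW M (FreeGroup.of 1) (FreeGroup.of 2))) := by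
  rw [← map_rW]
  rfl

theorem fi_root_ww {M : ℕ} (hM : 1000000 ≤ M) : IsRoot (ww M) := by
  rw [fi_ww_eq]
  exact isRoot_rW hM (fi_io_inj_nc (nc_halves hM))

theorem fi_ww_ne {M : ℕ} (hM : 1000000 ≤ M) : ww M ≠ 1 := by
  rw [fi_ww_eq]
  exact rW_ne_one hM (fi_io_inj_nc (nc_halves hM))

theorem fi_io_half1 (M : ℕ) : io (rW M (FreeGroup.of 0) (FreeGroup.of 2)) =
    FreeGroup.of 0 * io (rW M (FreeGroup.of 0) (FreeGroup.of 1)) * (FreeGroup.of 0)⁻¹ := by
  rw [map_rW, map_rW, ← conj_rW]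
  congr 1
  have : io (FreeGroup.of 0) = FreeGroup.of 0 * FreeGroup.of 0 := rfl
  rw [this]
  group

theorem fi_io_half2 (M : ℕ) : io (rW M (FreeGroup.of 2)
      (FreeGroup.of 0 * FreeGroup.of 1 * (FreeGroup.of 0)⁻¹)) =
    FreeGroup.of 0 * io (rW M (FreeGroup.of 1) (FreeGroup.of 2)) * (FreeGroup.of 0)⁻¹ := by
  rw [map_rW, map_rW, ← conj_rW]
  congr 1

theorem fi_cc_nc {M : ℕ} (hM : 1000000 ≤ M) :
    ¬ Commute (rW M (FreeGroup.of 0) (FreeGroup.of 2) : FreeGroup (Fin 3))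
      (rW M (FreeGroup.of 2) (FreeGroup.of 0 * FreeGroup.of 1 * (FreeGroup.of 0)⁻¹)) := by
  intro hc
  have h1 : Commute (io (rW M (FreeGroup.of 0) (FreeGroup.of 2)))
      (io (rW M (FreeGroup.of 2) (FreeGroup.of 0 * FreeGroup.of 1 * (FreeGroup.of 0)⁻¹))) :=
    hc.map io
  rw [fi_io_half1, fi_io_half2] at h1
  exact fi_conj_nc (fi_io_inj_nc (nc_halves hM)) h1

/-- `c` is not a conjugate of a power of `om` -/
theorem fi_final {M : ℕ} (hM : 1000000 ≤ M) {j : FreeGroup (Fin 3)}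
    (hc : Commute (cc M) (j * om M * j⁻¹)) : False := by
  obtain ⟨m, hm⟩ := (fi_root_om hM).conj j _ hc
  have hm' : (j * om M * j⁻¹) ^ m = cc M := hm
  rw [conj_zpow] at hm'
  rcases pair_root hM (fi_cc_nc hM) (fi_root_om hM) (hm'.symm : rW M _ _ = _) with h | h
  · subst h
    rw [zpow_one] at hm'
    have h1 := congrArg io hm'
    rw [io_cc, map_mul, map_mul, map_inv] at h1
    have h1' : io j * ww M * (io j)⁻¹ = FreeGroup.of 0 * ww M * (FreeGroup.of 0)⁻¹ := h1
    have h2 : Commute ((io j)⁻¹ * FreeGroup.of 0) (ww M) := by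
      show (io j)⁻¹ * FreeGroup.of 0 * ww M = ww M * ((io j)⁻¹ * FreeGroup.of 0)
      have h3 := congrArg (fun z => (io j)⁻¹ * z * FreeGroup.of 0) h1'
      have e1 : (io j)⁻¹ * (io j * ww M * (io j)⁻¹) * FreeGroup.of 0 =
          ww M * ((io j)⁻¹ * FreeGroup.of 0) := by group
      have e2 : (io j)⁻¹ * (FreeGroup.of 0 * ww M * (FreeGroup.of 0)⁻¹) * FreeGroup.of 0 =
          (io j)⁻¹ * FreeGroup.of 0 * ww M := by group
      rw [e1, e2] at h3
      exact h3.symm
    obtain ⟨k, hk⟩ := fi_root_ww hM _ h2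
    have hk' : ww M ^ k = (io j)⁻¹ * FreeGroup.of 0 := hk
    apply not_mem_io (j * om M ^ k)
    rw [map_mul, map_zpow]
    have e : io (om M) = ww M := rfl
    rw [e, hk']
    group
  · subst h
    have h1 : rW M (FreeGroup.of 0) (FreeGroup.of 2) ≠
        (1 : FreeGroup (Fin 3)) ∨ True := Or.inr trivial
    refine pair_ne_inv hM (fi_cc_nc hM) (fi_conj_nc (f := j) (nc_halves hM)) ?_
    rw [conj_rW]
    have e : (j * rW M (rW M (FreeGroup.of 0) (FreeGroup.of 1))
        (rW M (FreeGroup.of 1) (FreeGroup.of 2)) * j⁻¹)⁻¹ = j * om M ^ (-1 : ℤ) * j⁻¹ := by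
      show (j * om M * j⁻¹)⁻¹ = _
      group
    rw [e, hm']
    rfl

theorem not_embed {M p : ℕ} (hM : 1000000 ≤ M) (hp : p.Prime) (hp' : 108 ≤ p) {B : Type*}
    (s : FreeGroup B)
    (f1 : FreeGroup (Fin 2) ⧸ Subgroup.normalClosure {ww M ^ p} →*
      FreeGroup B ⧸ Subgroup.normalClosure {s}) (hf1 : Function.Injective f1)
    (f2 : FreeGroup (Fin 3) ⧸ Subgroup.normalClosure {om M ^ p} →*
      FreeGroup B ⧸ Subgroup.normalClosure {s}) (hf2 : Function.Injective f2) : False := by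
  classical
  have hp7 : 7 ≤ p := by omega
  have hp0 : p ≠ 0 := by omega
  -- kernels
  have hk1 : ∀ h, f1 (QuotientGroup.mk h) = 1 → h ∈ Subgroup.normalClosure {ww M ^ p} := by
    intro h hh
    have h1 := hf1 (hh.trans (map_one f1).symm)
    exact (QuotientGroup.eq_one_iff h).mp h1
  have hk2 : ∀ h, f2 (QuotientGroup.mk h) = 1 → h ∈ Subgroup.normalClosure {om M ^ p} := by
    intro h hh
    have h1 := hf2 (hh.trans (map_one f2).symm)
    exact (QuotientGroup.eq_one_iff h).mp h1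
  have hw1 : f1 (QuotientGroup.mk (ww M)) ^ p = 1 := by
    rw [← map_pow, ← QuotientGroup.mk_pow]
    have : (QuotientGroup.mk (ww M ^ p) : FreeGroup (Fin 2) ⧸
        Subgroup.normalClosure {ww M ^ p}) = 1 :=
      (QuotientGroup.eq_one_iff _).mpr (Subgroup.subset_normalClosure rfl)
    rw [this, map_one]
  have hw2 : f2 (QuotientGroup.mk (om M)) ^ p = 1 := by
    rw [← map_pow, ← QuotientGroup.mk_pow]
    have : (QuotientGroup.mk (om M ^ p) : FreeGroup (Fin 3) ⧸
        Subgroup.normalClosure {om M ^ p}) = 1 :=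
      (QuotientGroup.eq_one_iff _).mpr (Subgroup.subset_normalClosure rfl)
    rw [this, map_one]
  have hn1 : f1 (QuotientGroup.mk (ww M)) ≠ 1 := fun h =>
    order (fi_ww_ne hM) hp7 (hk1 _ h)
  have hn2 : f2 (QuotientGroup.mk (om M)) ≠ 1 := fun h =>
    order (fi_om_ne hM) hp7 (hk2 _ h)
  -- torsion
  obtain ⟨h0, hh0⟩ := QuotientGroup.mk_surjective (f1 (QuotientGroup.mk (ww M)))
  have ht1 : h0 ^ p ∈ Subgroup.normalClosure {s} := by
    rw [← QuotientGroup.eq_one_iff, QuotientGroup.mk_pow, hh0]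
    exact hw1
  have ht2 : h0 ∉ Subgroup.normalClosure {s} := by
    rw [← QuotientGroup.eq_one_iff, hh0]
    exact hn1
  have hs1 : s ≠ 1 := by
    rintro rfl
    have h1 : Subgroup.normalClosure ({1} : Set (FreeGroup B)) = ⊥ := by
      rw [Subgroup.normalClosure_eq_bot_iff]
    rw [h1, Subgroup.mem_bot] at ht1 ht2
    exact ht2 (root_unique hp0 (by rw [ht1, one_pow]))
  obtain ⟨r, N, hN0, hsr, hr⟩ := exists_root hs1
  subst hsr
  have hr1 : r ≠ 1 := by
    rintro rfl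
    exact hs1 (one_pow N)
  have hpN : p ∣ N := by
    by_contra hcon
    exact ht2 (torsion r hr1 hr N p hp hcon h0 ht1)
  have hNp : p ≤ N := Nat.le_of_dvd hN0 hpN
  -- lifts
  obtain ⟨ψ1, hψ1, f, l, hl, e1⟩ := lifting (k := 2) r hr1 hr N (by omega)
    (f1.comp (QuotientGroup.mk' _)) (ww M) p hp7 (fun h hh => hk1 h hh) hw1 hn1
  obtain ⟨ψ2, hψ2, f', l', hl', e2⟩ := lifting (k := 3) r hr1 hr N (by omega)
    (f2.comp (QuotientGroup.mk' _)) (om M) p hp7 (fun h hh => hk2 h hh) hw2 hn2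
  have hψ1' : ∀ h, (QuotientGroup.mk (ψ1 h) : FreeGroup B ⧸ Subgroup.normalClosure {r ^ N}) =
      f1 (QuotientGroup.mk h) := hψ1
  have hψ2' : ∀ h, (QuotientGroup.mk (ψ2 h) : FreeGroup B ⧸ Subgroup.normalClosure {r ^ N}) =
      f2 (QuotientGroup.mk h) := hψ2
  have hi1 : Function.Injective ψ1 := by
    refine inj_of_ker hp ψ1 (fun g hg χ => chi_pow hp (ww M) g (hk1 g ?_) χ)
    rw [← hψ1', hg]
    rfl
  have hi2 : Function.Injective ψ2 := by
    refine inj_of_ker hp ψ2 (fun g hg χ => chi_pow hp (om M) g (hk2 g ?_) χ)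
    rw [← hψ2', hg]
    rfl
  obtain ⟨g, hg⟩ := rigid hM (θ := ψ1.comp io) (θ' := ψ2) (hi1.comp io_injective) hi2 hr e1 e2
  -- the element c
  have hc1 : f2 (QuotientGroup.mk (cc M)) ^ p = 1 := by
    have h1 : f2 (QuotientGroup.mk (cc M)) =
        (QuotientGroup.mk (g * ψ1 (FreeGroup.of 0)) : FreeGroup B ⧸
          Subgroup.normalClosure {r ^ N}) * f1 (QuotientGroup.mk (ww M)) *
        (QuotientGroup.mk (g * ψ1 (FreeGroup.of 0)) : FreeGroup B ⧸
          Subgroup.normalClosure {r ^ N})⁻¹ := by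
      rw [← hψ2', hg, ← hψ1', MonoidHom.comp_apply, io_cc, map_mul, map_mul, map_inv,
        ← QuotientGroup.mk_mul, ← QuotientGroup.mk_inv, ← QuotientGroup.mk_mul]
      congr 1
      group
    rw [h1, conj_pow, hw1]
    group
  have hc2 : cc M ^ p ∈ Subgroup.normalClosure {om M ^ p} := by
    apply hk2
    rw [QuotientGroup.mk_pow, map_pow]
    exact hc1
  have hc3 : cc M ≠ 1 := rW_ne_one hM (fi_cc_nc hM)
  have hc4 : cc M ^ p ≠ 1 := by
    intro h
    exact hc3 (root_unique hp0 (by rw [h, one_pow]))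
  obtain ⟨x, hx⟩ := Ax_nonempty (cc M)
  obtain ⟨j, p', q', h1, h2, h3, h4, h5⟩ := greendlinger_top (om M) (fi_om_ne hM) p hp7
    (cc M ^ p) hc2 hc4 x
  have h6 := fi_between hx p h3
  have h7 := fi_between hx p h4
  have h8 := tl_cc hM
  have h9 : 4 * tl (om M) ≤ (p - 4) * tl (om M) := Nat.mul_le_mul (by omega) le_rfl
  refine fi_final hM (j := j) (commute_of_overlap h6 h1 h7 h2 ?_)
  rw [tl_conj]
  omega

end Pool.Agent.H28.UE
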