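import Pool.Agent.H28.UE.Overlap

set_option autoImplicit false

/-!
Greendlinger lemma for `n`-th powers, by windmills (adapted from `Pool/Agent/H28/Windmill.lean`).
-/

namespace Pool.Agent.H28.UE

section mill

variable {F X ι : Type*} [Group F] [MulAction F X] [MulAction F ι]

/-- A small cancellation family of convex subtrees of a tree on which `F` acts, with relator
groups. -/
structure GFam (F : Type*) {X : Type*} (ι : Type*) [Group F] [MulAction F X] [MulAction F ι]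
    (T : TreeDist X) where
  iso : ∀ (f : F) (x y : X), T.d (f • x) (f • y) = T.d x y
  Y : ι → Set X
  conv : ∀ i, T.Convex (Y i)
  ne : ∀ i, (Y i).Nonempty
  equiv : ∀ (f : F) (i : ι) (x : X), x ∈ Y i → f • x ∈ Y (f • i)
  lam : ℕ
  lam_pos : 1 ≤ lam
  small : ∀ i j, i ≠ j → ∀ x ∈ Y i, x ∈ Y j → ∀ y ∈ Y i, y ∈ Y j → T.d x y ≤ lam
  R : ι → Subgroup F
  Rstab : ∀ (i : ι) (s : F), s ∈ R i → s • i = i
  Rconj : ∀ (f : F) (i : ι) (s : F), s ∈ R i → f * s * f⁻¹ ∈ R (f • i)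
  disp : ∀ (i : ι) (s : F), s ∈ R i → s ≠ 1 → ∀ x ∈ Y i, 6 * lam + 1 ≤ T.d x (s • x)

namespace GFam

variable {T : TreeDist X} (Φ : GFam F ι T)

include Φ in
theorem B_smul (f : F) {x z y : X} (h : T.B x z y) : T.B (f • x) (f • z) (f • y) := by
  unfold TreeDist.B at *
  rw [Φ.iso, Φ.iso, Φ.iso]
  exact h

include Φ in
theorem B_smul_inv (f : F) {x z y : X} (h : T.B x z (f • y)) : T.B (f⁻¹ • x) (f⁻¹ • z) y := by
  have := Φ.B_smul f⁻¹ h
  rwa [inv_smul_smul] at this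

theorem mem_smul_iff (f : F) (i : ι) (x : X) : f • x ∈ Φ.Y (f • i) ↔ x ∈ Φ.Y i := by
  constructor
  · intro h
    have := Φ.equiv f⁻¹ _ _ h
    rwa [inv_smul_smul, inv_smul_smul] at this
  · exact Φ.equiv f i x

theorem smul_stab {i : ι} {s : F} (hs : s ∈ Φ.R i) {x : X} (hx : x ∈ Φ.Y i) :
    s • x ∈ Φ.Y i := by
  have := Φ.equiv s i x hx
  rwa [Φ.Rstab i s hs] at this

theorem stab_inv {i : ι} {s : F} (hs : s ∈ Φ.R i) : s⁻¹ ∈ Φ.R i := (Φ.R i).inv_mem hs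

/-- The projection to `Y i`. -/
noncomputable def pr (i : ι) (v : X) : X := T.gate (Φ.Y i) (Φ.conv i) (Φ.ne i) v

theorem pr_gate (i : ι) (v : X) : T.IsGate (Φ.Y i) v (Φ.pr i v) :=
  T.gate_isGate _ _ _ _

theorem pr_mem (i : ι) (v : X) : Φ.pr i v ∈ Φ.Y i := (Φ.pr_gate i v).1

theorem pr_smul (f : F) (i : ι) (v : X) : Φ.pr (f • i) (f • v) = f • Φ.pr i v := by
  refine (Φ.pr_gate (f • i) (f • v)).unique T ⟨(Φ.mem_smul_iff f i _).mpr (Φ.pr_mem i v), ?_⟩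
  intro c hc
  have h1 : f⁻¹ • c ∈ Φ.Y i := by
    have := Φ.equiv f⁻¹ _ _ hc
    rwa [inv_smul_smul] at this
  have h2 := Φ.B_smul f ((Φ.pr_gate i v).2 _ h1)
  rwa [smul_inv_smul] at h2

theorem pr_stab {i : ι} {s : F} (hs : s ∈ Φ.R i) (v : X) : Φ.pr i (s • v) = s • Φ.pr i v := by
  have := Φ.pr_smul s i v
  rwa [Φ.Rstab i s hs] at this

theorem pr_mem_of {i : ι} {D : Set X} (hD : T.Convex D) {v c : X} (hv : v ∈ D) (hc : c ∈ Φ.Y i)
    (hcD : c ∈ D) : Φ.pr i v ∈ D :=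
  (Φ.pr_gate i v).mem_of_inter T hD hv hc hcD

/-- A windmill. -/
structure Mill where
  W : Set X
  G : Subgroup F
  J : Set ι
  convW : T.Convex W
  neW : W.Nonempty
  GW : ∀ g ∈ G, ∀ x ∈ W, g • x ∈ W
  GJ : ∀ g ∈ G, ∀ i ∈ J, g • i ∈ J
  stab : ∀ i ∈ J, ∀ s ∈ Φ.R i, s ∈ G
  smallW : ∀ i ∉ J, ∀ x ∈ Φ.Y i, x ∈ W → ∀ y ∈ Φ.Y i, y ∈ W → T.d x y ≤ 3 * Φ.lam

/-- The first windmill. -/
def Mill.init (x0 : X) : Φ.Mill where
  W := {x0}
  G := ⊥
  J := ∅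
  convW := by
    intro x hx y hy z hz
    have hx' : x = x0 := hx
    have hy' : y = x0 := hy
    subst hx'
    subst hy'
    unfold TreeDist.B at hz
    rw [T.self] at hz
    exact (T.eq_of _ _ (by omega)).symm
  neW := ⟨x0, rfl⟩
  GW := by
    intro g hg x hx
    rw [Subgroup.mem_bot] at hg
    subst hg
    rw [one_smul]
    exact hx
  GJ := fun g _ i hi => hi.elim
  stab := fun i hi => hi.elim
  smallW := by
    intro i _ x _ hx y _ hy
    have hx' : x = x0 := hx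
    have hy' : y = x0 := hy
    rw [hx', hy', T.self]
    exact Nat.zero_le _

namespace Mill

variable {Φ} (M : Φ.Mill)

/-- The translates meeting `W` that have not been used. -/
def Z : Set ι := {i | i ∉ M.J ∧ ∃ x ∈ Φ.Y i, x ∈ M.W}

/-- The neighbourhood of `W`. -/
def What : Set X := T.nbhd Φ.lam M.W

theorem sub_What : M.W ⊆ M.What := T.subset_nbhd _ _

theorem convWhat : T.Convex M.What := T.convex_nbhd M.convW _

theorem GJ_iff {g : F} (hg : g ∈ M.G) (i : ι) : g • i ∈ M.J ↔ i ∈ M.J := by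
  constructor
  · intro h
    have := M.GJ g⁻¹ (M.G.inv_mem hg) _ h
    rwa [inv_smul_smul] at this
  · exact M.GJ g hg i

theorem GZ {g : F} (hg : g ∈ M.G) {i : ι} (hi : i ∈ M.Z) : g • i ∈ M.Z := by
  obtain ⟨h1, x, hx, hxW⟩ := hi
  exact ⟨fun h => h1 ((M.GJ_iff hg i).mp h), g • x, Φ.equiv g i x hx, M.GW g hg x hxW⟩

theorem GWhat {g : F} (hg : g ∈ M.G) {x : X} (hx : x ∈ M.What) : g • x ∈ M.What := by
  obtain ⟨w, hw, hd⟩ := hx
  exact ⟨g • w, M.GW g hg w hw, by rw [Φ.iso]; exact hd⟩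

/-- Points of `Y i` near `W` when `Y i` misses `W`. -/
theorem dist_of_disj {i : ι} (hi : ∀ x ∈ Φ.Y i, x ∉ M.W) {x y : X} (hx : x ∈ Φ.Y i)
    (hy : y ∈ Φ.Y i) (hxW : x ∈ M.What) (hyW : y ∈ M.What) : T.d x y ≤ 2 * Φ.lam := by
  obtain ⟨w, hw, hxw⟩ := hxW
  obtain ⟨w', hw', hyw⟩ := hyW
  obtain ⟨p, hp⟩ := T.exists_gate M.convW M.neW x
  obtain ⟨q, hq⟩ := T.exists_gate M.convW M.neW y
  by_cases hpq : p = q
  · subst hpq
    have h1 := hp.2 w hw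
    have h2 := hq.2 w' hw'
    have h3 := T.tri x p y
    have h4 := T.symm y p
    unfold TreeDist.B at *
    omega
  · exact absurd hp.1 (hi p (Φ.conv i x hx y hy p (hp.between T hq hpq).1))

theorem dist_What {i : ι} (hi : i ∉ M.J) {x y : X} (hx : x ∈ Φ.Y i)
    (hy : y ∈ Φ.Y i) (hxW : x ∈ M.What) (hyW : y ∈ M.What) : T.d x y ≤ 5 * Φ.lam := by
  by_cases h : ∀ x ∈ Φ.Y i, x ∉ M.W
  · have := M.dist_of_disj h hx hy hxW hyW
    omega
  · push Not at h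
    obtain ⟨u, hu, huW⟩ := h
    obtain ⟨w, hw, hxw⟩ := hxW
    obtain ⟨w', hw', hyw⟩ := hyW
    obtain ⟨p, hp⟩ := T.exists_gate M.convW M.neW x
    obtain ⟨q, hq⟩ := T.exists_gate M.convW M.neW y
    have hpY := hp.mem_of_inter T (Φ.conv i) hx huW hu
    have hqY := hq.mem_of_inter T (Φ.conv i) hy huW hu
    have h0 := M.smallW i hi p hpY hp.1 q hqY hq.1
    have h1 := hp.2 w hw
    have h2 := hq.2 w' hw'
    have h3 := T.tri x p y
    have h4 := T.tri p q y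
    have h5 := T.symm y q
    unfold TreeDist.B at *
    omega

theorem inter_sub {i j : ι} (hi : i ∈ M.Z) (hj : j ∈ M.Z) (hij : i ≠ j) {v : X}
    (hvi : v ∈ Φ.Y i) (hvj : v ∈ Φ.Y j) : v ∈ M.What := by
  obtain ⟨_, x, hx, hxW⟩ := hi
  obtain ⟨_, y, hy, hyW⟩ := hj
  obtain ⟨m, hmi, hmj, hmW⟩ := T.helly (Φ.conv i) (Φ.conv j) M.convW ⟨hvi, hvj⟩ ⟨hy, hyW⟩
    ⟨hx, hxW⟩
  exact ⟨m, hmW, Φ.small i j hij v hvi hvj m hmi hmj⟩

/-- The side of `What`. -/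
def C (i : ι) : Set X := {v | Φ.pr i v ∈ M.What}

theorem What_sub_C {i : ι} (hi : i ∈ M.Z) {v : X} (hv : v ∈ M.What) : v ∈ M.C i := by
  obtain ⟨_, x, hx, hxW⟩ := hi
  exact Φ.pr_mem_of M.convWhat hv hx (M.sub_What hxW)

theorem between_of_notMem {i : ι} (hi : i ∈ M.Z) {v w : X} (hv : v ∉ M.C i)
    (hw : w ∈ M.What) : T.B v (Φ.pr i v) w := by
  have hq : Φ.pr i w ∈ M.What := M.What_sub_C hi hw
  have hne : Φ.pr i v ≠ Φ.pr i w := fun h => hv (by show Φ.pr i v ∈ M.What; rw [h]; exact hq)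
  exact ((Φ.pr_gate i v).between T (Φ.pr_gate i w) hne).1

theorem Y_sub_C {i j : ι} (hi : i ∈ M.Z) (hj : j ∈ M.Z) (hij : i ≠ j) {v : X}
    (hv : v ∈ Φ.Y j) : v ∈ M.C i := by
  by_contra h
  obtain ⟨_, y, hy, hyW⟩ := hj
  have h1 := M.between_of_notMem hi h (M.sub_What hyW)
  have h2 : Φ.pr i v ∈ Φ.Y j := Φ.conv j v hv y hy _ h1
  exact h (M.inter_sub hi ⟨‹_›, y, hy, hyW⟩ hij (Φ.pr_mem i v) h2)

theorem compl_sub_C {i j : ι} (hi : i ∈ M.Z) (hj : j ∈ M.Z) (hij : i ≠ j) {v : X}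
    (hv : v ∉ M.C j) : v ∈ M.C i := by
  by_contra h
  have key : ∀ i j : ι, i ∈ M.Z → j ∈ M.Z → i ≠ j → v ∉ M.C i → v ∉ M.C j →
      T.d v (Φ.pr i v) < T.d v (Φ.pr j v) := by
    intro i j hi hj hij hvi hvj
    have h1 : Φ.pr j v ∈ M.C i := M.Y_sub_C hi hj hij (Φ.pr_mem j v)
    have hne : Φ.pr i v ≠ Φ.pr i (Φ.pr j v) := by
      intro h2
      apply hvi
      show Φ.pr i v ∈ M.What
      rw [h2]
      exact h1
    have h3 := (Φ.pr_gate i v).dist_eq T (Φ.pr_gate i (Φ.pr j v)) hne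
    have h4 : T.d (Φ.pr i v) (Φ.pr i (Φ.pr j v)) ≠ 0 := fun h => hne (T.eq_of _ _ h)
    omega
  have h1 := key i j hi hj hij h hv
  have h2 := key j i hj hi (Ne.symm hij) hv h
  omega

/-- Ping. -/
theorem smul_notMem_C {i : ι} (hi : i ∈ M.Z) {s : F} (hs : s ∈ Φ.R i) (hs1 : s ≠ 1) {v : X}
    (hv : v ∈ M.C i) : s • v ∉ M.C i := by
  intro h
  have h1 : Φ.pr i (s • v) ∈ M.What := h
  rw [Φ.pr_stab hs] at h1
  have h2 : Φ.pr i v ∈ M.What := hv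
  have h3 := M.dist_What hi.1 (Φ.pr_mem i v) (Φ.smul_stab hs (Φ.pr_mem i v)) h2 h1
  have h4 := Φ.disp i s hs hs1 _ (Φ.pr_mem i v)
  omega

/-- Reduced products `s_1 ⋯ s_k` with `s_j` in the stabilizer of `c_j ∈ Z`, `c_j ≠ c_{j+1}`;
the parameters record `c_1`, `c_k`, the product and `k`. -/
inductive Red : ι → ι → F → ℕ → Prop
  | one (c : ι) (s : F) (hc : c ∈ M.Z) (hs : s ∈ Φ.R c) (h1 : s ≠ 1) : Red c c s 1
  | cons (c c' e : ι) (s g : F) (k : ℕ) (hc : c ∈ M.Z) (hs : s ∈ Φ.R c) (h1 : s ≠ 1)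
      (hne : c ≠ c') (h : Red c' e g k) : Red c e (s * g) (k + 1)

theorem Red.mem_left {c e : ι} {g : F} {k : ℕ} (h : M.Red c e g k) : c ∈ M.Z := by
  cases h with
  | one _ _ hc _ _ => exact hc
  | cons _ _ _ _ _ _ hc _ _ _ _ => exact hc

theorem Red.snoc {c e : ι} {g : F} {k : ℕ} (h : M.Red c e g k) {e' : ι} (he' : e' ∈ M.Z)
    (hne : e ≠ e') {s : F} (hs : s ∈ Φ.R e') (hs1 : s ≠ 1) : M.Red c e' (g * s) (k + 1) := by
  induction h with
  | one c t hc ht h1 =>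
    exact Red.cons c e' e' t s 1 hc ht h1 hne (Red.one e' s he' hs hs1)
  | cons c c' e t g k hc ht h1 hcc' _ ih =>
    rw [mul_assoc]
    exact Red.cons c c' e' t (g * s) (k + 1) hc ht h1 hcc' (ih hne)

theorem Red.inv {c e : ι} {g : F} {k : ℕ} (h : M.Red c e g k) : M.Red e c g⁻¹ k := by
  induction h with
  | one c t hc ht h1 => exact Red.one c t⁻¹ hc (Φ.stab_inv ht) (inv_ne_one.mpr h1)
  | cons c c' e t g k hc ht h1 hcc' _ ih =>
    rw [mul_inv_rev]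
    exact ih.snoc M hc (Ne.symm hcc') (Φ.stab_inv ht) (inv_ne_one.mpr h1)

theorem Red.mem_right {c e : ι} {g : F} {k : ℕ} (h : M.Red c e g k) : e ∈ M.Z :=
  (h.inv M).mem_left

theorem Red.conj {c e : ι} {g : F} {k : ℕ} (h : M.Red c e g k) {γ : F} (hγ : γ ∈ M.G) :
    M.Red (γ • c) (γ • e) (γ * g * γ⁻¹) k := by
  have hst : ∀ {c : ι} {t : F}, t ∈ Φ.R c → γ * t * γ⁻¹ ∈ Φ.R (γ • c) := by
    intro c t ht
    exact Φ.Rconj γ c t ht
  have hne : ∀ {t : F}, t ≠ 1 → γ * t * γ⁻¹ ≠ 1 := by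
    intro t ht h
    apply ht
    have := congrArg (fun x => γ⁻¹ * x * γ) h
    simpa [mul_assoc] using this
  induction h with
  | one c t hc ht h1 => exact Red.one _ _ (M.GZ hγ hc) (hst ht) (hne h1)
  | cons c c' e t g k hc ht h1 hcc' _ ih =>
    have e1 : γ * (t * g) * γ⁻¹ = (γ * t * γ⁻¹) * (γ * g * γ⁻¹) := by group
    rw [e1]
    exact Red.cons _ (γ • c') _ _ _ _ (M.GZ hγ hc) (hst ht) (hne h1)
      (fun h => hcc' (smul_left_cancel γ h)) ih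

/-- Ping-pong. -/
theorem Red.pong {c e : ι} {g : F} {k : ℕ} (h : M.Red c e g k) : ∀ {v : X}, v ∈ M.C e →
    g • v ∉ M.C c := by
  induction h with
  | one c t hc ht h1 => intro v hv; exact M.smul_notMem_C hc ht h1 hv
  | cons c c' e t g k hc ht h1 hcc' h ih =>
    intro v hv
    rw [mul_smul]
    exact M.smul_notMem_C hc ht h1 (M.compl_sub_C hc (h.mem_left) hcc' (ih hv))

/-- Reduced products, including the empty one. -/
def Len (g : F) (k : ℕ) : Prop := (k = 0 ∧ g = 1) ∨ ∃ c e, M.Red c e g k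

theorem Len.mul_left {g : F} {k : ℕ} (h : M.Len g k) {c : ι} (hc : c ∈ M.Z) {s : F}
    (hs : s ∈ Φ.R c) : ∃ k', M.Len (s * g) k' := by
  by_cases hs1 : s = 1
  · subst hs1
    rw [one_mul]
    exact ⟨k, h⟩
  rcases h with ⟨rfl, rfl⟩ | ⟨c', e, h⟩
  · rw [mul_one]
    exact ⟨1, Or.inr ⟨c, c, Red.one c s hc hs hs1⟩⟩
  · by_cases hcc' : c = c'
    · subst hcc'
      cases h with
      | one _ _ _ ht h1 =>
        by_cases hst : s * g = 1
        · exact ⟨0, Or.inl ⟨rfl, hst⟩⟩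
        · exact ⟨1, Or.inr ⟨c, c, Red.one c _ hc ((Φ.R c).mul_mem hs ht) hst⟩⟩
      | cons _ c'' _ t g' k' _ ht h1 hne h =>
        rw [← mul_assoc]
        by_cases hst : s * t = 1
        · rw [hst, one_mul]
          exact ⟨k', Or.inr ⟨c'', e, h⟩⟩
        · exact ⟨k' + 1, Or.inr ⟨c, e, Red.cons c c'' e _ _ _ hc ((Φ.R c).mul_mem hs ht) hst
            hne h⟩⟩
    · exact ⟨k + 1, Or.inr ⟨c, e, Red.cons c c' e _ _ _ hc hs hs1 hcc' h⟩⟩

/-- The subgroup generated by the stabilizers of the elements of `Z`. -/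
def K0 : Subgroup F := Subgroup.closure {s | ∃ i ∈ M.Z, s ∈ Φ.R i}

theorem mem_K0 {i : ι} (hi : i ∈ M.Z) {s : F} (hs : s ∈ Φ.R i) : s ∈ M.K0 :=
  Subgroup.subset_closure ⟨i, hi, hs⟩

theorem K0_len {g : F} (hg : g ∈ M.K0) : ∃ k, M.Len g k := by
  unfold K0 at hg
  induction hg using Subgroup.closure_induction_left with
  | one => exact ⟨0, Or.inl ⟨rfl, rfl⟩⟩
  | mul_left x hx y hy ih =>
    obtain ⟨i, hi, hs⟩ := hx
    obtain ⟨k, hk⟩ := ih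
    exact hk.mul_left M hi hs
  | inv_mul_cancel x hx y hy ih =>
    obtain ⟨i, hi, hs⟩ := hx
    obtain ⟨k, hk⟩ := ih
    exact hk.mul_left M hi (Φ.stab_inv hs)

theorem K0_conj {g : F} (hg : g ∈ M.G) {x : F} (hx : x ∈ M.K0) : g * x * g⁻¹ ∈ M.K0 := by
  unfold K0 at hx
  induction hx using Subgroup.closure_induction with
  | mem x hx =>
    obtain ⟨i, hi, hs⟩ := hx
    exact M.mem_K0 (M.GZ hg hi) (Φ.Rconj g i x hs)
  | one => simp
  | mul x y _ _ hx hy =>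
    have e : g * (x * y) * g⁻¹ = (g * x * g⁻¹) * (g * y * g⁻¹) := by group
    rw [e]
    exact M.K0.mul_mem hx hy
  | inv x _ hx =>
    have e : g * x⁻¹ * g⁻¹ = (g * x * g⁻¹)⁻¹ := by group
    rw [e]
    exact M.K0.inv_mem hx

theorem K0_inter {g : F} (hg : g ∈ M.K0) (hgG : g ∈ M.G) : g = 1 := by
  obtain ⟨k, hk⟩ := M.K0_len hg
  rcases hk with ⟨_, rfl⟩ | ⟨c, e, h⟩
  · rfl
  · exfalso
    obtain ⟨w, hw⟩ := M.neW
    exact h.pong M (M.What_sub_C h.mem_right (M.sub_What hw))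
      (M.What_sub_C h.mem_left (M.sub_What (M.GW g hgG w hw)))

/-- The next group. -/
def G' : Subgroup F where
  carrier := {x | ∃ a ∈ M.K0, ∃ γ ∈ M.G, x = a * γ}
  mul_mem' := by
    rintro _ _ ⟨a, ha, γ, hγ, rfl⟩ ⟨b, hb, δ, hδ, rfl⟩
    refine ⟨a * (γ * b * γ⁻¹), M.K0.mul_mem ha (M.K0_conj hγ hb), γ * δ, M.G.mul_mem hγ hδ, ?_⟩
    group
  one_mem' := ⟨1, M.K0.one_mem, 1, M.G.one_mem, by simp⟩
  inv_mem' := by
    rintro _ ⟨a, ha, γ, hγ, rfl⟩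
    refine ⟨γ⁻¹ * a⁻¹ * γ⁻¹⁻¹, M.K0_conj (M.G.inv_mem hγ) (M.K0.inv_mem ha), γ⁻¹,
      M.G.inv_mem hγ, ?_⟩
    group

theorem G_le : M.G ≤ M.G' := fun g hg => ⟨1, M.K0.one_mem, g, hg, by simp⟩

theorem K0_le : M.K0 ≤ M.G' := fun a ha => ⟨a, ha, 1, M.G.one_mem, by simp⟩

/-- The core of the next windmill. -/
def V0 : Set X := {v | v ∈ M.What ∨ ∃ i ∈ M.Z, v ∈ Φ.Y i}

theorem GV0 {g : F} (hg : g ∈ M.G) {v : X} (hv : v ∈ M.V0) : g • v ∈ M.V0 := by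
  rcases hv with h | ⟨i, hi, h⟩
  · exact Or.inl (M.GWhat hg h)
  · exact Or.inr ⟨g • i, M.GZ hg hi, Φ.equiv g i v h⟩

theorem Y_sub_V0 {i : ι} (hi : i ∈ M.Z) {v : X} (hv : v ∈ Φ.Y i) : v ∈ M.V0 :=
  Or.inr ⟨i, hi, hv⟩

theorem V0_sub_C {i : ι} (hi : i ∈ M.Z) {v : X} (hv : v ∈ M.V0) (hvi : v ∉ Φ.Y i) :
    v ∈ M.C i := by
  rcases hv with h | ⟨j, hj, h⟩
  · exact M.What_sub_C hi h
  · refine M.Y_sub_C hi hj ?_ h
    rintro rfl
    exact hvi h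

theorem convV0 : T.Convex M.V0 := by
  have key : ∀ x ∈ M.V0, ∀ w ∈ M.What, ∀ z, T.B x z w → z ∈ M.V0 := by
    rintro x (hx | ⟨i, hi, hx⟩) w hw z hz
    · exact Or.inl (M.convWhat x hx w hw z hz)
    · obtain ⟨_, u, hu, huW⟩ := id hi
      rcases T.B_or hz u with h | h
      · exact Or.inr ⟨i, hi, Φ.conv i x hx u hu z h⟩
      · exact Or.inl (M.convWhat u (M.sub_What huW) w hw z h)
  rintro x hx y hy z hz
  obtain ⟨w, hw⟩ := M.neW
  rcases T.B_or hz w with h | h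
  · exact key x hx w (M.sub_What hw) z h
  · exact key y hy w (M.sub_What hw) z (T.B_symm h)

/-- The next set. -/
def W' : Set X := {x | ∃ g ∈ M.G', ∃ v ∈ M.V0, x = g • v}

theorem V0_sub_W' {v : X} (hv : v ∈ M.V0) : v ∈ M.W' := ⟨1, M.G'.one_mem, v, hv, by simp⟩

theorem G'W' {g : F} (hg : g ∈ M.G') {x : X} (hx : x ∈ M.W') : g • x ∈ M.W' := by
  obtain ⟨h, hh, v, hv, rfl⟩ := hx
  exact ⟨g * h, M.G'.mul_mem hg hh, v, hv, by rw [mul_smul]⟩

theorem Red.stab_mem {c e : ι} {g : F} {k : ℕ} (h : M.Red c e g k) : g ∈ M.K0 := by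
  induction h with
  | one c t hc ht h1 => exact M.mem_K0 hc ht
  | cons c c' e t g k hc ht h1 hcc' _ ih => exact M.K0.mul_mem (M.mem_K0 hc ht) ih

theorem conv_aux {c e : ι} {g : F} {k : ℕ} (h : M.Red c e g k) : ∀ {x y z : X}, x ∈ M.V0 →
    y ∈ M.V0 → T.B x z (g • y) → z ∈ M.W' := by
  induction h with
  | one c t hc ht h1 =>
    intro x y z hx hy hz
    obtain ⟨u, hu⟩ := Φ.ne c
    rcases T.B_or hz u with h | h
    · exact M.V0_sub_W' (M.convV0 x hx u (M.Y_sub_V0 hc hu) z h)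
    · have h2 := Φ.B_smul_inv t h
      have h3 : t⁻¹ • u ∈ M.V0 := M.Y_sub_V0 hc (Φ.smul_stab (Φ.stab_inv ht) hu)
      have h4 := M.G'W' (M.K0_le (M.mem_K0 hc ht)) (M.V0_sub_W' (M.convV0 _ h3 y hy _ h2))
      rwa [smul_inv_smul] at h4
  | cons c c' e t g k hc ht h1 hcc' _ ih =>
    intro x y z hx hy hz
    obtain ⟨u, hu⟩ := Φ.ne c
    rcases T.B_or hz u with h | h
    · exact M.V0_sub_W' (M.convV0 x hx u (M.Y_sub_V0 hc hu) z h)
    · rw [mul_smul] at h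
      have h2 := Φ.B_smul_inv t h
      have h3 : t⁻¹ • u ∈ M.V0 := M.Y_sub_V0 hc (Φ.smul_stab (Φ.stab_inv ht) hu)
      have h4 := M.G'W' (M.K0_le (M.mem_K0 hc ht)) (ih h3 hy h2)
      rwa [smul_inv_smul] at h4

theorem convW' : T.Convex M.W' := by
  rintro _ ⟨g, hg, x, hx, rfl⟩ _ ⟨g', hg', y, hy, rfl⟩ z hz
  have h1 : T.B x (g⁻¹ • z) (g⁻¹ • g' • y) := by
    have := Φ.B_smul g⁻¹ hz
    rwa [inv_smul_smul] at this
  obtain ⟨a, ha, γ, hγ, haγ⟩ := M.G'.mul_mem (M.G'.inv_mem hg) hg'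
  have h2 : g⁻¹ • g' • y = a • (γ • y) := by
    rw [smul_smul, haγ, mul_smul]
  rw [h2] at h1
  have h3 : g⁻¹ • z ∈ M.W' := by
    obtain ⟨k, hk⟩ := M.K0_len ha
    rcases hk with ⟨_, rfl⟩ | ⟨c, e, h⟩
    · rw [one_smul] at h1
      exact M.V0_sub_W' (M.convV0 x hx _ (M.GV0 hγ hy) _ h1)
    · exact M.conv_aux h hx (M.GV0 hγ hy) h1
  have h4 := M.G'W' hg h3
  rwa [smul_inv_smul] at h4

/-- The next index set. -/
def J' : Set ι := {i | ∃ g ∈ M.G', ∃ j, (j ∈ M.J ∨ j ∈ M.Z) ∧ i = g • j}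

theorem Z_sub_J' {i : ι} (hi : i ∈ M.Z) : i ∈ M.J' :=
  ⟨1, M.G'.one_mem, i, Or.inr hi, by simp⟩

theorem J_sub_J' {i : ι} (hi : i ∈ M.J) : i ∈ M.J' :=
  ⟨1, M.G'.one_mem, i, Or.inl hi, by simp⟩

theorem G'J' {g : F} (hg : g ∈ M.G') {i : ι} (hi : i ∈ M.J') : g • i ∈ M.J' := by
  obtain ⟨h, hh, j, hj, rfl⟩ := hi
  exact ⟨g * h, M.G'.mul_mem hg hh, j, hj, by rw [mul_smul]⟩

theorem G'J'_not {g : F} (hg : g ∈ M.G') {i : ι} (hi : i ∉ M.J') : g • i ∉ M.J' := by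
  intro h
  apply hi
  have := M.G'J' (M.G'.inv_mem hg) h
  rwa [inv_smul_smul] at this

theorem disj_W {i : ι} (hi : i ∉ M.J') : ∀ x ∈ Φ.Y i, x ∉ M.W := fun x hx hxW =>
  hi (M.Z_sub_J' ⟨fun h => hi (M.J_sub_J' h), x, hx, hxW⟩)

/-- Case `k = 0`. -/
theorem small_zero {i : ι} (hi : i ∉ M.J') {x y : X} (hx : x ∈ M.V0) (hy : y ∈ M.V0)
    (hxi : x ∈ Φ.Y i) (hyi : y ∈ Φ.Y i) : T.d x y ≤ 3 * Φ.lam := by
  have key : ∀ x ∈ M.What, x ∈ Φ.Y i → ∀ c ∈ M.Z, ∀ y ∈ Φ.Y c, y ∈ Φ.Y i →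
      T.d x y ≤ 3 * Φ.lam := by
    intro x hx hxi c hc y hyc hyi
    have hci : c ≠ i := by
      rintro rfl
      exact hi (M.Z_sub_J' hc)
    have h1 : Φ.pr c x ∈ Φ.Y i := Φ.pr_mem_of (Φ.conv i) hxi hyc hyi
    have h2 : Φ.pr c x ∈ M.What := M.What_sub_C hc hx
    have h3 := M.dist_of_disj (M.disj_W hi) hxi h1 hx h2
    have h4 := Φ.small c i hci _ (Φ.pr_mem c x) h1 y hyc hyi
    have h5 := T.tri x (Φ.pr c x) y
    omega
  rcases hx with hx | ⟨c, hc, hxc⟩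
  · rcases hy with hy | ⟨c', hc', hyc'⟩
    · have := M.dist_of_disj (M.disj_W hi) hxi hyi hx hy
      omega
    · exact key x hx hxi c' hc' y hyc' hyi
  · rcases hy with hy | ⟨c', hc', hyc'⟩
    · rw [T.symm]
      exact key y hy hyi c hc x hxc hxi
    · have hci : c ≠ i := by
        rintro rfl
        exact hi (M.Z_sub_J' hc)
      have hci' : c' ≠ i := by
        rintro rfl
        exact hi (M.Z_sub_J' hc')
      -- either `Y c` and `Y c'` meet, or `Y i` meets `W`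
      by_cases hmeet : ∃ u ∈ Φ.Y c, u ∈ Φ.Y c'
      · obtain ⟨u, huc, huc'⟩ := hmeet
        obtain ⟨m, hmc, hmc', hmi⟩ := T.helly (Φ.conv c) (Φ.conv c') (Φ.conv i) ⟨huc, huc'⟩
          ⟨hyc', hyi⟩ ⟨hxc, hxi⟩
        have h1 := Φ.small c i hci x hxc hxi m hmc hmi
        have h2 := Φ.small c' i hci' m hmc' hmi y hyc' hyi
        have h3 := T.tri x m y
        omega
      · exfalso
        obtain ⟨_, w, hwc, hwW⟩ := id hc
        obtain ⟨_, w', hwc', hwW'⟩ := id hc'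
        have h1 : Φ.pr c y ∈ Φ.Y i := Φ.pr_mem_of (Φ.conv i) hyi hxc hxi
        have h2 : Φ.pr c w' ∈ M.W := Φ.pr_mem_of M.convW hwW' hwc hwW
        by_cases hpq : Φ.pr c y = Φ.pr c w'
        · rw [← hpq] at h2
          exact M.disj_W hi _ h1 h2
        · have h3 := ((Φ.pr_gate c y).between T (Φ.pr_gate c w') hpq).1
          exact hmeet ⟨_, Φ.pr_mem c y, Φ.conv c' y hyc' w' hwc' _ h3⟩

/-- The case of a reduced product. -/
theorem small_red : ∀ (k : ℕ) {i : ι} {g : F} {x y : X}, i ∉ M.J' → M.Len g k →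
    x ∈ M.V0 → y ∈ M.V0 → x ∈ Φ.Y i → g • y ∈ Φ.Y i → T.d x (g • y) ≤ 3 * Φ.lam := by
  -- removing the first letter
  have left : ∀ (k : ℕ), (∀ {i : ι} {g : F} {x y : X}, i ∉ M.J' → M.Len g k →
      x ∈ M.V0 → y ∈ M.V0 → x ∈ Φ.Y i → g • y ∈ Φ.Y i → T.d x (g • y) ≤ 3 * Φ.lam) →
      ∀ {i c e : ι} {g : F} {x y : X}, i ∉ M.J' → M.Red c e g (k + 1) →
      x ∈ M.V0 → y ∈ M.V0 → x ∈ Φ.Y i → g • y ∈ Φ.Y i → x ∈ Φ.Y c →
      T.d x (g • y) ≤ 3 * Φ.lam := by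
    intro k ih i c e g x y hi h hx hy hxi hyi hxc
    have main : ∀ (s g' : F), s ∈ Φ.R c → c ∈ M.Z → M.Len g' k → g = s * g' →
        T.d x (g • y) ≤ 3 * Φ.lam := by
      intro s g' hs hc hg' hgg
      subst hgg
      have h1 : s⁻¹ • i ∉ M.J' := M.G'J'_not (M.G'.inv_mem (M.K0_le (M.mem_K0 hc hs))) hi
      have h2 : s⁻¹ • x ∈ M.V0 := M.Y_sub_V0 hc (Φ.smul_stab (Φ.stab_inv hs) hxc)
      have h3 : s⁻¹ • x ∈ Φ.Y (s⁻¹ • i) := Φ.equiv _ _ _ hxi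
      have h4 : g' • y ∈ Φ.Y (s⁻¹ • i) := by
        have := Φ.equiv s⁻¹ _ _ hyi
        rwa [mul_smul, inv_smul_smul] at this
      have h5 := ih h1 hg' h2 hy h3 h4
      rw [← Φ.iso s, smul_inv_smul, smul_smul] at h5
      exact h5
    cases h with
    | one _ _ hc hs h1 => exact main g 1 hs hc (Or.inl ⟨rfl, rfl⟩) (by simp)
    | cons _ c' _ s g' _ hc hs h1 hne h => exact main s g' hs hc (Or.inr ⟨c', e, h⟩) rfl
  intro k
  induction k with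
  | zero =>
    intro i g x y hi hg hx hy hxi hyi
    rcases hg with ⟨_, rfl⟩ | ⟨c, e, h⟩
    · rw [one_smul] at hyi ⊢
      exact M.small_zero hi hx hy hxi hyi
    · cases h
  | succ k ih =>
    intro i g x y hi hg hx hy hxi hyi
    rcases hg with ⟨h, _⟩ | ⟨c, e, h⟩
    · omega
    by_cases hxc : x ∈ Φ.Y c
    · exact left k ih hi h hx hy hxi hyi hxc
    by_cases hye : y ∈ Φ.Y e
    · -- remove the last letter: apply `left` to the inverse
      have hgG : g ∈ M.G' := M.K0_le (h.stab_mem M)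
      have h1 : g⁻¹ • i ∉ M.J' := M.G'J'_not (M.G'.inv_mem hgG) hi
      have h2 : y ∈ Φ.Y (g⁻¹ • i) := by
        have := Φ.equiv g⁻¹ _ _ hyi
        rwa [inv_smul_smul] at this
      have h3 : g⁻¹ • x ∈ Φ.Y (g⁻¹ • i) := Φ.equiv _ _ _ hxi
      have h4 := left k ih h1 (h.inv M) hy hx h2 h3 hye
      rw [← Φ.iso g, smul_inv_smul, T.symm] at h4
      exact h4
    · exfalso
      have hcZ := h.mem_left
      have heZ := h.mem_right
      have hxC : x ∈ M.C c := M.V0_sub_C hcZ hx hxc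
      have hyC : y ∈ M.C e := M.V0_sub_C heZ hy hye
      -- the first letter
      have main : ∀ (s g' : F), s ∈ Φ.R c → s ≠ 1 → g = s * g' → g' • y ∈ M.C c → False := by
        intro s g' hs hs1 hgg hgy
        subst hgg
        have hp : Φ.pr c x ∈ M.What := hxC
        have hq : Φ.pr c (g' • y) ∈ M.What := hgy
        have h1 : Φ.pr c ((s * g') • y) = s • Φ.pr c (g' • y) := by
          rw [mul_smul, Φ.pr_stab hs]
        have h2 := M.dist_What hcZ.1 (Φ.pr_mem c x) (Φ.pr_mem c (g' • y)) hp hq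
        have h3 := Φ.disp c s hs hs1 _ (Φ.pr_mem c (g' • y))
        have h4 := T.tri (Φ.pr c (g' • y)) (Φ.pr c x) (s • Φ.pr c (g' • y))
        have h5 := T.symm (Φ.pr c (g' • y)) (Φ.pr c x)
        have h6 : Φ.lam < T.d (Φ.pr c x) (s • Φ.pr c (g' • y)) := by omega
        have hne : Φ.pr c x ≠ Φ.pr c ((s * g') • y) := by
          rw [h1]
          intro h
          rw [← h, T.self] at h6
          omega
        have h7 := (Φ.pr_gate c x).between T (Φ.pr_gate c ((s * g') • y)) hne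
        have h8 := Φ.conv i x hxi _ hyi _ h7.1
        have h9 := Φ.conv i x hxi _ hyi _ h7.2
        have hci : c ≠ i := by
          rintro rfl
          exact hi (M.Z_sub_J' hcZ)
        have h10 := Φ.small c i hci _ (Φ.pr_mem c x) h8 _ (Φ.pr_mem c _) h9
        rw [h1] at h10
        omega
      cases h with
      | one _ _ hc hs h1 => exact main g 1 hs h1 (by simp) (by rw [one_smul]; exact hyC)
      | cons _ c' _ s g' _ hc hs h1 hne h =>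
        exact main s g' hs h1 rfl (M.compl_sub_C hc h.mem_left hne (h.pong M hyC))

theorem smallW' {i : ι} (hi : i ∉ M.J') {x y : X} (hxi : x ∈ Φ.Y i) (hx : x ∈ M.W')
    (hyi : y ∈ Φ.Y i) (hy : y ∈ M.W') : T.d x y ≤ 3 * Φ.lam := by
  obtain ⟨g, hg, x, hx, rfl⟩ := hx
  obtain ⟨g', hg', y, hy, rfl⟩ := hy
  obtain ⟨a, ha, γ, hγ, haγ⟩ := M.G'.mul_mem (M.G'.inv_mem hg) hg'
  have h2 : g⁻¹ • g' • y = a • (γ • y) := by
    rw [smul_smul, haγ, mul_smul]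
  obtain ⟨k, hk⟩ := M.K0_len ha
  have h3 : x ∈ Φ.Y (g⁻¹ • i) := by
    have := Φ.equiv g⁻¹ _ _ hxi
    rwa [inv_smul_smul] at this
  have h4 : a • (γ • y) ∈ Φ.Y (g⁻¹ • i) := by
    rw [← h2]
    exact Φ.equiv _ _ _ hyi
  have h5 := M.small_red k (M.G'J'_not (M.G'.inv_mem hg) hi) hk hx (M.GV0 hγ hy) h3 h4
  rw [← h2, ← Φ.iso g, smul_inv_smul] at h5
  exact h5

/-- The next windmill. -/
def next : Φ.Mill where
  W := M.W'
  G := M.G'
  J := M.J'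
  convW := M.convW'
  neW := by
    obtain ⟨w, hw⟩ := M.neW
    exact ⟨w, M.V0_sub_W' (Or.inl (M.sub_What hw))⟩
  GW := fun g hg x hx => M.G'W' hg hx
  GJ := fun g hg i hi => M.G'J' hg hi
  stab := by
    rintro _ ⟨g, hg, j, hj, rfl⟩ s hs
    have h1 : g⁻¹ * s * g ∈ Φ.R j := by
      have := Φ.Rconj g⁻¹ _ s hs
      rwa [inv_inv, inv_smul_smul] at this
    have h2 : g⁻¹ * s * g ∈ M.G' := by
      rcases hj with hj | hj
      · exact M.G_le (M.stab j hj _ h1)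
      · exact M.K0_le (M.mem_K0 hj h1)
    have h3 := M.G'.mul_mem (M.G'.mul_mem hg h2) (M.G'.inv_mem hg)
    have e : g * (g⁻¹ * s * g) * g⁻¹ = s := by group
    rwa [e] at h3
  smallW := fun i hi x hx hxW y hy hyW => M.smallW' hi hx hxW hy hyW

/-- points of `Y i` near `W`, one of them in `W`. -/
theorem dist_What_W {i : ι} (hi : i ∉ M.J) {x y : X} (hx : x ∈ Φ.Y i)
    (hy : y ∈ Φ.Y i) (hxW : x ∈ M.W) (hyW : y ∈ M.What) : T.d x y ≤ 4 * Φ.lam := by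
  obtain ⟨w', hw', hyw⟩ := hyW
  obtain ⟨q, hq⟩ := T.exists_gate M.convW M.neW y
  have hqY := hq.mem_of_inter T (Φ.conv i) hy hxW hx
  have h0 := M.smallW i hi x hx hxW q hqY hq.1
  have h2 := hq.2 w' hw'
  have h4 := T.tri x q y
  have h5 := T.symm y q
  unfold TreeDist.B at *
  omega

/-- **The Greendlinger step.** -/
theorem green_step {c e : ι} {a : F} {k : ℕ} (h : M.Red c e a k) {x y : X} (hx : x ∈ M.W)
    (hy : y ∈ M.W) {δ : ℕ} (hδ : ∀ s ∈ Φ.R c, s ≠ 1 → ∀ z ∈ Φ.Y c, δ ≤ T.d z (s • z))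
    (hδ2 : 4 * Φ.lam < δ) :
    ∃ p ∈ Φ.Y c, ∃ q ∈ Φ.Y c, T.B x p (a • y) ∧ T.B x q (a • y) ∧
      δ ≤ T.d p q + 4 * Φ.lam := by
  have hcZ := h.mem_left
  have hyC : y ∈ M.C e := M.What_sub_C h.mem_right (M.sub_What hy)
  have main : ∀ (s g' : F), s ∈ Φ.R c → s ≠ 1 → a = s * g' → g' • y ∈ M.C c →
      ∃ p ∈ Φ.Y c, ∃ q ∈ Φ.Y c, T.B x p (a • y) ∧ T.B x q (a • y) ∧
        δ ≤ T.d p q + 4 * Φ.lam := by
    intro s g' hs hs1 hgg hgy
    subst hgg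
    have hq : Φ.pr c (g' • y) ∈ M.What := hgy
    have hp : Φ.pr c x ∈ M.W := by
      obtain ⟨_, u, hu, huW⟩ := id hcZ
      exact Φ.pr_mem_of M.convW hx hu huW
    have h1 : Φ.pr c ((s * g') • y) = s • Φ.pr c (g' • y) := by
      rw [mul_smul, Φ.pr_stab hs]
    have h2 := M.dist_What_W hcZ.1 (Φ.pr_mem c x) (Φ.pr_mem c (g' • y)) hp hq
    have h3 := hδ s hs hs1 _ (Φ.pr_mem c (g' • y))
    have h4 := T.tri (Φ.pr c (g' • y)) (Φ.pr c x) (s • Φ.pr c (g' • y))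
    have h5 := T.symm (Φ.pr c (g' • y)) (Φ.pr c x)
    have h6 : δ ≤ T.d (Φ.pr c x) (s • Φ.pr c (g' • y)) + 4 * Φ.lam := by omega
    have hne : Φ.pr c x ≠ Φ.pr c ((s * g') • y) := by
      rw [h1]
      intro h
      rw [← h, T.self] at h6
      omega
    have h7 := (Φ.pr_gate c x).between T (Φ.pr_gate c ((s * g') • y)) hne
    refine ⟨_, Φ.pr_mem c x, _, Φ.pr_mem c ((s * g') • y), h7.1, h7.2, ?_⟩
    rw [h1]
    exact h6
  cases h with
  | one _ _ hc hs h1 => exact main a 1 hs h1 (by simp) (by rw [one_smul]; exact hyC)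
  | cons _ c' _ s g' _ hc hs h1 hne h =>
    exact main s g' hs h1 rfl (M.compl_sub_C hc h.mem_left hne (h.pong M hyC))

end Mill

/-- The sequence of windmills. -/
noncomputable def mill (x0 : X) (n : ℕ) : Φ.Mill :=
  Nat.rec (Mill.init Φ x0) (fun _ M => M.next) n

theorem mill_W_mono (x0 : X) : Monotone fun n => (Φ.mill x0 n).W :=
  monotone_nat_of_le_succ fun n => fun _ hx =>
    (Φ.mill x0 n).V0_sub_W' (Or.inl ((Φ.mill x0 n).sub_What hx))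

theorem mill_G_mono (x0 : X) : Monotone fun n => (Φ.mill x0 n).G :=
  monotone_nat_of_le_succ fun n => (Φ.mill x0 n).G_le

theorem mill_W (x0 : X) (n : ℕ) : ∀ {x : X}, T.d x0 x ≤ n → x ∈ (Φ.mill x0 n).W := by
  induction n with
  | zero =>
    intro x hx
    have := T.eq_of x0 x (by omega)
    subst this
    exact rfl
  | succ n ih =>
    intro x hx
    obtain ⟨z, hz1, hz2⟩ := T.interp x0 x (min n (T.d x0 x)) (by omega)
    have h1 : z ∈ (Φ.mill x0 n).W := ih (by omega)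
    refine (Φ.mill x0 n).V0_sub_W' (Or.inl ⟨z, h1, ?_⟩)
    have h2 := T.symm x z
    have h3 := Φ.lam_pos
    omega

theorem mill_J (x0 : X) (i : ι) : ∃ n, i ∈ (Φ.mill x0 n).J := by
  obtain ⟨x, hx⟩ := Φ.ne i
  by_cases h : i ∈ (Φ.mill x0 (T.d x0 x)).J
  · exact ⟨_, h⟩
  · exact ⟨T.d x0 x + 1, (Φ.mill x0 (T.d x0 x)).Z_sub_J' ⟨h, x, hx, Φ.mill_W x0 _ le_rfl⟩⟩

/-- The Greendlinger lemma for a small cancellation family. -/
theorem green (x0 : X) {g : F} (hg : g ∈ Subgroup.closure {s | ∃ i, s ∈ Φ.R i}) (hg1 : g ≠ 1)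
    {δ : ℕ} (hδ : ∀ i, ∀ s ∈ Φ.R i, s ≠ 1 → ∀ z ∈ Φ.Y i, δ ≤ T.d z (s • z))
    (hδ2 : 4 * Φ.lam < δ) :
    ∃ c, ∃ p ∈ Φ.Y c, ∃ q ∈ Φ.Y c, T.B x0 p (g • x0) ∧ T.B x0 q (g • x0) ∧
      δ ≤ T.d p q + 4 * Φ.lam := by
  have hex : ∃ n, g ∈ (Φ.mill x0 n).G := by
    have hdG : Directed (· ≤ ·) fun n => (Φ.mill x0 n).G := (Φ.mill_G_mono x0).directed_le
    rw [← Subgroup.mem_iSup_of_directed hdG]
    refine (?_ : Subgroup.closure {s | ∃ i, s ∈ Φ.R i} ≤ ⨆ n, (Φ.mill x0 n).G) hg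
    refine (Subgroup.closure_le _).mpr ?_
    rintro s ⟨i, hs⟩
    obtain ⟨n, hn⟩ := Φ.mill_J x0 i
    exact Subgroup.mem_iSup_of_mem n ((Φ.mill x0 n).stab i hn s hs)
  classical
  have h0 : Nat.find hex ≠ 0 := by
    intro h
    have h1 := Nat.find_spec hex
    rw [h] at h1
    exact hg1 (Subgroup.mem_bot.mp h1)
  obtain ⟨n, hn⟩ := Nat.exists_eq_succ_of_ne_zero h0
  have h1 : g ∈ (Φ.mill x0 (n + 1)).G := by
    have := Nat.find_spec hex
    rwa [hn] at this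
  have h2 : g ∉ (Φ.mill x0 n).G := Nat.find_min hex (by omega)
  obtain ⟨a, ha, γ, hγ, rfl⟩ := (h1 : g ∈ (Φ.mill x0 n).G')
  obtain ⟨k, hk⟩ := (Φ.mill x0 n).K0_len ha
  rcases hk with ⟨_, rfl⟩ | ⟨c, e, h⟩
  · rw [one_mul] at h2
    exact absurd hγ h2
  · have hx : x0 ∈ (Φ.mill x0 n).W := Φ.mill_W x0 n (by rw [T.self]; exact Nat.zero_le _)
    obtain ⟨p, hp, q, hq, h3, h4, h5⟩ := (Φ.mill x0 n).green_step h hx
      ((Φ.mill x0 n).GW γ hγ x0 hx) (hδ c) hδ2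
    rw [smul_smul] at h3 h4
    exact ⟨c, p, hp, q, hq, h3, h4, h5⟩

end GFam

end mill

section application

variable {α : Type*} [DecidableEq α]

/-- the conjugates of `v` under `G` -/
def GConj (G : Subgroup (FreeGroup α)) (v : FreeGroup α) : Type _ :=
  {u : FreeGroup α // ∃ g ∈ G, u = g * v * g⁻¹}

instance (G : Subgroup (FreeGroup α)) (v : FreeGroup α) : MulAction G (GConj G v) where
  smul g u := ⟨g.1 * u.1 * g.1⁻¹, by
    obtain ⟨h, hh, e⟩ := u.2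
    refine ⟨g.1 * h, G.mul_mem g.2 hh, ?_⟩
    rw [e]
    group⟩
  one_smul u := by
    apply Subtype.ext
    show (1 : FreeGroup α) * u.1 * (1 : FreeGroup α)⁻¹ = u.1
    simp
  mul_smul g h u := by
    apply Subtype.ext
    show (g.1 * h.1) * u.1 * (g.1 * h.1)⁻¹ = g.1 * (h.1 * u.1 * h.1⁻¹) * g.1⁻¹
    group

theorem gconj_val {G : Subgroup (FreeGroup α)} {v : FreeGroup α} (g : G) (u : GConj G v) :
    (g • u).1 = g.1 * u.1 * g.1⁻¹ := rfl

/-- the small cancellation family of the axes of the conjugates of `v`. -/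
noncomputable def gfam (G : Subgroup (FreeGroup α)) (v : FreeGroup α) (hv1 : v ≠ 1) (n : ℕ)
    (hn : 7 ≤ n) : GFam G (GConj G v) (TT α) where
  iso f x y := D_mul f.1 x y
  Y u := Ax u.1
  conv u := convex_Ax u.1
  ne u := Ax_nonempty u.1
  equiv f u x hx := (mem_Ax_conj (f := f.1) (g := u.1)).mpr hx
  lam := tl v
  lam_pos := tl_pos hv1
  small := by
    intro u u' huu x hx hx' y hy hy'
    obtain ⟨g, hg, e⟩ := u.2
    obtain ⟨g', hg', e'⟩ := u'.2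
    by_contra hcon
    have h1 : tl v ≤ D x y := by
      show tl v ≤ (TT α).d x y
      omega
    have htl : tl u.1 = tl u'.1 := by rw [e, e', tl_conj, tl_conj]
    have h2 : tl u.1 ≤ D x y := by rw [e, tl_conj]; exact h1
    rcases eq_or_inv_of_overlap htl hx hx' hy hy' h2 with h | h
    · exact huu (Subtype.ext h.symm)
    · rw [e, e'] at h
      apply hv1
      have h3 : (g⁻¹ * g') * v * (g⁻¹ * g')⁻¹ = v⁻¹ := by
        have h4 := congrArg (fun z => g⁻¹ * z * g) h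
        have e1 : g⁻¹ * (g' * v * g'⁻¹) * g = (g⁻¹ * g') * v * (g⁻¹ * g')⁻¹ := by group
        have e2 : g⁻¹ * (g * v * g⁻¹)⁻¹ * g = v⁻¹ := by group
        rw [e1, e2] at h4
        exact h4
      exact not_conj_inv h3
  R u := (Subgroup.zpowers (u.1 ^ n)).comap G.subtype
  Rstab := by
    rintro u s hs
    obtain ⟨k, hk⟩ := Subgroup.mem_comap.mp hs
    apply Subtype.ext
    rw [gconj_val]
    have hk' : (u.1 ^ n) ^ k = s.1 := hk
    rw [← hk']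
    have h1 : Commute ((u.1 ^ n) ^ k) u.1 := ((Commute.refl u.1).pow_left n).zpow_left k
    rw [h1.eq, mul_inv_cancel_right]
  Rconj := by
    rintro f u s hs
    obtain ⟨k, hk⟩ := Subgroup.mem_comap.mp hs
    refine Subgroup.mem_comap.mpr ⟨k, ?_⟩
    have hk' : (u.1 ^ n) ^ k = s.1 := hk
    show ((f • u).1 ^ n) ^ k = (f * s * f⁻¹ : G).1
    rw [gconj_val, conj_pow, conj_zpow, hk']
    rfl
  disp := by
    rintro u s hs hs1 x hx
    obtain ⟨k, hk⟩ := Subgroup.mem_comap.mp hs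
    have hk' : (u.1 ^ n) ^ k = s.1 := hk
    obtain ⟨g, hg, e⟩ := u.2
    have hk0 : k ≠ 0 := by
      rintro rfl
      apply hs1
      apply Subtype.ext
      rw [← hk', zpow_zero]
      rfl
    have h1 : D x (s.1 * x) = (n * k : ℤ).natAbs * tl u.1 := by
      rw [← hk', ← zpow_natCast, ← zpow_mul]
      exact D_zpow hx _
    have h2 : tl u.1 = tl v := by rw [e, tl_conj]
    show 6 * tl v + 1 ≤ D x (s.1 * x)
    rw [h1, h2, Int.natAbs_mul, Int.natAbs_natCast]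
    have h3 : 1 ≤ k.natAbs := by omega
    have h4 := tl_pos hv1
    have h5 : 7 * 1 ≤ n * k.natAbs := Nat.mul_le_mul hn h3
    nlinarith

theorem greendlinger (G : Subgroup (FreeGroup α)) (v : FreeGroup α) (hv : v ∈ G) (hv1 : v ≠ 1)
    (n : ℕ) (hn : 7 ≤ n) (g : FreeGroup α)
    (hg : g ∈ Subgroup.closure {y : FreeGroup α | ∃ j ∈ G, y = j * v ^ n * j⁻¹}) (hg1 : g ≠ 1)
    (x : FreeGroup α) :
    ∃ j ∈ G, ∃ p q : FreeGroup α, p ∈ Ax (j * v * j⁻¹) ∧ q ∈ Ax (j * v * j⁻¹) ∧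
      (TT α).B x p (g * x) ∧ (TT α).B x q (g * x) ∧ (n - 4) * tl v ≤ D p q := by
  have h1 : g ∈ (Subgroup.closure {s : G | ∃ u, s ∈ (gfam G v hv1 n hn).R u}).map
      G.subtype := by
    refine (?_ : Subgroup.closure {y : FreeGroup α | ∃ j ∈ G, y = j * v ^ n * j⁻¹} ≤ _) hg
    refine (Subgroup.closure_le _).mpr ?_
    rintro y ⟨j, hj, rfl⟩
    have hy : j * v ^ n * j⁻¹ ∈ G :=
      G.mul_mem (G.mul_mem hj (G.pow_mem hv n)) (G.inv_mem hj)
    refine ⟨⟨j * v ^ n * j⁻¹, hy⟩, Subgroup.subset_closure ?_, rfl⟩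
    refine ⟨⟨j * v * j⁻¹, j, hj, rfl⟩, ?_⟩
    refine Subgroup.mem_comap.mpr ⟨1, ?_⟩
    show ((j * v * j⁻¹) ^ n) ^ (1 : ℤ) = j * v ^ n * j⁻¹
    rw [zpow_one, conj_pow]
  obtain ⟨s, hs, rfl⟩ := h1
  have hs1 : s ≠ 1 := by
    rintro rfl
    exact hg1 rfl
  have hδ : ∀ i, ∀ s ∈ (gfam G v hv1 n hn).R i, s ≠ 1 → ∀ z ∈ (gfam G v hv1 n hn).Y i,
      n * tl v ≤ (TT α).d z (s • z) := by
    rintro u s hs hs1 x hx
    obtain ⟨k, hk⟩ := Subgroup.mem_comap.mp hs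
    have hk' : (u.1 ^ n) ^ k = s.1 := hk
    obtain ⟨g, hg, e⟩ := u.2
    have hk0 : k ≠ 0 := by
      rintro rfl
      apply hs1
      apply Subtype.ext
      rw [← hk', zpow_zero]
      rfl
    have h1 : D x (s.1 * x) = (n * k : ℤ).natAbs * tl u.1 := by
      rw [← hk', ← zpow_natCast, ← zpow_mul]
      exact D_zpow hx _
    have h2 : tl u.1 = tl v := by rw [e, tl_conj]
    show n * tl v ≤ D x (s.1 * x)
    rw [h1, h2, Int.natAbs_mul, Int.natAbs_natCast]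
    have h3 : 1 ≤ k.natAbs := by omega
    have h5 : n * 1 ≤ n * k.natAbs := Nat.mul_le_mul le_rfl h3
    rw [mul_one] at h5
    exact Nat.mul_le_mul h5 le_rfl
  have hδ2 : 4 * (gfam G v hv1 n hn).lam < n * tl v := by
    show 4 * tl v < n * tl v
    have h4 := tl_pos hv1
    exact Nat.mul_lt_mul_of_pos_right (by omega) h4
  obtain ⟨c, p, hp, q, hq, h3, h4, h5⟩ := (gfam G v hv1 n hn).green x hs hs1 hδ hδ2
  obtain ⟨j, hj, e⟩ := c.2
  have hp' : p ∈ Ax c.1 := hp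
  have hq' : q ∈ Ax c.1 := hq
  rw [e] at hp' hq'
  refine ⟨j, hj, p, q, hp', hq', h3, h4, ?_⟩
  have h6 : n * tl v ≤ D p q + 4 * tl v := h5
  rw [Nat.sub_mul]
  omega

/-- the case `G = ⊤` -/
theorem greendlinger_top (v : FreeGroup α) (hv1 : v ≠ 1) (n : ℕ) (hn : 7 ≤ n) (g : FreeGroup α)
    (hg : g ∈ Subgroup.normalClosure {v ^ n}) (hg1 : g ≠ 1) (x : FreeGroup α) :
    ∃ j p q : FreeGroup α, p ∈ Ax (j * v * j⁻¹) ∧ q ∈ Ax (j * v * j⁻¹) ∧
      (TT α).B x p (g * x) ∧ (TT α).B x q (g * x) ∧ (n - 4) * tl v ≤ D p q := by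
  have h1 : g ∈ Subgroup.closure {y : FreeGroup α | ∃ j ∈ (⊤ : Subgroup (FreeGroup α)),
      y = j * v ^ n * j⁻¹} := by
    refine (?_ : Subgroup.normalClosure {v ^ n} ≤ _) hg
    unfold Subgroup.normalClosure
    refine (Subgroup.closure_le _).mpr ?_
    intro y hy
    rw [Group.mem_conjugatesOfSet_iff] at hy
    obtain ⟨a, ha, hay⟩ := hy
    rw [Set.mem_singleton_iff] at ha
    subst ha
    obtain ⟨j, hj⟩ := isConj_iff.mp hay
    exact Subgroup.subset_closure ⟨j, Subgroup.mem_top j, hj.symm⟩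
  obtain ⟨j, _, p, q, h⟩ := greendlinger ⊤ v (Subgroup.mem_top v) hv1 n hn g h1 hg1 x
  exact ⟨j, p, q, h⟩

end application

end Pool.Agent.H28.UE
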