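import Pool.Agent.H28.UE.LiftA

set_option autoImplicit false

/-!
JOB UE-LI2 (the lifting theorem).
-/

namespace Pool.Agent.H28.UE

variable {α : Type*} [DecidableEq α]

theorem li_zpow_ne_one {g : FreeGroup α} (hg : g ≠ 1) {m : ℤ} (hm : m ≠ 0) : g ^ m ≠ 1 := by
  intro h
  have h1 := tl_zpow g m
  have h2 : tl (1 : FreeGroup α) ≤ D (1 : FreeGroup α) (1 * 1) := tl_le 1 1
  rw [one_mul, D_self] at h2
  have h3 := tl_pos hg
  rw [h] at h1
  have h4 : 0 < m.natAbs * tl g := Nat.mul_pos (by omega) h3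
  omega

omit [DecidableEq α] in
theorem li_root_pow {s v f : FreeGroup α} (hroot : IsRoot s) (hv : v ≠ 1)
    (h : Commute v (f * s * f⁻¹)) : ∃ l : ℤ, l ≠ 0 ∧ v = f * s ^ l * f⁻¹ := by
  obtain ⟨m, hm⟩ := hroot.conj f v h
  have hm' : (f * s * f⁻¹) ^ m = v := hm
  rw [conj_zpow] at hm'
  refine ⟨m, ?_, hm'.symm⟩
  rintro rfl
  apply hv
  rw [← hm']
  simp

/-- **The lifting theorem.**
Proof. Take `ψ`, `A` from `exists_minimal_lift`, `v = ψ u`, `J = ψ.range`. `v ≠ 1` since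
`φ u ≠ 1`; `v ^ n` is a nontrivial element of `normalClosure {s ^ N}`. Take `x ∈ Ax v`
(`Ax v ⊆ A` by `Ax_subset_of_inv`). `greendlinger_top` for `g = v ^ n`: `σ = f s f⁻¹` and
`p, q ∈ Ax σ` between `x` and `v ^ n x`, hence in `Ax v ∩ A`, `D p q ≥ (N-4) ℓ`. So
`c = σ ^ l = ψ h`, `l ≠ 0`. `φ h ^ N = 1`, hence `h ^ N ∈ normalClosure {u ^ n}` and
`c ^ N` lies in the subgroup generated by the `j v ^ n j⁻¹`, `j ∈ J`; `c ^ N ≠ 1`.
`greendlinger` for `G = J`, `v`, `g = c ^ N` and `x ∈ Ax σ = Ax c`: `j ∈ J` and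
`p', q' ∈ Ax σ ∩ Ax (j v j⁻¹)` with `D p' q' ≥ (n - 4) tl v`. If `(n - 4) tl v ≥ tl v + ℓ` then
`j v j⁻¹` commutes with `σ` (`commute_of_overlap`), a root, so it is a power of `σ`. Otherwise
`tl v < ℓ` and `p, q` give `D p q ≥ (N-4) ℓ ≥ tl v + ℓ`, so `v` commutes with `σ`. -/
theorem lifting {k : ℕ} (s : FreeGroup α) (hs : s ≠ 1) (hroot : IsRoot s) (N : ℕ)
    (hN : 32 * k + 12 ≤ N)
    (φ : FreeGroup (Fin k) →* FreeGroup α ⧸ Subgroup.normalClosure {s ^ N})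
    (u : FreeGroup (Fin k)) (n : ℕ) (hn : 7 ≤ n)
    (hker : ∀ h, φ h = 1 → h ∈ Subgroup.normalClosure {u ^ n}) (hun : φ u ^ n = 1)
    (hu : φ u ≠ 1) :
    ∃ ψ : FreeGroup (Fin k) →* FreeGroup α,
      (∀ h, (QuotientGroup.mk (ψ h) : FreeGroup α ⧸ Subgroup.normalClosure {s ^ N}) = φ h) ∧
      ∃ (f : FreeGroup α) (l : ℤ), l ≠ 0 ∧ ψ u = f * s ^ l * f⁻¹ := by
  obtain ⟨ψ, A, hA, hne, hinv, hlift, hlong⟩ := exists_minimal_lift s hs hroot N hN φ
  refine ⟨ψ, hlift, ?_⟩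
  have hv1 : ψ u ≠ 1 := by
    intro h
    apply hu
    rw [← hlift, h]
    rfl
  obtain ⟨v, hv⟩ : ∃ v, v = ψ u := ⟨_, rfl⟩
  rw [← hv] at hv1
  have hvn : v ^ n ∈ Subgroup.normalClosure {s ^ N} := by
    rw [← QuotientGroup.eq_one_iff, hv, ← map_pow, hlift, map_pow]
    exact hun
  have hvn1 : v ^ n ≠ 1 := by
    rw [← zpow_natCast]
    exact li_zpow_ne_one hv1 (by omega)
  have hAxA : Ax v ⊆ A := by
    apply Ax_subset_of_inv hv1 hA hne
    · intro x hx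
      rw [hv]
      exact hinv u x hx
    · intro x hx
      rw [hv, ← map_inv]
      exact hinv u⁻¹ x hx
  obtain ⟨x, hx⟩ := Ax_nonempty v
  obtain ⟨f, p, q, hp, hq, hp', hq', hpq⟩ := greendlinger_top s hs N (by omega) (v ^ n) hvn hvn1 x
  have hxn : v ^ n * x ∈ Ax v := by
    have := zpow_mem_Ax hx (n : ℤ)
    rwa [zpow_natCast] at this
  have hpv : p ∈ Ax v := convex_Ax v x hx _ hxn p hp'
  have hqv : q ∈ Ax v := convex_Ax v x hx _ hxn q hq'
  obtain ⟨l, hl, h, hh⟩ := hlong f p q (hAxA hpv) (hAxA hqv) hp hq hpq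
  have hσ1 : f * s * f⁻¹ ≠ 1 := by
    intro h1
    exact hs (conj_eq_one_iff.1 h1)
  have hσroot : IsRoot (f * s * f⁻¹) := hroot.conj f
  have htlσ : tl (f * s * f⁻¹) = tl s := tl_conj f s
  have hhN : h ^ N ∈ Subgroup.normalClosure {u ^ n} := by
    apply hker
    have e1 : (s ^ l) ^ N = (s ^ N) ^ l := by
      rw [← zpow_natCast (s ^ l), ← zpow_mul, mul_comm l, zpow_mul, zpow_natCast]
    rw [map_pow, ← hlift, hh, ← QuotientGroup.mk_pow, QuotientGroup.eq_one_iff, conj_zpow, conj_pow,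
      e1]
    have h3 : s ^ N ∈ Subgroup.normalClosure {s ^ N} :=
      Subgroup.subset_normalClosure (Set.mem_singleton _)
    exact (Subgroup.normalClosure_normal (s := {s ^ N})).conj_mem _
      (Subgroup.zpow_mem _ h3 l) f
  have hmem : (f * s * f⁻¹) ^ (l * N) ∈
      Subgroup.closure {y : FreeGroup α | ∃ j ∈ ψ.range, y = j * v ^ n * j⁻¹} := by
    have h1 : Subgroup.normalClosure {u ^ n} ≤
        (Subgroup.closure {y : FreeGroup α | ∃ j ∈ ψ.range, y = j * v ^ n * j⁻¹}).comap ψ := by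
      unfold Subgroup.normalClosure
      refine (Subgroup.closure_le _).mpr ?_
      intro y hy
      rw [Group.mem_conjugatesOfSet_iff] at hy
      obtain ⟨a, ha, hay⟩ := hy
      rw [Set.mem_singleton_iff] at ha
      subst ha
      obtain ⟨j, hj⟩ := isConj_iff.mp hay
      refine Subgroup.subset_closure ⟨ψ j, ⟨j, rfl⟩, ?_⟩
      rw [← hj, hv]
      simp only [map_mul, map_inv, map_pow]
    have h2 := h1 hhN
    have e1 : (f * s * f⁻¹) ^ (l * N) = ((f * s * f⁻¹) ^ l) ^ N := by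
      rw [zpow_mul, zpow_natCast]
    rw [Subgroup.mem_comap, map_pow, hh, ← e1] at h2
    exact h2
  have hN0 : (N : ℤ) ≠ 0 := by omega
  obtain ⟨x', hx'⟩ := Ax_nonempty (f * s * f⁻¹)
  obtain ⟨j, hj, p', q', hp1, hq1, hp2, hq2, hpq'⟩ := greendlinger ψ.range v
    (hv ▸ ⟨u, rfl⟩) hv1 n hn _ hmem (li_zpow_ne_one hσ1 (mul_ne_zero hl hN0)) x'
  have hxn' := zpow_mem_Ax hx' (l * N)
  have hp3 : p' ∈ Ax (f * s * f⁻¹) := convex_Ax _ x' hx' _ hxn' p' hp2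
  have hq3 : q' ∈ Ax (f * s * f⁻¹) := convex_Ax _ x' hx' _ hxn' q' hq2
  have hvpos := tl_pos hv1
  have hspos := tl_pos hs
  rw [← hv]
  by_cases hcase : tl v + tl s ≤ (n - 4) * tl v
  · have hc : Commute (j * v * j⁻¹) (f * s * f⁻¹) :=
      commute_of_overlap hp1 hp3 hq1 hq3 (by rw [tl_conj, tl_conj]; omega)
    have hjv : j * v * j⁻¹ ≠ 1 := fun h1 => hv1 (conj_eq_one_iff.1 h1)
    obtain ⟨m, hm, e⟩ := li_root_pow hroot hjv hc
    refine ⟨j⁻¹ * f, m, hm, ?_⟩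
    have e2 : v = j⁻¹ * (j * v * j⁻¹) * j := by group
    rw [e2, e]
    group
  · have h1 : 3 * tl v ≤ (n - 4) * tl v := Nat.mul_le_mul_right _ (by omega)
    have h2 : 8 * tl s ≤ (N - 4) * tl s := Nat.mul_le_mul_right _ (by omega)
    have hc : Commute v (f * s * f⁻¹) :=
      commute_of_overlap hpv hp hqv hq (by rw [tl_conj]; omega)
    obtain ⟨m, hm, e⟩ := li_root_pow hroot hv1 hc
    exact ⟨f, m, hm, e⟩

end Pool.Agent.H28.UE
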