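import Pool.Agent.H28.UE.Chi

set_option autoImplicit false

/-!
JOB UE-PR (pruning minimal invariant subtrees).

`T ⊆ A`: otherwise remove from `T` the elements not in `A` (`t = ψ h⁻¹ x ∈ A` for those used).
Inequivalent: otherwise remove `t'`. Two neighbours: suppose `x ∈ A` has at most one neighbour in `A`.
`A' = {y ∈ A : y is not ψ h * x}`, `T' = {t ∈ T : t is not ψ h * x}` (smaller, since `x = ψ h t`).
`A'` contains `x1` (two neighbours in `A`). Convex: if `z = ψ h x` lies strictly between `u, v ∈ A'` then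
`z` has two different neighbours on `[u, v]` (`interp`; they are in `A`), and so has `x`.
-/

namespace Pool.Agent.H28.UE

variable {α : Type*} [DecidableEq α]

/-- Pruning: if `(A, T)` has `T` of smallest cardinality among all invariant subtrees for `ψ`, then
`T ⊆ A`, the elements of `T` are inequivalent, and every vertex of `A` has two different
neighbours in `A`, provided `A` contains three different vertices `x0, x1, x2` with
`D x0 x1 = 1`, `D x1 x2 = 1`. (If `x ∈ A` has at most one neighbour, remove its orbit.) -/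
theorem minimal_props {H : Type*} [Group H] (ψ : H →* FreeGroup α) (A : Set (FreeGroup α))
    (T : Finset (FreeGroup α)) (hA : (TT α).Convex A) (hne : A.Nonempty)
    (hinv : ∀ h, ∀ x ∈ A, ψ h * x ∈ A) (hcov : ∀ x ∈ A, ∃ h, ∃ t ∈ T, x = ψ h * t)
    (hmin : ∀ (A' : Set (FreeGroup α)) (T' : Finset (FreeGroup α)), (TT α).Convex A' →
      A'.Nonempty → (∀ h, ∀ x ∈ A', ψ h * x ∈ A') → (∀ x ∈ A', ∃ h, ∃ t ∈ T', x = ψ h * t) →
      T.card ≤ T'.card)
    {x0 x1 x2 : FreeGroup α} (h0 : x0 ∈ A) (h1 : x1 ∈ A) (h2 : x2 ∈ A) (h01 : D x0 x1 = 1)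
    (h12 : D x1 x2 = 1) (h02 : x0 ≠ x2) :
    (∀ t ∈ T, t ∈ A) ∧ (∀ t ∈ T, ∀ t' ∈ T, ∀ h, t' = ψ h * t → t = t') ∧
      ∀ x ∈ A, ∃ y1 ∈ A, ∃ y2 ∈ A, y1 ≠ y2 ∧ D x y1 = 1 ∧ D x y2 = 1 := by
  classical
  have hmove : ∀ {x t : FreeGroup α} {h : H}, x = ψ h * t → t = ψ h⁻¹ * x := by
    intro x t h e
    rw [e, map_inv, inv_mul_cancel_left]
  refine ⟨?_, ?_, ?_⟩
  · intro t ht
    by_contra hcon
    have h3 := hmin A (T.erase t) hA hne hinv (by
      intro x hx
      obtain ⟨h, t0, ht0, e⟩ := hcov x hx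
      refine ⟨h, t0, Finset.mem_erase.2 ⟨?_, ht0⟩, e⟩
      rintro rfl
      apply hcon
      rw [hmove e]
      exact hinv _ x hx)
    have h4 := Finset.card_erase_lt_of_mem ht
    omega
  · intro t ht t' ht' h e
    by_contra hcon
    have h3 := hmin A (T.erase t') hA hne hinv (by
      intro x hx
      obtain ⟨g, t0, ht0, e0⟩ := hcov x hx
      by_cases h5 : t0 = t'
      · refine ⟨g * h, t, Finset.mem_erase.2 ⟨hcon, ht⟩, ?_⟩
        rw [e0, h5, e, map_mul, mul_assoc]
      · exact ⟨g, t0, Finset.mem_erase.2 ⟨h5, ht0⟩, e0⟩)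
    have h4 := Finset.card_erase_lt_of_mem ht'
    omega
  · intro x hx
    by_contra hcon
    -- translates of `x` have at most one neighbour
    have hcon' : ∀ (h : H) (z z1 z2 : FreeGroup α), z = ψ h * x → z1 ∈ A → z2 ∈ A → z1 ≠ z2 →
        D z z1 = 1 → D z z2 = 1 → False := by
      intro h z z1 z2 hz hz1 hz2 h12' hd1 hd2
      apply hcon
      have e : x = ψ h⁻¹ * z := hmove hz
      refine ⟨ψ h⁻¹ * z1, hinv _ _ hz1, ψ h⁻¹ * z2, hinv _ _ hz2, ?_, ?_, ?_⟩
      · intro h5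
        exact h12' (mul_left_cancel h5)
      · rw [e, D_mul]; exact hd1
      · rw [e, D_mul]; exact hd2
    have h3 := hmin {y | y ∈ A ∧ ∀ h, y ≠ ψ h * x} (T.filter fun t => ∀ h, t ≠ ψ h * x) ?_ ?_ ?_ ?_
    · obtain ⟨h, t, ht, e⟩ := hcov x hx
      have h4 : T.filter (fun t => ∀ h, t ≠ ψ h * x) ⊂ T := by
        refine Finset.filter_ssubset.2 ⟨t, ht, ?_⟩
        intro h5
        exact h5 h⁻¹ (hmove e)
      have h5 := Finset.card_lt_card h4
      omega
    · rintro u ⟨hu, hu'⟩ v ⟨hv, hv'⟩ z hz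
      refine ⟨hA u hu v hv z hz, ?_⟩
      intro h hzx
      have hz' : D u z + D z v = D u v := hz
      have p1 : D u z ≠ 0 := by
        intro h5
        exact hu' h ((D_eq_zero h5).trans hzx)
      have p2 : D z v ≠ 0 := by
        intro h5
        exact hv' h ((D_eq_zero h5).symm.trans hzx)
      obtain ⟨z1, a1, a2⟩ : ∃ z1, D u z1 = D u z - 1 ∧ D u z1 + D z1 z = D u z :=
        (TT α).interp u z (D u z - 1) (Nat.sub_le _ _)
      obtain ⟨z2, b1, b2⟩ : ∃ z2, D z z2 = 1 ∧ D z z2 + D z2 v = D z v :=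
        (TT α).interp z v 1 (by show 1 ≤ D z v; omega)
      have c1 := D_tri z1 z v
      have c2 := D_tri u z1 v
      have c3 := D_tri u z z2
      have c4 := D_tri u z2 v
      have c5 := D_symm z z1
      refine hcon' h z z1 z2 hzx (hA u hu v hv z1 ?_) (hA u hu v hv z2 ?_) ?_ ?_ b1
      · show D u z1 + D z1 v = D u v
        omega
      · show D u z2 + D z2 v = D u v
        omega
      · rintro rfl
        omega
      · omega
    · refine ⟨x1, h1, ?_⟩
      intro h hx1
      exact hcon' h x1 x0 x2 hx1 h0 h2 h02 (by rw [D_symm]; exact h01) h12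
    · rintro h y ⟨hy, hy'⟩
      refine ⟨hinv h y hy, ?_⟩
      intro g hg
      apply hy' (h⁻¹ * g)
      rw [map_mul, mul_assoc, ← hg, map_inv, inv_mul_cancel_left]
    · rintro y ⟨hy, hy'⟩
      obtain ⟨g, t, ht, e⟩ := hcov y hy
      refine ⟨g, t, Finset.mem_filter.2 ⟨ht, ?_⟩, e⟩
      intro h ht'
      apply hy' (g * h)
      rw [e, ht', map_mul, mul_assoc]

end Pool.Agent.H28.UE
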