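import Pool.Agent.H28.UE.Tops
import Pool.Agent.H28.UE.Branch
import Pool.Agent.H28.UE.BiOrder

set_option autoImplicit false

/-!
JOB UE-WI2 (a long window without branching and without overlaps).

`A` convex, invariant under `J = closure S`, covered by the translates of `T` (inequivalent elements
of `A`), every vertex of `A` has two different neighbours in `A`. `ℓ = tl σ ≥ 1`.
Cut `[1, m)` in `4 |S| + 1` blocks `[u, u + 7 ℓ)`, `u = 1 + 7 ℓ r`, `r ≤ 4 |S|`. At most `|S|` blocks
contain a start for `lt` (`starts_card`), at most `|S|` a start for the reversed order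
(`COrd.flip`), at most `2 |S|` an index `i` with `Top i` and `Branch A (L i)` (`branch_card`; top
visits are inequivalent by `top_unique`). In the remaining block all visits `i ∈ [u, u + 6 ℓ]` are
top and bottom (`top_of_no_start`), so alone (`alone_of_top_bot`), and not branching, so `L (i-1)`,
`L (i+1)` (both in `A`) are the only neighbours in `A`. Take `a = u`.
-/

namespace Pool.Agent.H28.UE

variable {α : Type*} [DecidableEq α]

theorem exists_window (S T : Finset (FreeGroup α)) (A : Set (FreeGroup α))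
    (hTA : ∀ t ∈ T, t ∈ A)
    (hinv : ∀ j ∈ Subgroup.closure (S : Set (FreeGroup α)), ∀ x ∈ A, j * x ∈ A)
    (hcov : ∀ x ∈ A, ∃ j ∈ Subgroup.closure (S : Set (FreeGroup α)), ∃ t ∈ T, x = j * t)
    (hTi : ∀ t ∈ T, ∀ t' ∈ T, ∀ j ∈ Subgroup.closure (S : Set (FreeGroup α)), t' = j * t → t = t')
    (hdeg : Deg2 A) {σ : FreeGroup α} (hσ : σ ≠ 1) {L : ℤ → FreeGroup α} (hL : IsLine σ L)
    (hJ : ∀ j ∈ Subgroup.closure (S : Set (FreeGroup α)), Commute j σ → j = 1) (m : ℕ)
    (hP : ∀ i : ℕ, i ≤ m → L i ∈ A) (hm : (28 * S.card + 8) * tl σ ≤ m) :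
    ∃ a : ℕ, 0 < a ∧ a + 5 * tl σ < m ∧ ∀ i : ℕ, a ≤ i → i ≤ a + 5 * tl σ →
      (∀ j ∈ Subgroup.closure (S : Set (FreeGroup α)), ∀ b : ℕ, b ≤ m → L i = j * L b → j = 1) ∧
      ∀ y ∈ A, D (L i) y = 1 → y = L (i - 1) ∨ y = L (i + 1) := by
  classical
  obtain ⟨lt, hO⟩ := exists_cord α
  have hℓ : 0 < tl σ := tl_pos hσ
  set ℓ := tl σ with hℓdef
  set J := Subgroup.closure (S : Set (FreeGroup α)) with hJdef
  have hT : T.Nonempty := by
    obtain ⟨_, _, t, ht, _⟩ := hcov (L ((0 : ℕ) : ℤ)) (hP 0 (Nat.zero_le _))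
    exact ⟨t, ht⟩
  -- the bad indices
  set B1 : Finset ℕ := (Finset.range m).filter (Start lt J σ L m) with hB1
  set B2 : Finset ℕ := (Finset.range m).filter (Start (fun a b => lt b a) J σ L m) with hB2
  set B3 : Finset ℕ := (Finset.range m).filter (fun i => Top lt J σ L m i ∧ Branch A (L (i : ℤ)))
    with hB3
  have c1 : B1.card ≤ S.card := starts_card hO S hL hJ m
  have c2 : B2.card ≤ S.card := starts_card hO.flip S hL hJ m
  have c3 : B3.card ≤ 2 * S.card := by
    have h1 : (B3.image (fun i : ℕ => L (i : ℤ))).card = B3.card := by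
      refine Finset.card_image_of_injective _ ?_
      intro a b hab
      have := hL.inj hab
      exact_mod_cast this
    rw [← h1]
    refine branch_card S T A hT hTA hinv hcov hTi hdeg _ ?_ ?_
    · intro x hx
      obtain ⟨i, hi, rfl⟩ := Finset.mem_image.1 hx
      have hi' := Finset.mem_filter.1 hi
      exact ⟨hP i (Finset.mem_range.1 hi'.1).le, hi'.2.2⟩
    · intro x hx x' hx' j hj hjx
      obtain ⟨i, hi, rfl⟩ := Finset.mem_image.1 hx
      obtain ⟨i', hi', rfl⟩ := Finset.mem_image.1 hx'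
      have h2 := Finset.mem_filter.1 hi
      have h3 := Finset.mem_filter.1 hi'
      have h4 := top_unique hO hJ hL (Finset.mem_range.1 h3.1).le (Finset.mem_range.1 h2.1).le
        h3.2.1 h2.2.1 hj hjx
      rw [h4]
  -- a block without bad indices
  have hex : ∃ r ∈ Finset.range (4 * S.card + 1),
      r ∉ (B1 ∪ (B2 ∪ B3)).image (fun i => (i - 1) / (7 * ℓ)) := by
    by_contra hcon
    push Not at hcon
    have h1 : Finset.range (4 * S.card + 1) ⊆
        (B1 ∪ (B2 ∪ B3)).image (fun i => (i - 1) / (7 * ℓ)) := fun r hr => hcon r hr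
    have h2 := Finset.card_le_card h1
    rw [Finset.card_range] at h2
    have h3 : ((B1 ∪ (B2 ∪ B3)).image (fun i => (i - 1) / (7 * ℓ))).card ≤
        (B1 ∪ (B2 ∪ B3)).card := Finset.card_image_le
    have h4 := Finset.card_union_le B1 (B2 ∪ B3)
    have h5 := Finset.card_union_le B2 B3
    omega
  obtain ⟨r, hr, hrb⟩ := hex
  rw [Finset.mem_range] at hr
  have hend : 1 + 7 * ℓ * r + 7 * ℓ ≤ m := by
    have h1 : r ≤ 4 * S.card := by omega
    have h2 : ℓ * r ≤ ℓ * (4 * S.card) := Nat.mul_le_mul_left _ h1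
    nlinarith
  have hgood : ∀ i, 1 + 7 * ℓ * r ≤ i → i < 1 + 7 * ℓ * r + 7 * ℓ →
      i ∉ B1 ∪ (B2 ∪ B3) := by
    intro i h1 h2 h3
    apply hrb
    refine Finset.mem_image.2 ⟨i, h3, ?_⟩
    have h7 : 0 < 7 * ℓ := by omega
    rw [Nat.div_eq_iff h7]
    have e1 : r * (7 * ℓ) = 7 * ℓ * r := by ring
    have e2 : (r + 1) * (7 * ℓ) = 7 * ℓ * r + 7 * ℓ := by ring
    omega
  refine ⟨1 + 7 * ℓ * r, by omega, by omega, ?_⟩
  intro i hi1 hi2
  have htop : Top lt J σ L m i := by
    refine top_of_no_start hO J hσ hL hend ?_ hi1 (by omega)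
    intro k hk1 hk2 hk
    refine hgood k hk1 hk2 (Finset.mem_union_left _ (Finset.mem_filter.2 ⟨?_, hk⟩))
    exact Finset.mem_range.2 hk.1
  have hbot : Top (fun a b => lt b a) J σ L m i := by
    refine top_of_no_start hO.flip J hσ hL hend ?_ hi1 (by omega)
    intro k hk1 hk2 hk
    refine hgood k hk1 hk2 (Finset.mem_union_right _ (Finset.mem_union_left _
      (Finset.mem_filter.2 ⟨?_, hk⟩)))
    exact Finset.mem_range.2 hk.1
  refine ⟨alone_of_top_bot hO hJ htop hbot, ?_⟩
  intro y hy hd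
  by_contra hcon
  push Not at hcon
  have hbr : ¬ Branch A (L (i : ℤ)) := by
    intro hb
    refine hgood i hi1 (by omega) (Finset.mem_union_right _ (Finset.mem_union_right _
      (Finset.mem_filter.2 ⟨?_, htop, hb⟩)))
    exact Finset.mem_range.2 (by omega)
  apply hbr
  have hm1 : L ((i : ℤ) - 1) ∈ A := by
    have h1 := hP (i - 1) (by omega)
    have h2 : ((i - 1 : ℕ) : ℤ) = (i : ℤ) - 1 := by
      have : 1 ≤ i := by omega
      push_cast [this]
      ring
    rwa [h2] at h1
  have hp1 : L ((i : ℤ) + 1) ∈ A := by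
    have h1 := hP (i + 1) (by omega)
    push_cast at h1
    exact h1
  refine ⟨L ((i : ℤ) - 1), hm1, L ((i : ℤ) + 1), hp1, y, hy, ?_, ?_, ?_, ?_, ?_, hd⟩
  · intro h
    have := hL.inj h
    omega
  · exact fun h => hcon.1 h.symm
  · exact fun h => hcon.2 h.symm
  · rw [hL.iso]
    have : (i : ℤ) - (i - 1) = 1 := by ring
    rw [this]
    rfl
  · rw [hL.iso]
    have : (i : ℤ) - (i + 1) = -1 := by ring
    rw [this]
    rfl

end Pool.Agent.H28.UE
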