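import Pool.Agent.H28.UE.Surgery
import Pool.Agent.H28.UE.Prune
import Pool.Agent.H28.UE.Window
import Pool.Agent.H28.UE.Greend
import Pool.Agent.H28.UE.BiOrder

set_option autoImplicit false

/-!
JOB UE-LI1 (minimal lifts).
-/

namespace Pool.Agent.H28.UE

variable {α : Type*} [DecidableEq α]

private theorem B_trans {c z y d : FreeGroup α} (h1 : (TT α).B c z y) (h2 : (TT α).B c y d) :
    (TT α).B c z d := by
  have h1' : D c z + D z y = D c y := h1
  have h2' : D c y + D y d = D c d := h2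
  show D c z + D z d = D c d
  have h3 := D_tri z y d
  have h4 := D_tri c z d
  omega

/-- the convex hull of a set of vertices -/
private theorem hull_convex (S : Set (FreeGroup α)) :
    (TT α).Convex {y | ∃ a ∈ S, ∃ b ∈ S, (TT α).B a y b} := by
  rintro x ⟨a, ha, b, hb, hx⟩ y ⟨c, hc, d, hd, hy⟩ z hz
  rcases (TT α).B_or hz c with h | h
  · rcases (TT α).B_or h a with h' | h'
    · exact ⟨a, ha, b, hb, B_trans ((TT α).B_symm h') hx⟩
    · exact ⟨a, ha, c, hc, h'⟩
  · exact ⟨c, hc, d, hd, B_trans h hy⟩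

private theorem finite_between (w : FreeGroup α) : {y | (TT α).B 1 y w}.Finite := by
  have hinj : Set.InjOn (fun y => D 1 y) {y : FreeGroup α | (TT α).B 1 y w} := by
    intro y hy z hz hyz
    have hyz' : D 1 y = D 1 z := hyz
    have h1 := (TT α).four y z 1 w
    simp only [← D_eq] at h1
    have h2 := D_symm y 1
    have h3 := D_symm z 1
    have hy' : D 1 y + D y w = D 1 w := hy
    have hz' : D 1 z + D z w = D 1 w := hz
    apply D_eq_zero
    omega
  refine Set.Finite.of_finite_image (Set.Finite.subset (Set.finite_Iic (D 1 w)) ?_) hinj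
  rintro _ ⟨y, hy, rfl⟩
  have hy' : D 1 y + D y w = D 1 w := hy
  show D 1 y ≤ D 1 w
  omega

/-- an invariant subtree with finite quotient exists -/
private theorem exists_tree {k : ℕ} (ψ : FreeGroup (Fin k) →* FreeGroup α) :
    ∃ (A : Set (FreeGroup α)) (T : Finset (FreeGroup α)), (TT α).Convex A ∧ A.Nonempty ∧
      (∀ h, ∀ x ∈ A, ψ h * x ∈ A) ∧ ∀ x ∈ A, ∃ h, ∃ t ∈ T, x = ψ h * t := by
  classical
  have hfin : (insert (1 : FreeGroup α) (⋃ i : Fin k, {y | (TT α).B 1 y (ψ (FreeGroup.of i))})).Finite :=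
    Set.Finite.insert _ (Set.finite_iUnion fun i => finite_between _)
  refine ⟨{y | ∃ a ∈ Set.range ψ, ∃ b ∈ Set.range ψ, (TT α).B a y b}, hfin.toFinset,
    hull_convex _, ⟨1, 1, ⟨1, map_one ψ⟩, 1, ⟨1, map_one ψ⟩, (TT α).B_left 1 1⟩, ?_, ?_⟩
  · rintro h x ⟨_, ⟨a, rfl⟩, _, ⟨b, rfl⟩, hx⟩
    refine ⟨ψ (h * a), ⟨_, rfl⟩, ψ (h * b), ⟨_, rfl⟩, ?_⟩
    rw [map_mul, map_mul, B_mul_iff]
    exact hx
  · have key : ∀ h' h : FreeGroup (Fin k), ∀ y, (TT α).B (ψ h) y (ψ (h * h')) →
        ∃ g, ∃ t ∈ hfin.toFinset, y = ψ g * t := by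
      have hof : ∀ (i : Fin k) (h : FreeGroup (Fin k)), ∀ y,
          (TT α).B (ψ h) y (ψ (h * FreeGroup.of i)) →
          ∃ g, ∃ t ∈ hfin.toFinset, y = ψ g * t := by
        intro i h y hy
        refine ⟨h, (ψ h)⁻¹ * y, ?_, by group⟩
        rw [Set.Finite.mem_toFinset]
        right
        rw [Set.mem_iUnion]
        refine ⟨i, ?_⟩
        show (TT α).B 1 ((ψ h)⁻¹ * y) (ψ (FreeGroup.of i))
        rw [← B_mul_iff (ψ h), mul_one, mul_inv_cancel_left, ← map_mul]
        exact hy
      intro h'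
      induction h' using FreeGroup.induction_on with
      | C1 =>
        intro h y hy
        rw [mul_one] at hy
        have hy' : D (ψ h) y + D y (ψ h) = D (ψ h) (ψ h) := hy
        rw [D_self] at hy'
        have h0 : D (ψ h) y = 0 := by omega
        refine ⟨h, 1, ?_, ?_⟩
        · rw [Set.Finite.mem_toFinset]
          exact Set.mem_insert _ _
        · rw [mul_one]
          exact (D_eq_zero h0).symm
      | of i => exact hof i
      | inv_of i _ =>
        intro h y hy
        have h1 := hof i (h * (FreeGroup.of i)⁻¹) y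
        rw [inv_mul_cancel_right] at h1
        exact h1 ((TT α).B_symm hy)
      | mul a b iha ihb =>
        intro h y hy
        rcases (TT α).B_or hy (ψ (h * a)) with h1 | h1
        · exact iha h y h1
        · apply ihb (h * a) y
          rwa [mul_assoc]
    rintro x ⟨_, ⟨a, rfl⟩, _, ⟨b, rfl⟩, hx⟩
    apply key (a⁻¹ * b) a x
    rwa [mul_inv_cancel_left]

/-- Minimal lifts: among all pairs (`ψ` lifting `φ`, invariant subtree `A` covered by `T`) take
one with `T` smallest. Then a long piece of a line of a conjugate of `s` lies in `A` only if a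
nontrivial power of that conjugate lies in the image of `ψ`.
Proof: suppose `σ = f s f⁻¹`, `L` its line, `L i ∈ A` for `0 ≤ i ≤ m = (N-4) ℓ` (after a shift,
`A` convex), and no nontrivial element of `J = ψ.range` commutes with `σ` (such an element would be
a power of `σ` since `σ` is a root). `minimal_props` (with `x0, x1, x2 = L 0, L 1, L 2`) and
`exists_window` (with `S` = the images of the generators, `S.card ≤ k`) give the window,
`surgery` with `K = normalClosure {s ^ N}` contradicts minimality. -/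
theorem exists_minimal_lift {k : ℕ} (s : FreeGroup α) (hs : s ≠ 1) (hroot : IsRoot s) (N : ℕ)
    (hN : 32 * k + 12 ≤ N)
    (φ : FreeGroup (Fin k) →* FreeGroup α ⧸ Subgroup.normalClosure {s ^ N}) :
    ∃ (ψ : FreeGroup (Fin k) →* FreeGroup α) (A : Set (FreeGroup α)), (TT α).Convex A ∧
      A.Nonempty ∧ (∀ h, ∀ x ∈ A, ψ h * x ∈ A) ∧
      (∀ h, (QuotientGroup.mk (ψ h) : FreeGroup α ⧸ Subgroup.normalClosure {s ^ N}) = φ h) ∧
      ∀ f p q : FreeGroup α, p ∈ A → q ∈ A → p ∈ Ax (f * s * f⁻¹) → q ∈ Ax (f * s * f⁻¹) →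
        (N - 4) * tl s ≤ D p q → ∃ l : ℤ, l ≠ 0 ∧ (f * s * f⁻¹) ^ l ∈ ψ.range := by
  classical
  -- a lift
  obtain ⟨ψ0, hψ0⟩ : ∃ ψ : FreeGroup (Fin k) →* FreeGroup α,
      ∀ h, (QuotientGroup.mk (ψ h) : FreeGroup α ⧸ Subgroup.normalClosure {s ^ N}) = φ h := by
    choose c hc using fun i : Fin k => QuotientGroup.mk_surjective (φ (FreeGroup.of i))
    refine ⟨FreeGroup.lift c, ?_⟩
    have h1 : (QuotientGroup.mk' (Subgroup.normalClosure {s ^ N})).comp (FreeGroup.lift c) = φ := by
      ext i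
      simp only [MonoidHom.comp_apply, FreeGroup.lift_apply_of, QuotientGroup.mk'_apply]
      exact hc i
    intro h
    exact DFunLike.congr_fun h1 h
  -- minimal choice
  let P : ℕ → Prop := fun n => ∃ (ψ : FreeGroup (Fin k) →* FreeGroup α) (A : Set (FreeGroup α))
    (T : Finset (FreeGroup α)), (TT α).Convex A ∧ A.Nonempty ∧ (∀ h, ∀ x ∈ A, ψ h * x ∈ A) ∧
      (∀ x ∈ A, ∃ h, ∃ t ∈ T, x = ψ h * t) ∧
      (∀ h, (QuotientGroup.mk (ψ h) : FreeGroup α ⧸ Subgroup.normalClosure {s ^ N}) = φ h) ∧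
      T.card = n
  have hex : ∃ n, P n := by
    obtain ⟨A, T, h1, h2, h3, h4⟩ := exists_tree ψ0
    exact ⟨_, ψ0, A, T, h1, h2, h3, h4, hψ0, rfl⟩
  obtain ⟨ψ, A, T, hA, hne, hinv, hcov, hlift, hcard⟩ := Nat.find_spec hex
  have hminall : ∀ n, P n → T.card ≤ n := by
    intro n hn
    rw [hcard]
    exact Nat.find_min' hex hn
  refine ⟨ψ, A, hA, hne, hinv, hlift, ?_⟩
  -- the main argument for an ordered pair
  have main : ∀ f : FreeGroup α, ∀ L : ℤ → FreeGroup α, IsLine (f * s * f⁻¹) L → ∀ i0 j0 : ℤ,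
      L i0 ∈ A → L j0 ∈ A → i0 ≤ j0 → (N - 4) * tl s ≤ D (L i0) (L j0) →
      ∃ l : ℤ, l ≠ 0 ∧ (f * s * f⁻¹) ^ l ∈ ψ.range := by
    intro f L hL i0 j0 hi0 hj0 hij hd
    by_contra hcon
    push Not at hcon
    set σ := f * s * f⁻¹ with hσdef
    have hσ : σ ≠ 1 := by
      intro h1
      apply hs
      rwa [hσdef, conj_eq_one_iff] at h1
    have hσroot : IsRoot σ := hroot.conj f
    have htl : tl σ = tl s := tl_conj f s
    have hpos := tl_pos hσ
    have hJ : ∀ j ∈ ψ.range, Commute j σ → j = 1 := by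
      intro j hj hc
      obtain ⟨l, hl⟩ := hσroot j hc
      have hl' : σ ^ l = j := hl
      by_cases h0 : l = 0
      · rw [← hl', h0, zpow_zero]
      · exact absurd (by rw [hl']; exact hj) (hcon l h0)
    have hL' := hL.shift i0
    set L' : ℤ → FreeGroup α := fun i => L (i + i0) with hL'def
    set m : ℕ := (N - 4) * tl σ with hm
    rw [hL.iso, ← htl, ← hm] at hd
    have hP : ∀ i : ℕ, i ≤ m → L' i ∈ A := by
      intro i hi
      refine hA _ hi0 _ hj0 _ ?_
      show D _ _ + D _ _ = D _ _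
      rw [hL'def]
      simp only
      rw [hL.iso, hL.iso, hL.iso]
      omega
    have hN8 : 8 ≤ N - 4 := by omega
    have hm8 : 8 ≤ m := by
      rw [hm]
      calc 8 = 8 * 1 := rfl
        _ ≤ (N - 4) * tl σ := Nat.mul_le_mul hN8 hpos
    obtain ⟨hTA, hTi, hdeg⟩ := minimal_props ψ A T hA hne hinv hcov
      (fun A' T' h1 h2 h3 h4 => hminall _ ⟨ψ, A', T', h1, h2, h3, h4, hlift, rfl⟩)
      (hP 0 (by omega)) (hP 1 (by omega)) (hP 2 (by omega))
      (by rw [hL'.iso]; simp) (by rw [hL'.iso]; simp)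
      (by
        intro h
        have := hL'.inj h
        simp at this)
    set S : Finset (FreeGroup α) := Finset.univ.image (fun i : Fin k => ψ (FreeGroup.of i))
      with hS
    have hScard : S.card ≤ k := by
      rw [hS]
      exact Finset.card_image_le.trans (by simp)
    have hSc : Subgroup.closure (S : Set (FreeGroup α)) = ψ.range := by
      rw [hS, Finset.coe_image, Finset.coe_univ, Set.image_univ, MonoidHom.range_eq_map,
        ← FreeGroup.closure_range_of, MonoidHom.map_closure, ← Set.range_comp]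
      rfl
    obtain ⟨a, ha, ha2, hw⟩ := exists_window S T A hTA
      (by
        intro j hj x hx
        rw [hSc] at hj
        obtain ⟨h, rfl⟩ := hj
        exact hinv h x hx)
      (by
        intro x hx
        obtain ⟨h, t, ht, rfl⟩ := hcov x hx
        exact ⟨ψ h, by rw [hSc]; exact ⟨h, rfl⟩, t, ht, rfl⟩)
      (by
        intro t ht t' ht' j hj h
        rw [hSc] at hj
        obtain ⟨g, rfl⟩ := hj
        exact hTi t ht t' ht' g h)
      hdeg hσ hL'
      (by
        intro j hj
        rw [hSc] at hj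
        exact hJ j hj)
      m hP
      (by
        rw [hm]
        apply Nat.mul_le_mul_right
        omega)
    obtain ⟨ψ', A', T', h1, h2, h3, h4, h5, h6⟩ := surgery ψ A hA hinv T hcov hσ hL'
      (Subgroup.normalClosure {s ^ N}) Subgroup.normalClosure_normal N
      (by
        have h7 : σ ^ N = f * s ^ N * f⁻¹ := by rw [hσdef, conj_pow]
        rw [h7]
        exact (Subgroup.normalClosure_normal (s := {s ^ N})).conj_mem _
          (Subgroup.subset_normalClosure rfl) f)
      m (by rw [hm]; apply Nat.mul_le_mul_right; omega)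
      (by rw [hm, ← Nat.add_mul]; apply Nat.mul_le_mul_right; omega) hP a ha ha2
      (by
        intro i hi1 hi2
        have := hw i hi1 hi2
        rwa [hSc] at this)
    have h8 := hminall T'.card ⟨ψ', A', T', h1, h2, h3, h4, fun h => by
      rw [← hlift h, QuotientGroup.eq_iff_div_mem, div_eq_mul_inv]
      exact h6 h, rfl⟩
    omega
  intro f p q hp hq hpA hqA hd
  have hσ : f * s * f⁻¹ ≠ 1 := by
    intro h1
    apply hs
    rwa [conj_eq_one_iff] at h1
  obtain ⟨L, hL⟩ := exists_line hσ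
  rw [← hL.range] at hpA hqA
  obtain ⟨i0, rfl⟩ := hpA
  obtain ⟨j0, rfl⟩ := hqA
  rcases le_total i0 j0 with h | h
  · exact main f L hL i0 j0 hp hq h hd
  · exact main f L hL j0 i0 hq hp h (by rwa [D_symm])

end Pool.Agent.H28.UE
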