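import Pool.Agent.H28.UE.Blocks

set_option autoImplicit false

/-!
JOB UE-MA (matching of two block structures on the same line).

`cover` (pure integers): let `t' j ∈ [t i, t (i+1))` (exists since the gaps are `≥ G > 0`). If
`t (i+1) - t' j ≥ E` or `t' (j+1) ≤ t (i+1)` the overlap of the blocks `i` and `j` is `≥ E`, so
`R i j`, so not `R (i+1) j`, so `t' (j+1) < t (i+1) + E`. Otherwise the overlap with `i+1` is
`≥ E`, `R (i+1) j`, not `R (i+2) j`, `t' (j+1) < t (i+2) + E`. In both cases there is `i = i(j)` with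
`R i j`, `t i - E ≤ t' j`, `t' (j+1) ≤ t (i+1) + E`. Symmetrically for every `i` there is `j'` with
`t' j' - E ≤ t i`, `t (i+1) ≤ t' (j'+1) + E`. Combined: block `j` is in the `2 E` neighbourhood of
block `j'`, and block lengths `≥ G > 5 E` give `j' = j`. So `|t' j - t i| ≤ E`,
`|t' (j+1) - t (i+1)| ≤ E`, hence `i(j+1) = i(j) + 1`, `i(j) = j + q`.
`match_same`: both lines are lines of `σ`, so `L' x = L (x + c)` (`line_unique`, the reflected case
contradicts `step`, `tl σ > 0`); replace `t'` by `t' + c`. `E = 17 (A + A')`, `A = tl u + tl v`,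
`R i j := Commute (τ i) (τ' j)`: if the overlap of block `i` and block `j` is `≥ E` then, after removing
`8 A` resp. `8 A'` at the ends, two vertices at distance `≥ A + A'` are on both axes
(`commute_of_overlap`). `R i j ∧ R (i+1) j → False` by `commute_trans` and `nctau`.
-/

namespace Pool.Agent.H28.UE

/-- gaps -/
private theorem gap_le (t : ℤ → ℤ) (G : ℤ) (hG : 0 < G)
    (ht : ∀ i, t i + G ≤ t (i + 1)) (i : ℤ) (n : ℕ) : t i + n * G ≤ t (i + n) := by
  induction n with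
  | zero => simp
  | succ n ih =>
    have h := ht (i + n)
    have e : i + ((n + 1 : ℕ) : ℤ) = i + n + 1 := by push_cast; ring
    rw [e]
    push_cast
    linarith

private theorem gap_lt (t : ℤ → ℤ) (G : ℤ) (hG : 0 < G)
    (ht : ∀ i, t i + G ≤ t (i + 1)) {i j : ℤ} (hij : i < j) : t i + G ≤ t j := by
  obtain ⟨n, hn⟩ : ∃ n : ℕ, j = i + (n : ℤ) := ⟨(j - i).toNat, by omega⟩
  have h := gap_le t G hG ht i n
  have hn1 : (1 : ℤ) ≤ n := by omega
  rw [hn]
  nlinarith

private theorem exists_block (t : ℤ → ℤ) (G : ℤ) (hG : 0 < G)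
    (ht : ∀ i, t i + G ≤ t (i + 1)) (x : ℤ) : ∃ i, t i ≤ x ∧ x < t (i + 1) := by
  classical
  obtain ⟨m, hm⟩ : ∃ m : ℤ, ∀ i : ℤ, t i ≤ x → i ≤ m := by
    refine ⟨|x - t 0| + 1, fun i hi => ?_⟩
    by_contra hlt
    push Not at hlt
    have h0 : 0 ≤ |x - t 0| := abs_nonneg _
    obtain ⟨n, hn⟩ : ∃ n : ℕ, i = 0 + (n : ℤ) := ⟨i.toNat, by omega⟩
    have h := gap_le t G hG ht 0 n
    rw [← hn] at h
    have h2 : (n : ℤ) ≤ n * G := by nlinarith
    have h3 := le_abs_self (x - t 0)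
    omega
  have hex : ∃ i : ℤ, t i ≤ x := by
    have h0 : 0 ≤ |x - t 0| := abs_nonneg _
    refine ⟨-|x - t 0|, ?_⟩
    have h := gap_le t G hG ht (-|x - t 0|) (|x - t 0|).toNat
    rw [Int.toNat_of_nonneg h0, neg_add_cancel] at h
    have h2 : |x - t 0| ≤ |x - t 0| * G := by nlinarith
    have h3 := neg_abs_le (x - t 0)
    linarith
  obtain ⟨i, hi, hmax⟩ := Int.exists_greatest_of_bdd ⟨m, hm⟩ hex
  refine ⟨i, hi, ?_⟩
  by_contra hlt
  push Not at hlt
  have := hmax (i + 1) hlt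
  omega

private theorem cover_half (t t' : ℤ → ℤ) (E G : ℤ) (hE : 0 < E) (hG : 5 * E < G)
    (ht : ∀ i, t i + G ≤ t (i + 1)) (ht' : ∀ j, t' j + G ≤ t' (j + 1)) (R : ℤ → ℤ → Prop)
    (hR : ∀ i j, max (t i) (t' j) + E ≤ min (t (i + 1)) (t' (j + 1)) → R i j)
    (h1 : ∀ i j, R i j → R (i + 1) j → False) (j : ℤ) :
    ∃ i, R i j ∧ t i - E ≤ t' j ∧ t' (j + 1) ≤ t (i + 1) + E := by
  obtain ⟨i, hi, hi'⟩ := exists_block t G (by omega) ht (t' j)
  have a1 := ht (i + 1)
  have a2 := ht (i + 1 + 1)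
  have a3 := ht' j
  have a0 := ht i
  rcases le_or_gt E (t (i + 1) - t' j) with hc | hc
  · have r : R i j := by
      apply hR
      rw [max_eq_right hi]
      apply le_min <;> omega
    refine ⟨i, r, by omega, ?_⟩
    by_contra hlt
    push Not at hlt
    apply h1 i j r
    apply hR
    apply le_min
    · rw [← max_add_add_right]
      apply max_le <;> omega
    · rw [← max_add_add_right]
      apply max_le <;> omega
  · have r : R (i + 1) j := by
      apply hR
      apply le_min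
      · rw [← max_add_add_right]
        apply max_le <;> omega
      · rw [← max_add_add_right]
        apply max_le <;> omega
    refine ⟨i + 1, r, by omega, ?_⟩
    by_contra hlt
    push Not at hlt
    apply h1 (i + 1) j r
    apply hR
    apply le_min
    · rw [← max_add_add_right]
      apply max_le <;> omega
    · rw [← max_add_add_right]
      apply max_le <;> omega

theorem cover (t t' : ℤ → ℤ) (E G : ℤ) (hE : 0 < E) (hG : 5 * E < G)
    (ht : ∀ i, t i + G ≤ t (i + 1)) (ht' : ∀ j, t' j + G ≤ t' (j + 1)) (R : ℤ → ℤ → Prop)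
    (hR : ∀ i j, max (t i) (t' j) + E ≤ min (t (i + 1)) (t' (j + 1)) → R i j)
    (h1 : ∀ i j, R i j → R (i + 1) j → False) (h2 : ∀ i j, R i j → R i (j + 1) → False) :
    ∃ q : ℤ, ∀ j, R (j + q) j ∧ |t' j - t (j + q)| ≤ E := by
  have hG0 : 0 < G := by omega
  have H1 := cover_half t t' E G hE hG ht ht' R hR h1
  have H2 := cover_half t' t E G hE hG ht' ht (fun j i => R i j)
    (fun j i h => hR i j (by rwa [max_comm, min_comm]))
    (fun j i h h' => h2 i j h h')
  have H3 : ∀ j, ∃ i, R i j ∧ |t' j - t i| ≤ E ∧ |t' (j + 1) - t (i + 1)| ≤ E := by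
    intro j
    obtain ⟨i, r, ha, hb⟩ := H1 j
    obtain ⟨j', r', ha', hb'⟩ := H2 i
    have hj : j' = j := by
      rcases lt_trichotomy j' j with h | h | h
      · exfalso
        have g1 : t' (j' + 1) ≤ t' j := by
          rcases eq_or_lt_of_le (show j' + 1 ≤ j by omega) with e | e
          · rw [e]
          · have := gap_lt t' G hG0 ht' e
            omega
        have g2 := ht' j
        omega
      · exact h
      · exfalso
        have g1 := gap_lt t' G hG0 ht' h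
        omega
    subst hj
    exact ⟨i, r, abs_le.2 ⟨by omega, by omega⟩, abs_le.2 ⟨by omega, by omega⟩⟩
  choose f hf using H3
  have hstep : ∀ j, f (j + 1) = f j + 1 := by
    intro j
    obtain ⟨_, _, hb⟩ := hf j
    obtain ⟨_, ha, _⟩ := hf (j + 1)
    rw [abs_le] at ha hb
    rcases lt_trichotomy (f (j + 1)) (f j + 1) with h | h | h
    · exfalso
      have := gap_lt t G hG0 ht h
      omega
    · exact h
    · exfalso
      have := gap_lt t G hG0 ht h
      omega
  have hall : ∀ j, f j = j + f 0 := by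
    intro j
    induction j using Int.induction_on with
    | zero => simp
    | succ n ih => rw [hstep, ih]; ring
    | pred n ih =>
      have h := hstep (-(n : ℤ) - 1)
      rw [sub_add_cancel, ih] at h
      omega
  refine ⟨f 0, fun j => ?_⟩
  obtain ⟨r, ha, _⟩ := hf j
  rw [hall] at r ha
  exact ⟨r, ha⟩

variable {α : Type*} [DecidableEq α]

/-- matching with abstract data on the same line. -/
private theorem match_core {M : ℕ} {u v σ : FreeGroup α}
    {L : ℤ → FreeGroup α} {t t' : ℤ → ℤ} {τ τ' : ℤ → FreeGroup α}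
    (h : Blocks M u v σ L t τ) (A' : ℕ) (htl : ∀ j, tl (τ' j) ≤ A')
    (hmem : ∀ j x, t' j + 8 * (A' : ℕ) ≤ x → x ≤ t' (j + 1) - 8 * (A' : ℕ) → L x ∈ Ax (τ' j))
    (hnc : ∀ j, ¬ Commute (τ' j) (τ' (j + 1)))
    (G : ℤ) (hG : 5 * (17 * ((tl u + tl v : ℕ) + (A' : ℕ) : ℤ)) < G)
    (ht : ∀ i, t i + G ≤ t (i + 1)) (ht' : ∀ j, t' j + G ≤ t' (j + 1)) :
    ∃ q : ℤ, ∀ j, Commute (τ (j + q)) (τ' j) ∧
      |t' j - t (j + q)| ≤ 17 * ((tl u + tl v : ℕ) + (A' : ℕ) : ℤ) := by
  have hu := h.pos_u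
  refine cover t t' _ G (by push_cast; omega) hG ht ht' (fun i j => Commute (τ i) (τ' j)) ?_ ?_ ?_
  · intro i j hij
    set A : ℕ := tl u + tl v with hA
    set x1 : ℤ := max (t i) (t' j) + 8 * ((A : ℤ) + A') with hx1
    set x2 : ℤ := min (t (i + 1)) (t' (j + 1)) - 8 * ((A : ℤ) + A') with hx2
    have l1 := le_max_left (t i) (t' j)
    have l2 := le_max_right (t i) (t' j)
    have l3 := min_le_left (t (i + 1)) (t' (j + 1))
    have l4 := min_le_right (t (i + 1)) (t' (j + 1))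
    have hA0 : (0 : ℤ) ≤ A := Int.natCast_nonneg _
    have hA'0 : (0 : ℤ) ≤ A' := Int.natCast_nonneg _
    have hx12 : x1 + (A + A') ≤ x2 := by linarith
    have m1 : L x1 ∈ Ax (τ i) := h.mem i x1 (by rw [← hA]; linarith) (by rw [← hA]; linarith)
    have m2 : L x2 ∈ Ax (τ i) := h.mem i x2 (by rw [← hA]; linarith) (by rw [← hA]; linarith)
    have m3 : L x1 ∈ Ax (τ' j) := hmem j x1 (by linarith) (by linarith)
    have m4 : L x2 ∈ Ax (τ' j) := hmem j x2 (by linarith) (by linarith)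
    refine commute_of_overlap m1 m3 m2 m4 ?_
    rw [h.line.iso]
    have e1 := h.tltau i
    have e2 := htl j
    omega
  · intro i j r1 r2
    have hne : τ' j ≠ 1 := by
      intro he
      apply hnc j
      rw [he]
      exact Commute.one_left _
    exact h.nctau i (commute_trans hne r1.symm r2.symm)
  · intro i j r1 r2
    have hne : τ i ≠ 1 := by
      intro he
      apply h.nctau i
      rw [he]
      exact Commute.one_left _
    exact hnc j (commute_trans hne r1 r2)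

private theorem mul_ge {M : ℕ} (hM : 1000000 ≤ M) (a : ℕ) : 1000000 * (a : ℤ) ≤ ((M * a : ℕ) : ℤ) := by
  have := Nat.mul_le_mul_right a hM
  exact_mod_cast this

/-- comparison of the two pairs of lengths -/
private theorem compare {M : ℕ} (hM : 1000000 ≤ M) {u v u' v' σ σ' : FreeGroup α}
    {L L' : ℤ → FreeGroup α} {t t' : ℤ → ℤ} {τ τ' : ℤ → FreeGroup α}
    (h : Blocks M u v σ L t τ) (h' : Blocks M u' v' σ' L' t' τ') (hs : tl σ = tl σ') :
    tl u' + tl v' ≤ 2 * (tl u + tl v) := by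
  by_contra hlt
  push Not at hlt
  have a0 := h.len0 0
  have a1 := h.len1 0
  have a2 := h.len2 0
  have a3 := h.len3 0
  have a4 := h.t4 0
  have b0 := h'.len0 0
  have b1 := h'.len1 0
  have b2 := h'.len2 0
  have b3 := h'.len3 0
  have b4 := h'.t4 0
  rw [← hs] at b4
  norm_num at a0 a1 a2 a3 a4 b0 b1 b2 b3 b4
  rw [abs_le] at a0 a1 a2 a3 b0 b1 b2 b3
  have p1 : (M : ℤ) * (2 * ((tl u : ℤ) + tl v)) ≤ (M : ℤ) * ((tl u' : ℤ) + tl v') := by
    have : (2 * (tl u + tl v) : ℕ) ≤ tl u' + tl v' := hlt.le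
    have h3 := Nat.mul_le_mul_left M this
    exact_mod_cast h3
  have p2 := mul_ge hM (tl u')
  have p3 := mul_ge hM (tl v')
  push_cast at p2 p3
  have p4 := h'.pos_u
  have hltz : (2 * ((tl u : ℤ) + tl v)) < (tl u' : ℤ) + tl v' := by exact_mod_cast hlt
  have p5 : (0 : ℤ) < tl u' := by exact_mod_cast p4
  have p6 : (0 : ℤ) ≤ (M : ℤ) * tl v' := by positivity
  have p7 : (0 : ℤ) ≤ (M : ℤ) * tl u := by positivity
  have p8 : (0 : ℤ) ≤ (M : ℤ) * tl v := by positivity
  nlinarith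

private theorem gap_of {M : ℕ} (hM : 1000000 ≤ M) {u v σ : FreeGroup α}
    {L : ℤ → FreeGroup α} {t : ℤ → ℤ} {τ : ℤ → FreeGroup α}
    (h : Blocks M u v σ L t τ) (A' : ℕ) (hA' : A' ≤ 2 * (tl u + tl v)) (i : ℤ) :
    t i + (5 * (17 * ((tl u + tl v : ℕ) + (A' : ℕ) : ℤ)) + 1) ≤ t (i + 1) := by
  have hu := h.pos_u
  have hv := h.pos_v
  have huv := h.uv
  have hvu := h.vu
  have p2 := mul_ge hM (tl u)
  have p3 := mul_ge hM (tl v)
  obtain ⟨k, hk⟩ : ∃ k : ℤ, i = 4 * k ∨ i = 4 * k + 1 ∨ i = 4 * k + 2 ∨ i = 4 * k + 3 :=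
    ⟨i / 4, by omega⟩
  have a0 := abs_le.1 (h.len0 k)
  have a1 := abs_le.1 (h.len1 k)
  have a2 := abs_le.1 (h.len2 k)
  have a3 := abs_le.1 (h.len3 k)
  rcases hk with rfl | rfl | rfl | rfl
  · push_cast at *
    omega
  · rw [show 4 * k + 1 + 1 = 4 * k + 2 by ring]
    push_cast at *
    omega
  · rw [show 4 * k + 2 + 1 = 4 * k + 3 by ring]
    push_cast at *
    omega
  · rw [show 4 * k + 3 + 1 = 4 * k + 4 by ring]
    push_cast at *
    omega

private theorem line_shift {σ : FreeGroup α} (hσ : σ ≠ 1) {L L' : ℤ → FreeGroup α}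
    (h : IsLine σ L) (h' : IsLine σ L') : ∃ c : ℤ, ∀ i, L' i = L (i + c) := by
  obtain ⟨c, hc | hc⟩ := line_unique h h' rfl
  · exact ⟨c, hc⟩
  · exfalso
    have h1 := h'.step 0
    rw [hc, hc, h.step] at h1
    have h2 := h.inj h1
    have h3 := tl_pos hσ
    omega

theorem match_same {M : ℕ} (hM : 1000000 ≤ M) {u v u' v' σ : FreeGroup α}
    {L L' : ℤ → FreeGroup α} {t t' : ℤ → ℤ} {τ τ' : ℤ → FreeGroup α}
    (h : Blocks M u v σ L t τ) (h' : Blocks M u' v' σ L' t' τ') :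
    ∃ k : ℤ, ∀ i, Commute (τ' i) (τ (i + 4 * k)) := by
  obtain ⟨c, hc⟩ := line_shift h.ne_one h.line h'.line
  have c1 := compare hM h h' rfl
  have c2 := compare hM h' h rfl
  have g1 := gap_of hM h _ c1
  have g2 := gap_of hM h' _ c2
  obtain ⟨q, hq⟩ := match_core (t' := fun j => t' j + c) (τ' := τ') h (tl u' + tl v') h'.tltau
    (by
      intro j x hx1 hx2
      have := h'.mem j (x - c) (by linarith) (by linarith)
      rwa [hc, sub_add_cancel] at this)
    h'.nctau (5 * (17 * ((tl u + tl v : ℕ) + (tl u' + tl v' : ℕ) : ℤ)) + 1) (by linarith)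
    g1
    (by
      intro j
      have := g2 j
      linarith)
  obtain ⟨k, hk⟩ : ∃ k : ℤ, q = 4 * k ∨ q = 4 * k + 1 ∨ q = 4 * k + 2 ∨ q = 4 * k + 3 :=
    ⟨q / 4, by omega⟩
  have hu := h.pos_u
  have hv := h.pos_v
  have huv := h.uv
  have hvu := h.vu
  have p2 := mul_ge hM (tl u)
  have p3 := mul_ge hM (tl v)
  have d0 := abs_le.1 (hq 0).2
  have d1 := abs_le.1 (hq 1).2
  have d2 := abs_le.1 (hq 2).2
  have d3 := abs_le.1 (hq 3).2
  have b0 := abs_le.1 (h'.len0 0)
  have b1 := abs_le.1 (h'.len1 0)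
  have b2 := abs_le.1 (h'.len2 0)
  have a0 := abs_le.1 (h.len0 k)
  have a1 := abs_le.1 (h.len1 k)
  have a2 := abs_le.1 (h.len2 k)
  have a3 := abs_le.1 (h.len3 k)
  have a4 := abs_le.1 (h.len0 (k + 1))
  have a5 := abs_le.1 (h.len1 (k + 1))
  have a6 := abs_le.1 (h.len2 (k + 1))
  rw [show 4 * (k + 1) = 4 * k + 4 by ring] at a4 a5 a6
  rw [show 4 * k + 4 + 1 = 4 * k + 5 by ring] at a4 a5
  rw [show 4 * k + 4 + 2 = 4 * k + 6 by ring] at a5 a6
  simp only [mul_zero, zero_add] at d0 d1 d2 d3 b0 b1 b2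
  rcases hk with rfl | rfl | rfl | rfl
  · exact ⟨k, fun i => (hq i).1.symm⟩
  · exfalso
    rw [show 1 + (4 * k + 1) = 4 * k + 2 by ring] at d1
    rw [show 2 + (4 * k + 1) = 4 * k + 3 by ring] at d2
    rw [show 3 + (4 * k + 1) = 4 * k + 4 by ring] at d3
    push_cast at *
    omega
  · exfalso
    rw [show 1 + (4 * k + 2) = 4 * k + 3 by ring] at d1
    rw [show 2 + (4 * k + 2) = 4 * k + 4 by ring] at d2
    rw [show 3 + (4 * k + 2) = 4 * k + 5 by ring] at d3
    push_cast at *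
    omega
  · exfalso
    rw [show 1 + (4 * k + 3) = 4 * k + 4 by ring] at d1
    rw [show 2 + (4 * k + 3) = 4 * k + 5 by ring] at d2
    rw [show 3 + (4 * k + 3) = 4 * k + 6 by ring] at d3
    push_cast at *
    omega

theorem match_opp {M : ℕ} (hM : 1000000 ≤ M) {u v u' v' σ : FreeGroup α}
    {L L' : ℤ → FreeGroup α} {t t' : ℤ → ℤ} {τ τ' : ℤ → FreeGroup α}
    (h : Blocks M u v σ L t τ) (h' : Blocks M u' v' σ⁻¹ L' t' τ') : False := by
  have hl : IsLine σ (fun i => L' (-i)) := by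
    have := h'.line.inv
    rwa [inv_inv] at this
  obtain ⟨c, hc⟩ := line_shift h.ne_one h.line hl
  have c1 := compare hM h h' (tl_inv σ).symm
  have c2 := compare hM h' h (tl_inv σ)
  have g1 := gap_of hM h _ c1
  have g2 := gap_of hM h' _ c2
  obtain ⟨q, hq⟩ := match_core (t' := fun j => -t' (-j) + c) (τ' := fun j => τ' (-j - 1)) h
    (tl u' + tl v') (fun j => h'.tltau _)
    (by
      intro j x hx1 hx2
      have h3 := h'.mem (-j - 1) (-(x - c)) (by
        rw [show -(j + 1) = -j - 1 by ring] at hx2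
        linarith) (by
        rw [sub_add_cancel]
        linarith)
      have h4 := hc (x - c)
      simp only [sub_add_cancel] at h4
      rwa [h4] at h3)
    (by
      intro j hcom
      apply h'.nctau (-(j + 1) - 1)
      rw [show -(j + 1) - 1 + 1 = -j - 1 by ring]
      exact hcom.symm)
    (5 * (17 * ((tl u + tl v : ℕ) + (tl u' + tl v' : ℕ) : ℤ)) + 1) (by linarith)
    g1
    (by
      intro j
      have := g2 (-(j + 1))
      rw [show -(j + 1) + 1 = -j by ring] at this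
      linarith)
  obtain ⟨k, hk⟩ : ∃ k : ℤ, q = 4 * k ∨ q = 4 * k + 1 ∨ q = 4 * k + 2 ∨ q = 4 * k + 3 :=
    ⟨q / 4, by omega⟩
  have hu := h.pos_u
  have hv := h.pos_v
  have huv := h.uv
  have hvu := h.vu
  have p2 := mul_ge hM (tl u)
  have p3 := mul_ge hM (tl v)
  have d0 := abs_le.1 (hq 0).2
  have d1 := abs_le.1 (hq 1).2
  have d2 := abs_le.1 (hq 2).2
  have d3 := abs_le.1 (hq 3).2
  have d4 := abs_le.1 (hq 4).2
  have b0 := abs_le.1 (h'.len0 (-1))
  have b1 := abs_le.1 (h'.len1 (-1))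
  have b2 := abs_le.1 (h'.len2 (-1))
  have b3 := abs_le.1 (h'.len3 (-1))
  have a0 := abs_le.1 (h.len0 k)
  have a1 := abs_le.1 (h.len1 k)
  have a2 := abs_le.1 (h.len2 k)
  have a3 := abs_le.1 (h.len3 k)
  have a4 := abs_le.1 (h.len0 (k + 1))
  have a5 := abs_le.1 (h.len1 (k + 1))
  have a6 := abs_le.1 (h.len2 (k + 1))
  rw [show 4 * (k + 1) = 4 * k + 4 by ring] at a4 a5 a6
  rw [show 4 * k + 4 + 1 = 4 * k + 5 by ring] at a4 a5
  rw [show 4 * k + 4 + 2 = 4 * k + 6 by ring] at a5 a6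
  rw [show 4 * k + 4 + 3 = 4 * k + 7 by ring] at a6
  norm_num at b0 b1 b2 b3
  simp only [neg_zero, zero_add] at d0 d1 d2 d3 d4
  rcases hk with rfl | rfl | rfl | rfl
  · rw [show 1 + (4 * k) = 4 * k + 1 by ring] at d1
    rw [show 2 + (4 * k) = 4 * k + 2 by ring] at d2
    rw [show 3 + (4 * k) = 4 * k + 3 by ring] at d3
    rw [show 4 + (4 * k) = 4 * k + 4 by ring] at d4
    push_cast at *
    omega
  · rw [show 1 + (4 * k + 1) = 4 * k + 2 by ring] at d1
    rw [show 2 + (4 * k + 1) = 4 * k + 3 by ring] at d2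
    rw [show 3 + (4 * k + 1) = 4 * k + 4 by ring] at d3
    rw [show 4 + (4 * k + 1) = 4 * k + 5 by ring] at d4
    push_cast at *
    omega
  · rw [show 1 + (4 * k + 2) = 4 * k + 3 by ring] at d1
    rw [show 2 + (4 * k + 2) = 4 * k + 4 by ring] at d2
    rw [show 3 + (4 * k + 2) = 4 * k + 5 by ring] at d3
    rw [show 4 + (4 * k + 2) = 4 * k + 6 by ring] at d4
    push_cast at *
    omega
  · rw [show 1 + (4 * k + 3) = 4 * k + 4 by ring] at d1
    rw [show 2 + (4 * k + 3) = 4 * k + 5 by ring] at d2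
    rw [show 3 + (4 * k + 3) = 4 * k + 6 by ring] at d3
    rw [show 4 + (4 * k + 3) = 4 * k + 7 by ring] at d4
    push_cast at *
    omega

end Pool.Agent.H28.UE
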