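import Pool.Agent.H28.UE.Axis

set_option autoImplicit false

/-!
JOB UE-OV (overlapping axes commute; centralizers in free groups).

`commute_of_overlap`: replacing `h` by `h⁻¹` we may assume that `g` and `h` both move `x` towards
`y`; then `g h x = h g x` is the point of `[x,y]` at distance `tl g + tl h` from `x`.
`eq_or_inv_of_overlap`: if both move `x` in the same direction then `g x = h x`; otherwise
`h g x = x`.
`exists_root`: subgroups of free groups are free (`subgroupIsFreeOfIsFree`); the centralizer of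
`g ≠ 1` consists of `h` with `Ax h = Ax g` (or `h = 1`), it acts freely on a line by translations
(a reflection is impossible: free groups are torsion free and `h * g * h⁻¹ = g⁻¹` forces `g = 1`),
so it is infinite cyclic: take the element `ρ` of smallest positive translation `h L 0 = L k`.
-/

namespace Pool.Agent.H28.UE

variable {α : Type*} [DecidableEq α]

/-- A segment on the axis, parametrised in the direction of `g` or of `g⁻¹`. -/
theorem exists_seg {g x y : FreeGroup α} (hg : g ≠ 1) (hx : x ∈ Ax g) (hy : y ∈ Ax g) :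
    ∃ (g' : FreeGroup α) (K : ℤ → FreeGroup α), (g' = g ∨ g' = g⁻¹) ∧ IsLine g' K ∧ K 0 = x ∧
      K (D x y : ℤ) = y := by
  obtain ⟨L, hL⟩ := exists_line hg
  rw [← hL.range] at hx hy
  obtain ⟨i, rfl⟩ := hx
  obtain ⟨j, rfl⟩ := hy
  rw [hL.iso]
  rcases le_total i j with hij | hij
  · refine ⟨g, fun n => L (n + i), Or.inl rfl, hL.shift i, ?_, ?_⟩
    · show L (0 + i) = L i
      rw [zero_add]
    · show L (((i - j).natAbs : ℤ) + i) = L j
      congr 1
      omega
  · refine ⟨g⁻¹, fun n => L (-(n + -i)), Or.inr rfl, hL.inv.shift (-i), ?_, ?_⟩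
    · show L (-(0 + -i)) = L i
      congr 1
      ring
    · show L (-(((i - j).natAbs : ℤ) + -i)) = L j
      congr 1
      omega

theorem IsLine.eq_of_ends {g h : FreeGroup α} {K K' : ℤ → FreeGroup α} (hK : IsLine g K)
    (hK' : IsLine h K') {d : ℤ} (h0 : K 0 = K' 0) (hd : K d = K' d) {n : ℤ} (hn : 0 ≤ n)
    (hnd : n ≤ d) : K n = K' n := by
  have hB : (TT α).B (K 0) (K' n) (K d) := by
    unfold TreeDist.B
    rw [← D_eq, ← D_eq, ← D_eq, h0, hd, hK'.iso, hK'.iso, hK'.iso]
    omega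
  obtain ⟨k, hk0, hkd, hk⟩ := hK.between (by omega) hB
  have h1 := hK.iso 0 k
  rw [← hk, h0, hK'.iso] at h1
  have h2 : k = n := by omega
  rw [hk, h2]

theorem commute_of_signs {G : Type*} [Group G] {g h g' h' : G} (hg : g' = g ∨ g' = g⁻¹)
    (hh : h' = h ∨ h' = h⁻¹) (hc : Commute g' h') : Commute g h := by
  rcases hg with rfl | rfl <;> rcases hh with rfl | rfl
  · exact hc
  · exact Commute.inv_right_iff.1 hc
  · exact Commute.inv_left_iff.1 hc
  · exact Commute.inv_left_iff.1 (Commute.inv_right_iff.1 hc)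

theorem tl_one : tl (1 : FreeGroup α) = 0 := by
  have h := tl_le (1 : FreeGroup α) 1
  rw [one_mul, D_self] at h
  exact Nat.le_zero.1 h

theorem eq_one_of_tl {g : FreeGroup α} (h : tl g = 0) : g = 1 := by
  by_contra hg
  exact (tl_pos hg).ne' h

theorem pow_eq_one' {g : FreeGroup α} {n : ℕ} (hn : n ≠ 0) (h : g ^ n = 1) : g = 1 := by
  refine eq_one_of_tl ?_
  have h1 := tl_pow g n
  rw [h, tl_one] at h1
  rcases Nat.mul_eq_zero.1 h1.symm with h2 | h2
  · exact absurd h2 hn
  · exact h2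

theorem commute_of_overlap {g h x y : FreeGroup α} (hx : x ∈ Ax g) (hx' : x ∈ Ax h)
    (hy : y ∈ Ax g) (hy' : y ∈ Ax h) (hd : tl g + tl h ≤ D x y) : Commute g h := by
  by_cases hg : g = 1
  · rw [hg]; exact Commute.one_left h
  by_cases hh : h = 1
  · rw [hh]; exact Commute.one_right g
  obtain ⟨g', K, hg', hK, hK0, hKd⟩ := exists_seg hg hx hy
  obtain ⟨h', K', hh', hK', hK0', hKd'⟩ := exists_seg hh hx' hy'
  have tg : tl g' = tl g := by
    rcases hg' with rfl | rfl
    · rfl
    · exact tl_inv g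
  have th : tl h' = tl h := by
    rcases hh' with rfl | rfl
    · rfl
    · exact tl_inv h
  have key : ∀ n : ℤ, 0 ≤ n → n ≤ (D x y : ℤ) → K n = K' n := fun n h1 h2 =>
    hK.eq_of_ends hK' (by rw [hK0, hK0']) (by rw [hKd, hKd']) h1 h2
  refine commute_of_signs hg' hh' ?_
  have h1 : h' * x = K (tl h) := by
    rw [← hK0', hK'.step, th, zero_add]
    exact (key _ (by omega) (by omega)).symm
  have h2 : g' * x = K (tl g) := by
    rw [← hK0, hK.step, tg, zero_add]
  have h3 : g' * (h' * x) = h' * (g' * x) := by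
    rw [h1, h2, hK.step, tg, key (tl g) (by omega) (by omega), hK'.step, th,
      key _ (by omega) (by omega), add_comm]
  rw [← mul_assoc, ← mul_assoc] at h3
  exact mul_right_cancel h3

theorem eq_or_inv_of_overlap {g h x y : FreeGroup α} (htl : tl g = tl h) (hx : x ∈ Ax g)
    (hx' : x ∈ Ax h) (hy : y ∈ Ax g) (hy' : y ∈ Ax h) (hd : tl g ≤ D x y) :
    h = g ∨ h = g⁻¹ := by
  by_cases hg : g = 1
  · left
    rw [hg, tl_one] at htl
    rw [hg, eq_one_of_tl htl.symm]
  by_cases hh : h = 1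
  · left
    rw [hh, tl_one] at htl
    rw [hh, eq_one_of_tl htl]
  obtain ⟨g', K, hg', hK, hK0, hKd⟩ := exists_seg hg hx hy
  obtain ⟨h', K', hh', hK', hK0', hKd'⟩ := exists_seg hh hx' hy'
  have tg : tl g' = tl g := by
    rcases hg' with rfl | rfl
    · rfl
    · exact tl_inv g
  have th : tl h' = tl h := by
    rcases hh' with rfl | rfl
    · rfl
    · exact tl_inv h
  have key : ∀ n : ℤ, 0 ≤ n → n ≤ (D x y : ℤ) → K n = K' n := fun n h1 h2 =>
    hK.eq_of_ends hK' (by rw [hK0, hK0']) (by rw [hKd, hKd']) h1 h2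
  have h1 : h' * x = K (tl h) := by
    rw [← hK0', hK'.step, th, zero_add]
    exact (key _ (by omega) (by omega)).symm
  have h2 : g' * x = K (tl g) := by
    rw [← hK0, hK.step, tg, zero_add]
  have h3 : g' = h' := by
    refine mul_right_cancel (b := x) ?_
    rw [h1, h2, htl]
  rcases hg' with rfl | rfl <;> rcases hh' with rfl | rfl
  · exact Or.inl h3.symm
  · exact Or.inr (by rw [h3, inv_inv])
  · exact Or.inr h3.symm
  · exact Or.inl (inv_injective h3).symm

theorem Ax_subset_of_commute {g h : FreeGroup α} (hh : h ≠ 1) (hc : Commute g h) :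
    Ax h ⊆ Ax g := by
  have h1 : h * g * h⁻¹ = g := by
    rw [← hc.eq, mul_assoc, mul_inv_cancel, mul_one]
  have h2 : h⁻¹ * g * h⁻¹⁻¹ = g := by
    rw [inv_inv, mul_assoc, hc.eq, ← mul_assoc, inv_mul_cancel, one_mul]
  refine Ax_subset_of_inv hh (convex_Ax g) (Ax_nonempty g) ?_ ?_
  · intro x hx
    have h3 := (mem_Ax_conj (f := h) (g := g) (x := x)).2 hx
    rwa [h1] at h3
  · intro x hx
    have h3 := (mem_Ax_conj (f := h⁻¹) (g := g) (x := x)).2 hx
    rwa [h2] at h3

theorem Ax_eq_of_commute {g h : FreeGroup α} (hg : g ≠ 1) (hh : h ≠ 1) (hc : Commute g h) :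
    Ax g = Ax h :=
  Set.Subset.antisymm (Ax_subset_of_commute hg hc.symm) (Ax_subset_of_commute hh hc)

/-- Elements preserving the axis of `g` translate or reflect it. -/
theorem IsLine.move {g f : FreeGroup α} {L : ℤ → FreeGroup α} (hL : IsLine g L)
    (h : Ax (f * g * f⁻¹) = Ax g) :
    ∃ c : ℤ, (∀ i, f * L i = L (i + c)) ∨ (∀ i, f * L i = L (c - i)) :=
  line_unique hL (hL.conj f) h.symm

theorem commute_of_Ax_eq {f g : FreeGroup α} (hg : g ≠ 1)
    (h : Ax (f * g * f⁻¹) = Ax g) : Commute f g := by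
  obtain ⟨L, hL⟩ := exists_line hg
  obtain ⟨c, hc | hc⟩ := hL.move h
  · have h1 : f * (g * L 0) = g * (f * L 0) := by
      rw [hL.step, hc, hc, hL.step]
      congr 1
      ring
    rw [← mul_assoc, ← mul_assoc] at h1
    exact mul_right_cancel h1
  · have h1 : f * (f * L 0) = L 0 := by
      rw [hc, hc]
      congr 1
      ring
    have h2 : f ^ 2 = 1 := by
      refine mul_right_cancel (b := L 0) ?_
      rw [one_mul, pow_two, mul_assoc, h1]
    rw [pow_eq_one' two_ne_zero h2]
    exact Commute.one_left g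

theorem not_conj_inv {f g : FreeGroup α} (h : f * g * f⁻¹ = g⁻¹) : g = 1 := by
  by_contra hg
  have h1 : Commute f g := commute_of_Ax_eq hg (by rw [h, Ax_inv])
  have h2 : g = g⁻¹ := by
    rw [← h, h1.eq, mul_assoc, mul_inv_cancel, mul_one]
  refine hg (pow_eq_one' two_ne_zero ?_)
  rw [pow_two]
  nth_rw 2 [h2]
  exact mul_inv_cancel g

/-- The centralizer of a nontrivial element is infinite cyclic. -/
theorem exists_root_core {g : FreeGroup α} (hg : g ≠ 1) :
    ∃ (ρ : FreeGroup α) (n : ℕ), 0 < n ∧ g = ρ ^ n ∧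
      ∀ k, Commute k g → k ∈ Subgroup.zpowers ρ := by
  classical
  obtain ⟨L, hL⟩ := exists_line hg
  have ht := tl_pos hg
  have hmove : ∀ k, Commute k g → ∃ c : ℤ, ∀ i, k * L i = L (i + c) := by
    intro k hk
    have h1 : k * g * k⁻¹ = g := by
      rw [hk.eq, mul_assoc, mul_inv_cancel, mul_one]
    obtain ⟨c, hc | hc⟩ := hL.move (by rw [h1])
    · exact ⟨c, hc⟩
    · exfalso
      have h2 : k * (g * L 0) = g * (k * L 0) := by
        rw [← mul_assoc, hk.eq, mul_assoc]
      rw [hL.step, hc, hc, hL.step] at h2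
      have h3 := hL.inj h2
      omega
  have hex : ∃ c : ℕ, 0 < c ∧ ∃ k, Commute k g ∧ ∀ i, k * L i = L (i + c) :=
    ⟨tl g, ht, g, Commute.refl g, hL.step⟩
  obtain ⟨hc0, ρ, hρ, hρL⟩ := Nat.find_spec hex
  have hmin : ∀ c : ℕ, 0 < c → (∃ k, Commute k g ∧ ∀ i, k * L i = L (i + c)) →
      Nat.find hex ≤ c := fun c h1 h2 => Nat.find_min' hex ⟨h1, h2⟩
  obtain ⟨c0, hc0'⟩ : ∃ c0, c0 = Nat.find hex := ⟨_, rfl⟩
  rw [← hc0'] at hc0 hρL hmin
  have hpow : ∀ (q : ℤ) (i : ℤ), ρ ^ q * L i = L (i + q * c0) := by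
    intro q
    induction q using Int.induction_on with
    | zero => intro i; simp
    | succ q ih =>
      intro i
      rw [zpow_add_one, mul_assoc, hρL, ih]
      congr 1
      ring
    | pred q ih =>
      intro i
      rw [zpow_sub_one, mul_assoc]
      have h1 : ρ⁻¹ * L i = L (i - c0) := by
        rw [inv_mul_eq_iff_eq_mul, hρL, sub_add_cancel]
      rw [h1, ih]
      congr 1
      ring
  have hdiv : ∀ k, Commute k g → ∀ c : ℤ, (∀ i, k * L i = L (i + c)) →
      k = ρ ^ (c / c0) := by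
    intro k hk c hkc
    have hc0z : (0 : ℤ) < c0 := by omega
    have hr0 : 0 ≤ c % c0 := Int.emod_nonneg _ hc0z.ne'
    have hr1 : c % c0 < c0 := Int.emod_lt_of_pos _ hc0z
    have hdm : c0 * (c / c0) + c % c0 = c := Int.mul_ediv_add_emod c c0
    have hk1 : ∀ i, k * ρ ^ (-(c / c0)) * L i = L (i + c % c0) := by
      intro i
      rw [mul_assoc, hpow, hkc]
      congr 1
      linear_combination (-1 : ℤ) * hdm
    have hk2 : Commute (k * ρ ^ (-(c / c0))) g := hk.mul_left (hρ.zpow_left _)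
    have hz : c % c0 = 0 := by
      by_contra hz
      have h1 := hmin (c % c0).toNat (by omega) ⟨_, hk2, fun i => by
        rw [hk1 i]
        congr 1
        omega⟩
      omega
    have h2 := hk1 0
    rw [hz, add_zero] at h2
    have h3 : k * ρ ^ (-(c / c0)) = 1 := by
      refine mul_right_cancel (b := L 0) ?_
      rw [h2, one_mul]
    rw [zpow_neg] at h3
    exact mul_inv_eq_one.1 h3
  refine ⟨ρ, (tl g / c0), ?_, ?_, ?_⟩
  · exact Nat.div_pos (hmin _ ht ⟨g, Commute.refl g, hL.step⟩) hc0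
  · have h1 := hdiv g (Commute.refl g) (tl g) hL.step
    have h2 : ρ ^ (tl g / c0) = ρ ^ ((tl g : ℤ) / (c0 : ℤ)) := by
      rw [← zpow_natCast, Int.natCast_div]
    exact h1.trans h2.symm
  · intro k hk
    obtain ⟨c, hc⟩ := hmove k hk
    rw [hdiv k hk c hc]
    exact Subgroup.zpow_mem_zpowers ρ _

theorem exists_root {g : FreeGroup α} (hg : g ≠ 1) :
    ∃ (ρ : FreeGroup α) (n : ℕ), 0 < n ∧ g = ρ ^ n ∧ IsRoot ρ := by
  obtain ⟨ρ, n, hn, hρ, hc⟩ := exists_root_core hg
  refine ⟨ρ, n, hn, hρ, fun k hk => hc k ?_⟩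
  rw [hρ]
  exact hk.pow_right n

theorem commute_trans {g h k : FreeGroup α} (hg : g ≠ 1) (h1 : Commute g h)
    (h2 : Commute g k) : Commute h k := by
  obtain ⟨ρ, n, hn, hρ, hc⟩ := exists_root_core hg
  obtain ⟨a, ha⟩ := hc h h1.symm
  obtain ⟨b, hb⟩ := hc k h2.symm
  have ha' : ρ ^ a = h := ha
  have hb' : ρ ^ b = k := hb
  rw [← ha', ← hb']
  exact (Commute.refl ρ).zpow_zpow a b

theorem commute_of_pow {g h : FreeGroup α} {n : ℕ} (hn : n ≠ 0) (hc : Commute (g ^ n) h) :
    Commute g h := by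
  by_cases h1 : g ^ n = 1
  · rw [pow_eq_one' hn h1]
    exact Commute.one_left h
  · exact commute_trans h1 ((Commute.refl g).pow_left n) hc

theorem commute_of_zpow {g h : FreeGroup α} {n : ℤ} (hn : n ≠ 0) (hc : Commute (g ^ n) h) :
    Commute g h := by
  have hn' : n.natAbs ≠ 0 := by omega
  rcases Int.natAbs_eq n with h1 | h1
  · rw [h1, zpow_natCast] at hc
    exact commute_of_pow hn' hc
  · rw [h1, zpow_neg, zpow_natCast, Commute.inv_left_iff] at hc
    exact commute_of_pow hn' hc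

theorem isRoot_of (a : α) : IsRoot (FreeGroup.of a) := by
  have hne : FreeGroup.of a ≠ 1 := FreeGroup.of_ne_one a
  obtain ⟨ρ, n, hn, hρ, hc⟩ := exists_root_core hne
  have h1 : tl (FreeGroup.of a) ≤ 1 := by
    have h2 := tl_le (FreeGroup.of a) 1
    have h3 : D 1 (FreeGroup.of a * 1) = 1 := by
      unfold D
      rw [inv_one, one_mul, mul_one]
      exact FreeGroup.norm_of a
    omega
  have h2 : ρ ≠ 1 := by
    rintro rfl
    rw [one_pow] at hρ
    exact hne hρ
  have h3 := tl_pos h2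
  rw [hρ, tl_pow] at h1
  have h4 : n = 1 := by
    by_contra h
    have h5 : 2 * 1 ≤ n * tl ρ := Nat.mul_le_mul (by omega) h3
    omega
  rw [h4, pow_one] at hρ
  intro k hk
  rw [hρ]
  exact hc k hk

omit [DecidableEq α] in
theorem IsRoot.ne_one {s : FreeGroup α} (hα : ∃ g h : FreeGroup α, ¬ Commute g h)
    (hs : IsRoot s) : s ≠ 1 := by
  rintro rfl
  obtain ⟨g, h, hgh⟩ := hα
  have h1 := hs g (Commute.one_right g)
  have h2 := hs h (Commute.one_right h)
  rw [Subgroup.zpowers_one_eq_bot, Subgroup.mem_bot] at h1 h2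
  subst h1; subst h2
  exact hgh (Commute.refl _)

theorem IsRoot.conj {G : Type*} [Group G] {s : G} (hs : IsRoot s) (f : G) :
    IsRoot (f * s * f⁻¹) := by
  intro g hg
  have h1 : Commute (f⁻¹ * g * f) s := by
    have h2 : g * (f * s * f⁻¹) = f * s * f⁻¹ * g := hg
    show f⁻¹ * g * f * s = s * (f⁻¹ * g * f)
    have h3 := congrArg (fun z => f⁻¹ * z * f) h2
    simp only [mul_assoc, inv_mul_cancel_left] at h3
    simpa [mul_assoc] using h3
  obtain ⟨n, hn⟩ := hs _ h1
  refine ⟨n, ?_⟩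
  show (f * s * f⁻¹) ^ n = g
  have hn' : s ^ n = f⁻¹ * g * f := hn
  rw [conj_zpow, hn']
  group

end Pool.Agent.H28.UE
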