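import Pool.Agent.H28.UE.Match

set_option autoImplicit false

/-!
JOB UE-PA (the pair lemma: the word `rW M X Y` determines the pair `X, Y` up to conjugation).

`algebra`: `u', u` commute; put `d = (u' ^ M)⁻¹ * u ^ M`, it commutes with `u` and `u'`. `c1`,
conjugated by `(u' ^ M)⁻¹`: `v'` commutes with `d v d⁻¹`. `c2`: with `w = u ^ M v ^ M`,
`w' = u' ^ M v' ^ M`, `e = w'⁻¹ w`: `e u e⁻¹` commutes with `u'`, hence with `u` (`commute_trans`), so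
`e` commutes with `u` (`Ax_eq_of_commute`, `commute_of_Ax_eq`). `e = (v' ^ M)⁻¹ d v ^ M = y d` with
`y = (v' ^ M)⁻¹ (d v d⁻¹) ^ M`. `y` commutes with `v'` (both factors do) and with `u` (`e` and `d` do).
If `y ≠ 1` then `v'` and `u` commute, so `d v d⁻¹` commutes with `u`, so (`d` commutes with `u`)
`v` commutes with `u`: contradiction. So `y = 1`, `v' ^ M = (d v d⁻¹) ^ M`, `v' = d v d⁻¹`
(commuting elements of a torsion free group). `e = d`. `c3`, with `z = w u ^ (2M)`,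
`z' = w' u' ^ (2M) = w d⁻¹ u' ^ (2M)`: `z'⁻¹ z = (u' ^ (2M))⁻¹ d u ^ (2M) = d ^ 3`; so `d ^ 3 v d ^ -3`
commutes with `v' = d v d⁻¹`, so `d ^ 2 v d ^ -2` commutes with `v`, so `d ^ 2` commutes with `v`
(`commute_of_Ax_eq`); if `d ≠ 1` then `d` commutes with `v` and `u`: contradiction. So `d = 1`,
`u' ^ M = u ^ M`, `u' = u`, `v' = v`.
`pair_eq`: `exists_blocks` for both pairs, `match_same`: replace `(X, Y)` by
`σ ^ k (X, Y) σ ^ -k` (its `u, v` are the conjugates; `τ (i + 4k) = σ ^ k τ i σ ^ -k`), `algebra` gives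
`X' ^ 10 Y' ^ 10 = u`, `X' ^ 12 Y' ^ 10 = v`; `X' ^ 2 = v u⁻¹ = X ^ 2`, so `X' = X`, `Y' ^ 10 = Y ^ 10`,
`Y' = Y` (roots in free groups are unique: `root_unique`).
`pair_ne_inv`: `match_opp`.
`pair_root`: `σ = rW M X Y = r ^ l`, `r = f s f⁻¹`, a root, `σ ≠ 1`. `r` commutes with `σ`:
`rW M (r X r⁻¹) (r Y r⁻¹) = σ`, so `pair_eq` gives `k` with `σ ^ -k r` commuting with `X` and `Y`;
hence `= 1` (`commute_trans`), `r = σ ^ k = r ^ (l k)`, `l k = 1`.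
`pair_conj`: `l, l' ∈ {1, -1}` by `pair_root`. If `l = l'` then
`rW M X' Y' = rW M (g X g⁻¹) (g Y g⁻¹)` for `g = f' f⁻¹`; `pair_eq`. If `l' = -l` then
`rW M X' Y' = (rW M (g X g⁻¹) (g Y g⁻¹))⁻¹`: `pair_ne_inv`.
-/

namespace Pool.Agent.H28.UE

variable {α : Type*} [DecidableEq α]

theorem root_unique {x y : FreeGroup α} {n : ℕ} (hn : n ≠ 0) (h : x ^ n = y ^ n) : x = y :=
  (pow_left_inj hn).mp h

theorem commute_of_conj_commute {f g : FreeGroup α} (hg : g ≠ 1)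
    (h : Commute (f * g * f⁻¹) g) : Commute f g := by
  refine commute_of_Ax_eq hg (Ax_eq_of_commute ?_ hg h)
  intro h1
  apply hg
  have h2 : g = f⁻¹ * (f * g * f⁻¹) * f := by group
  rw [h2, h1]
  group

namespace PairAux

theorem cconj {G : Type*} [Group G] {a b : G} (f : G) (h : Commute a b) :
    Commute (f * a * f⁻¹) (f * b * f⁻¹) := by
  have h1 := h.map (MulAut.conj f)
  simpa only [MulAut.conj_apply] using h1

theorem cconj_iff {G : Type*} [Group G] {a b : G} (f : G) :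
    Commute (f * a * f⁻¹) (f * b * f⁻¹) ↔ Commute a b := by
  refine ⟨fun h => ?_, cconj f⟩
  have h1 := cconj f⁻¹ h
  have h2 : f⁻¹ * (f * a * f⁻¹) * f⁻¹⁻¹ = a := by group
  have h3 : f⁻¹ * (f * b * f⁻¹) * f⁻¹⁻¹ = b := by group
  rw [h2, h3] at h1
  exact h1

/-- move a conjugation to the other side -/
theorem cmove {G : Type*} [Group G] {a b f g : G} (h : Commute (f * a * f⁻¹) (g * b * g⁻¹)) :
    Commute a ((f⁻¹ * g) * b * (f⁻¹ * g)⁻¹) := by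
  have h1 := cconj f⁻¹ h
  have h2 : f⁻¹ * (f * a * f⁻¹) * f⁻¹⁻¹ = a := by group
  have h3 : f⁻¹ * (g * b * g⁻¹) * f⁻¹⁻¹ = (f⁻¹ * g) * b * (f⁻¹ * g)⁻¹ := by group
  rw [h2, h3] at h1
  exact h1

end PairAux

open PairAux

theorem algebra {M : ℕ} (hM : M ≠ 0) {u v u' v' : FreeGroup α} (hnc : ¬ Commute u v)
    (hnc' : ¬ Commute u' v') (c0 : Commute u' u)
    (c1 : Commute (u' ^ M * v' * (u' ^ M)⁻¹) (u ^ M * v * (u ^ M)⁻¹))
    (c2 : Commute ((u' ^ M * v' ^ M) * u' * (u' ^ M * v' ^ M)⁻¹)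
      ((u ^ M * v ^ M) * u * (u ^ M * v ^ M)⁻¹))
    (c3 : Commute ((u' ^ M * v' ^ M * u' ^ (2 * M)) * v' * (u' ^ M * v' ^ M * u' ^ (2 * M))⁻¹)
      ((u ^ M * v ^ M * u ^ (2 * M)) * v * (u ^ M * v ^ M * u ^ (2 * M))⁻¹)) :
    u' = u ∧ v' = v := by
  have hu : u ≠ 1 := fun h => hnc (by rw [h]; exact Commute.one_left v)
  have hv : v ≠ 1 := fun h => hnc (by rw [h]; exact Commute.one_right u)
  have hu' : u' ≠ 1 := fun h => hnc' (by rw [h]; exact Commute.one_left v')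
  have hv' : v' ≠ 1 := fun h => hnc' (by rw [h]; exact Commute.one_right u')
  obtain ⟨d, hd⟩ : ∃ d, d = (u' ^ M)⁻¹ * u ^ M := ⟨_, rfl⟩
  have du : Commute d u := by
    rw [hd]
    exact (c0.pow_left M).inv_left.mul_left ((Commute.refl u).pow_left M)
  have du' : Commute d u' := by
    rw [hd]
    exact ((Commute.refl u').pow_left M).inv_left.mul_left (c0.symm.pow_left M)
  have k1 : Commute v' (d * v * d⁻¹) := by
    have := cmove c1
    rwa [← hd] at this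
  obtain ⟨y, hy⟩ : ∃ y, y = (v' ^ M)⁻¹ * (d * v * d⁻¹) ^ M := ⟨_, rfl⟩
  have hyd : (u' ^ M * v' ^ M)⁻¹ * (u ^ M * v ^ M) = y * d := by
    rw [hy, conj_pow, hd]
    group
  have yv' : Commute y v' := by
    rw [hy]
    exact ((Commute.refl v').pow_left M).inv_left.mul_left (k1.symm.pow_left M)
  have ec : Commute (y * d) u := by
    have h1 := cmove c2
    rw [hyd] at h1
    exact commute_of_conj_commute hu (commute_trans hu' h1 c0)
  have yu : Commute y u := by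
    have h1 : y = y * d * d⁻¹ := by group
    rw [h1]
    exact ec.mul_left du.inv_left
  have y1 : y = 1 := by
    by_contra hy1
    have h1 : Commute v' u := commute_trans hy1 yv' yu
    have h2 : Commute (d * v * d⁻¹) u := commute_trans hv' k1 h1
    have h3 : d * u * d⁻¹ = u := by rw [du.eq]; group
    rw [← h3] at h2
    exact hnc ((cconj_iff d).mp h2).symm
  have hv1 : v' = d * v * d⁻¹ := by
    rw [hy] at y1
    exact root_unique hM (inv_mul_eq_one.mp y1)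
  have hz : (u' ^ M * v' ^ M * u' ^ (2 * M))⁻¹ * (u ^ M * v ^ M * u ^ (2 * M)) = d ^ 3 := by
    have h1 : (u' ^ M * v' ^ M * u' ^ (2 * M))⁻¹ * (u ^ M * v ^ M * u ^ (2 * M)) =
        (u' ^ (2 * M))⁻¹ * ((u' ^ M * v' ^ M)⁻¹ * (u ^ M * v ^ M)) * u ^ (2 * M) := by group
    rw [h1, hyd, y1, one_mul]
    have h2 : Commute (u' ^ (2 * M))⁻¹ d := (du'.symm.pow_left (2 * M)).inv_left
    rw [h2.eq, mul_assoc]
    have h3 : (u' ^ (2 * M))⁻¹ * u ^ (2 * M) = d ^ 2 := by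
      have h4 : Commute (u' ^ M)⁻¹ (u ^ M) := ((c0.pow_left M).pow_right M).inv_left
      rw [hd, h4.mul_pow, inv_pow, ← pow_mul, ← pow_mul, mul_comm M 2]
    rw [h3]
    group
  have k3 := cmove c3
  rw [hz, hv1] at k3
  have k4 : Commute v (d ^ 2 * v * (d ^ 2)⁻¹) := by
    have h1 := cmove k3
    have h2 : d⁻¹ * d ^ 3 = d ^ 2 := by group
    rw [h2] at h1
    exact h1
  have dv : Commute d v := by
    have h1 := commute_of_conj_commute hv k4.symm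
    exact commute_of_pow two_ne_zero h1
  have d1 : d = 1 := by
    by_contra hd1
    exact hnc (commute_trans hd1 du dv)
  refine ⟨?_, ?_⟩
  · rw [d1] at hd
    exact root_unique hM (inv_mul_eq_one.mp hd.symm)
  · rw [hv1, d1]; group

namespace PairAux

theorem tau_zpow {σ : FreeGroup α} {τ : ℤ → FreeGroup α} (h : ∀ i, τ (i + 4) = σ * τ i * σ⁻¹)
    (i k : ℤ) : τ (i + 4 * k) = σ ^ k * τ i * (σ ^ k)⁻¹ := by
  induction k using Int.induction_on with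
  | zero => simp
  | succ n ih =>
    have h1 : i + 4 * ((n : ℤ) + 1) = (i + 4 * n) + 4 := by ring
    rw [h1, h, ih, zpow_add_one, ← (Commute.refl σ).zpow_right n |>.eq]
    group
  | pred n ih =>
    have h1 : i + 4 * (-(n : ℤ)) = (i + 4 * (-(n : ℤ) - 1)) + 4 := by ring
    rw [h1, h] at ih
    have h2 : τ (i + 4 * (-(n : ℤ) - 1)) = σ⁻¹ * (σ * τ (i + 4 * (-(n : ℤ) - 1)) * σ⁻¹) * σ := by
      group
    rw [h2, ih]
    group

end PairAux

theorem pair_eq {M : ℕ} (hM : 1000000 ≤ M) {X Y X' Y' : FreeGroup α} (h : ¬ Commute X Y)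
    (h' : ¬ Commute X' Y') (e : rW M X Y = rW M X' Y') :
    ∃ k : ℤ, X' = rW M X Y ^ k * X * (rW M X Y ^ k)⁻¹ ∧
      Y' = rW M X Y ^ k * Y * (rW M X Y ^ k)⁻¹ := by
  obtain ⟨L, t, τ, hb⟩ := exists_blocks (M := M) (by omega) h
  obtain ⟨L', t', τ', hb'⟩ := exists_blocks (M := M) (by omega) h'
  rw [← e] at hb'
  obtain ⟨k, hk⟩ := match_same hM hb hb'
  obtain ⟨g, hg⟩ : ∃ g, g = rW M X Y ^ k := ⟨_, rfl⟩
  have htau : ∀ i, τ (i + 4 * k) = g * τ i * g⁻¹ := fun i => by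
    rw [hg]; exact tau_zpow hb.tau4 i k
  have hXg : (g * X * g⁻¹) ^ 10 * (g * Y * g⁻¹) ^ 10 = g * (X ^ 10 * Y ^ 10) * g⁻¹ := by
    rw [conj_pow, conj_pow]; group
  have hXg' : (g * X * g⁻¹) ^ 12 * (g * Y * g⁻¹) ^ 10 = g * (X ^ 12 * Y ^ 10) * g⁻¹ := by
    rw [conj_pow, conj_pow]; group
  have hcp : ∀ (a : FreeGroup α) (n : ℕ), (g * a * g⁻¹) ^ n = g * a ^ n * g⁻¹ := fun a n =>
    conj_pow
  obtain ⟨u, hu⟩ : ∃ u, u = X ^ 10 * Y ^ 10 := ⟨_, rfl⟩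
  obtain ⟨v, hv⟩ : ∃ v, v = X ^ 12 * Y ^ 10 := ⟨_, rfl⟩
  obtain ⟨u', hu'⟩ : ∃ u', u' = X' ^ 10 * Y' ^ 10 := ⟨_, rfl⟩
  obtain ⟨v', hv'⟩ : ∃ v', v' = X' ^ 12 * Y' ^ 10 := ⟨_, rfl⟩
  rw [← hu, ← hv] at hb
  rw [← hu', ← hv'] at hb'
  have halg := algebra (M := M) (by omega) (u := g * u * g⁻¹) (v := g * v * g⁻¹) (u' := u')
    (v' := v') (fun hc => hb.nc ((cconj_iff g).mp hc)) hb'.nc
    (by
      have h1 := hk 0
      rw [htau, hb.tau0, hb'.tau0] at h1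
      exact h1)
    (by
      have h1 := hk 1
      rw [htau, hb.tau1, hb'.tau1] at h1
      have h2 : (g * u * g⁻¹) ^ M * (g * v * g⁻¹) * ((g * u * g⁻¹) ^ M)⁻¹ =
          g * (u ^ M * v * (u ^ M)⁻¹) * g⁻¹ := by
        rw [hcp]; group
      rw [h2]
      exact h1)
    (by
      have h1 := hk 2
      rw [htau, hb.tau2, hb'.tau2] at h1
      have h2 : (g * u * g⁻¹) ^ M * (g * v * g⁻¹) ^ M * (g * u * g⁻¹) *
          ((g * u * g⁻¹) ^ M * (g * v * g⁻¹) ^ M)⁻¹ =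
          g * ((u ^ M * v ^ M) * u * (u ^ M * v ^ M)⁻¹) * g⁻¹ := by
        rw [hcp, hcp]; group
      rw [h2]
      exact h1)
    (by
      have h1 := hk 3
      rw [htau, hb.tau3, hb'.tau3] at h1
      have h2 : (g * u * g⁻¹) ^ M * (g * v * g⁻¹) ^ M * (g * u * g⁻¹) ^ (2 * M) *
          (g * v * g⁻¹) *
          ((g * u * g⁻¹) ^ M * (g * v * g⁻¹) ^ M * (g * u * g⁻¹) ^ (2 * M))⁻¹ =
          g * ((u ^ M * v ^ M * u ^ (2 * M)) * v * (u ^ M * v ^ M * u ^ (2 * M))⁻¹) * g⁻¹ := by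
        rw [hcp, hcp, hcp]; group
      rw [h2]
      exact h1)
  obtain ⟨e1, e2⟩ := halg
  have hX2 : X' ^ 2 = (g * X * g⁻¹) ^ 2 := by
    have h1 : X' ^ 2 = v' * u'⁻¹ := by rw [hv', hu']; group
    have h2 : (g * X * g⁻¹) ^ 2 = (g * v * g⁻¹) * (g * u * g⁻¹)⁻¹ := by
      rw [hcp, hv, hu]; group
    rw [h1, h2, e1, e2]
  have hX : X' = g * X * g⁻¹ := root_unique two_ne_zero hX2
  have hY10 : Y' ^ 10 = (g * Y * g⁻¹) ^ 10 := by
    have h1 : Y' ^ 10 = (X' ^ 10)⁻¹ * u' := by rw [hu']; group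
    have h2 : (g * Y * g⁻¹) ^ 10 = ((g * X * g⁻¹) ^ 10)⁻¹ * (g * u * g⁻¹) := by
      rw [hcp, hcp, hu]; group
    rw [h1, h2, e1, hX]
  have hY : Y' = g * Y * g⁻¹ := root_unique (by norm_num) hY10
  exact ⟨k, by rw [← hg]; exact hX, by rw [← hg]; exact hY⟩

theorem pair_ne_inv {M : ℕ} (hM : 1000000 ≤ M) {X Y X' Y' : FreeGroup α} (h : ¬ Commute X Y)
    (h' : ¬ Commute X' Y') : rW M X Y ≠ (rW M X' Y')⁻¹ := by
  intro e
  obtain ⟨L, t, τ, hb⟩ := exists_blocks (M := M) (by omega) h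
  obtain ⟨L', t', τ', hb'⟩ := exists_blocks (M := M) (by omega) h'
  have e' : rW M X' Y' = (rW M X Y)⁻¹ := by rw [e, inv_inv]
  rw [e'] at hb'
  exact match_opp hM hb hb'

theorem rW_ne_one {M : ℕ} (hM : 1000000 ≤ M) {X Y : FreeGroup α} (h : ¬ Commute X Y) :
    rW M X Y ≠ 1 := by
  obtain ⟨L, t, τ, hb⟩ := exists_blocks (M := M) (by omega) h
  exact hb.ne_one

theorem pair_root {M : ℕ} (hM : 1000000 ≤ M) {X Y s f : FreeGroup α} {l : ℤ}
    (h : ¬ Commute X Y) (hs : IsRoot s) (e : rW M X Y = f * s ^ l * f⁻¹) : l = 1 ∨ l = -1 := by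
  have hne := rW_ne_one hM h
  obtain ⟨r, hr⟩ : ∃ r, r = f * s * f⁻¹ := ⟨_, rfl⟩
  obtain ⟨σ, hσ⟩ : ∃ σ, σ = rW M X Y := ⟨_, rfl⟩
  have e1 : σ = r ^ l := by rw [hσ, hr, conj_zpow, e]
  have hrσ : Commute r σ := by rw [e1]; exact (Commute.refl r).zpow_right l
  have h1 : rW M (r * X * r⁻¹) (r * Y * r⁻¹) = σ := by
    rw [conj_rW, ← hσ, hrσ.eq]; group
  obtain ⟨k, hk1, hk2⟩ := pair_eq hM h (X' := r * X * r⁻¹) (Y' := r * Y * r⁻¹)
    (fun hc => h ((cconj_iff r).mp hc)) (by rw [h1, hσ])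
  rw [← hσ] at hk1 hk2
  have c1 : Commute ((σ ^ k)⁻¹ * r) X := by
    show (σ ^ k)⁻¹ * r * X = X * ((σ ^ k)⁻¹ * r)
    have h2 : r * X = σ ^ k * X * (σ ^ k)⁻¹ * r := by rw [← hk1]; group
    rw [mul_assoc, h2]; group
  have c2 : Commute ((σ ^ k)⁻¹ * r) Y := by
    show (σ ^ k)⁻¹ * r * Y = Y * ((σ ^ k)⁻¹ * r)
    have h2 : r * Y = σ ^ k * Y * (σ ^ k)⁻¹ * r := by rw [← hk2]; group
    rw [mul_assoc, h2]; group
  have h3 : (σ ^ k)⁻¹ * r = 1 := by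
    by_contra h4
    exact h (commute_trans h4 c1 c2)
  have h4 : σ ^ k = r := inv_mul_eq_one.mp h3
  have hr1 : r ≠ 1 := by
    intro hr1
    apply hne
    rw [← hσ, e1, hr1, one_zpow]
  have h5 : r ^ (l * k - 1) = 1 := by
    rw [zpow_sub, zpow_mul, ← e1, h4]; group
  have h6 : l * k - 1 = 0 := (IsMulTorsionFree.zpow_eq_one_iff_right hr1).mp h5
  have h7 : l ∣ 1 := ⟨k, by linarith⟩
  exact Int.isUnit_iff.mp (isUnit_of_dvd_one h7)

theorem isRoot_rW {M : ℕ} (hM : 1000000 ≤ M) {X Y : FreeGroup α} (h : ¬ Commute X Y) :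
    IsRoot (rW M X Y) := by
  obtain ⟨ρ, n, hn, e, hρ⟩ := exists_root (rW_ne_one hM h)
  have h1 := pair_root hM h hρ (f := 1) (l := n) (by rw [e, zpow_natCast]; group)
  have h2 : n = 1 := by
    rcases h1 with h1 | h1 <;> omega
  rw [e, h2, pow_one]
  exact hρ

theorem pair_conj {M : ℕ} (hM : 1000000 ≤ M) {X Y X' Y' s f f' : FreeGroup α} {l l' : ℤ}
    (h : ¬ Commute X Y) (h' : ¬ Commute X' Y') (hs : IsRoot s)
    (e : rW M X Y = f * s ^ l * f⁻¹) (e' : rW M X' Y' = f' * s ^ l' * f'⁻¹) :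
    ∃ g, X' = g * X * g⁻¹ ∧ Y' = g * Y * g⁻¹ := by
  have hl := pair_root hM h hs e
  have hl' := pair_root hM h' hs e'
  obtain ⟨g, hg⟩ : ∃ g, g = f' * f⁻¹ := ⟨_, rfl⟩
  have hnc : ¬ Commute (g * X * g⁻¹) (g * Y * g⁻¹) := fun hc => h ((cconj_iff g).mp hc)
  have hgW : rW M (g * X * g⁻¹) (g * Y * g⁻¹) = f' * s ^ l * f'⁻¹ := by
    rw [conj_rW, e, hg]; group
  by_cases hll : l' = l
  · rw [hll, ← hgW] at e'
    obtain ⟨k, hk1, hk2⟩ := pair_eq hM hnc h' e'.symm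
    refine ⟨rW M (g * X * g⁻¹) (g * Y * g⁻¹) ^ k * g, ?_, ?_⟩
    · rw [hk1]; group
    · rw [hk2]; group
  · exfalso
    have h1 : l' = - l := by
      rcases hl with hl | hl <;> rcases hl' with hl' | hl' <;> omega
    apply pair_ne_inv hM h' hnc
    rw [e', hgW, h1]
    group

end Pool.Agent.H28.UE
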