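import Pool.Agent.H28.UE.TTop

set_option autoImplicit false

/-!
JOB UE-TR1b (a private vertex: the counting argument). Uses the statements of `TTop.lean`.

Let `m σ = d σ * tl σ`, `L_σ` a line of `σ` (`σ ∈ I`), so that `σ ^ d σ * L_σ k = L_σ (k + m σ)`.
`TV = {(σ, k) : σ ∈ I, k < m σ, VTop σ (L_σ k)}`,
`TE = {(σ, k) : σ ∈ I, k < m σ, ETop σ (L_σ k) (L_σ (k+1))}`. `TV ⊆ TE` (`VTop.edge`).
(a) every vertex on a line of the family is `j * L_σ k` for some `j ∈ J`, `(σ, k) ∈ TV`, and every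
edge `{x, y}` on a line is the translate (same or reversed orientation) of
`{L_σ k, L_σ (k+1)}` for some `(σ, k) ∈ TE` (take the top line `j σ j⁻¹` of `x`; then
`j⁻¹ x = L_σ k'` is top for `σ`, and reduce `k'` mod `m σ`).
(b) uniqueness: if `L_σ k = j L_σ' k'` with `(σ, k), (σ', k') ∈ TV` then `σ = j σ' j⁻¹`
(`VTop.unique`), so `σ = σ'` by `TSys.ineq`, `j = (σ ^ d σ) ^ n` (`Gen.stab`) and `k = k'`. The same
for edges in `TE` (also for the reversed orientation, which is impossible).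
(c) Suppose that every line has a vertex that is not top. Then for every `σ ∈ I` there is
`k < m σ` with `(σ, k) ∈ TE \ TV` (`VTop_line`; go from a non-top vertex to the next top
vertex; the edge before a top vertex is top). So `|TE| ≥ |TV| + |I|`.
(d) For `φ : TE → ℚ` let `g_φ x y = φ (σ, k)` if `(x, y) = j (L_σ k, L_σ (k+1))`, `= - φ (σ, k)` if
`(y, x) = j (L_σ k, L_σ (k+1))` for some `j ∈ J`, `(σ,k) ∈ TE`, and `0` otherwise. The linear map
`φ ↦ (pint g_φ (L_σ 0) (σ ^ d σ * L_σ 0))_σ` into `ℚ^I` has a kernel of dimension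
`≥ |TE| - |I|`. By `QQ` every `φ` in the kernel is of the form
`φ (σ, k) = F (L_σ (k+1)) - F (L_σ k)` with `F` invariant; `F` on the vertices of the lines is
determined by `F` on `TV`: `φ = Ψ (F|TV)` for the linear map `Ψ : (TV → ℚ) → (TE → ℚ)`,
`(Ψ G) (σ, k) = G (rep (L_σ (k+1))) - G (rep (L_σ k))`, which kills the constants. So the
dimension of the kernel is `≤ |TV| - 1` (`TV ≠ ∅` since `I ≠ ∅`, `VTop_line`). Contradiction.
(e) So there is `σ ∈ I` all of whose vertices are top; `private_of_all`.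
-/

namespace Pool.Agent.H28.UE

variable {α : Type*} [DecidableEq α]

section count

variable {lt : FreeGroup α → FreeGroup α → Prop} {J : Subgroup (FreeGroup α)} {s : FreeGroup α}
  {I : Finset (FreeGroup α)} {d : FreeGroup α → ℕ} {L : FreeGroup α → ℤ → FreeGroup α}

theorem line_per {σ : FreeGroup α} {l : ℤ → FreeGroup α} (hl : IsLine σ l) (d : ℕ) (n k : ℤ) :
    (σ ^ d) ^ n * l k = l (k + n * ((d * tl σ : ℕ) : ℤ)) := by
  have h : (σ ^ d) ^ n = σ ^ ((d : ℤ) * n) := by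
    rw [zpow_mul, zpow_natCast]
  rw [h, hl.zpow]
  congr 1
  push_cast
  ring

omit [DecidableEq α] in
theorem conj_pow_self (σ : FreeGroup α) (d : ℕ) (n : ℤ) :
    (σ ^ d) ^ n * σ * ((σ ^ d) ^ n)⁻¹ = σ := by
  have h : Commute ((σ ^ d) ^ n) σ := ((Commute.refl σ).pow_left d).zpow_left n
  rw [h.eq, mul_assoc, mul_inv_cancel, mul_one]

theorem VTop_per (hO : COrd (FreeGroup α) lt) (hS : TSys J s I d) {σ : FreeGroup α} (hσ : σ ∈ I)
    {l : ℤ → FreeGroup α} (hl : IsLine σ l) (n k : ℤ) :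
    VTop lt J I σ (l (k + n * ((d σ * tl σ : ℕ) : ℤ))) ↔ VTop lt J I σ (l k) := by
  have hj : (σ ^ d σ) ^ n ∈ J := J.zpow_mem (hS.gen σ hσ).mem n
  have h := VTop_smul (I := I) hO (τ := σ) (x := l k) hj
  rw [conj_pow_self, line_per hl] at h
  exact h

theorem ETop_per (hO : COrd (FreeGroup α) lt) (hS : TSys J s I d) {σ : FreeGroup α} (hσ : σ ∈ I)
    {l : ℤ → FreeGroup α} (hl : IsLine σ l) (n k k' : ℤ) :
    ETop lt J I σ (l (k + n * ((d σ * tl σ : ℕ) : ℤ))) (l (k' + n * ((d σ * tl σ : ℕ) : ℤ))) ↔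
      ETop lt J I σ (l k) (l k') := by
  have hj : (σ ^ d σ) ^ n ∈ J := J.zpow_mem (hS.gen σ hσ).mem n
  have h := ETop_smul (I := I) hO (τ := σ) (x := l k) (y := l k') hj
  rw [conj_pow_self, line_per hl, line_per hl] at h
  exact h

open Classical in
/-- the top vertices -/
noncomputable def TVf (lt : FreeGroup α → FreeGroup α → Prop) (J : Subgroup (FreeGroup α))
    (I : Finset (FreeGroup α)) (d : FreeGroup α → ℕ) (L : FreeGroup α → ℤ → FreeGroup α) :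
    Finset (Σ _ : FreeGroup α, ℤ) :=
  (I.sigma fun σ => Finset.Ico (0 : ℤ) ((d σ * tl σ : ℕ) : ℤ)).filter
    fun p => VTop lt J I p.1 (L p.1 p.2)

open Classical in
/-- the top edges -/
noncomputable def TEf (lt : FreeGroup α → FreeGroup α → Prop) (J : Subgroup (FreeGroup α))
    (I : Finset (FreeGroup α)) (d : FreeGroup α → ℕ) (L : FreeGroup α → ℤ → FreeGroup α) :
    Finset (Σ _ : FreeGroup α, ℤ) :=
  (I.sigma fun σ => Finset.Ico (0 : ℤ) ((d σ * tl σ : ℕ) : ℤ)).filter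
    fun p => ETop lt J I p.1 (L p.1 p.2) (L p.1 (p.2 + 1))

theorem mem_TVf {p : Σ _ : FreeGroup α, ℤ} : p ∈ TVf lt J I d L ↔
    (p.1 ∈ I ∧ 0 ≤ p.2 ∧ p.2 < ((d p.1 * tl p.1 : ℕ) : ℤ)) ∧ VTop lt J I p.1 (L p.1 p.2) := by
  classical
  unfold TVf
  rw [Finset.mem_filter, Finset.mem_sigma, Finset.mem_Ico]

theorem mem_TEf {p : Σ _ : FreeGroup α, ℤ} : p ∈ TEf lt J I d L ↔
    (p.1 ∈ I ∧ 0 ≤ p.2 ∧ p.2 < ((d p.1 * tl p.1 : ℕ) : ℤ)) ∧
      ETop lt J I p.1 (L p.1 p.2) (L p.1 (p.2 + 1)) := by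
  classical
  unfold TEf
  rw [Finset.mem_filter, Finset.mem_sigma, Finset.mem_Ico]

theorem TSys.m_pos (hs1 : s ≠ 1) (hS : TSys J s I d) {σ : FreeGroup α} (hσ : σ ∈ I) :
    0 < d σ * tl σ :=
  Nat.mul_pos (hS.gen σ hσ).pos (tl_pos (hS.ne_one hs1 hσ))

/-- every vertex on a line is a translate of a vertex in `TV` -/
theorem exists_rep (hO : COrd (FreeGroup α) lt) (hs : IsRoot s) (hs1 : s ≠ 1)
    (hS : TSys J s I d) (hL : ∀ σ ∈ I, IsLine σ (L σ)) {x : FreeGroup α}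
    (hx : (Thr J I x).Nonempty) :
    ∃ p ∈ TVf lt J I d L, ∃ j ∈ J, x = j * L p.1 p.2 := by
  obtain ⟨τ, hτ⟩ := exists_VTop hO hs hs1 hS hx
  obtain ⟨⟨j, hj, σ, hσ, rfl⟩, hxτ⟩ := hτ.1
  have h1 : j⁻¹ * x ∈ Ax σ := by
    rw [← mem_Ax_conj (f := j), mul_inv_cancel_left]
    exact hxτ
  rw [← (hL σ hσ).range] at h1
  obtain ⟨k, hk⟩ := h1
  have hx' : x = j * L σ k := by rw [hk, mul_inv_cancel_left]
  have h2 : VTop lt J I σ (L σ k) := by
    rw [hx'] at hτ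
    exact (VTop_smul hO hj).mp hτ
  have hm := hS.m_pos hs1 hσ
  set m : ℤ := ((d σ * tl σ : ℕ) : ℤ) with hmdef
  have hm' : 0 < m := by rw [hmdef]; exact_mod_cast hm
  have hk2 : k = k % m + (k / m) * m := by
    have := Int.emod_add_mul_ediv k m
    linarith [mul_comm m (k / m)]
  refine ⟨⟨σ, k % m⟩, mem_TVf.mpr ⟨⟨hσ, Int.emod_nonneg _ hm'.ne', Int.emod_lt_of_pos _ hm'⟩, ?_⟩,
    j * (σ ^ d σ) ^ (k / m), J.mul_mem hj (J.zpow_mem (hS.gen σ hσ).mem _), ?_⟩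
  · show VTop lt J I σ (L σ (k % m))
    rw [← VTop_per hO hS hσ (hL σ hσ) (k / m) (k % m), ← hmdef, ← hk2]
    exact h2
  · show x = j * (σ ^ d σ) ^ (k / m) * L σ (k % m)
    rw [mul_assoc, line_per (hL σ hσ), ← hmdef, ← hk2]
    exact hx'

/-- an edge that is top but whose first vertex is not top -/
theorem exists_edge_not_vertex (hO : COrd (FreeGroup α) lt) (hs : IsRoot s) (hs1 : s ≠ 1)
    (hS : TSys J s I d) (hL : ∀ σ ∈ I, IsLine σ (L σ)) {σ : FreeGroup α} (hσ : σ ∈ I)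
    (hn : ∃ x ∈ Ax σ, ¬ VTop lt J I σ x) :
    ∃ k : ℤ, (⟨σ, k⟩ : Σ _ : FreeGroup α, ℤ) ∈ TEf lt J I d L ∧
      (⟨σ, k⟩ : Σ _ : FreeGroup α, ℤ) ∉ TVf lt J I d L := by
  obtain ⟨x0, hx0, ht0⟩ := VTop_line hO hs hs1 hS hσ
  obtain ⟨x1, hx1, ht1⟩ := hn
  rw [← (hL σ hσ).range] at hx0 hx1
  obtain ⟨k0, rfl⟩ := hx0
  obtain ⟨k1, rfl⟩ := hx1
  have hm := hS.m_pos hs1 hσ
  have hper := VTop_per hO hS hσ (hL σ hσ)
  have hperE := ETop_per hO hS hσ (hL σ hσ)
  set m : ℤ := ((d σ * tl σ : ℕ) : ℤ) with hmdef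
  have hm' : 0 < m := by rw [hmdef]; exact_mod_cast hm
  -- a non-top vertex before `k0`
  obtain ⟨k2, hk2, hk2'⟩ : ∃ k2 : ℤ, k2 ≤ k0 ∧ ¬ VTop lt J I σ (L σ k2) := by
    refine ⟨k1 + (-|k1 - k0|) * m, ?_, ?_⟩
    · have h1 : k1 - k0 ≤ |k1 - k0| := le_abs_self _
      have h2 : |k1 - k0| * 1 ≤ |k1 - k0| * m := mul_le_mul_of_nonneg_left (by omega) (abs_nonneg _)
      linarith
    · rw [hper]
      exact ht1
  obtain ⟨k, hk3, hk4⟩ : ∃ k : ℤ, ¬ VTop lt J I σ (L σ k) ∧ VTop lt J I σ (L σ (k + 1)) := by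
    by_contra hc
    have hc' : ∀ k : ℤ, ¬ VTop lt J I σ (L σ k) → ¬ VTop lt J I σ (L σ (k + 1)) := by
      intro k h1 h2
      exact hc ⟨k, h1, h2⟩
    have h3 : ∀ n : ℕ, ¬ VTop lt J I σ (L σ (k2 + n)) := by
      intro n
      induction n with
      | zero => simpa using hk2'
      | succ n ih =>
        have := hc' _ ih
        rw [show k2 + ((n + 1 : ℕ) : ℤ) = k2 + n + 1 by push_cast; ring]
        exact this
    have h4 := h3 (k0 - k2).toNat
    rw [Int.toNat_of_nonneg (by omega), show k2 + (k0 - k2) = k0 by ring] at h4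
    exact h4 ht0
  have hE : ETop lt J I σ (L σ k) (L σ (k + 1)) := (hk4.edge ((hL σ hσ).mem k)).symm
  have hkm : k = k % m + (k / m) * m := by
    have := Int.emod_add_mul_ediv k m
    linarith [mul_comm m (k / m)]
  refine ⟨k % m, mem_TEf.mpr ⟨⟨hσ, Int.emod_nonneg _ hm'.ne', Int.emod_lt_of_pos _ hm'⟩, ?_⟩, ?_⟩
  · show ETop lt J I σ (L σ (k % m)) (L σ (k % m + 1))
    rw [← hperE (k / m), ← hkm, show k % m + 1 + k / m * m = k % m + k / m * m + 1 by ring, ← hkm]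
    exact hE
  · intro hc
    have h5 : VTop lt J I σ (L σ (k % m)) := (mem_TVf.mp hc).2
    rw [← hper (k / m), ← hkm] at h5
    exact hk3 h5

theorem TVf_subset (hL : ∀ σ ∈ I, IsLine σ (L σ)) : TVf lt J I d L ⊆ TEf lt J I d L := by
  intro p hp
  rw [mem_TVf] at hp
  rw [mem_TEf]
  exact ⟨hp.1, hp.2.edge ((hL p.1 hp.1.1).mem _)⟩

theorem card_TEf (hO : COrd (FreeGroup α) lt) (hs : IsRoot s) (hs1 : s ≠ 1)
    (hS : TSys J s I d) (hL : ∀ σ ∈ I, IsLine σ (L σ))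
    (hn : ∀ σ ∈ I, ∃ x ∈ Ax σ, ¬ VTop lt J I σ x) :
    (TVf lt J I d L).card + I.card ≤ (TEf lt J I d L).card := by
  classical
  choose! k hk1 hk2 using fun σ (hσ : σ ∈ I) => exists_edge_not_vertex hO hs hs1 hS hL hσ (hn σ hσ)
  have h1 : I.card ≤ (TEf lt J I d L \ TVf lt J I d L).card := by
    refine Finset.card_le_card_of_injOn (fun σ => (⟨σ, k σ⟩ : Σ _ : FreeGroup α, ℤ)) ?_ ?_
    · intro σ hσ
      rw [Finset.mem_coe] at hσ ⊢
      exact Finset.mem_sdiff.mpr ⟨hk1 σ hσ, hk2 σ hσ⟩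
    · intro σ _ σ' _ h
      exact congrArg Sigma.fst h
  have h2 := Finset.card_sdiff_add_card_eq_card (TVf_subset (lt := lt) (J := J) (d := d) hL)
  omega

/-- a representation of an oriented edge -/
def Rep (J : Subgroup (FreeGroup α)) (L : FreeGroup α → ℤ → FreeGroup α)
    (t : Σ _ : FreeGroup α, ℤ) (x y : FreeGroup α) : Prop :=
  ∃ j ∈ J, x = j * L t.1 t.2 ∧ y = j * L t.1 (t.2 + 1)

omit [DecidableEq α] in
theorem Rep_smul {t : Σ _ : FreeGroup α, ℤ} {j x y : FreeGroup α} (hj : j ∈ J) :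
    Rep J L t (j * x) (j * y) ↔ Rep J L t x y := by
  constructor
  · rintro ⟨i, hi, h1, h2⟩
    refine ⟨j⁻¹ * i, J.mul_mem (J.inv_mem hj) hi, ?_, ?_⟩
    · rw [mul_assoc, ← h1, inv_mul_cancel_left]
    · rw [mul_assoc, ← h2, inv_mul_cancel_left]
  · rintro ⟨i, hi, h1, h2⟩
    refine ⟨j * i, J.mul_mem hj hi, ?_, ?_⟩
    · rw [mul_assoc, ← h1]
    · rw [mul_assoc, ← h2]

theorem Rep.onL (hL : ∀ σ ∈ I, IsLine σ (L σ)) {t : Σ _ : FreeGroup α, ℤ} {x y : FreeGroup α}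
    (ht : t.1 ∈ I) (h : Rep J L t x y) : OnL J I x y := by
  obtain ⟨j, hj, rfl, rfl⟩ := h
  exact ⟨j, hj, t.1, ht, mem_Ax_conj.mpr ((hL _ ht).mem _), mem_Ax_conj.mpr ((hL _ ht).mem _)⟩

theorem Rep.eq (hO : COrd (FreeGroup α) lt) (hs : IsRoot s)
    (hS : TSys J s I d) (hL : ∀ σ ∈ I, IsLine σ (L σ)) {t t' : Σ _ : FreeGroup α, ℤ}
    (ht : t ∈ TEf lt J I d L) (ht' : t' ∈ TEf lt J I d L)
    (h : Rep J L t' (L t.1 t.2) (L t.1 (t.2 + 1))) : t = t' := by
  obtain ⟨j, hj, h1, h2⟩ := h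
  rw [mem_TEf] at ht ht'
  have h3 := (ETop_smul (I := I) hO hj).mpr ht'.2
  rw [← h1, ← h2] at h3
  have h4 := h3.unique hO ht.2
  have h5 := hS.ineq t'.1 ht'.1.1 t.1 ht.1.1 j hj h4
  obtain ⟨σ, k⟩ := t
  obtain ⟨σ', k'⟩ := t'
  simp only at h5
  subst h5
  have hσ : σ' ∈ I := ht.1.1
  obtain ⟨n, hn⟩ := (hS.gen σ' hσ).stab (hS.root hs hσ) hj h4
  have h6 : L σ' k = j * L σ' k' := h1
  rw [hn, line_per (hL σ' hσ)] at h6
  have h7 := (hL σ' hσ).inj h6
  have ha : 0 ≤ k := ht.1.2.1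
  have hb : k < ((d σ' * tl σ' : ℕ) : ℤ) := ht.1.2.2
  have ha' : 0 ≤ k' := ht'.1.2.1
  have hb' : k' < ((d σ' * tl σ' : ℕ) : ℤ) := ht'.1.2.2
  have hn0 : n = 0 := by
    have h8 : n * ((d σ' * tl σ' : ℕ) : ℤ) < 1 * ((d σ' * tl σ' : ℕ) : ℤ) := by linarith
    have h9 : (-1) * ((d σ' * tl σ' : ℕ) : ℤ) < n * ((d σ' * tl σ' : ℕ) : ℤ) := by linarith
    have hpos : (0 : ℤ) < ((d σ' * tl σ' : ℕ) : ℤ) := by linarith
    have h10 := lt_of_mul_lt_mul_right h8 hpos.le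
    have h11 := lt_of_mul_lt_mul_right h9 hpos.le
    omega
  rw [hn0, zero_mul, add_zero] at h7
  rw [h7]

theorem not_Rep_symm (hO : COrd (FreeGroup α) lt) (hs : IsRoot s)
    (hS : TSys J s I d) (hL : ∀ σ ∈ I, IsLine σ (L σ)) {t t' : Σ _ : FreeGroup α, ℤ}
    (ht : t ∈ TEf lt J I d L) (ht' : t' ∈ TEf lt J I d L) :
    ¬ Rep J L t' (L t.1 (t.2 + 1)) (L t.1 t.2) := by
  rintro ⟨j, hj, h1, h2⟩
  rw [mem_TEf] at ht ht'
  have h3 := (ETop_smul (I := I) hO hj).mpr ht'.2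
  rw [← h1, ← h2] at h3
  have h4 := h3.symm.unique hO ht.2
  have h5 := hS.ineq t'.1 ht'.1.1 t.1 ht.1.1 j hj h4
  obtain ⟨σ, k⟩ := t
  obtain ⟨σ', k'⟩ := t'
  simp only at h5
  subst h5
  have hσ : σ' ∈ I := ht.1.1
  obtain ⟨n, hn⟩ := (hS.gen σ' hσ).stab (hS.root hs hσ) hj h4
  have h6 : L σ' (k + 1) = j * L σ' k' := h1
  have h6' : L σ' k = j * L σ' (k' + 1) := h2
  rw [hn, line_per (hL σ' hσ)] at h6 h6'
  have h7 := (hL σ' hσ).inj h6
  have h7' := (hL σ' hσ).inj h6'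
  omega

open Classical in
/-- the cochain of an edge -/
noncomputable def aco (J : Subgroup (FreeGroup α)) (L : FreeGroup α → ℤ → FreeGroup α)
    (t : Σ _ : FreeGroup α, ℤ) (x y : FreeGroup α) : ℚ :=
  (if Rep J L t x y then 1 else 0) - (if Rep J L t y x then 1 else 0)

/-- the cochain of a function on the edges -/
noncomputable def gco (J : Subgroup (FreeGroup α)) (L : FreeGroup α → ℤ → FreeGroup α)
    (T : Finset (Σ _ : FreeGroup α, ℤ)) (φ : T → ℚ) (x y : FreeGroup α) : ℚ :=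
  ∑ t : T, φ t * aco J L t.1 x y

omit [DecidableEq α] in
theorem aco_anti (t : Σ _ : FreeGroup α, ℤ) (x y : FreeGroup α) :
    aco J L t y x = - aco J L t x y := by
  unfold aco
  rw [neg_sub]

omit [DecidableEq α] in
theorem aco_smul {t : Σ _ : FreeGroup α, ℤ} {j x y : FreeGroup α} (hj : j ∈ J) :
    aco J L t (j * x) (j * y) = aco J L t x y := by
  unfold aco
  rw [Rep_smul hj, Rep_smul hj]

theorem gco_anti (T : Finset (Σ _ : FreeGroup α, ℤ)) (φ : T → ℚ) : Anti (gco J L T φ) := by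
  intro x y _
  unfold gco
  rw [← Finset.sum_neg_distrib]
  refine Finset.sum_congr rfl fun t _ => ?_
  rw [aco_anti, mul_neg]

omit [DecidableEq α] in
theorem gco_smul (T : Finset (Σ _ : FreeGroup α, ℤ)) (φ : T → ℚ) {j x y : FreeGroup α}
    (hj : j ∈ J) : gco J L T φ (j * x) (j * y) = gco J L T φ x y := by
  unfold gco
  refine Finset.sum_congr rfl fun t _ => ?_
  rw [aco_smul hj]

omit [DecidableEq α] in
theorem gco_add (T : Finset (Σ _ : FreeGroup α, ℤ)) (φ ψ : T → ℚ) (x y : FreeGroup α) :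
    gco J L T (φ + ψ) x y = gco J L T φ x y + gco J L T ψ x y := by
  unfold gco
  rw [← Finset.sum_add_distrib]
  refine Finset.sum_congr rfl fun t _ => ?_
  rw [Pi.add_apply, add_mul]

omit [DecidableEq α] in
theorem gco_mul (T : Finset (Σ _ : FreeGroup α, ℤ)) (c : ℚ) (φ : T → ℚ) (x y : FreeGroup α) :
    gco J L T (c • φ) x y = c * gco J L T φ x y := by
  unfold gco
  rw [Finset.mul_sum]
  refine Finset.sum_congr rfl fun t _ => ?_
  rw [Pi.smul_apply, smul_eq_mul, mul_assoc]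

theorem gco_off (hL : ∀ σ ∈ I, IsLine σ (L σ)) (φ : TEf lt J I d L → ℚ) {x y : FreeGroup α}
    (h : ¬ OnL J I x y) : gco J L (TEf lt J I d L) φ x y = 0 := by
  unfold gco
  refine Finset.sum_eq_zero fun t _ => ?_
  have ht : t.1.1 ∈ I := (mem_TEf.mp t.2).1.1
  have h1 : ¬ Rep J L t.1 x y := fun hc => h (hc.onL hL ht)
  have h2 : ¬ Rep J L t.1 y x := fun hc => h (hc.onL hL ht).symm
  unfold aco
  rw [if_neg h1, if_neg h2, sub_zero, mul_zero]

theorem gco_edge (hO : COrd (FreeGroup α) lt) (hs : IsRoot s)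
    (hS : TSys J s I d) (hL : ∀ σ ∈ I, IsLine σ (L σ)) (φ : TEf lt J I d L → ℚ)
    (t : TEf lt J I d L) :
    gco J L (TEf lt J I d L) φ (L t.1.1 t.1.2) (L t.1.1 (t.1.2 + 1)) = φ t := by
  unfold gco
  rw [Finset.sum_eq_single t]
  · have h1 : Rep J L t.1 (L t.1.1 t.1.2) (L t.1.1 (t.1.2 + 1)) :=
      ⟨1, J.one_mem, (one_mul _).symm, (one_mul _).symm⟩
    unfold aco
    rw [if_pos h1, if_neg (not_Rep_symm hO hs hS hL t.2 t.2), sub_zero, mul_one]
  · intro t' _ hne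
    have h1 : ¬ Rep J L t'.1 (L t.1.1 t.1.2) (L t.1.1 (t.1.2 + 1)) := by
      intro hc
      exact hne (Subtype.ext (Rep.eq hO hs hS hL t.2 t'.2 hc).symm)
    unfold aco
    rw [if_neg h1, if_neg (not_Rep_symm hO hs hS hL t.2 t'.2), sub_zero, mul_zero]
  · intro h
    exact absurd (Finset.mem_univ _) h

/-- the integrals over the elements `σ ^ d σ` -/
noncomputable def Pmap (J : Subgroup (FreeGroup α)) (I : Finset (FreeGroup α))
    (d : FreeGroup α → ℕ) (L : FreeGroup α → ℤ → FreeGroup α)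
    (T : Finset (Σ _ : FreeGroup α, ℤ)) : (T → ℚ) →ₗ[ℚ] (I → ℚ) where
  toFun φ σ := pint (gco J L T φ) (L σ.1 0) (σ.1 ^ d σ.1 * L σ.1 0)
  map_add' := by
    intro φ ψ
    funext σ
    rw [Pi.add_apply, ← pint_add_fun]
    congr 1
    funext x y
    exact gco_add T φ ψ x y
  map_smul' := by
    intro c φ
    funext σ
    have h := pint_map (AddMonoidHom.mulLeft c) (gco J L T φ) (L σ.1 0)
      (σ.1 ^ d σ.1 * L σ.1 0)
    show pint (gco J L T (c • φ)) (L σ.1 0) (σ.1 ^ d σ.1 * L σ.1 0) =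
      c * pint (gco J L T φ) (L σ.1 0) (σ.1 ^ d σ.1 * L σ.1 0)
    rw [AddMonoidHom.coe_mulLeft] at h
    rw [← h]
    congr 1
    funext x y
    exact gco_mul T c φ x y

/-- the differences of a function -/
def Dmap {V T : Type*} (r1 r2 : T → V) : (V → ℚ) →ₗ[ℚ] (T → ℚ) where
  toFun G t := G (r2 t) - G (r1 t)
  map_add' := by
    intro G G'
    funext t
    simp only [Pi.add_apply]
    ring
  map_smul' := by
    intro c G
    funext t
    simp only [Pi.smul_apply, smul_eq_mul, RingHom.id_apply]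
    ring

theorem finrank_Dmap {V T : Type*} [Fintype V] [Nonempty V] [Fintype T] (r1 r2 : T → V) :
    Module.finrank ℚ (LinearMap.range (Dmap r1 r2)) + 1 ≤ Fintype.card V := by
  have h1 := LinearMap.finrank_range_add_finrank_ker (Dmap r1 r2)
  rw [Module.finrank_fintype_fun_eq_card] at h1
  have h2 : 0 < Module.finrank ℚ (LinearMap.ker (Dmap r1 r2)) := by
    rw [Module.finrank_pos_iff]
    refine ⟨⟨(fun _ => 1 : V → ℚ), ?_⟩, 0, ?_⟩
    · rw [LinearMap.mem_ker]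
      funext t
      show (1 : ℚ) - 1 = 0
      ring
    · intro h
      have h3 := congrFun (congrArg Subtype.val h) (Classical.arbitrary V)
      exact one_ne_zero h3
  omega

end count

theorem exists_all_top {lt : FreeGroup α → FreeGroup α → Prop} (hO : COrd (FreeGroup α) lt)
    {J : Subgroup (FreeGroup α)} {s : FreeGroup α} (hs : IsRoot s) (hs1 : s ≠ 1)
    {I : Finset (FreeGroup α)} {d : FreeGroup α → ℕ} (hS : TSys J s I d) (hI : I.Nonempty)
    (hQ : QQ J I d) : ∃ σ ∈ I, ∀ x ∈ Ax σ, VTop lt J I σ x := by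
  classical
  by_contra hcon
  have hn : ∀ σ ∈ I, ∃ x ∈ Ax σ, ¬ VTop lt J I σ x := by
    intro σ hσ
    by_contra hc
    apply hcon
    refine ⟨σ, hσ, fun x hx => ?_⟩
    by_contra hc'
    exact hc ⟨x, hx, hc'⟩
  have hex : ∀ σ : FreeGroup α, ∃ l : ℤ → FreeGroup α, σ ∈ I → IsLine σ l := by
    intro σ
    by_cases hσ : σ ∈ I
    · obtain ⟨l, hl⟩ := exists_line (hS.ne_one hs1 hσ)
      exact ⟨l, fun _ => hl⟩
    · exact ⟨fun _ => 1, fun h => absurd h hσ⟩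
  choose L hL using hex
  have hcard := card_TEf (L := L) hO hs hs1 hS hL hn
  set TV := TVf lt J I d L with hTV
  set TE := TEf lt J I d L with hTE
  -- representatives of the vertices of the lines
  have hrep : ∀ (t : TE) (e : ℤ), ∃ p : TV, ∃ j ∈ J, L t.1.1 (t.1.2 + e) = j * L p.1.1 p.1.2 := by
    intro t e
    have htI : t.1.1 ∈ I := (mem_TEf.mp t.2).1.1
    have hne : (Thr J I (L t.1.1 (t.1.2 + e))).Nonempty := by
      refine ⟨t.1.1, ⟨1, J.one_mem, t.1.1, htI, ?_⟩, (hL _ htI).mem _⟩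
      rw [one_mul, inv_one, mul_one]
    obtain ⟨p, hp, j, hj, h⟩ := exists_rep (L := L) hO hs hs1 hS hL hne
    exact ⟨⟨p, hp⟩, j, hj, h⟩
  have hTVne : Nonempty TV := by
    obtain ⟨σ, hσ⟩ := hI
    have hne : (Thr J I (L σ 0)).Nonempty := by
      refine ⟨σ, ⟨1, J.one_mem, σ, hσ, ?_⟩, (hL _ hσ).mem _⟩
      rw [one_mul, inv_one, mul_one]
    obtain ⟨p, hp, _⟩ := exists_rep (L := L) hO hs hs1 hS hL hne
    exact ⟨⟨p, hp⟩⟩
  choose r j hj hr using hrep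
  -- the kernel of `P` is in the range of the difference map
  have hker : LinearMap.ker (Pmap J I d L TE) ≤
      LinearMap.range (Dmap (fun t : TE => r t 0) (fun t : TE => r t 1)) := by
    intro φ hφ
    rw [LinearMap.mem_ker] at hφ
    have hinv : ∀ i ∈ J, ∀ x y, D x y = 1 → gco J L TE φ (i * x) (i * y) = gco J L TE φ x y :=
      fun i hi x y _ => gco_smul TE φ hi
    obtain ⟨F, hF1, hF2⟩ := hQ (gco J L TE φ) (gco_anti TE φ) hinv
      (fun x y _ h => gco_off hL φ h) (by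
        intro σ hσ x hx
        have h0 : pint (gco J L TE φ) (L σ 0) (σ ^ d σ * L σ 0) = 0 := congrFun hφ ⟨σ, hσ⟩
        have hmem := (hS.gen σ hσ).mem
        have h1 := pint_smul (g := gco J L TE φ) (j := σ ^ d σ) (hinv _ hmem) (L σ 0) x
        have h2 := pint_add (gco J L TE φ) x (L σ 0) (σ ^ d σ * x)
        have h3 := pint_add (gco J L TE φ) (L σ 0) (σ ^ d σ * L σ 0) (σ ^ d σ * x)
        have h4 := pint_add (gco J L TE φ) x (L σ 0) x
        rw [pint_self] at h4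
        linarith)
    refine ⟨fun p => F (L p.1.1 p.1.2), ?_⟩
    funext t
    show F (L (r t 1).1.1 (r t 1).1.2) - F (L (r t 0).1.1 (r t 0).1.2) = φ t
    have htI : t.1.1 ∈ I := (mem_TEf.mp t.2).1.1
    have h1 : F (L t.1.1 (t.1.2 + 1)) = F (L (r t 1).1.1 (r t 1).1.2) := by
      rw [hr t 1, hF1 _ (hj t 1)]
    have h2 : F (L t.1.1 (t.1.2 + 0)) = F (L (r t 0).1.1 (r t 0).1.2) := by
      rw [hr t 0, hF1 _ (hj t 0)]
    rw [add_zero] at h2
    rw [← h1, ← h2, ← gco_edge hO hs hS hL φ t]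
    refine (hF2 _ _ ?_ ?_).symm
    · rw [(hL _ htI).iso]
      have : t.1.2 - (t.1.2 + 1) = -1 := by ring
      rw [this]
      rfl
    · refine ⟨1, J.one_mem, t.1.1, htI, ?_, ?_⟩
      · rw [one_mul, inv_one, mul_one]
        exact (hL _ htI).mem _
      · rw [one_mul, inv_one, mul_one]
        exact (hL _ htI).mem _
  have h1 := LinearMap.finrank_range_add_finrank_ker (Pmap J I d L TE)
  rw [Module.finrank_fintype_fun_eq_card, Fintype.card_coe] at h1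
  have h2 : Module.finrank ℚ (LinearMap.range (Pmap J I d L TE)) ≤ I.card := by
    have := Submodule.finrank_le (LinearMap.range (Pmap J I d L TE))
    rw [Module.finrank_fintype_fun_eq_card, Fintype.card_coe] at this
    exact this
  have h3 := Submodule.finrank_mono hker
  have h4 := finrank_Dmap (fun t : TE => r t 0) (fun t : TE => r t 1)
  rw [Fintype.card_coe] at h4
  omega

theorem exists_private {lt : FreeGroup α → FreeGroup α → Prop} (hO : COrd (FreeGroup α) lt)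
    {J : Subgroup (FreeGroup α)} {s : FreeGroup α} (hs : IsRoot s) (hs1 : s ≠ 1)
    {I : Finset (FreeGroup α)} {d : FreeGroup α → ℕ} (hS : TSys J s I d) (hI : I.Nonempty)
    (hQ : QQ J I d) :
    ∃ σ ∈ I, ∃ x ∈ Ax σ, ∀ j ∈ J, ∀ σ' ∈ I, x ∈ Ax (j * σ' * j⁻¹) → j * σ' * j⁻¹ = σ := by
  obtain ⟨σ, hσ, h⟩ := exists_all_top hO hs hs1 hS hI hQ
  obtain ⟨x, hx, h'⟩ := private_of_all hO hs hs1 hS hσ h
  exact ⟨σ, hσ, x, hx, fun j hj σ' hσ' hx' => h' _ ⟨⟨j, hj, σ', hσ', rfl⟩, hx'⟩⟩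

end Pool.Agent.H28.UE
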