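import Pool.Agent.H28.UE.Private

set_option autoImplicit false

/-!
JOB UE-TR2 (solving for the values of a homomorphism on the `σ ^ d σ`).

`cross`: let `σ ∈ I`, `x ∈ Ax σ` be private (conclusion of `exists_private`), `L` a line of `σ` with
`L 0 = x`, `y = L 1`. `e x' y' = 1` if `(x', y') = j (x, y)` for some `j ∈ J`, `-1` if
`(y', x') = j (x, y)`, `0` otherwise: an antisymmetric `J`-invariant function with integer values
(`J` has no inversions). `pint e z (σ ^ d σ z) = 1` for `z ∈ Ax σ`: by `pint_line` it is the sum over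
`k < d σ * tl σ` of `e (L k) (L (k+1))`; the term `k = 0` is `1` and the others vanish: if
`(L k, L (k+1)) = j (x, y)` or `j (y, x)` then `x ∈ Ax (j⁻¹ σ j)` (`j x = L k` or `L (k+1)`), hence
`j⁻¹ σ j = σ`, `j = (σ ^ d σ) ^ n` (`Gen.stab`), so `k ≡ 0` mod `d σ * tl σ` (and the reversed
orientation is impossible). The values on the edges of the lines of `I.erase σ` are `0`.
`solve`: induction on `I.card`.
`I = ∅`: trivial. Otherwise take `σ`, `x` from `exists_private` and the function `e` of `cross`.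
`QQ J (I.erase σ) d`: given `g` for `I.erase σ` let `β = pint g z (σ ^ d σ z)` (`z ∈ Ax σ`, does not
depend on `z`) and `g' = g - β e`; `g'` satisfies the hypotheses of `QQ J I d` (on the lines of
`I.erase σ` we have `g' = g`, in particular `pint g' z (σ' ^ d σ' z) = pint g z (σ' ^ d σ' z) = 0`),
so `g' = F y - F x` on the lines of `I`, and `g = g'` on the lines of `I.erase σ`.
Given `b`, take `λ'` for `I.erase σ` by induction and add `(b σ - λ' (σ ^ d σ))` times the
homomorphism of `e` (`pint_hom`), which is `1` on `σ ^ d σ` and `0` on the other `σ' ^ d σ'`.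
-/

namespace Pool.Agent.H28.UE

variable {α : Type*} [DecidableEq α]

/-- the integral over a period does not depend on the base point -/
private theorem so_indep {A : Type*} [AddCommGroup A] {J : Subgroup (FreeGroup α)}
    {g : FreeGroup α → FreeGroup α → A}
    (hJ : ∀ j ∈ J, ∀ x y, D x y = 1 → g (j * x) (j * y) = g x y)
    {t : FreeGroup α} (ht : t ∈ J) (z z' : FreeGroup α) :
    pint g z (t * z) = pint g z' (t * z') := by
  have h1 : pint g (t * z') (t * z) = pint g z' z := pint_smul (hJ t ht) z' z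
  have h2 := pint_add g z z' (t * z')
  have h3 := pint_add g z (t * z') (t * z)
  have h4 := pint_add g z z' z
  have h5 := pint_self g z
  rw [h1] at h3
  rw [← h3, ← h2]
  rw [h5] at h4
  have h6 : pint g z z' = - pint g z' z := eq_neg_of_add_eq_zero_left h4
  rw [h6]; abel

private theorem so_sq {h : FreeGroup α} (hh : h * h = 1) : h = 1 := by
  by_contra hne
  have h1 := tl_pos hne
  have h2 := tl_pow h 2
  rw [pow_two, hh] at h2
  have h3 := tl_le (1 : FreeGroup α) 1
  rw [mul_one, D_self] at h3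
  omega

/-- the integral vanishes if the function vanishes on all edges of the axis -/
private theorem so_pint_zero {A : Type*} [AddCommGroup A]
    {g : FreeGroup α → FreeGroup α → A} (hg : Anti g) {t : FreeGroup α} (ht : t ≠ 1) (n : ℕ)
    (h0 : ∀ x y, D x y = 1 → x ∈ Ax t → y ∈ Ax t → g x y = 0) {z : FreeGroup α}
    (hz : z ∈ Ax t) : pint g z (t ^ n * z) = 0 := by
  obtain ⟨L, hL⟩ := exists_line ht
  rw [← hL.range] at hz
  obtain ⟨i, rfl⟩ := hz
  have h1 : t ^ n * L i = L (i + ((n * tl t : ℕ) : ℤ)) := by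
    have := hL.zpow (n : ℤ) i
    rw [zpow_natCast] at this
    rw [this]; push_cast; rfl
  rw [h1, pint_line hg hL.iso]
  apply Finset.sum_eq_zero
  intro k _
  apply h0 _ _ _ (hL.mem _) (hL.mem _)
  rw [hL.iso]; omega

theorem cross {J : Subgroup (FreeGroup α)} {s : FreeGroup α} (hs : IsRoot s) (hs1 : s ≠ 1)
    {I : Finset (FreeGroup α)} {d : FreeGroup α → ℕ} (hS : TSys J s I d)
    {σ x : FreeGroup α} (hσ : σ ∈ I) (hx : x ∈ Ax σ)
    (hp : ∀ j ∈ J, ∀ σ' ∈ I, x ∈ Ax (j * σ' * j⁻¹) → j * σ' * j⁻¹ = σ) :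
    ∃ e : FreeGroup α → FreeGroup α → ℤ, Anti e ∧
      (∀ j ∈ J, ∀ x y, D x y = 1 → e (j * x) (j * y) = e x y) ∧
      (∀ x y, D x y = 1 → ¬ OnL J {σ} x y → e x y = 0) ∧
      (∀ x y, D x y = 1 → OnL J (I.erase σ) x y → e x y = 0) ∧
      ∀ z ∈ Ax σ, pint e z (σ ^ d σ * z) = 1 := by
  classical
  have hσ1 : σ ≠ 1 := hS.ne_one hs1 hσ
  have hσr : IsRoot σ := hS.root hs hσ
  have hgen := hS.gen σ hσ
  obtain ⟨L0, hL0⟩ := exists_line hσ1
  have hx0 := hx
  rw [← hL0.range] at hx0
  obtain ⟨c, hc⟩ := hx0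
  have hL := hL0.shift c
  set L : ℤ → FreeGroup α := fun i => L0 (i + c) with hLdef
  have hLx : L 0 = x := by simp only [hLdef, zero_add]; exact hc
  set y := L 1 with hy
  have hyA : y ∈ Ax σ := hL.mem 1
  have hxy : D x y = 1 := by rw [← hLx, hy, hL.iso]; rfl
  -- the two conditions
  let P : FreeGroup α → FreeGroup α → Prop := fun a b => ∃ j ∈ J, a = j * x ∧ b = j * y
  have hPex : ∀ a b, P a b → ¬ P b a := by
    rintro a b ⟨j, hj, rfl, rfl⟩ ⟨j', hj', h1, h2⟩
    have h3 : (j⁻¹ * j') * x = y := by rw [mul_assoc, ← h1, inv_mul_cancel_left]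
    have h4 : (j⁻¹ * j') * y = x := by rw [mul_assoc, ← h2, inv_mul_cancel_left]
    have h5 : (j⁻¹ * j') * (j⁻¹ * j') = 1 := by
      have : (j⁻¹ * j') * (j⁻¹ * j') * x = 1 * x := by
        rw [mul_assoc, h3, h4, one_mul]
      exact mul_right_cancel this
    have h6 := so_sq h5
    rw [h6, one_mul] at h3
    rw [h3, D_self] at hxy
    omega
  have hPJ : ∀ j ∈ J, ∀ a b, P (j * a) (j * b) ↔ P a b := by
    intro j hj a b
    constructor
    · rintro ⟨k, hk, h1, h2⟩
      refine ⟨j⁻¹ * k, J.mul_mem (J.inv_mem hj) hk, ?_, ?_⟩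
      · rw [mul_assoc, ← h1, inv_mul_cancel_left]
      · rw [mul_assoc, ← h2, inv_mul_cancel_left]
    · rintro ⟨k, hk, h1, h2⟩
      exact ⟨j * k, J.mul_mem hj hk, by rw [h1, mul_assoc], by rw [h2, mul_assoc]⟩
  have hPon : ∀ a b, P a b → OnL J {σ} a b := by
    rintro a b ⟨j, hj, rfl, rfl⟩
    exact ⟨j, hj, σ, Finset.mem_singleton_self _, mem_Ax_conj.mpr hx, mem_Ax_conj.mpr hyA⟩
  have hPoff : ∀ a b, P a b → OnL J (I.erase σ) a b → False := by
    rintro a b ⟨j, hj, rfl, rfl⟩ ⟨k, hk, σ', hσ', h1, _⟩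
    have h2 : x ∈ Ax ((j⁻¹ * k) * σ' * (j⁻¹ * k)⁻¹) := by
      have h3 : j⁻¹ * (j * x) ∈ Ax (j⁻¹ * (k * σ' * k⁻¹) * (j⁻¹)⁻¹) := mem_Ax_conj.mpr h1
      rw [inv_mul_cancel_left] at h3
      have h4 : j⁻¹ * (k * σ' * k⁻¹) * (j⁻¹)⁻¹ = (j⁻¹ * k) * σ' * (j⁻¹ * k)⁻¹ := by group
      rwa [h4] at h3
    have h5 := hp _ (J.mul_mem (J.inv_mem hj) hk) σ' (Finset.mem_of_mem_erase hσ') h2
    have h6 := hS.ineq σ' (Finset.mem_of_mem_erase hσ') σ hσ _ (J.mul_mem (J.inv_mem hj) hk) h5
    exact Finset.ne_of_mem_erase hσ' h6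
  let e : FreeGroup α → FreeGroup α → ℤ := fun a b => if P a b then 1 else if P b a then -1 else 0
  have heA : Anti e := by
    intro a b _
    show (if P b a then (1 : ℤ) else if P a b then -1 else 0) =
      - (if P a b then (1 : ℤ) else if P b a then -1 else 0)
    by_cases h1 : P a b
    · rw [if_neg (hPex a b h1), if_pos h1, if_pos h1]
    · by_cases h2 : P b a
      · rw [if_pos h2, if_neg h1, if_pos h2]; rfl
      · rw [if_neg h2, if_neg h1, if_neg h1, if_neg h2]; rfl
  have heJ : ∀ j ∈ J, ∀ a b, D a b = 1 → e (j * a) (j * b) = e a b := by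
    intro j hj a b _
    show (if P (j * a) (j * b) then (1 : ℤ) else if P (j * b) (j * a) then -1 else 0) =
      (if P a b then (1 : ℤ) else if P b a then -1 else 0)
    simp only [hPJ j hj]
  refine ⟨e, heA, heJ, ?_, ?_, ?_⟩
  · intro a b _ hn
    show (if P a b then (1 : ℤ) else if P b a then -1 else 0) = 0
    rw [if_neg (fun h => hn (hPon a b h)), if_neg (fun h => hn (hPon b a h).symm)]
  · intro a b _ hn
    show (if P a b then (1 : ℤ) else if P b a then -1 else 0) = 0
    rw [if_neg (fun h => hPoff a b h hn), if_neg (fun h => hPoff b a h hn.symm)]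
  · intro z hz
    rw [so_indep heJ hgen.mem z (L 0)]
    have htl := tl_pos hσ1
    have hd := hgen.pos
    set m := d σ * tl σ with hm
    have hm0 : 0 < m := Nat.mul_pos hd htl
    have h1 : σ ^ d σ * L 0 = L (0 + ((m : ℕ) : ℤ)) := by
      have := hL.zpow (d σ : ℤ) 0
      rw [zpow_natCast] at this
      rw [this, hm]; push_cast; rfl
    have hstab : ∀ j ∈ J, j * x ∈ Ax σ → ∃ k : ℤ, ∀ i : ℤ, j * L i = L (i + k * m) := by
      intro j hj hjx
      have h2 : x ∈ Ax (j⁻¹ * σ * (j⁻¹)⁻¹) := by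
        have := (mem_Ax_conj (f := j⁻¹) (g := σ) (x := j * x)).mpr hjx
        rwa [inv_mul_cancel_left] at this
      have h3 := hp _ (J.inv_mem hj) σ hσ h2
      obtain ⟨k, hk⟩ := hgen.stab hσr (J.inv_mem hj) h3
      refine ⟨-k, fun i => ?_⟩
      have h4 : j = σ ^ ((d σ : ℤ) * (-k)) := by
        rw [zpow_mul, zpow_natCast, zpow_neg, ← hk, inv_inv]
      rw [h4, hL.zpow]
      congr 1
      rw [hm]; push_cast; ring
    rw [h1, pint_line heA hL.iso]
    rw [Finset.sum_eq_single 0]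
    · have h2 : L ((0 : ℤ) + ((0 : ℕ) : ℤ)) = x := by
        simpa using hLx
      have h3 : L ((0 : ℤ) + ((0 : ℕ) : ℤ) + 1) = y := by
        simp [hy]
      rw [h2, h3]
      show (if P x y then (1 : ℤ) else if P y x then -1 else 0) = 1
      rw [if_pos ⟨1, J.one_mem, (one_mul _).symm, (one_mul _).symm⟩]
    · intro k hk hk0
      have hkm := Finset.mem_range.mp hk
      show (if P (L (0 + (k : ℤ))) (L (0 + (k : ℤ) + 1)) then (1 : ℤ) else
        if P (L (0 + (k : ℤ) + 1)) (L (0 + (k : ℤ))) then -1 else 0) = 0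
      rw [if_neg, if_neg]
      · rintro ⟨j, hj, h2, h3⟩
        obtain ⟨q, hq⟩ := hstab j hj (by rw [← h2]; exact hL.mem _)
        rw [← hLx, hq] at h2
        rw [hy, hq] at h3
        have h4 := hL.inj h2
        have h5 := hL.inj h3
        omega
      · rintro ⟨j, hj, h2, _⟩
        obtain ⟨q, hq⟩ := hstab j hj (by rw [← h2]; exact hL.mem _)
        rw [← hLx, hq] at h2
        have h4 := hL.inj h2
        have h5 : (k : ℤ) = q * m := by linarith
        have h6 : (0 : ℤ) < q := by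
          by_contra hle
          push Not at hle
          have : q * (m : ℤ) ≤ 0 := mul_nonpos_of_nonpos_of_nonneg hle (by positivity)
          omega
        have h7 : (m : ℤ) ≤ q * m := by nlinarith
        omega
    · intro h
      exact absurd (Finset.mem_range.mpr hm0) h

theorem solve {lt : FreeGroup α → FreeGroup α → Prop} (hO : COrd (FreeGroup α) lt)
    {J : Subgroup (FreeGroup α)} {s : FreeGroup α} (hs : IsRoot s) (hs1 : s ≠ 1)
    {d : FreeGroup α → ℕ} : ∀ (n : ℕ) (I : Finset (FreeGroup α)), I.card = n → TSys J s I d →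
    QQ J I d → ∀ b : FreeGroup α → ℤ, ∃ f : J →* Multiplicative ℤ,
      ∀ σ ∈ I, ∀ h : σ ^ d σ ∈ J, f ⟨σ ^ d σ, h⟩ = Multiplicative.ofAdd (b σ) := by
  classical
  intro n
  induction n with
  | zero =>
    intro I hI _ _ b
    refine ⟨1, fun σ hσ => ?_⟩
    rw [Finset.card_eq_zero] at hI
    rw [hI] at hσ
    exact absurd hσ (Finset.notMem_empty _)
  | succ n ih =>
    intro I hI hS hQ b
    have hne : I.Nonempty := by
      rw [← Finset.card_pos]; omega
    obtain ⟨σ, hσ, x, hx, hp⟩ := exists_private hO hs hs1 hS hne hQ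
    obtain ⟨e, heA, heJ, he1, he2, he3⟩ := cross hs hs1 hS hσ hx hp
    have hS' : TSys J s (I.erase σ) d := hS.subset (Finset.erase_subset _ _)
    -- the integral of `e` over the other lines
    have he0 : ∀ σ' ∈ I, σ' ≠ σ → ∀ z ∈ Ax σ', pint e z (σ' ^ d σ' * z) = 0 := by
      intro σ' hσ' hne' z hz
      apply so_pint_zero heA (hS.ne_one hs1 hσ') _ _ hz
      intro a b' hab ha hb
      apply he2 a b' hab
      refine ⟨1, J.one_mem, σ', Finset.mem_erase.mpr ⟨hne', hσ'⟩, ?_, ?_⟩
      · simpa using ha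
      · simpa using hb
    have hQ' : QQ J (I.erase σ) d := by
      intro g hgA hgJ hg1 hg2
      obtain ⟨z0, hz0⟩ := Ax_nonempty σ
      set β : ℚ := pint g z0 (σ ^ d σ * z0) with hβ
      let φ : ℤ →+ ℚ := (AddMonoidHom.mulLeft (-β)).comp (Int.castAddHom ℚ)
      have hφ : ∀ t : ℤ, φ t = -β * (t : ℚ) := fun t => rfl
      let g' : FreeGroup α → FreeGroup α → ℚ := fun a b' => g a b' + φ (e a b')
      have hg' : ∀ a b', g' a b' = g a b' + φ (e a b') := fun a b' => rfl
      have hpint : ∀ a b', pint g' a b' = pint g a b' + φ (pint e a b') := by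
        intro a b'
        have h1 := pint_add_fun g (fun a b' => φ (e a b')) a b'
        rw [pint_map φ e a b'] at h1
        exact h1
      have k1 : Anti g' := by
        intro a b' hab
        rw [hg', hg', hgA a b' hab, heA a b' hab, map_neg]; ring
      have k2 : ∀ j ∈ J, ∀ x y, D x y = 1 → g' (j * x) (j * y) = g' x y := by
        intro j hj a b' hab
        rw [hg', hg', hgJ j hj a b' hab, heJ j hj a b' hab]
      have k3 : ∀ x y, D x y = 1 → ¬ OnL J I x y → g' x y = 0 := by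
        intro a b' hab hon
        rw [hg', hg1 a b' hab (fun h => hon (h.mono (Finset.erase_subset _ _))),
          he1 a b' hab (fun h => hon (h.mono (Finset.singleton_subset_iff.mpr hσ))),
          map_zero, add_zero]
      have k4 : ∀ σ' ∈ I, ∀ x ∈ Ax σ', pint g' x (σ' ^ d σ' * x) = 0 := by
        intro σ' hσ' z hz
        rw [hpint]
        by_cases hσσ : σ' = σ
        · subst hσσ
          rw [he3 z hz, so_indep hgJ (hS.gen σ' hσ').mem z z0, ← hβ, hφ]
          push_cast; ring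
        · rw [he0 σ' hσ' hσσ z hz, map_zero, add_zero]
          exact hg2 σ' (Finset.mem_erase.mpr ⟨hσσ, hσ'⟩) z hz
      obtain ⟨F, hF1, hF2⟩ := hQ g' k1 k2 k3 k4
      refine ⟨F, hF1, fun a b' hab hon => ?_⟩
      have h1 := hF2 a b' hab (hon.mono (Finset.erase_subset _ _))
      rw [hg', he2 a b' hab hon, map_zero, add_zero] at h1
      exact h1
    have hcard : (I.erase σ).card = n := by
      rw [Finset.card_erase_of_mem hσ, hI]; rfl
    obtain ⟨f', hf'⟩ := ih (I.erase σ) hcard hS' hQ' b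
    obtain ⟨fe, hfe⟩ := pint_hom J heJ
    have hσJ : σ ^ d σ ∈ J := (hS.gen σ hσ).mem
    set c : ℤ := b σ - Multiplicative.toAdd (f' ⟨σ ^ d σ, hσJ⟩) with hc
    refine ⟨f' * fe ^ c, fun σ' hσ' h => ?_⟩
    rw [MonoidHom.mul_apply, MonoidHom.zpow_apply]
    by_cases hσσ : σ' = σ
    · subst hσσ
      rw [hfe ⟨σ' ^ d σ', h⟩ x]
      show f' ⟨σ' ^ d σ', h⟩ * Multiplicative.ofAdd (pint e x (σ' ^ d σ' * x)) ^ c = _
      rw [he3 x hx]
      apply Multiplicative.toAdd.injective
      rw [toAdd_mul, toAdd_zpow, toAdd_ofAdd, toAdd_ofAdd, hc]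
      simp
    · obtain ⟨z, hz⟩ := Ax_nonempty σ'
      rw [hf' σ' (Finset.mem_erase.mpr ⟨hσσ, hσ'⟩) h, hfe ⟨σ' ^ d σ', h⟩ z]
      show _ * Multiplicative.ofAdd (pint e z (σ' ^ d σ' * z)) ^ c = _
      rw [he0 σ' hσ' hσσ z hz, ofAdd_zero, one_zpow, mul_one]

end Pool.Agent.H28.UE
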