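import Pool.Agent.H28.UE.Overlap

set_option autoImplicit false

/-!
Products of elements of a free group and their axes.
-/

namespace Pool.Agent.H28.UE

variable {α : Type*} [DecidableEq α]

/-- concatenation of geodesics in a tree. -/
theorem D_concat {a b c d : FreeGroup α} (h1 : (TT α).B a b c) (h2 : (TT α).B b c d)
    (h : b ≠ c) : D a d = D a b + D b c + D c d := by
  have h3 : D b c ≠ 0 := fun h0 => h (D_eq_zero h0)
  have h4 := (TT α).four a c b d
  have h5 := D_tri a b d
  have h6 := D_tri b c d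
  have h7 := D_symm c b
  unfold TreeDist.B at h1 h2
  have e1 : ∀ x y : FreeGroup α, (TT α).d x y = D x y := fun _ _ => rfl
  simp only [e1] at h1 h2 h4
  omega

theorem exists_bridge {C C' : Set (FreeGroup α)} (hC : (TT α).Convex C) (hC' : (TT α).Convex C')
    (hne : C.Nonempty) (hne' : C'.Nonempty) :
    ∃ p q, (TT α).IsGate C q p ∧ (TT α).IsGate C' p q := by
  classical
  have hex : ∃ n, ∃ p ∈ C, ∃ q ∈ C', D p q = n := by
    obtain ⟨p, hp⟩ := hne
    obtain ⟨q, hq⟩ := hne'
    exact ⟨_, p, hp, q, hq, rfl⟩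
  obtain ⟨p, hp, q, hq, hpq⟩ := Nat.find_spec hex
  have hmin : ∀ p' ∈ C, ∀ q' ∈ C', D p q ≤ D p' q' := by
    intro p' hp' q' hq'
    rw [hpq]
    exact Nat.find_min' hex ⟨p', hp', q', hq', rfl⟩
  obtain ⟨p1, hp1⟩ := (TT α).exists_gate hC hne q
  obtain ⟨q1, hq1⟩ := (TT α).exists_gate hC' hne' p
  have e1 : ∀ x y : FreeGroup α, (TT α).d x y = D x y := fun _ _ => rfl
  have h1 : p1 = p := by
    have h2 := hp1.2 p hp
    have h3 := hmin p1 hp1.1 q hq
    unfold TreeDist.B at h2
    simp only [e1] at h2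
    have h4 := D_symm q p1
    have h5 := D_symm q p
    exact D_eq_zero (by omega)
  have h1' : q1 = q := by
    have h2 := hq1.2 q hq
    have h3 := hmin p hp q1 hq1.1
    unfold TreeDist.B at h2
    simp only [e1] at h2
    exact D_eq_zero (by omega)
  rw [h1] at hp1
  rw [h1'] at hq1
  exact ⟨p, q, hp1, hq1⟩

/-- sum along a local geodesic -/
theorem st_geo {x : ℤ → FreeGroup α} (hB : ∀ i, (TT α).B (x i) (x (i + 1)) (x (i + 2)))
    (hne : ∀ i, x i ≠ x (i + 1)) (i : ℤ) (n : ℕ) :
    D (x i) (x (i + n + 1)) = D (x i) (x (i + n)) + D (x (i + n)) (x (i + n + 1)) := by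
  induction n with
  | zero =>
    simp only [Nat.cast_zero, add_zero, D_self, zero_add]
  | succ n ih =>
    have h1 : (TT α).B (x i) (x (i + n)) (x (i + n + 1)) := ih.symm
    have h2 := hB (i + n)
    have h3 := hne (i + n)
    have e2 : i + n + 2 = i + (n + 1 : ℕ) + 1 := by push_cast; ring
    have e3 : i + n + 1 = i + (n + 1 : ℕ) := by push_cast; ring
    rw [e2, e3] at h2
    rw [e3] at h1 h3 ih
    rw [D_concat h1 h2 h3, ih]

/-- the periodic sequence -/
def st_y (g h p q : FreeGroup α) (i : ℤ) : FreeGroup α :=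
  if i % 4 = 0 then h⁻¹ * q else if i % 4 = 1 then q else if i % 4 = 2 then p else g * p

def st_x (g h p q : FreeGroup α) (i : ℤ) : FreeGroup α := (g * h) ^ (i / 4) * st_y g h p q i

theorem st_x_four (g h p q : FreeGroup α) (i : ℤ) :
    st_x g h p q (i + 4) = g * h * st_x g h p q i := by
  unfold st_x st_y
  have h1 : (i + 4) % 4 = i % 4 := by omega
  have h2 : (i + 4) / 4 = 1 + i / 4 := by omega
  rw [h1, h2, zpow_add, zpow_one, mul_assoc]

theorem st_x_add (g h p q : FreeGroup α) (k i : ℤ) :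
    st_x g h p q (4 * k + i) = (g * h) ^ k * st_x g h p q i := by
  unfold st_x st_y
  have h1 : (4 * k + i) % 4 = i % 4 := by omega
  have h2 : (4 * k + i) / 4 = k + i / 4 := by omega
  rw [h1, h2, zpow_add, mul_assoc]

theorem disjoint_axes {g h p q : FreeGroup α} (hg : g ≠ 1) (hh : h ≠ 1) (hpq : p ≠ q)
    (hp : (TT α).IsGate (Ax g) q p) (hq : (TT α).IsGate (Ax h) p q) :
    tl (g * h) = tl g + tl h + 2 * D p q ∧ p ∈ Ax (g * h) ∧ q ∈ Ax (g * h) ∧
      g * p ∈ Ax (g * h) ∧ g * q ∈ Ax (g * h) ∧ h⁻¹ * q ∈ Ax (g * h) := by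
  have hg0 := tl_pos hg
  have hh0 := tl_pos hh
  have hD0 : D p q ≠ 0 := fun h0 => hpq (D_eq_zero h0)
  have hgp : g * p ∈ Ax g := by simpa using zpow_mem_Ax hp.1 1
  have hgp' : g⁻¹ * p ∈ Ax g := by simpa using zpow_mem_Ax hp.1 (-1)
  have hhq : h * q ∈ Ax h := by simpa using zpow_mem_Ax hq.1 1
  have hhq' : h⁻¹ * q ∈ Ax h := by simpa using zpow_mem_Ax hq.1 (-1)
  let x := st_x g h p q
  have x0 : x 0 = h⁻¹ * q := by simp [x, st_x, st_y]
  have x1 : x 1 = q := by simp [x, st_x, st_y]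
  have x2 : x 2 = p := by simp [x, st_x, st_y]
  have x3 : x 3 = g * p := by simp [x, st_x, st_y]
  have x4 : x 4 = g * q := by simp [x, st_x, st_y]
  have x5 : x 5 = g * h * q := by
    have := st_x_four g h p q 1
    simpa [x, st_x, st_y] using this
  have hadd : ∀ k i, x (4 * k + i) = (g * h) ^ k * x i := st_x_add g h p q
  have b0 : (TT α).B (x 0) (x 1) (x 2) := by
    rw [x0, x1, x2]
    exact (TT α).B_symm (hq.2 _ hhq')
  have b1 : (TT α).B (x 1) (x 2) (x 3) := by
    rw [x1, x2, x3]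
    exact hp.2 _ hgp
  have b2 : (TT α).B (x 2) (x 3) (x 4) := by
    rw [x2, x3, x4]
    have h1 := (B_mul_iff g (g⁻¹ * p) p q).mpr ((TT α).B_symm (hp.2 _ hgp'))
    rwa [mul_inv_cancel_left] at h1
  have b3 : (TT α).B (x 3) (x 4) (x 5) := by
    rw [x3, x4, x5, mul_assoc]
    exact (B_mul_iff g p q (h * q)).mpr (hq.2 _ hhq)
  have d0 : D (x 0) (x 1) = tl h := by
    rw [x0, x1, ← D_mul h, mul_inv_cancel_left]
    exact hq.1
  have d1 : D (x 1) (x 2) = D p q := by rw [x1, x2, D_symm]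
  have d2 : D (x 2) (x 3) = tl g := by
    rw [x2, x3]
    exact hp.1
  have d3 : D (x 3) (x 4) = D p q := by rw [x3, x4, D_mul]
  have hsplit : ∀ i : ℤ, i = 4 * (i / 4) + i % 4 := fun i => by omega
  have hr : ∀ i : ℤ, i % 4 = 0 ∨ i % 4 = 1 ∨ i % 4 = 2 ∨ i % 4 = 3 := fun i => by omega
  have hB : ∀ i, (TT α).B (x i) (x (i + 1)) (x (i + 2)) := by
    intro i
    rw [hsplit i, add_assoc, add_assoc, hadd, hadd, hadd, B_mul_iff]
    rcases hr i with h | h | h | h <;> rw [h]
    · exact b0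
    · exact b1
    · exact b2
    · exact b3
  have hd : ∀ i, (i % 4 = 0 → D (x i) (x (i + 1)) = tl h) ∧
      (i % 4 = 1 → D (x i) (x (i + 1)) = D p q) ∧ (i % 4 = 2 → D (x i) (x (i + 1)) = tl g) ∧
      (i % 4 = 3 → D (x i) (x (i + 1)) = D p q) := by
    intro i
    have e : D (x i) (x (i + 1)) = D (x (i % 4)) (x (i % 4 + 1)) := by
      conv_lhs => rw [hsplit i, add_assoc, hadd, hadd, D_mul]
    rw [e]
    refine ⟨fun h => ?_, fun h => ?_, fun h => ?_, fun h => ?_⟩ <;> rw [h]
    · exact d0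
    · exact d1
    · exact d2
    · exact d3
  have hne : ∀ i, x i ≠ x (i + 1) := by
    intro i hi
    have h1 := hd i
    rw [← hi, D_self] at h1
    rcases hr i with h | h | h | h
    · have := h1.1 h; omega
    · have := h1.2.1 h; omega
    · have := h1.2.2.1 h; omega
    · have := h1.2.2.2 h; omega
  have hgeo := st_geo hB hne
  have hfour : ∀ i, D (x i) (x (i + 4)) = tl g + tl h + 2 * D p q := by
    intro i
    have s0 := hgeo i 0
    have s1 := hgeo i 1
    have s2 := hgeo i 2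
    have s3 := hgeo i 3
    norm_num at s0 s1 s2 s3
    have t0 := hd i
    have t1 := hd (i + 1)
    have t2 := hd (i + 2)
    have t3 := hd (i + 3)
    rw [add_assoc] at s1 s2 s3 t1 t2 t3
    norm_num at s1 s2 s3 t1 t2 t3
    rcases hr i with h | h | h | h
    · have a1 := t0.1 h
      have a2 := t1.2.1 (by omega)
      have a3 := t2.2.2.1 (by omega)
      have a4 := t3.2.2.2 (by omega)
      omega
    · have a1 := t0.2.1 h
      have a2 := t1.2.2.1 (by omega)
      have a3 := t2.2.2.2 (by omega)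
      have a4 := t3.1 (by omega)
      omega
    · have a1 := t0.2.2.1 h
      have a2 := t1.2.2.2 (by omega)
      have a3 := t2.1 (by omega)
      have a4 := t3.2.1 (by omega)
      omega
    · have a1 := t0.2.2.2 h
      have a2 := t1.1 (by omega)
      have a3 := t2.2.1 (by omega)
      have a4 := t3.2.2.1 (by omega)
      omega
  -- the union of two periods
  have height : ∀ i, D (x i) (x (i + 8)) = 2 * D (x i) (x (i + 4)) := by
    intro i
    have key : ∀ n : ℕ, D (x i) (x (i + 4 + n)) = D (x i) (x (i + 4)) + D (x (i + 4)) (x (i + 4 + n)) := by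
      intro n
      induction n with
      | zero => simp [D_self]
      | succ n ih =>
        have h1 := hgeo i (4 + n)
        have h2 := hgeo (i + 4) n
        have e1 : i + ((4 + n : ℕ) : ℤ) = i + 4 + n := by push_cast; ring
        rw [e1] at h1
        have e2 : i + 4 + ((n + 1 : ℕ) : ℤ) = i + 4 + n + 1 := by push_cast; ring
        rw [e2]
        omega
    have h1 := key 4
    have e1 : i + 4 + ((4 : ℕ) : ℤ) = i + 4 + 4 := by norm_num
    rw [e1] at h1
    have h2 := hfour (i + 4)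
    have h3 := hfour i
    have e2 : i + 8 = i + 4 + 4 := by ring
    rw [e2]
    omega
  have hmem : ∀ i, x i ∈ Ax (g * h) := by
    intro i
    apply mem_Ax_of_two
    have e1 : g * h * x i = x (i + 4) := (st_x_four g h p q i).symm
    have e2 : g * h * x (i + 4) = x (i + 8) := by
      have := (st_x_four g h p q (i + 4)).symm
      rw [show i + 4 + 4 = i + 8 by ring] at this
      exact this
    rw [e1, e2]
    exact height i
  refine ⟨?_, ?_, ?_, ?_, ?_, ?_⟩
  · have h1 := hmem 0
    have h2 : D (x 0) (g * h * x 0) = tl (g * h) := h1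
    have e1 : g * h * x 0 = x (0 + 4) := (st_x_four g h p q 0).symm
    rw [← h2, e1, hfour]
  · rw [← x2]; exact hmem 2
  · have := hmem 1; rwa [x1] at this
  · rw [← x3]; exact hmem 3
  · rw [← x4]; exact hmem 4
  · rw [← x0]; exact hmem 0

theorem mul_ne_one_of_nc {X Y : FreeGroup α} (hXY : ¬ Commute X Y) {i j : ℕ} (hi : i ≠ 0)
    (hj : j ≠ 0) : X ^ i * Y ^ j ≠ 1 := by
  intro h
  have h1 : X ^ i = (Y ^ j)⁻¹ := mul_eq_one_iff_eq_inv.mp h
  have h2 : Commute (X ^ i) Y := by
    rw [h1]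
    exact (((Commute.refl Y).pow_left j).inv_left)
  exact hXY (commute_of_pow hi h2)

theorem star {X Y : FreeGroup α} (hXY : ¬ Commute X Y) {i j : ℕ} (hi : 10 ≤ i) (hj : 10 ≤ j) :
    ∃ o ∈ Ax (X ^ i * Y ^ j), D o (X * o) ≤ tl (X ^ i * Y ^ j) := by
  have hX : X ≠ 1 := by rintro rfl; exact hXY (Commute.one_left Y)
  have hY : Y ≠ 1 := by rintro rfl; exact hXY (Commute.one_right X)
  have hi0 : i ≠ 0 := by omega
  have hj0 : j ≠ 0 := by omega
  set g := X ^ i * Y ^ j with hgdef
  have hg : g ≠ 1 := mul_ne_one_of_nc hXY hi0 hj0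
  have hx0 := tl_pos hX
  have hy0 := tl_pos hY
  have hXi : X ^ i ≠ 1 := fun h => hX (pow_eq_one' hi0 h)
  have hYj : Y ^ j ≠ 1 := fun h => hY (pow_eq_one' hj0 h)
  have hI : 10 * tl X ≤ i * tl X := Nat.mul_le_mul hi le_rfl
  have hJ : 10 * tl Y ≤ j * tl Y := Nat.mul_le_mul hj le_rfl
  have tXi : tl (X ^ i) = i * tl X := tl_pow X i
  have tYj : tl (Y ^ j) = j * tl Y := tl_pow Y j
  have aXi : Ax (X ^ i) = Ax X := Ax_pow X hi0
  have aYj : Ax (Y ^ j) = Ax Y := Ax_pow Y hj0
  have aXi' : Ax (X ^ i)⁻¹ = Ax X := by rw [Ax_inv, aXi]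
  have aYj' : Ax (Y ^ j)⁻¹ = Ax Y := by rw [Ax_inv, aYj]
  have hov : ∀ p q : FreeGroup α, p ∈ Ax X → p ∈ Ax Y → q ∈ Ax X → q ∈ Ax Y →
      D p q < tl X + tl Y := by
    intro p q h1 h2 h3 h4
    by_contra hcon
    exact hXY (commute_of_overlap h1 h2 h3 h4 (by omega))
  have hp1 : ∀ {f p : FreeGroup α}, p ∈ Ax f → D p (f * p) = tl f := fun h => h
  by_cases hA : ∃ z, z ∈ Ax X ∧ z ∈ Ax Y
  · by_cases hB : ∃ z, z ∈ Ax X ∧ z ∈ Ax g
    · by_cases hC : ∃ z, z ∈ Ax Y ∧ z ∈ Ax g
      · -- all three axes meet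
        obtain ⟨z1, hz1⟩ := hA
        obtain ⟨z2, hz2⟩ := hC
        obtain ⟨z3, hz3⟩ := hB
        obtain ⟨o, h1, h2, h3⟩ := (TT α).helly (convex_Ax X) (convex_Ax Y) (convex_Ax g) hz1 hz2 hz3
        refine ⟨o, h3, ?_⟩
        rw [hp1 h1]
        have a1 : (X ^ i)⁻¹ * o ∈ Ax X := by
          have := zpow_mem_Ax h1 (-(i : ℤ))
          rwa [zpow_neg, zpow_natCast] at this
        have a2 : Y ^ j * o ∈ Ax Y := by
          have := zpow_mem_Ax h2 (j : ℤ)
          rwa [zpow_natCast] at this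
        have d1 : D o ((X ^ i)⁻¹ * o) = i * tl X := by
          have := D_zpow h1 (-(i : ℤ))
          rwa [zpow_neg, zpow_natCast, Int.natAbs_neg, Int.natAbs_natCast] at this
        have d2 : D o (Y ^ j * o) = j * tl Y := by
          have := D_zpow h2 (j : ℤ)
          rwa [zpow_natCast, Int.natAbs_natCast] at this
        obtain ⟨m, m1, m2, m3⟩ := (TT α).med ((X ^ i)⁻¹ * o) (Y ^ j * o) o
        have e1 : ∀ x y : FreeGroup α, (TT α).d x y = D x y := fun _ _ => rfl
        have m4 : m ∈ Ax X := convex_Ax X _ a1 _ h1 m m2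
        have m5 : m ∈ Ax Y := convex_Ax Y _ a2 _ h2 m m3
        have m6 := hov o m h1 h2 m4 m5
        simp only [e1] at m1 m2 m3
        have d3 : D ((X ^ i)⁻¹ * o) (Y ^ j * o) = tl g := by
          rw [← hp1 h3, ← D_mul (X ^ i), mul_inv_cancel_left, ← mul_assoc]
        have s1 := D_symm o ((X ^ i)⁻¹ * o)
        have s2 := D_symm o (Y ^ j * o)
        have s3 := D_symm o m
        have s4 := D_symm m (Y ^ j * o)
        omega
      · -- `Ax g` and `Ax Y` are disjoint
        obtain ⟨p, q, hp, hq⟩ := exists_bridge (convex_Ax g) (convex_Ax Y) (Ax_nonempty g)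
          (Ax_nonempty Y)
        have hpq : p ≠ q := by
          rintro rfl
          exact hC ⟨p, hq.1, hp.1⟩
        have hXg : g * (Y ^ j)⁻¹ = X ^ i := by rw [hgdef, mul_inv_cancel_right]
        obtain ⟨h1, h2, h3, h4, h5, h6⟩ := disjoint_axes hg (inv_ne_one.mpr hYj) hpq hp
          (by rw [aYj']; exact hq)
        rw [hXg, tl_inv, tXi, tYj] at h1
        rw [hXg, aXi] at h2 h3 h4 h5 h6
        rw [inv_inv] at h6
        refine ⟨p, hp.1, ?_⟩
        rw [hp1 h2]
        have a1 : Y ^ j * q ∈ Ax Y := by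
          have := zpow_mem_Ax hq.1 (j : ℤ)
          rwa [zpow_natCast] at this
        have a2 := hov q (Y ^ j * q) h3 hq.1 h6 a1
        have a3 : D q (Y ^ j * q) = j * tl Y := by
          have := D_zpow hq.1 (j : ℤ)
          rwa [zpow_natCast, Int.natAbs_natCast] at this
        have a4 : D p q < 2 * tl X := by
          by_contra hcon
          have b1 : p ∈ Ax (g⁻¹ * X * g⁻¹⁻¹) := by
            have := mem_Ax_conj (f := g⁻¹) (g := X) (x := g * p)
            rw [inv_mul_cancel_left] at this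
            exact this.mpr h4
          have b2 : q ∈ Ax (g⁻¹ * X * g⁻¹⁻¹) := by
            have := mem_Ax_conj (f := g⁻¹) (g := X) (x := g * q)
            rw [inv_mul_cancel_left] at this
            exact this.mpr h5
          have b3 : Commute X (g⁻¹ * X * g⁻¹⁻¹) :=
            commute_of_overlap h2 b1 h3 b2 (by rw [tl_conj]; omega)
          have b4 : Ax (g⁻¹ * X * g⁻¹⁻¹) = Ax X :=
            (Ax_eq_of_commute hX (by
              intro h
              rw [mul_inv_eq_one] at h
              exact hX (mul_eq_left.mp h)) b3).symm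
          have b5 : Commute g X := by
            have := commute_of_Ax_eq hX b4
            exact (Commute.inv_left_iff).mp this
          have b6 : Commute X (Y ^ j) := by
            have b7 : Y ^ j = (X ^ i)⁻¹ * g := by rw [hgdef, inv_mul_cancel_left]
            rw [b7]
            exact (((Commute.refl X).pow_right i).inv_right).mul_right b5.symm
          exact hXY (commute_of_pow hj0 b6.symm).symm
        omega
    · -- `Ax X` and `Ax g` are disjoint
      obtain ⟨p, q, hp, hq⟩ := exists_bridge (convex_Ax X) (convex_Ax g) (Ax_nonempty X)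
        (Ax_nonempty g)
      have hpq : p ≠ q := by
        rintro rfl
        exact hB ⟨p, hp.1, hq.1⟩
      have hYg : (X ^ i)⁻¹ * g = Y ^ j := by rw [hgdef, inv_mul_cancel_left]
      obtain ⟨h1, h2, h3, h4, h5, _⟩ := disjoint_axes (inv_ne_one.mpr hXi) hg hpq
        (by rw [aXi']; exact hp) hq
      rw [hYg, tl_inv, tXi, tYj] at h1
      rw [hYg, aYj] at h2 h3 h4 h5
      refine ⟨q, hq.1, ?_⟩
      rw [disp_gate hX hp]
      have a1 : (X ^ i)⁻¹ * p ∈ Ax X := by
        have := zpow_mem_Ax hp.1 (-(i : ℤ))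
        rwa [zpow_neg, zpow_natCast] at this
      have a2 := hov p ((X ^ i)⁻¹ * p) hp.1 h2 a1 h4
      have a3 : D p ((X ^ i)⁻¹ * p) = i * tl X := by
        have := D_zpow hp.1 (-(i : ℤ))
        rwa [zpow_neg, zpow_natCast, Int.natAbs_neg, Int.natAbs_natCast] at this
      have a4 : D p q < 2 * tl Y := by
        by_contra hcon
        have b1 : p ∈ Ax (X ^ i * Y * (X ^ i)⁻¹) := by
          have := mem_Ax_conj (f := X ^ i) (g := Y) (x := (X ^ i)⁻¹ * p)
          rw [mul_inv_cancel_left] at this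
          exact this.mpr h4
        have b2 : q ∈ Ax (X ^ i * Y * (X ^ i)⁻¹) := by
          have := mem_Ax_conj (f := X ^ i) (g := Y) (x := (X ^ i)⁻¹ * q)
          rw [mul_inv_cancel_left] at this
          exact this.mpr h5
        have b3 : Commute Y (X ^ i * Y * (X ^ i)⁻¹) :=
          commute_of_overlap h2 b1 h3 b2 (by rw [tl_conj]; omega)
        have b4 : Ax (X ^ i * Y * (X ^ i)⁻¹) = Ax Y :=
          (Ax_eq_of_commute hY (by
            intro h
            rw [mul_inv_eq_one] at h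
            exact hY (mul_eq_left.mp h)) b3).symm
        have b5 : Commute (X ^ i) Y := commute_of_Ax_eq hY b4
        exact hXY (commute_of_pow hi0 b5)
      have s1 := D_symm p q
      omega
  · -- `Ax X` and `Ax Y` are disjoint
    obtain ⟨p, q, hp, hq⟩ := exists_bridge (convex_Ax X) (convex_Ax Y) (Ax_nonempty X)
      (Ax_nonempty Y)
    have hpq : p ≠ q := by
      rintro rfl
      exact hA ⟨p, hp.1, hq.1⟩
    obtain ⟨h1, h2, _⟩ := disjoint_axes hXi hYj hpq (by rw [aXi]; exact hp) (by rw [aYj]; exact hq)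
    rw [tXi, tYj, ← hgdef] at h1
    refine ⟨p, h2, ?_⟩
    rw [hp1 hp.1]
    omega

end Pool.Agent.H28.UE
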