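import Pool.Agent.H28.UE.Conn

set_option autoImplicit false

/-!
JOB UE-SU1 (the cocycle of the surgery).

Notation. `J = ψ.range`, `ℓ = tl σ`, `κ = σ ^ N`, `e0 = (L a, L (a+1))`.
`kap x b = j κ⁻¹ j⁻¹` if `(x, x b) = j e0`, `= j κ j⁻¹` if `(x b, x) = j e0` for some `j ∈ J`
(`j` is unique, and the two cases exclude each other: `j = x (L a)⁻¹` resp. `j = x b (L a)⁻¹`; no
inversions, `no_inversion`), `= 1` otherwise (`b` a generator).
`kap (j x) b = j (kap x b) j⁻¹` for `j ∈ J`, all values are in `K`.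
`c v = coc kap (L a) ((L a)⁻¹ v) ∈ K` (`coc_mem`), `c (j v) = c (j L a) * (j * c v * j⁻¹)` (`coc_mul`,
`coc_equiv`); `ψ' h = c (ψ h * L a) * ψ h` is a homomorphism; `Φ v = c v * v` satisfies
`Φ (ψ h v) = ψ' h Φ v`. `c v' = c v * kap(v → v')` for adjacent `v, v'`, where `kap(v → v')` is `1`
unless the edge is a translate of `e0` (`adj_iff`, `coc_of`, `coc_of_inv`); `c (L a) = 1`,
`c (L (a+1)) = κ⁻¹`. By the window property (at `i = a` and `i = a+1`) the edge `{L i, L (i+1)}`,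
`i < m`, `i ≠ a`, is not a translate of `e0`. So `c (L i) = 1` for `i ≤ a`, `c (L i) = κ⁻¹` for
`a < i ≤ m`, `Φ (L i) = κ⁻¹ L i = L (i - N ℓ)`.
-/

namespace Pool.Agent.H28.UE

variable {α : Type*} [DecidableEq α]

open Classical in
/-- The weights of the edges: the oriented edge `(p, q)` and its translates get `κ⁻¹`. -/
noncomputable def su_kap (J : Subgroup (FreeGroup α)) (p q κ : FreeGroup α)
    (x : FreeGroup α) (b : α) : FreeGroup α :=
  if ∃ j ∈ J, x = j * p ∧ x * FreeGroup.of b = j * q then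
    (x * p⁻¹) * κ⁻¹ * (x * p⁻¹)⁻¹
  else if ∃ j ∈ J, x * FreeGroup.of b = j * p ∧ x = j * q then
    (x * FreeGroup.of b * p⁻¹) * κ * (x * FreeGroup.of b * p⁻¹)⁻¹
  else 1

theorem su_kap_mem (J K : Subgroup (FreeGroup α)) (hK : K.Normal) (p q κ : FreeGroup α)
    (hκ : κ ∈ K) (x : FreeGroup α) (b : α) : su_kap J p q κ x b ∈ K := by
  unfold su_kap
  split_ifs
  · exact hK.conj_mem _ (K.inv_mem hκ) _
  · exact hK.conj_mem _ hκ _
  · exact K.one_mem

theorem su_kap_equiv (J : Subgroup (FreeGroup α)) (p q κ : FreeGroup α)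
    (j : FreeGroup α) (hj : j ∈ J) (x : FreeGroup α) (b : α) :
    su_kap J p q κ (j * x) b = j * su_kap J p q κ x b * j⁻¹ := by
  have h1 : (∃ j' ∈ J, j * x = j' * p ∧ j * x * FreeGroup.of b = j' * q) ↔
      ∃ j' ∈ J, x = j' * p ∧ x * FreeGroup.of b = j' * q := by
    constructor
    · rintro ⟨j', hj', e1, e2⟩
      refine ⟨j⁻¹ * j', J.mul_mem (J.inv_mem hj) hj', ?_, ?_⟩
      · rw [mul_assoc, ← e1]; group
      · rw [mul_assoc, ← e2]; group
    · rintro ⟨j', hj', e1, e2⟩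
      refine ⟨j * j', J.mul_mem hj hj', ?_, ?_⟩
      · rw [mul_assoc, ← e1]
      · rw [mul_assoc, mul_assoc, ← e2]
  have h2 : (∃ j' ∈ J, j * x * FreeGroup.of b = j' * p ∧ j * x = j' * q) ↔
      ∃ j' ∈ J, x * FreeGroup.of b = j' * p ∧ x = j' * q := by
    constructor
    · rintro ⟨j', hj', e1, e2⟩
      refine ⟨j⁻¹ * j', J.mul_mem (J.inv_mem hj) hj', ?_, ?_⟩
      · rw [mul_assoc, ← e1]; group
      · rw [mul_assoc, ← e2]; group
    · rintro ⟨j', hj', e1, e2⟩
      refine ⟨j * j', J.mul_mem hj hj', ?_, ?_⟩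
      · rw [mul_assoc, mul_assoc, ← e1]
      · rw [mul_assoc, ← e2]
  unfold su_kap
  by_cases c1 : ∃ j' ∈ J, x = j' * p ∧ x * FreeGroup.of b = j' * q
  · rw [if_pos c1, if_pos (h1.2 c1)]
    group
  · rw [if_neg c1, if_neg (fun h => c1 (h1.1 h))]
    by_cases c2 : ∃ j' ∈ J, x * FreeGroup.of b = j' * p ∧ x = j' * q
    · rw [if_pos c2, if_pos (h2.2 c2)]
      group
    · rw [if_neg c2, if_neg (fun h => c2 (h2.1 h))]
      group

/-- The cocycle based at `p`. -/
noncomputable def su_c (J : Subgroup (FreeGroup α)) (p q κ : FreeGroup α)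
    (v : FreeGroup α) : FreeGroup α := coc (su_kap J p q κ) p (p⁻¹ * v)

theorem su_c_mem (J K : Subgroup (FreeGroup α)) (hK : K.Normal) (p q κ : FreeGroup α)
    (hκ : κ ∈ K) (v : FreeGroup α) : su_c J p q κ v ∈ K :=
  coc_mem _ K (su_kap_mem J K hK p q κ hκ) _ _

theorem su_c_self (J : Subgroup (FreeGroup α)) (p q κ : FreeGroup α) : su_c J p q κ p = 1 := by
  unfold su_c
  rw [inv_mul_cancel, coc_one]

theorem su_c_smul (J : Subgroup (FreeGroup α)) (p q κ : FreeGroup α) (j : FreeGroup α)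
    (hj : j ∈ J) (v : FreeGroup α) :
    su_c J p q κ (j * v) = su_c J p q κ (j * p) * (j * su_c J p q κ v * j⁻¹) := by
  unfold su_c
  have e1 : p⁻¹ * (j * v) = (p⁻¹ * (j * p)) * (p⁻¹ * v) := by group
  rw [e1, coc_mul]
  have e2 : p * (p⁻¹ * (j * p)) = j * p := by group
  rw [e2, coc_equiv (su_kap J p q κ) j (MulAut.conj j).toMonoidHom
    (fun x a => by
      rw [su_kap_equiv J p q κ j hj x a]
      simp [MulAut.conj_apply])]
  simp [MulAut.conj_apply]

theorem su_c_of (J : Subgroup (FreeGroup α)) (p q κ : FreeGroup α) (v : FreeGroup α) (b : α) :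
    su_c J p q κ (v * FreeGroup.of b) = su_c J p q κ v * su_kap J p q κ v b := by
  unfold su_c
  have e1 : p⁻¹ * (v * FreeGroup.of b) = (p⁻¹ * v) * FreeGroup.of b := by group
  rw [e1, coc_mul, coc_of]
  have e2 : p * (p⁻¹ * v) = v := by group
  rw [e2]

theorem su_c_of_inv (J : Subgroup (FreeGroup α)) (p q κ : FreeGroup α) (v : FreeGroup α) (b : α) :
    su_c J p q κ (v * (FreeGroup.of b)⁻¹) =
      su_c J p q κ v * (su_kap J p q κ (v * (FreeGroup.of b)⁻¹) b)⁻¹ := by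
  unfold su_c
  have e1 : p⁻¹ * (v * (FreeGroup.of b)⁻¹) = (p⁻¹ * v) * (FreeGroup.of b)⁻¹ := by group
  rw [e1, coc_mul, coc_of_inv]
  have e2 : p * (p⁻¹ * v) = v := by group
  rw [e2]

theorem su_c_adj (J : Subgroup (FreeGroup α)) (p q κ : FreeGroup α) (v v' : FreeGroup α)
    (h : D v v' = 1) (hn : ∀ j ∈ J, ¬ EdgeRel j (p, q) (v, v')) :
    su_c J p q κ v' = su_c J p q κ v := by
  obtain ⟨b, rfl | rfl⟩ := adj_iff.1 h
  · rw [su_c_of]
    have hk : su_kap J p q κ v b = 1 := by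
      unfold su_kap
      rw [if_neg, if_neg]
      · rintro ⟨j, hj, e1, e2⟩
        exact hn j hj (Or.inr ⟨e2, e1⟩)
      · rintro ⟨j, hj, e1, e2⟩
        exact hn j hj (Or.inl ⟨e1, e2⟩)
    rw [hk, mul_one]
  · rw [su_c_of_inv]
    have e0 : v * (FreeGroup.of b)⁻¹ * FreeGroup.of b = v := by group
    have hk : su_kap J p q κ (v * (FreeGroup.of b)⁻¹) b = 1 := by
      unfold su_kap
      rw [e0, if_neg, if_neg]
      · rintro ⟨j, hj, e1, e2⟩
        exact hn j hj (Or.inl ⟨e1, e2⟩)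
      · rintro ⟨j, hj, e1, e2⟩
        exact hn j hj (Or.inr ⟨e2, e1⟩)
    rw [hk, inv_one, mul_one]

theorem su_c_cross (J : Subgroup (FreeGroup α)) (p q κ : FreeGroup α) (h : D p q = 1) :
    su_c J p q κ q = κ⁻¹ := by
  have hne : p ≠ q := by
    rintro rfl
    rw [D_self] at h
    exact absurd h (by norm_num)
  obtain ⟨b, hb | hb⟩ := adj_iff.1 h
  · have h1 : su_kap J p q κ p b = κ⁻¹ := by
      unfold su_kap
      rw [if_pos]
      · group
      · exact ⟨1, J.one_mem, by rw [one_mul], by rw [one_mul, hb]⟩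
    have h2 := su_c_of J p q κ p b
    rw [← hb, h1, su_c_self, one_mul] at h2
    exact h2
  · have e0 : q * FreeGroup.of b = p := by rw [hb]; group
    have h1 : su_kap J p q κ q b = κ := by
      unfold su_kap
      rw [if_neg, if_pos, e0]
      · group
      · exact ⟨1, J.one_mem, by rw [one_mul, e0], by rw [one_mul]⟩
      · rintro ⟨j, hj, e1, e2⟩
        rw [e0] at e2
        have hj1 := no_inversion e1.symm e2.symm
        rw [hj1, one_mul] at e1
        exact hne e1.symm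
    have h2 := su_c_of_inv J p q κ p b
    rw [← hb, h1, su_c_self, one_mul] at h2
    exact h2

theorem surgery_map {H : Type*} [Group H] (ψ : H →* FreeGroup α)
    {σ : FreeGroup α} (hσ : σ ≠ 1) {L : ℤ → FreeGroup α} (hL : IsLine σ L)
    (K : Subgroup (FreeGroup α)) (hKn : K.Normal) (N : ℕ) (hK : σ ^ N ∈ K) (m : ℕ)
    (a : ℕ) (ha2 : a + 1 < m)
    (hw0 : ∀ j ∈ ψ.range, ∀ b : ℕ, b ≤ m → L a = j * L b → j = 1)
    (hw1 : ∀ j ∈ ψ.range, ∀ b : ℕ, b ≤ m → L (a + 1) = j * L b → j = 1) :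
    ∃ (ψ' : H →* FreeGroup α) (Φ : FreeGroup α → FreeGroup α),
      (∀ h v, Φ (ψ h * v) = ψ' h * Φ v) ∧ (∀ h, ψ' h * (ψ h)⁻¹ ∈ K) ∧
      (∀ v v', D v v' = 1 → (∀ j ∈ ψ.range, ¬ EdgeRel j (L a, L (a + 1)) (v, v')) →
        D (Φ v) (Φ v') = 1) ∧
      (∀ i : ℕ, i ≤ a → Φ (L i) = L i) ∧
      ∀ i : ℕ, a < i → i ≤ m → Φ (L i) = L ((i : ℤ) - N * tl σ) := by
  set c : FreeGroup α → FreeGroup α := su_c ψ.range (L a) (L (a + 1)) (σ ^ N) with hc
  have hmem : ∀ h : H, ψ h ∈ ψ.range := fun h => ⟨h, rfl⟩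
  have hsm : ∀ (h : H) (v : FreeGroup α),
      c (ψ h * v) = c (ψ h * L a) * (ψ h * c v * (ψ h)⁻¹) := fun h v =>
    su_c_smul ψ.range (L a) (L (a + 1)) (σ ^ N) (ψ h) (hmem h) v
  have hcK : ∀ v, c v ∈ K := su_c_mem ψ.range K hKn (L a) (L (a + 1)) (σ ^ N) hK
  have hca : c (L a) = 1 := su_c_self _ _ _ _
  have hinj : ∀ i j : ℤ, L i = L j → i = j := by
    intro i j hij
    have h1 := hL.iso i j
    rw [hij, D_self] at h1
    omega
  have hadj : ∀ i : ℤ, D (L i) (L (i + 1)) = 1 := by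
    intro i
    rw [hL.iso]
    omega
  have hcross : c (L (a + 1)) = (σ ^ N)⁻¹ := su_c_cross _ _ _ _ (hadj a)
  have hstep : ∀ i : ℕ, i < m → i ≠ a → c (L (i + 1)) = c (L i) := by
    intro i him hia
    apply su_c_adj _ _ _ _ _ _ (hadj i)
    intro j hj hrel
    rcases hrel with ⟨e1, e2⟩ | ⟨e1, e2⟩
    · simp only at e1 e2
      have h1 : L a = j⁻¹ * L i := by rw [e1]; group
      have h2 := hw0 j⁻¹ (ψ.range.inv_mem hj) i (by omega) h1
      rw [h2, one_mul] at h1
      have := hinj _ _ h1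
      omega
    · simp only at e1 e2
      have h1 : L a = j⁻¹ * L ((i + 1 : ℕ) : ℤ) := by
        push_cast
        rw [e2]
        group
      have h2 := hw0 j⁻¹ (ψ.range.inv_mem hj) (i + 1) (by omega) h1
      have h3 : L (a + 1) = j⁻¹ * L i := by rw [e1]; group
      rw [h2, one_mul] at h1 h3
      have h4 := hinj _ _ h1
      have h5 := hinj _ _ h3
      push_cast at h4
      omega
  have hlow : ∀ d : ℕ, d ≤ a → c (L ((a - d : ℕ) : ℤ)) = 1 := by
    intro d
    induction d with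
    | zero => intro _; simpa using hca
    | succ d ih =>
      intro hd
      have h1 := ih (by omega)
      have h2 := hstep (a - (d + 1)) (by omega) (by omega)
      have e : (((a - (d + 1) : ℕ) : ℤ) + 1) = ((a - d : ℕ) : ℤ) := by omega
      rw [e, h1] at h2
      exact h2.symm
  have hhigh : ∀ d : ℕ, a + 1 + d ≤ m → c (L ((a + 1 + d : ℕ) : ℤ)) = (σ ^ N)⁻¹ := by
    intro d
    induction d with
    | zero =>
      intro _
      have e : ((a + 1 + 0 : ℕ) : ℤ) = (a : ℤ) + 1 := by push_cast; ring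
      rw [e]
      exact hcross
    | succ d ih =>
      intro hd
      have h1 := ih (by omega)
      have h2 := hstep (a + 1 + d) (by omega) (by omega)
      have e : ((a + 1 + d : ℕ) : ℤ) + 1 = ((a + 1 + (d + 1) : ℕ) : ℤ) := by push_cast; ring
      rw [e, h1] at h2
      exact h2
  have hpow : ∀ (n : ℕ) (k : ℤ), σ ^ n * L k = L (k + n * tl σ) := by
    intro n
    induction n with
    | zero => intro k; simp
    | succ n ih =>
      intro k
      rw [pow_succ', mul_assoc, ih k, hL.step]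
      congr 1
      push_cast
      ring
  refine ⟨
    { toFun := fun h => c (ψ h * L a) * ψ h
      map_one' := ?_
      map_mul' := ?_ }, fun v => c v * v, ?_, ?_, ?_, ?_, ?_⟩
  · rw [map_one, one_mul, hca, one_mul]
  · intro h1 h2
    rw [map_mul, mul_assoc (ψ h1) (ψ h2) (L a), hsm h1 (ψ h2 * L a)]
    group
  · intro h v
    show c (ψ h * v) * (ψ h * v) = c (ψ h * L a) * ψ h * (c v * v)
    rw [hsm h v]
    group
  · intro h
    show c (ψ h * L a) * ψ h * (ψ h)⁻¹ ∈ K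
    rw [mul_inv_cancel_right]
    exact hcK _
  · intro v v' hvv hn
    show D (c v * v) (c v' * v') = 1
    have h1 : c v' = c v := su_c_adj _ _ _ _ _ _ hvv hn
    rw [h1, D_mul]
    exact hvv
  · intro i hi
    show c (L i) * L i = L i
    have h1 := hlow (a - i) (by omega)
    have e : ((a - (a - i) : ℕ) : ℤ) = (i : ℤ) := by omega
    rw [e] at h1
    rw [h1, one_mul]
  · intro i hai him
    show c (L i) * L i = L ((i : ℤ) - N * tl σ)
    have h1 := hhigh (i - (a + 1)) (by omega)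
    have e : ((a + 1 + (i - (a + 1)) : ℕ) : ℤ) = (i : ℤ) := by omega
    rw [e] at h1
    rw [h1, inv_mul_eq_iff_eq_mul, hpow]
    congr 1
    ring

end Pool.Agent.H28.UE
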