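import Pool.Agent.H28.UE.SurgA

set_option autoImplicit false

/-!
Surgery: shortening an invariant subtree.
-/

namespace Pool.Agent.H28.UE

variable {α : Type*} [DecidableEq α]

theorem sg_step {A : Set (FreeGroup α)} {x y : FreeGroup α} (hx : x ∈ A) (hy : y ∈ A)
    (h : D x y = 1) : Joined A x y := ⟨hx, Relation.ReflTransGen.single ⟨h, hy⟩⟩

theorem sg_refl {A : Set (FreeGroup α)} {x : FreeGroup α} (hx : x ∈ A) : Joined A x x :=
  ⟨hx, Relation.ReflTransGen.refl⟩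

/-- a piece of a line inside a set is joined -/
theorem sg_path {A : Set (FreeGroup α)} {K : ℤ → FreeGroup α}
    (hK : ∀ i, D (K i) (K (i + 1)) = 1) {lo hi : ℤ} (hA : ∀ i, lo ≤ i → i ≤ hi → K i ∈ A)
    {i i' : ℤ} (h1 : lo ≤ i) (h2 : i ≤ i') (h3 : i' ≤ hi) : Joined A (K i) (K i') := by
  obtain ⟨n, rfl⟩ := Int.exists_add_of_le h2
  induction n with
  | zero =>
    simp only [Nat.cast_zero, add_zero]
    exact sg_refl (hA i h1 (by omega))
  | succ n ih =>
    have h4 := ih (by omega) (by push_cast at h3; omega)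
    have h5 := hK (i + n)
    push_cast
    push_cast at h3
    rw [← add_assoc]
    exact h4.trans (sg_step (hA _ (by omega) (by omega)) (hA _ (by omega) (by omega)) h5)

theorem surgery {H : Type*} [Group H] (ψ : H →* FreeGroup α) (A : Set (FreeGroup α))
    (hA : (TT α).Convex A) (hinv : ∀ h, ∀ x ∈ A, ψ h * x ∈ A)
    (T : Finset (FreeGroup α)) (hcov : ∀ x ∈ A, ∃ h, ∃ t ∈ T, x = ψ h * t)
    {σ : FreeGroup α} (hσ : σ ≠ 1) {L : ℤ → FreeGroup α} (hL : IsLine σ L)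
    (K : Subgroup (FreeGroup α)) (hKn : K.Normal) (N : ℕ) (hK : σ ^ N ∈ K) (m : ℕ)
    (hm1 : m ≤ N * tl σ) (hm2 : N * tl σ ≤ m + 4 * tl σ) (hP : ∀ i : ℕ, i ≤ m → L i ∈ A)
    (a : ℕ) (ha : 0 < a) (ha2 : a + 5 * tl σ < m)
    (hw : ∀ i : ℕ, a ≤ i → i ≤ a + 5 * tl σ →
      (∀ j ∈ ψ.range, ∀ b : ℕ, b ≤ m → L i = j * L b → j = 1) ∧
      ∀ y ∈ A, D (L i) y = 1 → y = L (i - 1) ∨ y = L (i + 1)) :
    ∃ (ψ' : H →* FreeGroup α) (A' : Set (FreeGroup α)) (T' : Finset (FreeGroup α)),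
      (TT α).Convex A' ∧ A'.Nonempty ∧ (∀ h, ∀ x ∈ A', ψ' h * x ∈ A') ∧
      (∀ x ∈ A', ∃ h, ∃ t ∈ T', x = ψ' h * t) ∧ T'.card < T.card ∧
      ∀ h, ψ' h * (ψ h)⁻¹ ∈ K := by
  classical
  have hl := tl_pos hσ
  obtain ⟨ψ', Φ, hΦ, hψK, hadj, hΦ1, hΦ2⟩ := surgery_map ψ hσ hL K hKn N hK m a (by omega)
    (hw a le_rfl (by omega)).1 (by
      have := (hw (a + 1) (by omega) (by omega)).1
      push_cast at this
      exact this)
  set ℓ := tl σ with hℓ
  -- the removed set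
  let JI : FreeGroup α → Prop := fun x => ∃ j ∈ ψ.range, ∃ i : ℕ, a < i ∧ i < a + 5 * ℓ ∧
    x = j * L i
  -- uniqueness
  have huniq : ∀ j ∈ ψ.range, ∀ j' ∈ ψ.range, ∀ i b : ℕ, a ≤ i → i ≤ a + 5 * ℓ → b ≤ m →
      j * L i = j' * L b → j = j' ∧ i = b := by
    intro j hj j' hj' i b h1 h2 h3 h4
    have h5 : L i = (j⁻¹ * j') * L b := by
      rw [mul_assoc, ← h4, inv_mul_cancel_left]
    have h6 := (hw i h1 h2).1 _ (ψ.range.mul_mem (ψ.range.inv_mem hj) hj') b h3 h5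
    have h7 : j = j' := (inv_mul_eq_one.mp h6)
    subst h7
    have h8 := hL.inj (mul_left_cancel h4)
    exact ⟨rfl, by exact_mod_cast h8⟩
  have hnotJI : ∀ j ∈ ψ.range, ∀ b : ℕ, b ≤ m → (b ≤ a ∨ a + 5 * ℓ ≤ b) → ¬ JI (j * L b) := by
    rintro j hj b hb hb' ⟨j', hj', i, h1, h2, h3⟩
    have := huniq j' hj' j hj i b h1.le h2.le hb h3.symm
    omega
  have hJIsmul : ∀ h x, JI (ψ h * x) ↔ JI x := by
    intro h x
    constructor
    · rintro ⟨j, hj, i, h1, h2, h3⟩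
      refine ⟨(ψ h)⁻¹ * j, ψ.range.mul_mem (ψ.range.inv_mem ⟨h, rfl⟩) hj, i, h1, h2, ?_⟩
      rw [mul_assoc, ← h3, inv_mul_cancel_left]
    · rintro ⟨j, hj, i, h1, h2, h3⟩
      refine ⟨ψ h * j, ψ.range.mul_mem ⟨h, rfl⟩ hj, i, h1, h2, ?_⟩
      rw [mul_assoc, ← h3]
  -- neighbours
  have hnb : ∀ j ∈ ψ.range, ∀ i : ℕ, a ≤ i → i ≤ a + 5 * ℓ → ∀ y ∈ A, D (j * L i) y = 1 →
      y = j * L ((i : ℤ) - 1) ∨ y = j * L ((i : ℤ) + 1) := by
    rintro _ ⟨h, rfl⟩ i h1 h2 y hy hd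
    have h3 : (ψ h)⁻¹ * y ∈ A := by
      have := hinv h⁻¹ y hy
      rwa [map_inv] at this
    have h4 : D (L i) ((ψ h)⁻¹ * y) = 1 := by
      rw [← D_mul (ψ h), mul_inv_cancel_left]
      exact hd
    rcases (hw i h1 h2).2 _ h3 h4 with h5 | h5
    · left; rw [← h5, mul_inv_cancel_left]
    · right; rw [← h5, mul_inv_cancel_left]
  -- the new tree
  let A' : Set (FreeGroup α) := {z | (∃ v ∈ A, ¬ JI v ∧ z = Φ v) ∨
    ∃ h, ∃ i : ℤ, (m : ℤ) - N * ℓ < i ∧ i < 0 ∧ z = ψ' h * L i}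
  have hA'1 : ∀ v ∈ A, ¬ JI v → Φ v ∈ A' := fun v hv hv' => Or.inl ⟨v, hv, hv', rfl⟩
  have hA'inv : ∀ h, ∀ x ∈ A', ψ' h * x ∈ A' := by
    rintro h x (⟨v, hv, hv', rfl⟩ | ⟨h', i, h1, h2, rfl⟩)
    · rw [← hΦ]
      exact hA'1 _ (hinv h v hv) (fun hc => hv' ((hJIsmul h v).mp hc))
    · exact Or.inr ⟨h * h', i, h1, h2, by rw [map_mul, mul_assoc]⟩
  have hLD : ∀ i : ℤ, D (L i) (L (i + 1)) = 1 := by
    intro i
    rw [hL.iso]
    simp
  have hmN : (m : ℤ) - N * ℓ ≤ 0 := by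
    have : (m : ℤ) ≤ (N * ℓ : ℕ) := by exact_mod_cast hm1
    push_cast at this
    omega
  -- the path
  have hpathmem : ∀ h, ∀ i : ℤ, (a : ℤ) + 5 * ℓ - N * ℓ ≤ i → i ≤ a → ψ' h * L i ∈ A' := by
    intro h i h1 h2
    have hone : (1 : FreeGroup α) ∈ ψ.range := ψ.range.one_mem
    by_cases h3 : 0 ≤ i
    · obtain ⟨k, rfl⟩ := Int.eq_ofNat_of_zero_le h3
      have hk : k ≤ a := by exact_mod_cast h2
      have h4 : Φ (L k) = L k := hΦ1 k hk
      have h5 : ¬ JI (L k) := by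
        have := hnotJI 1 hone k (by omega) (Or.inl hk)
        rwa [one_mul] at this
      have h6 := hA'inv h _ (hA'1 _ (hP k (by omega)) h5)
      rw [h4] at h6
      exact h6
    · by_cases h4 : (m : ℤ) - N * ℓ < i
      · exact Or.inr ⟨h, i, h4, by omega, rfl⟩
      · have h7 : 0 ≤ i + N * ℓ := by omega
        obtain ⟨k, hk⟩ := Int.eq_ofNat_of_zero_le h7
        have hk1 : k ≤ m := by omega
        have hk2 : a + 5 * ℓ ≤ k := by omega
        have h8 : Φ (L k) = L i := by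
          rw [hΦ2 k (by omega) hk1]
          congr 1
          omega
        have h5 : ¬ JI (L k) := by
          have := hnotJI 1 hone k hk1 (Or.inr hk2)
          rwa [one_mul] at this
        have h6 := hA'inv h _ (hA'1 _ (hP k hk1) h5)
        rw [h8] at h6
        exact h6
  have hpath : ∀ h, ∀ i i' : ℤ, (a : ℤ) + 5 * ℓ - N * ℓ ≤ i → i ≤ i' → i' ≤ a →
      Joined A' (ψ' h * L i) (ψ' h * L i') := by
    intro h i i' h1 h2 h3
    exact sg_path (K := fun i => ψ' h * L i) (fun i => by rw [D_mul]; exact hLD i)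
      (hpathmem h) h1 h2 h3
  have hNl : (a : ℤ) + 5 * ℓ - N * ℓ ≤ a := by
    have : (a : ℤ) + 5 * ℓ < m := by exact_mod_cast ha2
    omega
  have hends : ∀ h, Joined A' (Φ (ψ h * L a)) (Φ (ψ h * L ((a : ℤ) + 5 * ℓ))) := by
    intro h
    rw [hΦ, hΦ, hΦ1 a le_rfl]
    have h1 := hΦ2 (a + 5 * ℓ) (by omega) (by omega)
    push_cast at h1
    rw [h1]
    exact (hpath h _ _ le_rfl hNl le_rfl).symm
  -- connectedness
  let v0 : FreeGroup α := L a
  have hv0 : v0 ∈ A := hP a (by omega)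
  have hv0' : ¬ JI v0 := by
    have := hnotJI 1 ψ.range.one_mem a (by omega) (Or.inl le_rfl)
    rwa [one_mul] at this
  let Q : FreeGroup α → Prop := fun x => (¬ JI x → Joined A' (Φ v0) (Φ x)) ∧
    ∀ j ∈ ψ.range, ∀ i : ℕ, a < i → i < a + 5 * ℓ → x = j * L i →
      Joined A' (Φ v0) (Φ (j * L a))
  have hQstep : ∀ u w, u ∈ A → w ∈ A → D u w = 1 → Q u → Q w := by
    intro u w hu hw' hd hQ
    by_cases hJu : JI u
    · obtain ⟨j, hj, i, hi1, hi2, rfl⟩ := hJu
      have h1 := hQ.2 j hj i hi1 hi2 rfl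
      have h2 := hnb j hj i hi1.le hi2.le w hw' hd
      obtain ⟨b, hb, hbm, hbi⟩ : ∃ b : ℕ, w = j * L b ∧ b ≤ m ∧ a ≤ b ∧ b ≤ a + 5 * ℓ := by
        rcases h2 with h2 | h2
        · refine ⟨i - 1, ?_, by omega, by omega, by omega⟩
          rw [h2, Nat.cast_sub (by omega)]
          rfl
        · refine ⟨i + 1, ?_, by omega, by omega, by omega⟩
          rw [h2]
          push_cast
          rfl
      refine ⟨fun hJw => ?_, ?_⟩
      · have hb' : b = a ∨ b = a + 5 * ℓ := by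
          by_contra hcon
          exact hJw ⟨j, hj, b, by omega, by omega, hb⟩
        rcases hb' with rfl | rfl
        · rw [hb]; exact h1
        · obtain ⟨h, rfl⟩ := hj
          have h3 := hends h
          rw [hb]
          push_cast
          exact h1.trans h3
      · intro j' hj' i' hi1' hi2' hw2
        have := huniq j' hj' j hj i' b hi1'.le hi2'.le hbm (by rw [← hw2, hb])
        rw [this.1]
        exact h1
    · by_cases hJw : JI w
      · obtain ⟨j, hj, i, hi1, hi2, rfl⟩ := id hJw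
        have h1 := hQ.1 hJu
        rw [D_symm] at hd
        have h2 := hnb j hj i hi1.le hi2.le u hu hd
        obtain ⟨b, hb, hbm, hbi⟩ : ∃ b : ℕ, u = j * L b ∧ b ≤ m ∧ a ≤ b ∧ b ≤ a + 5 * ℓ := by
          rcases h2 with h2 | h2
          · refine ⟨i - 1, ?_, by omega, by omega, by omega⟩
            rw [h2, Nat.cast_sub (by omega)]
            rfl
          · refine ⟨i + 1, ?_, by omega, by omega, by omega⟩
            rw [h2]
            push_cast
            rfl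
        have hb' : b = a ∨ b = a + 5 * ℓ := by
          by_contra hcon
          exact hJu ⟨j, hj, b, by omega, by omega, hb⟩
        have h3 : Joined A' (Φ v0) (Φ (j * L a)) := by
          rcases hb' with rfl | rfl
          · rw [← hb]; exact h1
          · obtain ⟨h, rfl⟩ := hj
            have h3 := hends h
            rw [hb] at h1
            push_cast at h1
            exact h1.trans h3.symm
        refine ⟨fun h => absurd hJw h, ?_⟩
        intro j' hj' i' hi1' hi2' hw2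
        have := huniq j' hj' j hj i' i hi1'.le hi2'.le (by omega) hw2.symm
        rw [this.1]
        exact h3
      · refine ⟨fun _ => ?_, ?_⟩
        · have h1 := hQ.1 hJu
          have h2 : D (Φ u) (Φ w) = 1 := by
            apply hadj u w hd
            rintro j hj (⟨_, h3⟩ | ⟨h3, _⟩)
            · have h4 : w = j * L ((a + 1 : ℕ) : ℤ) := by push_cast; exact h3
              exact hJw ⟨j, hj, a + 1, by omega, by omega, h4⟩
            · have h4 : u = j * L ((a + 1 : ℕ) : ℤ) := by push_cast; exact h3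
              exact hJu ⟨j, hj, a + 1, by omega, by omega, h4⟩
          exact h1.trans (sg_step (hA'1 u hu hJu) (hA'1 w hw' hJw) h2)
        · intro j hj i h1 h2 h3
          exact absurd ⟨j, hj, i, h1, h2, h3⟩ hJw
  have hQ : ∀ x ∈ A, Q x := by
    have key : ∀ x, Relation.ReflTransGen (fun u v => D u v = 1 ∧ v ∈ A) v0 x → x ∈ A ∧ Q x := by
      intro x hxp
      induction hxp with
      | refl =>
        refine ⟨hv0, fun _ => sg_refl (hA'1 _ hv0 hv0'), ?_⟩
        intro j hj i h1 h2 h3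
        exact absurd ⟨j, hj, i, h1, h2, h3⟩ hv0'
      | tail _ hstep ih => exact ⟨hstep.2, hQstep _ _ ih.1 hstep.2 hstep.1 ih.2⟩
    intro x hx
    exact (key x (joined_of_convex hA hv0 hx).2).2
  have hjoin : ∀ z ∈ A', Joined A' (Φ v0) z := by
    rintro z (⟨v, hv, hv', rfl⟩ | ⟨h, i, h1, h2, rfl⟩)
    · exact (hQ v hv).1 hv'
    · have h3 := (hQ (ψ h * L a) (hinv h _ (hP a (by omega)))).1
        (hnotJI _ ⟨h, rfl⟩ a (by omega) (Or.inl le_rfl))
      have h5 : Φ (ψ h * L a) = ψ' h * L a := by rw [hΦ, hΦ1 a le_rfl]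
      rw [h5] at h3
      have h4 : (a : ℤ) + 5 * ℓ < m := by exact_mod_cast ha2
      exact h3.trans (hpath h i a (by omega) (by omega) le_rfl).symm
  let T' : Finset (FreeGroup α) := (T.filter (fun t => t ∈ A ∧ ¬ JI t)).image Φ ∪
    (Finset.Ioo ((m : ℤ) - N * ℓ) 0).image L
  refine ⟨ψ', A', T', ?_, ⟨_, hA'1 _ hv0 hv0'⟩, hA'inv, ?_, ?_, hψK⟩
  · exact convex_of_joined (fun x hx y hy => (hjoin x hx).symm.trans (hjoin y hy))
  · rintro z (⟨v, hv, hv', rfl⟩ | ⟨h, i, h1, h2, rfl⟩)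
    · obtain ⟨h, t, ht, rfl⟩ := hcov v hv
      have htA : t ∈ A := by
        have := hinv h⁻¹ _ hv
        rwa [map_inv, inv_mul_cancel_left] at this
      refine ⟨h, Φ t, ?_, hΦ h t⟩
      apply Finset.mem_union_left
      exact Finset.mem_image_of_mem _ (Finset.mem_filter.mpr
        ⟨ht, htA, fun hc => hv' ((hJIsmul h t).mpr hc)⟩)
    · refine ⟨h, L i, ?_, rfl⟩
      apply Finset.mem_union_right
      exact Finset.mem_image_of_mem _ (Finset.mem_Ioo.mpr ⟨h1, h2⟩)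
  · -- counting
    have h1 : T'.card ≤ (T.filter (fun t => t ∈ A ∧ ¬ JI t)).card +
        (Finset.Ioo ((m : ℤ) - N * ℓ) 0).card :=
      (Finset.card_union_le _ _).trans
        (Nat.add_le_add Finset.card_image_le Finset.card_image_le)
    have h2 : (Finset.Ioo ((m : ℤ) - N * ℓ) 0).card = (0 - ((m : ℤ) - N * ℓ) - 1).toNat :=
      Int.card_Ioo _ _
    have h3 : (T.filter (fun t => t ∈ A ∧ ¬ JI t)).card +
        (T.filter (fun t => ¬ (t ∈ A ∧ ¬ JI t))).card = T.card :=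
      Finset.card_filter_add_card_filter_not _
    have h4 : (Finset.Ioo a (a + 5 * ℓ)).card ≤
        (T.filter (fun t => ¬ (t ∈ A ∧ ¬ JI t))).card := by
      have hex : ∀ i : ℕ, ∃ t, i ∈ Finset.Ioo a (a + 5 * ℓ) → t ∈ T ∧
          ∃ j ∈ ψ.range, t = j * L i := by
        intro i
        by_cases hi : i ∈ Finset.Ioo a (a + 5 * ℓ)
        · rw [Finset.mem_Ioo] at hi
          obtain ⟨h, t, ht, e⟩ := hcov (L i) (hP i (by omega))
          refine ⟨t, fun _ => ⟨ht, (ψ h)⁻¹, ψ.range.inv_mem ⟨h, rfl⟩, ?_⟩⟩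
          rw [e, inv_mul_cancel_left]
        · exact ⟨1, fun hc => absurd hc hi⟩
      choose τ hτ using hex
      refine Finset.card_le_card_of_injOn τ ?_ ?_
      · intro i hi
        have hi' : i ∈ Finset.Ioo a (a + 5 * ℓ) := hi
        obtain ⟨ht, j, hj, e⟩ := hτ i hi'
        rw [Finset.mem_Ioo] at hi'
        refine Finset.mem_coe.mpr (Finset.mem_filter.mpr ⟨ht, fun hc => hc.2 ?_⟩)
        exact ⟨j, hj, i, hi'.1, hi'.2, e⟩
      · intro i hi i' hi' he
        obtain ⟨_, j, hj, e⟩ := hτ i hi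
        obtain ⟨_, j', hj', e'⟩ := hτ i' hi'
        have hi2 : i ∈ Finset.Ioo a (a + 5 * ℓ) := hi
        have hi2' : i' ∈ Finset.Ioo a (a + 5 * ℓ) := hi'
        rw [Finset.mem_Ioo] at hi2 hi2'
        exact (huniq j hj j' hj' i i' hi2.1.le hi2.2.le (by omega) (by rw [← e, ← e', he])).2
    rw [Nat.card_Ioo] at h4
    have h5 : (N : ℤ) * ℓ ≤ m + 4 * ℓ := by exact_mod_cast hm2
    omega

end Pool.Agent.H28.UE
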