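import Pool.Agent.H28.UE.Coc
import Pool.Agent.H28.UE.Overlap
import Pool.Agent.H28.UE.BiOrder

set_option autoImplicit false

/-!
Definitions for the torsion theorem, and the solution of easy consequences (JOB UE-TR0).
`J` a subgroup of the free group, `s` a root, `I` a finite set of conjugates of `s`, pairwise not
conjugate under `J`; `σ ^ d σ` generates `J ∩ ⟨σ⟩`. The lines are the axes of `j σ j⁻¹`,
`j ∈ J`, `σ ∈ I`.
-/

namespace Pool.Agent.H28.UE

variable {α : Type*} [DecidableEq α]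

/-- `σ ^ d` generates `J ∩ ⟨σ⟩`, a nontrivial group. -/
structure Gen (J : Subgroup (FreeGroup α)) (σ : FreeGroup α) (d : ℕ) : Prop where
  pos : 0 < d
  mem : σ ^ d ∈ J
  dvd : ∀ k : ℤ, σ ^ k ∈ J → (d : ℤ) ∣ k

/-- the data -/
structure TSys (J : Subgroup (FreeGroup α)) (s : FreeGroup α) (I : Finset (FreeGroup α))
    (d : FreeGroup α → ℕ) : Prop where
  conj : ∀ σ ∈ I, ∃ f, σ = f * s * f⁻¹
  gen : ∀ σ ∈ I, Gen J σ (d σ)
  ineq : ∀ σ ∈ I, ∀ σ' ∈ I, ∀ j ∈ J, j * σ * j⁻¹ = σ' → σ = σ'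

/-- both `x` and `y` lie on the same line of the family -/
def OnL (J : Subgroup (FreeGroup α)) (I : Finset (FreeGroup α)) (x y : FreeGroup α) : Prop :=
  ∃ j ∈ J, ∃ σ ∈ I, x ∈ Ax (j * σ * j⁻¹) ∧ y ∈ Ax (j * σ * j⁻¹)

/-- every invariant cochain on the lines that vanishes on the elements `σ ^ d σ` is a coboundary
of an invariant function. -/
def QQ (J : Subgroup (FreeGroup α)) (I : Finset (FreeGroup α)) (d : FreeGroup α → ℕ) : Prop :=
  ∀ g : FreeGroup α → FreeGroup α → ℚ, Anti g →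
    (∀ j ∈ J, ∀ x y, D x y = 1 → g (j * x) (j * y) = g x y) →
    (∀ x y, D x y = 1 → ¬ OnL J I x y → g x y = 0) →
    (∀ σ ∈ I, ∀ x ∈ Ax σ, pint g x (σ ^ d σ * x) = 0) →
    ∃ F : FreeGroup α → ℚ, (∀ j ∈ J, ∀ x, F (j * x) = F x) ∧
      ∀ x y, D x y = 1 → OnL J I x y → g x y = F y - F x

/-- two conjugates of a root (`≠ 1`) with the same axis are equal: they have equal translation
lengths, hence are equal or inverse (`eq_or_inv_of_overlap` with two far apart points of the axis),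
and `s` is not conjugate to `s⁻¹` (`not_conj_inv`). -/
theorem eq_of_Ax_eq {s f f' : FreeGroup α} (hs : s ≠ 1)
    (h : Ax (f * s * f⁻¹) = Ax (f' * s * f'⁻¹)) : f * s * f⁻¹ = f' * s * f'⁻¹ := by
  have h1 : f * s * f⁻¹ ≠ 1 := by
    intro h1
    apply hs
    rwa [conj_eq_one_iff] at h1
  obtain ⟨L, hL⟩ := exists_line h1
  have h2 := hL.mem 0
  have h3 := hL.mem (tl s)
  have h4 := hL.iso 0 (tl s)
  rcases eq_or_inv_of_overlap (g := f * s * f⁻¹) (h := f' * s * f'⁻¹)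
    (by rw [tl_conj, tl_conj]) h2 (h ▸ h2) h3 (h ▸ h3) (by rw [tl_conj, h4]; omega) with h5 | h5
  · exact h5.symm
  · exfalso
    apply hs
    apply not_conj_inv (f := f⁻¹ * f')
    have h6 : f⁻¹ * (f' * s * f'⁻¹) * f = f⁻¹ * (f * s * f⁻¹)⁻¹ * f := by rw [h5]
    have h7 : f⁻¹ * (f * s * f⁻¹)⁻¹ * f = s⁻¹ := by group
    rw [h7] at h6
    rw [← h6]
    group

/-- the stabilizer of a line: `j σ j⁻¹ = σ` with `j ∈ J` implies that `j` is a power of
`σ ^ d`. -/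
theorem Gen.stab {J : Subgroup (FreeGroup α)} {σ : FreeGroup α} {d : ℕ} (h : Gen J σ d)
    (hσ : IsRoot σ) {j : FreeGroup α} (hj : j ∈ J) (hc : j * σ * j⁻¹ = σ) :
    ∃ k : ℤ, j = (σ ^ d) ^ k := by
  have h1 : Commute j σ := by
    show j * σ = σ * j
    rwa [mul_inv_eq_iff_eq_mul] at hc
  obtain ⟨k, hk⟩ := hσ j h1
  have hk' : σ ^ k = j := hk
  obtain ⟨m, rfl⟩ := h.dvd k (by rw [hk']; exact hj)
  exact ⟨m, by rw [← hk', zpow_mul, zpow_natCast]⟩

theorem TSys.subset {J : Subgroup (FreeGroup α)} {s : FreeGroup α} {I I' : Finset (FreeGroup α)}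
    {d : FreeGroup α → ℕ} (h : TSys J s I d) (hI : I' ⊆ I) : TSys J s I' d :=
  ⟨fun σ hσ => h.conj σ (hI hσ), fun σ hσ => h.gen σ (hI hσ),
    fun σ hσ σ' hσ' => h.ineq σ (hI hσ) σ' (hI hσ')⟩

theorem TSys.root {J : Subgroup (FreeGroup α)} {s : FreeGroup α} {I : Finset (FreeGroup α)}
    {d : FreeGroup α → ℕ} (h : TSys J s I d) (hs : IsRoot s) {σ : FreeGroup α} (hσ : σ ∈ I) :
    IsRoot σ := by
  obtain ⟨f, rfl⟩ := h.conj σ hσ
  exact hs.conj f

theorem TSys.ne_one {J : Subgroup (FreeGroup α)} {s : FreeGroup α} {I : Finset (FreeGroup α)}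
    {d : FreeGroup α → ℕ} (h : TSys J s I d) (hs : s ≠ 1) {σ : FreeGroup α} (hσ : σ ∈ I) :
    σ ≠ 1 := by
  obtain ⟨f, rfl⟩ := h.conj σ hσ
  intro h1
  apply hs
  rwa [conj_eq_one_iff] at h1

theorem TSys.tl_eq {J : Subgroup (FreeGroup α)} {s : FreeGroup α} {I : Finset (FreeGroup α)}
    {d : FreeGroup α → ℕ} (h : TSys J s I d) {σ : FreeGroup α} (hσ : σ ∈ I) :
    tl σ = tl s := by
  obtain ⟨f, rfl⟩ := h.conj σ hσ
  exact tl_conj f s

theorem OnL.symm {J : Subgroup (FreeGroup α)} {I : Finset (FreeGroup α)} {x y : FreeGroup α}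
    (h : OnL J I x y) : OnL J I y x := by
  obtain ⟨j, hj, σ, hσ, h1, h2⟩ := h
  exact ⟨j, hj, σ, hσ, h2, h1⟩

theorem OnL.smul {J : Subgroup (FreeGroup α)} {I : Finset (FreeGroup α)} {x y j : FreeGroup α}
    (hj : j ∈ J) : OnL J I (j * x) (j * y) ↔ OnL J I x y := by
  have key : ∀ {x y j : FreeGroup α}, j ∈ J → OnL J I x y → OnL J I (j * x) (j * y) := by
    intro x y j hj ⟨j', hj', σ, hσ, h1, h2⟩
    refine ⟨j * j', J.mul_mem hj hj', σ, hσ, ?_, ?_⟩
    · have := (mem_Ax_conj (f := j)).2 h1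
      convert this using 2
      group
    · have := (mem_Ax_conj (f := j)).2 h2
      convert this using 2
      group
  constructor
  · intro h
    have := key (J.inv_mem hj) h
    rwa [inv_mul_cancel_left, inv_mul_cancel_left] at this
  · exact key hj

theorem OnL.mono {J : Subgroup (FreeGroup α)} {I I' : Finset (FreeGroup α)} (hI : I' ⊆ I)
    {x y : FreeGroup α} (h : OnL J I' x y) : OnL J I x y := by
  obtain ⟨j, hj, σ, hσ, h1, h2⟩ := h
  exact ⟨j, hj, σ, hI hσ, h1, h2⟩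

end Pool.Agent.H28.UE
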