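import Pool.Agent.H28.UE.TDefs

set_option autoImplicit false

/-!
JOB UE-TR1a (top lines).

Every `L_σ` below is a line of `σ` (`exists_line`); `(L_σ k)⁻¹ σ (L_σ k)` has period `tl σ = tl s` in
`k`.
(a) finiteness of `Thr J I x`: if `x ∈ Ax (j σ j⁻¹)` then `j⁻¹ x = L_σ k`, and multiplying `j` by a
power of `σ ^ d σ ∈ J` on the right (does not change `j σ j⁻¹`) we may take
`0 ≤ k < d σ * tl σ`; `j = x (L_σ k)⁻¹` is determined by `(σ, k)`. So `Thr J I x` is the image of a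
finite set. A finite nonempty set has an element `τ` with `¬ lt τ τ'` for all `τ'` in it
(`COrd`: strict total order).
(d) `VTop_line`: for `σ = f s f⁻¹` the set `{(L_σ k)⁻¹ σ (L_σ k) : k ∈ ℤ}` is the set
`C = {(L_s k)⁻¹ s (L_s k) : k}` (`f L_s` is a line of `σ`, use `line_unique`; the reflected case
contradicts the `step` property). `C` is finite (period `tl s`); for `k` with
`(L_σ k)⁻¹ σ (L_σ k)` maximal in `C` and `x = L_σ k` every `τ = j σ' j⁻¹` through `x` has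
`x⁻¹ τ x = (L_σ' k')⁻¹ σ' (L_σ' k') ∈ C` (`j⁻¹ x = L_σ' k'`), so `¬ lt (x⁻¹ σ x) (x⁻¹ τ x)` and
`¬ lt σ τ` by conjugation invariance.
(f) `private_of_all`: take `k` with `(L_σ k)⁻¹ σ (L_σ k)` minimal in `C`; the same argument gives
`¬ lt τ σ` for all `τ` through `x = L_σ k`, and `¬ lt σ τ` because `VTop σ x`; so `τ = σ`.
-/

namespace Pool.Agent.H28.UE

variable {α : Type*} [DecidableEq α]

/-- the elements `j σ j⁻¹` (`j ∈ J`, `σ ∈ I`) whose axis contains `x`. -/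
def Thr (J : Subgroup (FreeGroup α)) (I : Finset (FreeGroup α)) (x : FreeGroup α) :
    Set (FreeGroup α) :=
  {τ | (∃ j ∈ J, ∃ σ ∈ I, τ = j * σ * j⁻¹) ∧ x ∈ Ax τ}

/-- `τ` is the top line at the vertex `x` -/
def VTop (lt : FreeGroup α → FreeGroup α → Prop) (J : Subgroup (FreeGroup α))
    (I : Finset (FreeGroup α)) (τ x : FreeGroup α) : Prop :=
  τ ∈ Thr J I x ∧ ∀ τ' ∈ Thr J I x, ¬ lt τ τ'

/-- `τ` is the top line at the edge `x, y` -/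
def ETop (lt : FreeGroup α → FreeGroup α → Prop) (J : Subgroup (FreeGroup α))
    (I : Finset (FreeGroup α)) (τ x y : FreeGroup α) : Prop :=
  τ ∈ Thr J I x ∧ τ ∈ Thr J I y ∧ ∀ τ', τ' ∈ Thr J I x → τ' ∈ Thr J I y → ¬ lt τ τ'

theorem COrd.tt_conj_iff {G : Type*} [Group G] {lt : G → G → Prop} (hO : COrd G lt) (a b x : G) :
    lt (x * a * x⁻¹) (x * b * x⁻¹) ↔ lt a b := by
  constructor
  · intro h
    have h1 := hO.conj _ _ x⁻¹ h
    have e1 : x⁻¹ * (x * a * x⁻¹) * x⁻¹⁻¹ = a := by group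
    have e2 : x⁻¹ * (x * b * x⁻¹) * x⁻¹⁻¹ = b := by group
    rwa [e1, e2] at h1
  · exact hO.conj a b x

theorem COrd.tt_exists_max {G : Type*} [Group G] {lt : G → G → Prop} (hO : COrd G lt)
    (s : Finset G) (hs : s.Nonempty) : ∃ τ ∈ s, ∀ τ' ∈ s, ¬ lt τ τ' := by
  induction hs using Finset.Nonempty.cons_induction with
  | singleton a =>
    refine ⟨a, Finset.mem_singleton_self a, fun τ' h => ?_⟩
    rw [Finset.mem_singleton] at h
    subst h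
    exact hO.irrefl _
  | cons a s ha hs ih =>
    obtain ⟨τ, hτ, hmax⟩ := ih
    by_cases h : lt τ a
    · refine ⟨a, Finset.mem_cons_self a s, fun τ' hτ' => ?_⟩
      rcases Finset.mem_cons.mp hτ' with h1 | h1
      · subst h1
        exact hO.irrefl _
      · intro h2
        exact hmax τ' h1 (hO.trans _ _ _ h h2)
    · refine ⟨τ, Finset.mem_cons_of_mem hτ, fun τ' hτ' => ?_⟩
      rcases Finset.mem_cons.mp hτ' with h1 | h1
      · subst h1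
        exact h
      · exact hmax τ' h1

theorem COrd.tt_exists_max_set {G : Type*} [Group G] {lt : G → G → Prop} (hO : COrd G lt)
    {s : Set G} (hf : s.Finite) (hs : s.Nonempty) : ∃ τ ∈ s, ∀ τ' ∈ s, ¬ lt τ τ' := by
  obtain ⟨τ, h1, h2⟩ := hO.tt_exists_max hf.toFinset (by simpa using hs)
  exact ⟨τ, by simpa using h1, fun τ' h => h2 τ' (by simpa using h)⟩

/-- the conjugates `x⁻¹ σ x`, `x` on the axis -/
theorem tt_conjs_finite {σ : FreeGroup α} (hσ : σ ≠ 1) :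
    {c : FreeGroup α | ∃ x ∈ Ax σ, c = x⁻¹ * σ * x}.Finite := by
  obtain ⟨L, hL⟩ := exists_line hσ
  refine Set.Finite.subset ((Set.finite_lt_nat (tl σ)).image
    (fun r : ℕ => (L r)⁻¹ * σ * L r)) ?_
  rintro c ⟨x, hx, rfl⟩
  rw [← hL.range] at hx
  obtain ⟨k, rfl⟩ := hx
  have hpos : (0 : ℤ) < tl σ := by exact_mod_cast tl_pos hσ
  have hm : 0 ≤ k % tl σ := Int.emod_nonneg _ (ne_of_gt hpos)
  have hm2 : k % tl σ < tl σ := Int.emod_lt_of_pos _ hpos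
  refine ⟨(k % tl σ).toNat, ?_, ?_⟩
  · show (k % tl σ).toNat < tl σ
    omega
  · have h1 : (((k % tl σ).toNat : ℕ) : ℤ) = k % tl σ := Int.toNat_of_nonneg hm
    have h2 : L k = σ ^ (k / tl σ) * L (k % tl σ) := by
      rw [hL.zpow]
      congr 1
      have := Int.emod_add_mul_ediv k (tl σ)
      rw [mul_comm] at this
      exact this.symm
    show (L ((k % tl σ).toNat : ℕ))⁻¹ * σ * L ((k % tl σ).toNat : ℕ) = (L k)⁻¹ * σ * L k
    rw [h1, h2]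
    group

/-- two conjugates of `s` have the same conjugates along their axes -/
theorem tt_conjs_same {s σ τ x : FreeGroup α} (h1 : ∃ f, σ = f * s * f⁻¹)
    (h2 : ∃ f, τ = f * s * f⁻¹) (hx : x ∈ Ax τ) :
    ∃ y ∈ Ax σ, x⁻¹ * τ * x = y⁻¹ * σ * y := by
  obtain ⟨f, rfl⟩ := h1
  obtain ⟨f', rfl⟩ := h2
  have h3 : f * s * f⁻¹ = (f * f'⁻¹) * (f' * s * f'⁻¹) * (f * f'⁻¹)⁻¹ := by group
  refine ⟨(f * f'⁻¹) * x, ?_, ?_⟩
  · rw [h3]
    exact mem_Ax_conj.mpr hx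
  · group

section

variable {lt : FreeGroup α → FreeGroup α → Prop} {J : Subgroup (FreeGroup α)} {s : FreeGroup α}
  {I : Finset (FreeGroup α)} {d : FreeGroup α → ℕ}

theorem Thr_smul_aux {j τ x : FreeGroup α} (hj : j ∈ J) (h : τ ∈ Thr J I x) :
    j * τ * j⁻¹ ∈ Thr J I (j * x) := by
  obtain ⟨⟨j', hj', σ, hσ, rfl⟩, h2⟩ := h
  refine ⟨⟨j * j', J.mul_mem hj hj', σ, hσ, by group⟩, ?_⟩
  exact mem_Ax_conj.mpr h2

theorem Thr_smul {j τ x : FreeGroup α} (hj : j ∈ J) :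
    j * τ * j⁻¹ ∈ Thr J I (j * x) ↔ τ ∈ Thr J I x := by
  constructor
  · intro h
    have h1 := Thr_smul_aux (J.inv_mem hj) h
    have e1 : j⁻¹ * (j * τ * j⁻¹) * j⁻¹⁻¹ = τ := by group
    have e2 : j⁻¹ * (j * x) = x := by group
    rwa [e1, e2] at h1
  · exact Thr_smul_aux hj

theorem VTop_smul_aux (hO : COrd (FreeGroup α) lt) {j τ x : FreeGroup α} (hj : j ∈ J)
    (h : VTop lt J I τ x) : VTop lt J I (j * τ * j⁻¹) (j * x) := by
  refine ⟨Thr_smul_aux hj h.1, fun τ' hτ' hlt => ?_⟩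
  have h1 := Thr_smul_aux (J.inv_mem hj) hτ'
  have e2 : j⁻¹ * (j * x) = x := by group
  rw [e2] at h1
  refine h.2 _ h1 ?_
  have e1 : j * (j⁻¹ * τ' * j⁻¹⁻¹) * j⁻¹ = τ' := by group
  rw [← hO.tt_conj_iff _ _ j, e1]
  exact hlt

theorem VTop_smul (hO : COrd (FreeGroup α) lt) {j τ x : FreeGroup α} (hj : j ∈ J) :
    VTop lt J I (j * τ * j⁻¹) (j * x) ↔ VTop lt J I τ x := by
  constructor
  · intro h
    have h1 := VTop_smul_aux hO (J.inv_mem hj) h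
    have e1 : j⁻¹ * (j * τ * j⁻¹) * j⁻¹⁻¹ = τ := by group
    have e2 : j⁻¹ * (j * x) = x := by group
    rwa [e1, e2] at h1
  · exact VTop_smul_aux hO hj

theorem ETop_smul_aux (hO : COrd (FreeGroup α) lt) {j τ x y : FreeGroup α} (hj : j ∈ J)
    (h : ETop lt J I τ x y) : ETop lt J I (j * τ * j⁻¹) (j * x) (j * y) := by
  refine ⟨Thr_smul_aux hj h.1, Thr_smul_aux hj h.2.1, fun τ' hx hy hlt => ?_⟩
  have h1 := Thr_smul_aux (J.inv_mem hj) hx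
  have h2 := Thr_smul_aux (J.inv_mem hj) hy
  have e2 : j⁻¹ * (j * x) = x := by group
  have e3 : j⁻¹ * (j * y) = y := by group
  rw [e2] at h1
  rw [e3] at h2
  refine h.2.2 _ h1 h2 ?_
  have e1 : j * (j⁻¹ * τ' * j⁻¹⁻¹) * j⁻¹ = τ' := by group
  rw [← hO.tt_conj_iff _ _ j, e1]
  exact hlt

theorem ETop_smul (hO : COrd (FreeGroup α) lt) {j τ x y : FreeGroup α} (hj : j ∈ J) :
    ETop lt J I (j * τ * j⁻¹) (j * x) (j * y) ↔ ETop lt J I τ x y := by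
  constructor
  · intro h
    have h1 := ETop_smul_aux hO (J.inv_mem hj) h
    have e1 : j⁻¹ * (j * τ * j⁻¹) * j⁻¹⁻¹ = τ := by group
    have e2 : j⁻¹ * (j * x) = x := by group
    have e3 : j⁻¹ * (j * y) = y := by group
    rwa [e1, e2, e3] at h1
  · exact ETop_smul_aux hO hj

theorem VTop.unique (hO : COrd (FreeGroup α) lt) {τ τ' x : FreeGroup α}
    (h : VTop lt J I τ x) (h' : VTop lt J I τ' x) : τ = τ' := by
  by_contra hne
  rcases hO.total _ _ hne with h1 | h1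
  · exact h.2 _ h'.1 h1
  · exact h'.2 _ h.1 h1

theorem ETop.unique (hO : COrd (FreeGroup α) lt) {τ τ' x y : FreeGroup α}
    (h : ETop lt J I τ x y) (h' : ETop lt J I τ' x y) : τ = τ' := by
  by_contra hne
  rcases hO.total _ _ hne with h1 | h1
  · exact h.2.2 _ h'.1 h'.2.1 h1
  · exact h'.2.2 _ h.1 h.2.1 h1

theorem ETop.symm {τ x y : FreeGroup α} (h : ETop lt J I τ x y) : ETop lt J I τ y x :=
  ⟨h.2.1, h.1, fun τ' h1 h2 => h.2.2 τ' h2 h1⟩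

theorem VTop.edge {τ x y : FreeGroup α} (h : VTop lt J I τ x) (hy : y ∈ Ax τ) :
    ETop lt J I τ x y :=
  ⟨h.1, ⟨h.1.1, hy⟩, fun τ' h1 _ => h.2 τ' h1⟩

theorem Thr_finite (hs : IsRoot s) (hs1 : s ≠ 1) (hS : TSys J s I d) (x : FreeGroup α) :
    (Thr J I x).Finite := by
  have h1 : ∀ σ ∈ I, {c : FreeGroup α | ∃ x ∈ Ax σ, c = x⁻¹ * σ * x}.Finite :=
    fun σ hσ => tt_conjs_finite (hS.ne_one hs1 hσ)
  refine Set.Finite.subset ((Set.Finite.biUnion (Finset.finite_toSet I) h1).image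
    (fun c => x * c * x⁻¹)) ?_
  rintro τ ⟨⟨j, hj, σ, hσ, rfl⟩, hx⟩
  refine ⟨x⁻¹ * (j * σ * j⁻¹) * x, ?_, by group⟩
  rw [Set.mem_iUnion₂]
  refine ⟨σ, hσ, j⁻¹ * x, ?_, by group⟩
  rw [← mem_Ax_conj (f := j), mul_inv_cancel_left]
  exact hx

theorem exists_VTop (hO : COrd (FreeGroup α) lt) (hs : IsRoot s) (hs1 : s ≠ 1)
    (hS : TSys J s I d) {x : FreeGroup α} (hx : (Thr J I x).Nonempty) :
    ∃ τ, VTop lt J I τ x := by
  obtain ⟨τ, h1, h2⟩ := hO.tt_exists_max_set (Thr_finite hs hs1 hS x) hx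
  exact ⟨τ, h1, h2⟩

theorem exists_ETop (hO : COrd (FreeGroup α) lt) (hs : IsRoot s) (hs1 : s ≠ 1)
    (hS : TSys J s I d) {x y : FreeGroup α} (hx : OnL J I x y) :
    ∃ τ, ETop lt J I τ x y := by
  obtain ⟨j, hj, σ, hσ, h3, h4⟩ := hx
  obtain ⟨τ, h1, h2⟩ := hO.tt_exists_max_set
    ((Thr_finite hs hs1 hS x).subset (Set.inter_subset_left (t := Thr J I y)))
    ⟨j * σ * j⁻¹, ⟨⟨j, hj, σ, hσ, rfl⟩, h3⟩, ⟨⟨j, hj, σ, hσ, rfl⟩, h4⟩⟩
  exact ⟨τ, h1.1, h1.2, fun τ' h5 h6 => h2 τ' ⟨h5, h6⟩⟩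

theorem tt_mem_Thr_self {σ x : FreeGroup α} (hσ : σ ∈ I) (hx : x ∈ Ax σ) : σ ∈ Thr J I x :=
  ⟨⟨1, J.one_mem, σ, hσ, by group⟩, hx⟩

theorem tt_Thr_conj (hS : TSys J s I d) {τ x : FreeGroup α} (h : τ ∈ Thr J I x) :
    ∃ f, τ = f * s * f⁻¹ := by
  obtain ⟨⟨j, hj, σ, hσ, rfl⟩, _⟩ := h
  obtain ⟨f, rfl⟩ := hS.conj σ hσ
  exact ⟨j * f, by group⟩

/-- every line has a top vertex -/
theorem VTop_line (hO : COrd (FreeGroup α) lt) (hs : IsRoot s) (hs1 : s ≠ 1)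
    (hS : TSys J s I d) {σ : FreeGroup α} (hσ : σ ∈ I) : ∃ x ∈ Ax σ, VTop lt J I σ x := by
  obtain ⟨x0, hx0⟩ := Ax_nonempty σ
  obtain ⟨c, ⟨x, hx, rfl⟩, hmax⟩ := hO.tt_exists_max_set (tt_conjs_finite (hS.ne_one hs1 hσ))
    ⟨x0⁻¹ * σ * x0, x0, hx0, rfl⟩
  refine ⟨x, hx, tt_mem_Thr_self hσ hx, fun τ hτ hlt => ?_⟩
  obtain ⟨y, hy, hxy⟩ := tt_conjs_same (hS.conj σ hσ) (tt_Thr_conj hS hτ) hτ.2
  refine hmax _ ⟨y, hy, hxy⟩ ?_
  have h1 := hO.conj _ _ x⁻¹ hlt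
  rwa [inv_inv] at h1

/-- a line all of whose vertices are top has a private vertex -/
theorem private_of_all (hO : COrd (FreeGroup α) lt) (hs : IsRoot s) (hs1 : s ≠ 1)
    (hS : TSys J s I d) {σ : FreeGroup α} (hσ : σ ∈ I) (hall : ∀ x ∈ Ax σ, VTop lt J I σ x) :
    ∃ x ∈ Ax σ, ∀ τ ∈ Thr J I x, τ = σ := by
  obtain ⟨x0, hx0⟩ := Ax_nonempty σ
  obtain ⟨c, ⟨x, hx, rfl⟩, hmax⟩ := hO.flip.tt_exists_max_set (tt_conjs_finite (hS.ne_one hs1 hσ))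
    ⟨x0⁻¹ * σ * x0, x0, hx0, rfl⟩
  refine ⟨x, hx, fun τ hτ => ?_⟩
  by_contra hne
  rcases hO.total _ _ hne with h1 | h1
  · obtain ⟨y, hy, hxy⟩ := tt_conjs_same (hS.conj σ hσ) (tt_Thr_conj hS hτ) hτ.2
    refine hmax _ ⟨y, hy, hxy⟩ ?_
    have h2 := hO.conj _ _ x⁻¹ h1
    rwa [inv_inv] at h2
  · exact (hall x hx).2 τ hτ h1

end

end Pool.Agent.H28.UE
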