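import Pool.Agent.H28.UE.Chi
import Pool.Agent.H28.UE.Overlap

set_option autoImplicit false

/-!
JOB UE-TO (top visits).

`σ ≠ 1`, `L` a line of `σ`, `P = {L 0, …, L m}`. `J` a group of translations none of whose
nontrivial elements commutes with `σ`. A visit `L i` is top if among all translates `j P` through
`L i` the conjugate `j σ j⁻¹` is never larger than `σ`.
-/

namespace Pool.Agent.H28.UE

variable {α : Type*} [DecidableEq α]

/-- the visit `i` is top -/
def Top (lt : FreeGroup α → FreeGroup α → Prop) (J : Subgroup (FreeGroup α)) (σ : FreeGroup α)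
    (L : ℤ → FreeGroup α) (m i : ℕ) : Prop :=
  ∀ j ∈ J, ∀ b : ℕ, b ≤ m → L i = j * L b → ¬ lt σ (j * σ * j⁻¹)

/-- the edge `L i, L (i+1)` is top -/
def TopE (lt : FreeGroup α → FreeGroup α → Prop) (J : Subgroup (FreeGroup α)) (σ : FreeGroup α)
    (L : ℤ → FreeGroup α) (m i : ℕ) : Prop :=
  ∀ j ∈ J, ∀ b : ℕ, b < m → EdgeRel j (L b, L (b + 1)) (L i, L (i + 1)) →
    ¬ lt σ (j * σ * j⁻¹)

/-- a start: the edge is top, its left end is not -/
def Start (lt : FreeGroup α → FreeGroup α → Prop) (J : Subgroup (FreeGroup α))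
    (σ : FreeGroup α) (L : ℤ → FreeGroup α) (m i : ℕ) : Prop :=
  i < m ∧ TopE lt J σ L m i ∧ ¬ Top lt J σ L m i

section

variable {lt : FreeGroup α → FreeGroup α → Prop} {J : Subgroup (FreeGroup α)}
  {σ : FreeGroup α} {L : ℤ → FreeGroup α} {m : ℕ}

/-- a top vertex has top edges -/
theorem Top.edge_left {i : ℕ} (h : Top lt J σ L m i) (hi : i < m) : TopE lt J σ L m i := by
  intro j hj b hb he
  rcases he with ⟨h1, _⟩ | ⟨h1, _⟩
  · exact h j hj b hb.le h1
  · exact h j hj (b + 1) hb (by push_cast; exact h1)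

theorem Top.edge_right {i : ℕ} (h : Top lt J σ L m (i + 1)) (hi : i < m) :
    TopE lt J σ L m i := by
  intro j hj b hb he
  rcases he with ⟨_, h1⟩ | ⟨_, h1⟩
  · exact h j hj (b + 1) hb (by push_cast; exact h1)
  · exact h j hj b hb.le (by push_cast; exact h1)

/-- A finite nonempty set has an element with maximal value. -/
private theorem exists_max_aux {β : Type*} {G : Type*} [Group G] {lt : G → G → Prop}
    (hO : COrd G lt) (f : β → G) {T : Set β} (hT : T.Finite) (hne : T.Nonempty) :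
    ∃ a ∈ T, ∀ b ∈ T, ¬ lt (f a) (f b) := by
  induction T, hT using Set.Finite.induction_on with
  | empty => exact absurd hne Set.not_nonempty_empty
  | @insert a T _ _ ih =>
    rcases T.eq_empty_or_nonempty with rfl | hT'
    · refine ⟨a, Set.mem_insert _ _, ?_⟩
      intro b hb
      rcases hb with rfl | hb
      · exact hO.irrefl _
      · exact absurd hb (Set.notMem_empty _)
    · obtain ⟨c, hc, hc'⟩ := ih hT'
      by_cases hac : lt (f c) (f a)
      · refine ⟨a, Set.mem_insert _ _, ?_⟩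
        intro b hb hlt
        rcases hb with rfl | hb
        · exact hO.irrefl _ hlt
        · exact hc' b hb (hO.trans _ _ _ hac hlt)
      · refine ⟨c, Set.mem_insert_of_mem _ hc, ?_⟩
        intro b hb hlt
        rcases hb with rfl | hb
        · exact hac hlt
        · exact hc' b hb hlt

private theorem conj_conj_aux (hO : COrd (FreeGroup α) lt) {j j' : FreeGroup α}
    (h : lt σ (j' * σ * j'⁻¹)) : lt (j * σ * j⁻¹) ((j * j') * σ * (j * j')⁻¹) := by
  have := hO.conj _ _ j h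
  have e : j * (j' * σ * j'⁻¹) * j⁻¹ = (j * j') * σ * (j * j')⁻¹ := by group
  rwa [e] at this

/-- tops exist: the maximum of the finitely many conjugates `j σ j⁻¹`, `j L b = L i`. -/
theorem exists_top_rep (hO : COrd (FreeGroup α) lt) (hL : IsLine σ L) {i : ℕ} (hi : i ≤ m) :
    ∃ j ∈ J, ∃ b : ℕ, b ≤ m ∧ L i = j * L b ∧ Top lt J σ L m b := by
  have hfin : {j : FreeGroup α | j ∈ J ∧ ∃ b : ℕ, b ≤ m ∧ L i = j * L b}.Finite := by
    refine ((Finset.range (m + 1)).finite_toSet.image fun b : ℕ => L i * (L b)⁻¹).subset ?_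
    rintro j ⟨-, b, hb, hj⟩
    refine ⟨b, ?_, ?_⟩
    · simp only [Finset.coe_range, Set.mem_Iio]; omega
    · simp only [hj]; group
  have hne : {j : FreeGroup α | j ∈ J ∧ ∃ b : ℕ, b ≤ m ∧ L i = j * L b}.Nonempty :=
    ⟨1, J.one_mem, i, hi, by simp⟩
  obtain ⟨j, ⟨hj, b, hb, hjb⟩, hmax⟩ := exists_max_aux hO (fun j => j * σ * j⁻¹) hfin hne
  refine ⟨j, hj, b, hb, hjb, ?_⟩
  intro j' hj' b' hb' h' hlt
  refine hmax (j * j') ⟨J.mul_mem hj hj', b', hb', ?_⟩ (conj_conj_aux hO hlt)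
  rw [hjb, h', mul_assoc]

private theorem edgeRel_trans {j j' : FreeGroup α} {e e' e'' : FreeGroup α × FreeGroup α}
    (h : EdgeRel j e' e'') (h' : EdgeRel j' e e') : EdgeRel (j * j') e e'' := by
  rcases h with ⟨h1, h2⟩ | ⟨h1, h2⟩ <;> rcases h' with ⟨h3, h4⟩ | ⟨h3, h4⟩
  · left; rw [h1, h2, h3, h4]; exact ⟨by group, by group⟩
  · right; rw [h1, h2, h3, h4]; exact ⟨by group, by group⟩
  · right; rw [h1, h2, h3, h4]; exact ⟨by group, by group⟩
  · left; rw [h1, h2, h3, h4]; exact ⟨by group, by group⟩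

theorem exists_topE_rep (hO : COrd (FreeGroup α) lt) (hL : IsLine σ L) {i : ℕ} (hi : i < m) :
    ∃ j ∈ J, ∃ b : ℕ, b < m ∧ EdgeRel j (L b, L (b + 1)) (L i, L (i + 1)) ∧
      TopE lt J σ L m b := by
  have hfin : {j : FreeGroup α | j ∈ J ∧ ∃ b : ℕ, b < m ∧
      EdgeRel j (L b, L (b + 1)) (L i, L (i + 1))}.Finite := by
    refine ((Finset.range (m + 2)).finite_toSet.image fun b : ℕ => L i * (L b)⁻¹).subset ?_
    rintro j ⟨-, b, hb, hj⟩
    rcases hj with ⟨hj, _⟩ | ⟨hj, _⟩
    · refine ⟨b, ?_, ?_⟩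
      · simp only [Finset.coe_range, Set.mem_Iio]; omega
      · simp only [] at hj
        simp only [hj]; group
    · refine ⟨b + 1, ?_, ?_⟩
      · simp only [Finset.coe_range, Set.mem_Iio]; omega
      · simp only [] at hj
        simp only [hj]; push_cast; group
  have hne : {j : FreeGroup α | j ∈ J ∧ ∃ b : ℕ, b < m ∧
      EdgeRel j (L b, L (b + 1)) (L i, L (i + 1))}.Nonempty :=
    ⟨1, J.one_mem, i, hi, Or.inl ⟨by simp, by simp⟩⟩
  obtain ⟨j, ⟨hj, b, hb, hjb⟩, hmax⟩ := exists_max_aux hO (fun j => j * σ * j⁻¹) hfin hne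
  refine ⟨j, hj, b, hb, hjb, ?_⟩
  intro j' hj' b' hb' h' hlt
  exact hmax (j * j') ⟨J.mul_mem hj hj', b', hb', edgeRel_trans hjb h'⟩ (conj_conj_aux hO hlt)

private theorem commute_aux (hO : COrd (FreeGroup α) lt) {j : FreeGroup α}
    (h1 : ¬ lt σ (j * σ * j⁻¹)) (h2 : ¬ lt (j * σ * j⁻¹) σ) : Commute j σ := by
  by_contra hc
  have hne : σ ≠ j * σ * j⁻¹ := by
    intro h
    apply hc
    show j * σ = σ * j
    calc j * σ = (j * σ * j⁻¹) * j := by group
      _ = σ * j := by rw [← h]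
  rcases hO.total _ _ hne with h | h
  · exact h1 h
  · exact h2 h

private theorem flip_aux (hO : COrd (FreeGroup α) lt) {j : FreeGroup α}
    (h : ¬ lt σ (j⁻¹ * σ * j⁻¹⁻¹)) : ¬ lt (j * σ * j⁻¹) σ := by
  intro hlt
  apply h
  have := hO.conj _ _ j⁻¹ hlt
  have e : j⁻¹ * (j * σ * j⁻¹) * j⁻¹⁻¹ = σ := by group
  rwa [e] at this

/-- tops are unique -/
theorem top_unique (hO : COrd (FreeGroup α) lt) (hJ : ∀ j ∈ J, Commute j σ → j = 1)
    (hL : IsLine σ L) {i b : ℕ} (hi : i ≤ m) (hb : b ≤ m) (h1 : Top lt J σ L m i)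
    (h2 : Top lt J σ L m b) {j : FreeGroup α} (hj : j ∈ J) (h : L i = j * L b) : i = b := by
  have h3 := h1 j hj b hb h
  have h4 := h2 j⁻¹ (J.inv_mem hj) i hi (by rw [h]; group)
  have h5 := hJ j hj (commute_aux hO h3 (flip_aux hO h4))
  rw [h5, one_mul] at h
  exact_mod_cast hL.inj h

theorem topE_unique (hO : COrd (FreeGroup α) lt) (hJ : ∀ j ∈ J, Commute j σ → j = 1)
    (hL : IsLine σ L) {i b : ℕ} (hi : i < m) (hb : b < m) (h1 : TopE lt J σ L m i)
    (h2 : TopE lt J σ L m b) {j : FreeGroup α} (hj : j ∈ J)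
    (h : EdgeRel j (L b, L (b + 1)) (L i, L (i + 1))) : i = b := by
  have h3 := h1 j hj b hb h
  have h' : EdgeRel j⁻¹ (L i, L (i + 1)) (L b, L (b + 1)) := by
    rcases h with ⟨ha, hb⟩ | ⟨ha, hb⟩
    · left
      simp only [] at ha hb ⊢
      rw [ha, hb]
      exact ⟨by group, by group⟩
    · right
      simp only [] at ha hb ⊢
      rw [ha, hb]
      exact ⟨by group, by group⟩
  have h4 := h2 j⁻¹ (J.inv_mem hj) i hi h'
  have h5 := hJ j hj (commute_aux hO h3 (flip_aux hO h4))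
  rw [h5] at h
  rcases h with ⟨ha, _⟩ | ⟨ha, hb⟩
  · simp only [one_mul] at ha
    exact_mod_cast hL.inj ha
  · simp only [one_mul] at ha hb
    have e1 := hL.inj ha
    have e2 := hL.inj hb
    omega

end

open Classical in
/-- at most `|S|` starts: `E0 = {(L i, L (i+1)) : TopE i}` and `V0 = {L i : Top i}` satisfy the
hypotheses of `chi`, and `i < m`, `Top i` implies `TopE i`. -/
theorem starts_card {lt : FreeGroup α → FreeGroup α → Prop} (hO : COrd (FreeGroup α) lt)
    (S : Finset (FreeGroup α)) {σ : FreeGroup α} {L : ℤ → FreeGroup α} (hL : IsLine σ L)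
    (hJ : ∀ j ∈ Subgroup.closure (S : Set (FreeGroup α)), Commute j σ → j = 1) (m : ℕ) :
    ((Finset.range m).filter
      (Start lt (Subgroup.closure (S : Set (FreeGroup α))) σ L m)).card ≤ S.card := by
  set J := Subgroup.closure (S : Set (FreeGroup α)) with hJdef
  set IE := (Finset.range m).filter (TopE lt J σ L m) with hIE
  set IV := (Finset.range (m + 1)).filter (Top lt J σ L m) with hIV
  set IV' := (Finset.range m).filter (Top lt J σ L m) with hIV'
  have hinj : Function.Injective fun i : ℕ => L (i : ℤ) := by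
    intro a b hab
    exact_mod_cast hL.inj hab
  have hinj2 : Function.Injective fun i : ℕ => (L (i : ℤ), L ((i : ℤ) + 1)) := by
    intro a b hab
    exact hinj (congrArg Prod.fst hab)
  have hchi := chi S (IE.image fun i : ℕ => (L (i : ℤ), L ((i : ℤ) + 1)))
    (by
      intro e he
      obtain ⟨i, -, rfl⟩ := Finset.mem_image.mp he
      have := hL.iso i (i + 1)
      simp only []
      rw [this]
      omega)
    (by
      intro e he e' he' j hj hr
      obtain ⟨i, hi, rfl⟩ := Finset.mem_image.mp he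
      obtain ⟨b, hb, rfl⟩ := Finset.mem_image.mp he'
      rw [hIE, Finset.mem_filter, Finset.mem_range] at hi hb
      have := topE_unique hO hJ hL hb.1 hi.1 hb.2 hi.2 hj hr
      rw [this])
    (IV.image fun i : ℕ => L (i : ℤ))
    (by
      obtain ⟨j, -, b, hb, -, hb'⟩ := exists_top_rep (J := J) (m := m) hO hL (Nat.zero_le m)
      refine ⟨L b, Finset.mem_image.mpr ⟨b, ?_, rfl⟩⟩
      rw [hIV, Finset.mem_filter, Finset.mem_range]
      exact ⟨by omega, hb'⟩)
    (by
      intro e he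
      obtain ⟨i, hi, rfl⟩ := Finset.mem_image.mp he
      rw [hIE, Finset.mem_filter, Finset.mem_range] at hi
      constructor
      · obtain ⟨j, hj, b, hb, hjb, hb'⟩ := exists_top_rep (J := J) (m := m) hO hL hi.1.le
        refine ⟨L b, Finset.mem_image.mpr ⟨b, ?_, rfl⟩, j, hj, hjb⟩
        rw [hIV, Finset.mem_filter, Finset.mem_range]
        exact ⟨by omega, hb'⟩
      · obtain ⟨j, hj, b, hb, hjb, hb'⟩ :=
          exists_top_rep (J := J) (m := m) hO hL (i := i + 1) hi.1
        refine ⟨L b, Finset.mem_image.mpr ⟨b, ?_, rfl⟩, j, hj, ?_⟩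
        · rw [hIV, Finset.mem_filter, Finset.mem_range]
          exact ⟨by omega, hb'⟩
        · push_cast at hjb
          exact hjb)
  rw [Finset.card_image_of_injective _ hinj, Finset.card_image_of_injective _ hinj2] at hchi
  have h1 : IV.card ≤ IV'.card + 1 := by
    have : IV ⊆ insert m IV' := by
      intro i hi
      rw [hIV, Finset.mem_filter, Finset.mem_range] at hi
      rw [Finset.mem_insert, hIV', Finset.mem_filter, Finset.mem_range]
      rcases Nat.lt_or_ge i m with h | h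
      · right; exact ⟨h, hi.2⟩
      · left; omega
    exact (Finset.card_le_card this).trans (Finset.card_insert_le _ _)
  have h2 : ((Finset.range m).filter (Start lt J σ L m)).card + IV'.card ≤ IE.card := by
    rw [← Finset.card_union_of_disjoint]
    · apply Finset.card_le_card
      intro i hi
      rw [Finset.mem_union, Finset.mem_filter, hIV', Finset.mem_filter] at hi
      rw [hIE, Finset.mem_filter]
      rcases hi with hi | hi
      · exact ⟨hi.1, hi.2.2.1⟩
      · exact ⟨hi.1, hi.2.edge_left (Finset.mem_range.mp hi.1)⟩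
    · rw [Finset.disjoint_left]
      intro i hi hi'
      rw [Finset.mem_filter] at hi
      rw [hIV', Finset.mem_filter] at hi'
      exact hi.2.2.2 hi'.2
  omega

private theorem period_aux {σ : FreeGroup α} {L : ℤ → FreeGroup α} (hL : IsLine σ L) (k n : ℤ) :
    (L (k + n * tl σ))⁻¹ * σ * L (k + n * tl σ) = (L k)⁻¹ * σ * L k := by
  rw [← hL.zpow n k]
  group

/-- among `tl σ` consecutive visits one is top: the one maximising `(L i)⁻¹ σ (L i)`. -/
theorem exists_top_in {lt : FreeGroup α → FreeGroup α → Prop} (hO : COrd (FreeGroup α) lt)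
    (J : Subgroup (FreeGroup α)) {σ : FreeGroup α} (hσ : σ ≠ 1) {L : ℤ → FreeGroup α}
    (hL : IsLine σ L) {m u : ℕ} (hu : u + tl σ ≤ m + 1) :
    ∃ i, u ≤ i ∧ i < u + tl σ ∧ Top lt J σ L m i := by
  have hpos := tl_pos hσ
  obtain ⟨i, hi, hmax⟩ := exists_max_aux hO (fun i : ℕ => (L (i : ℤ))⁻¹ * σ * L (i : ℤ))
    (Finset.Ico u (u + tl σ)).finite_toSet ⟨u, by simp only [Finset.coe_Ico, Set.mem_Ico]; omega⟩
  simp only [Finset.coe_Ico, Set.mem_Ico] at hi hmax
  refine ⟨i, hi.1, hi.2, ?_⟩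
  intro j hj b hb hjb hlt
  -- a representative of `b` in the window
  set t : ℤ := ((tl σ : ℕ) : ℤ) with ht
  have htpos : 0 < t := by rw [ht]; exact_mod_cast hpos
  set c : ℤ := (u : ℤ) + ((b : ℤ) - u) % t with hc
  have hc1 : (u : ℤ) ≤ c := by
    have := Int.emod_nonneg ((b : ℤ) - u) htpos.ne'
    omega
  have hc2 : c < u + t := by
    have := Int.emod_lt_of_pos ((b : ℤ) - u) htpos
    omega
  obtain ⟨b', hb'⟩ : ∃ b' : ℕ, (b' : ℤ) = c := ⟨c.toNat, Int.toNat_of_nonneg (by omega)⟩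
  have hcb : (b' : ℤ) = b + (-(((b : ℤ) - u) / t)) * t := by
    rw [hb', hc]
    have := Int.emod_add_mul_ediv ((b : ℤ) - u) t
    linarith
  have hval : (L (b' : ℤ))⁻¹ * σ * L (b' : ℤ) = (L (b : ℤ))⁻¹ * σ * L (b : ℤ) := by
    rw [hcb]
    exact period_aux hL _ _
  refine hmax b' ⟨by omega, by omega⟩ ?_
  rw [hval]
  have h1 := hO.conj _ _ (L (i : ℤ))⁻¹ hlt
  have e1 : (L (i : ℤ))⁻¹ * σ * (L (i : ℤ))⁻¹⁻¹ = (L (i : ℤ))⁻¹ * σ * L (i : ℤ) := by group
  have e2 : (L (i : ℤ))⁻¹ * (j * σ * j⁻¹) * (L (i : ℤ))⁻¹⁻¹ =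
      (L (b : ℤ))⁻¹ * σ * L (b : ℤ) := by
    rw [hjb]; group
  rwa [e1, e2] at h1

/-- no starts in `[u, v)` implies that all visits in `[u, v - tl σ]` are top. -/
theorem top_of_no_start {lt : FreeGroup α → FreeGroup α → Prop} (hO : COrd (FreeGroup α) lt)
    (J : Subgroup (FreeGroup α)) {σ : FreeGroup α} (hσ : σ ≠ 1) {L : ℤ → FreeGroup α}
    (hL : IsLine σ L) {m u v : ℕ} (hv : v ≤ m)
    (hno : ∀ i, u ≤ i → i < v → ¬ Start lt J σ L m i) {i : ℕ} (h1 : u ≤ i)
    (h2 : i + tl σ ≤ v) : Top lt J σ L m i := by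
  obtain ⟨k, hk1, hk2, hk3⟩ := exists_top_in hO J hσ hL (m := m) (u := i) (by omega)
  obtain ⟨n, rfl⟩ := Nat.exists_eq_add_of_le hk1
  clear hk1
  induction n with
  | zero => exact hk3
  | succ n ih =>
    apply ih (by omega)
    by_contra hT
    refine hno (i + n) (by omega) (by omega) ⟨by omega, ?_, hT⟩
    exact Top.edge_right hk3 (by omega)

/-- top and bottom: the visit is the only one. -/
theorem alone_of_top_bot {lt : FreeGroup α → FreeGroup α → Prop} (hO : COrd (FreeGroup α) lt)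
    {J : Subgroup (FreeGroup α)} {σ : FreeGroup α} {L : ℤ → FreeGroup α}
    (hJ : ∀ j ∈ J, Commute j σ → j = 1) {m i : ℕ} (h1 : Top lt J σ L m i)
    (h2 : Top (fun a b => lt b a) J σ L m i) :
    ∀ j ∈ J, ∀ b : ℕ, b ≤ m → L i = j * L b → j = 1 := by
  intro j hj b hb h
  exact hJ j hj (commute_aux hO (h1 j hj b hb h) (h2 j hj b hb h))

end Pool.Agent.H28.UE
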