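import Pool.Agent.H28.UE.Inj

set_option autoImplicit false

/-!
JOB UE-UA (units of the inverse monoid: relations).

`Q` a monoid with a homomorphism `q` from the free monoid on the letters and their formal inverses,
`q` surjective not needed: everything happens in the image. Write `g* = q (winv w)` for `g = q w`.
`h1`: `g g* g = g` (and `g* g g* = g*`, `winv (winv w) = w`, `winv (v w) = winv w winv v`), so
`g g*` is idempotent; `h2`: the elements `g g*` (also `g* g`) commute with each other.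
(1) `q (rr M p) = e_1 ⋯ e_10 R = 1` with idempotents `e_i = g_i g_i*` (`g_i` = `q` of
`wX, winv wX, wY, ...`) and `R = q (lt * (omW M (la*la) lb (la*lb*la'))^p * lt')`. `e_1 = e_1 * 1 =
e_1 e_1 ⋯ = 1`, then `e_2 = 1`, ..., finally `R = 1`. So `q wX` etc. are units with inverses
`q (winv wX)` etc.
(2) Lemma. Let `z z* = 1` and let `g` be such that `z g z*` has inverse `z g* z*`. Then
`z g z* z = z g` and `z g* z* z = z g*`. [From `z g z* z g* z* = 1` multiply by `z` on the right; the
idempotents `g z* z g*` and `z* z` commute and `z z* z = z`: `z g z* z g* = z`; multiply by `g` on the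
right and commute `z* z` with `g* g`: `z g z* z = z g`. The second statement is symmetric.]
(3) `t t* = 1`: multiply `(q wX)(q wX)* = 1` by `t t*` on the left (`t t* t = t`). `z = s t`:
`z z* = 1` follows in the same way from `(q wA)(q wA)* = 1` and `wA = ls * lt * ...`:
`(s t)(s t)* (s t) = s t`.
(4) For `z = t` and `g ∈ {a a, b, a b a*}` (units `X, Y, Z`): `omW M X Y Z = t (omW M (aa) b (aba*)) t*`
in `Q` (the set of `g` with `t g t* t = t g` is a submonoid and `g ↦ t g t*` is multiplicative on it),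
so `(omW M X Y Z) ^ p = R = 1`: `j2 (om M ^ p) = 1`.
(5) For `z = s t` and `g ∈ {a, a*, b}` (units `A, A⁻¹, B`):
`omW M (A A) B (A B A⁻¹) = z (omW M (aa) b (a b a*)) z*`, so its `p`-th power is
`s (t (omW ..)^p t*) s* = s s* = 1` (`s s* = 1` since `s s* = s (t t*) s* = z z*`).
-/

namespace Pool.Agent.H28.UE

/-- formal inverse of a word -/
def winv {A : Type*} (w : FreeMonoid (A ⊕ A)) : FreeMonoid (A ⊕ A) :=
  FreeMonoid.ofList ((FreeMonoid.toList w).reverse.map Sum.swap)

/-- the defining relations of the inverse monoid -/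
def IRel {A : Type*} (r x y : FreeMonoid (A ⊕ A)) : Prop :=
  (∃ w : FreeMonoid (A ⊕ A), x = w * winv w * w ∧ y = w) ∨
    (∃ u v : FreeMonoid (A ⊕ A), x = u * winv u * v * winv v ∧ y = v * winv v * u * winv u) ∨
      (x = r ∧ y = 1)

/-- letters -/
def la : FreeMonoid (Fin 4 ⊕ Fin 4) := FreeMonoid.of (Sum.inl 0)
def la' : FreeMonoid (Fin 4 ⊕ Fin 4) := FreeMonoid.of (Sum.inr 0)
def lb : FreeMonoid (Fin 4 ⊕ Fin 4) := FreeMonoid.of (Sum.inl 1)
def lb' : FreeMonoid (Fin 4 ⊕ Fin 4) := FreeMonoid.of (Sum.inr 1)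
def ls : FreeMonoid (Fin 4 ⊕ Fin 4) := FreeMonoid.of (Sum.inl 2)
def ls' : FreeMonoid (Fin 4 ⊕ Fin 4) := FreeMonoid.of (Sum.inr 2)
def lt : FreeMonoid (Fin 4 ⊕ Fin 4) := FreeMonoid.of (Sum.inl 3)
def lt' : FreeMonoid (Fin 4 ⊕ Fin 4) := FreeMonoid.of (Sum.inr 3)

def wX : FreeMonoid (Fin 4 ⊕ Fin 4) := lt * la * la * lt'
def wY : FreeMonoid (Fin 4 ⊕ Fin 4) := lt * lb * lt'
def wZ : FreeMonoid (Fin 4 ⊕ Fin 4) := lt * la * lb * la' * lt'
def wA : FreeMonoid (Fin 4 ⊕ Fin 4) := ls * lt * la * lt' * ls'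
def wB : FreeMonoid (Fin 4 ⊕ Fin 4) := ls * lt * lb * lt' * ls'

/-- `w w⁻¹` -/
def sq (w : FreeMonoid (Fin 4 ⊕ Fin 4)) : FreeMonoid (Fin 4 ⊕ Fin 4) := w * winv w

/-- the defining word of the inverse monoid -/
def rr (M p : ℕ) : FreeMonoid (Fin 4 ⊕ Fin 4) :=
  sq wX * sq (winv wX) * sq wY * sq (winv wY) * sq wZ * sq (winv wZ) * sq wA * sq (winv wA) *
    sq wB * sq (winv wB) * (lt * omW M (la * la) lb (la * lb * la') ^ p * lt')

theorem winv_mul {A : Type*} (v w : FreeMonoid (A ⊕ A)) : winv (v * w) = winv w * winv v := by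
  unfold winv
  rw [FreeMonoid.toList_mul, List.reverse_append, List.map_append, FreeMonoid.ofList_append]

theorem winv_winv {A : Type*} (w : FreeMonoid (A ⊕ A)) : winv (winv w) = w := by
  unfold winv
  rw [FreeMonoid.toList_ofList]
  simp only [List.map_reverse, List.reverse_reverse, List.map_map]
  have : (Sum.swap ∘ Sum.swap : A ⊕ A → A ⊕ A) = id := by
    funext x
    cases x <;> rfl
  rw [this, List.map_id, FreeMonoid.ofList_toList]

theorem winv_one {A : Type*} : winv (1 : FreeMonoid (A ⊕ A)) = 1 := by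
  rfl

theorem winv_inl {A : Type*} (a : A) :
    winv (FreeMonoid.of (Sum.inl a) : FreeMonoid (A ⊕ A)) = FreeMonoid.of (Sum.inr a) := by
  rfl

theorem winv_inr {A : Type*} (a : A) :
    winv (FreeMonoid.of (Sum.inr a) : FreeMonoid (A ⊕ A)) = FreeMonoid.of (Sum.inl a) := by
  rfl

namespace UA

section pairs

variable {Q : Type*} [Monoid Q] {q : FreeMonoid (Fin 4 ⊕ Fin 4) →* Q}

/-- `g'` is the formal inverse of `g`. -/
def Pr (q : FreeMonoid (Fin 4 ⊕ Fin 4) →* Q) (g g' : Q) : Prop :=
  ∃ w, q w = g ∧ q (winv w) = g'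

theorem Pr.mul {g g' h h' : Q} (hg : Pr q g g') (hh : Pr q h h') : Pr q (g * h) (h' * g') := by
  obtain ⟨v, rfl, rfl⟩ := hg
  obtain ⟨w, rfl, rfl⟩ := hh
  exact ⟨v * w, map_mul _ _ _, by rw [winv_mul, map_mul]⟩

theorem Pr.symm {g g' : Q} (hg : Pr q g g') : Pr q g' g := by
  obtain ⟨v, rfl, rfl⟩ := hg
  exact ⟨winv v, rfl, by rw [winv_winv]⟩

theorem Pr.reg (h1 : ∀ w, q (w * winv w * w) = q w) {g g' : Q} (hg : Pr q g g') :
    g * g' * g = g := by
  obtain ⟨v, rfl, rfl⟩ := hg
  have := h1 v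
  rw [map_mul, map_mul] at this
  exact this

theorem Pr.comm (h2 : ∀ u v, q (u * winv u * v * winv v) = q (v * winv v * u * winv u))
    {g g' h h' : Q} (hg : Pr q g g') (hh : Pr q h h') : g * g' * (h * h') = h * h' * (g * g') := by
  obtain ⟨v, rfl, rfl⟩ := hg
  obtain ⟨w, rfl, rfl⟩ := hh
  have := h2 v w
  simp only [map_mul] at this
  simp only [← mul_assoc]
  exact this

/-- The key lemma. -/
theorem key (h1 : ∀ w, q (w * winv w * w) = q w)
    (h2 : ∀ u v, q (u * winv u * v * winv v) = q (v * winv v * u * winv u))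
    {z z' g g' : Q} (hz : Pr q z z') (hg : Pr q g g')
    (h : (z * g * z') * (z * g' * z') = 1) : z * g * z' * z = z * g := by
  -- the idempotents `f = (g z')(z g')` and `e = z' z`
  have hf : Pr q (g * z') (z * g') := hg.mul hz.symm
  have he : Pr q z' z := hz.symm
  have hc := Pr.comm h2 hf he
  have hreg := hz.reg h1
  have e1 : z = z * g * z' * z * g' := by
    calc z = 1 * z := (one_mul z).symm
      _ = (z * g * z') * (z * g' * z') * z := by rw [h]
      _ = z * (g * z' * (z * g') * (z' * z)) := by simp only [mul_assoc]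
      _ = z * (z' * z * (g * z' * (z * g'))) := by rw [hc]
      _ = (z * z' * z) * (g * z' * (z * g')) := by simp only [mul_assoc]
      _ = z * g * z' * z * g' := by rw [hreg]; simp only [mul_assoc]
  have hc2 := Pr.comm h2 hz.symm hg.symm
  calc z * g * z' * z = z * (g * g' * g) * (z' * z) := by
        rw [hg.reg h1]; simp only [mul_assoc]
    _ = z * g * (g' * g * (z' * z)) := by simp only [mul_assoc]
    _ = z * g * (z' * z * (g' * g)) := by rw [hc2]
    _ = (z * g * z' * z * g') * g := by simp only [mul_assoc]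
    _ = z * g := by rw [← e1]

/-- The submonoid of the elements `g` with `z g z' z = z g`. -/
def Nz (z z' : Q) (hz : z * z' = 1) : Submonoid Q where
  carrier := {g | z * g * z' * z = z * g}
  one_mem' := by
    show z * 1 * z' * z = z * 1
    rw [mul_one, hz, one_mul]
  mul_mem' := by
    intro g h hg hh
    have hg' : z * g * z' * z = z * g := hg
    have hh' : z * h * z' * z = z * h := hh
    have e : z * (g * h) = z * g * z' * (z * h) := by
      calc z * (g * h) = z * g * h := (mul_assoc _ _ _).symm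
        _ = z * g * z' * z * h := by rw [hg']
        _ = z * g * z' * (z * h) := by simp only [mul_assoc]
    show z * (g * h) * z' * z = z * (g * h)
    rw [e]
    calc z * g * z' * (z * h) * z' * z = z * g * z' * (z * h * z' * z) := by
          simp only [mul_assoc]
      _ = z * g * z' * (z * h) := by rw [hh']

/-- Conjugation by `z`. -/
def th (z z' : Q) (hz : z * z' = 1) : Nz z z' hz →* Q where
  toFun g := z * g.1 * z'
  map_one' := by
    show z * 1 * z' = 1
    rw [mul_one, hz]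
  map_mul' := by
    rintro ⟨g, hg⟩ ⟨h, hh⟩
    have hg' : z * g * z' * z = z * g := hg
    show z * (g * h) * z' = z * g * z' * (z * h * z')
    calc z * (g * h) * z' = z * g * h * z' := by simp only [mul_assoc]
      _ = z * g * z' * z * h * z' := by rw [hg']
      _ = z * g * z' * (z * h * z') := by simp only [mul_assoc]

theorem th_omW (z z' : Q) (hz : z * z' = 1) {g1 g2 g3 : Q} (m1 : z * g1 * z' * z = z * g1)
    (m2 : z * g2 * z' * z = z * g2) (m3 : z * g3 * z' * z = z * g3) (M p : ℕ) :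
    omW M (z * g1 * z') (z * g2 * z') (z * g3 * z') ^ p = z * (omW M g1 g2 g3) ^ p * z' := by
  have e1 := map_omW (th z z' hz) M (⟨g1, m1⟩ : Nz z z' hz) ⟨g2, m2⟩ ⟨g3, m3⟩
  have e2 := map_omW (Nz z z' hz).subtype M (⟨g1, m1⟩ : Nz z z' hz) ⟨g2, m2⟩ ⟨g3, m3⟩
  have e3 : omW M (z * g1 * z') (z * g2 * z') (z * g3 * z') =
      th z z' hz (omW M (⟨g1, m1⟩ : Nz z z' hz) ⟨g2, m2⟩ ⟨g3, m3⟩) := e1.symm
  rw [e3, ← map_pow]
  show z * ((Nz z z' hz).subtype
    (omW M (⟨g1, m1⟩ : Nz z z' hz) ⟨g2, m2⟩ ⟨g3, m3⟩ ^ p)) * z' = _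
  rw [map_pow, e2]
  rfl

/-- Cancelling an idempotent. -/
theorem idem_cancel {e r : Q} (he : e * e = e) (h : e * r = 1) : e = 1 ∧ r = 1 := by
  have h1 : e = 1 := by
    calc e = e * (e * r) := by rw [h, mul_one]
      _ = e * e * r := (mul_assoc _ _ _).symm
      _ = e * r := by rw [he]
      _ = 1 := h
  refine ⟨h1, ?_⟩
  rw [h1, one_mul] at h
  exact h

theorem sq_idem (h1 : ∀ w, q (w * winv w * w) = q w) (w : FreeMonoid (Fin 4 ⊕ Fin 4)) :
    q (sq w) * q (sq w) = q (sq w) := by
  unfold sq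
  rw [map_mul]
  have := (show Pr q (q w) (q (winv w)) from ⟨w, rfl, rfl⟩).reg h1
  calc q w * q (winv w) * (q w * q (winv w)) = (q w * q (winv w) * q w) * q (winv w) := by
        simp only [mul_assoc]
    _ = q w * q (winv w) := by rw [this]

end pairs

end UA

open UA in
theorem units_homs (M p : ℕ) {Q : Type*} [Monoid Q] (q : FreeMonoid (Fin 4 ⊕ Fin 4) →* Q)
    (h1 : ∀ w, q (w * winv w * w) = q w)
    (h2 : ∀ u v, q (u * winv u * v * winv v) = q (v * winv v * u * winv u))
    (h3 : q (rr M p) = 1) :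
    ∃ (j1 : FreeGroup (Fin 2) →* Qˣ) (j2 : FreeGroup (Fin 3) →* Qˣ),
      (j1 (FreeGroup.of 0) : Q) = q wA ∧ (j1 (FreeGroup.of 1) : Q) = q wB ∧
      (j2 (FreeGroup.of 0) : Q) = q wX ∧ (j2 (FreeGroup.of 1) : Q) = q wY ∧
      (j2 (FreeGroup.of 2) : Q) = q wZ ∧ j1 (ww M ^ p) = 1 ∧ j2 (om M ^ p) = 1 := by
  -- all idempotents are trivial
  have h4 : q (sq wX) * (q (sq (winv wX)) * (q (sq wY) * (q (sq (winv wY)) * (q (sq wZ) *
      (q (sq (winv wZ)) * (q (sq wA) * (q (sq (winv wA)) * (q (sq wB) * (q (sq (winv wB)) *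
      q (lt * omW M (la * la) lb (la * lb * la') ^ p * lt')))))))))) = 1 := by
    rw [← h3]
    unfold rr
    simp only [map_mul, mul_assoc]
  obtain ⟨k1, h5⟩ := idem_cancel (sq_idem h1 _) h4
  obtain ⟨k2, h6⟩ := idem_cancel (sq_idem h1 _) h5
  obtain ⟨k3, h7⟩ := idem_cancel (sq_idem h1 _) h6
  obtain ⟨k4, h8⟩ := idem_cancel (sq_idem h1 _) h7
  obtain ⟨k5, h9⟩ := idem_cancel (sq_idem h1 _) h8
  obtain ⟨k6, h10⟩ := idem_cancel (sq_idem h1 _) h9
  obtain ⟨k7, h11⟩ := idem_cancel (sq_idem h1 _) h10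
  obtain ⟨k8, h12⟩ := idem_cancel (sq_idem h1 _) h11
  obtain ⟨k9, h13⟩ := idem_cancel (sq_idem h1 _) h12
  obtain ⟨k10, hR⟩ := idem_cancel (sq_idem h1 _) h13
  -- the letters
  have pa : Pr q (q la) (q la') := ⟨la, rfl, rfl⟩
  have pb : Pr q (q lb) (q lb') := ⟨lb, rfl, rfl⟩
  have ps : Pr q (q ls) (q ls') := ⟨ls, rfl, rfl⟩
  have pt : Pr q (q lt) (q lt') := ⟨lt, rfl, rfl⟩
  set a := q la
  set a' := q la'
  set b := q lb
  set b' := q lb'
  set s := q ls
  set s' := q ls'
  set t := q lt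
  set t' := q lt'
  have hX : q wX = t * (a * a) * t' := by simp only [wX, map_mul, mul_assoc]; rfl
  have hX' : q (winv wX) = t * (a' * a') * t' := by
    have : winv wX = lt * la' * la' * lt' := rfl
    rw [this]
    simp only [map_mul, mul_assoc]; rfl
  have hY : q wY = t * b * t' := by simp only [wY, map_mul]; rfl
  have hY' : q (winv wY) = t * b' * t' := by
    have : winv wY = lt * lb' * lt' := rfl
    rw [this]
    simp only [map_mul]; rfl
  have hZ : q wZ = t * (a * b * a') * t' := by simp only [wZ, map_mul, mul_assoc]; rfl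
  have hZ' : q (winv wZ) = t * (a * b' * a') * t' := by
    have : winv wZ = lt * la * lb' * la' * lt' := rfl
    rw [this]
    simp only [map_mul, mul_assoc]; rfl
  have hA : q wA = s * t * a * (t' * s') := by simp only [wA, map_mul, mul_assoc]; rfl
  have hA' : q (winv wA) = s * t * a' * (t' * s') := by
    have : winv wA = ls * lt * la' * lt' * ls' := rfl
    rw [this]
    simp only [map_mul, mul_assoc]; rfl
  have hB : q wB = s * t * b * (t' * s') := by simp only [wB, map_mul, mul_assoc]; rfl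
  have hB' : q (winv wB) = s * t * b' * (t' * s') := by
    have : winv wB = ls * lt * lb' * lt' * ls' := rfl
    rw [this]
    simp only [map_mul, mul_assoc]; rfl
  have sqe : ∀ w, q (sq w) = q w * q (winv w) := fun w => map_mul _ _ _
  have sqe' : ∀ w, q (sq (winv w)) = q (winv w) * q w := by
    intro w
    rw [sqe, winv_winv]
  rw [sqe] at k1 k3 k5 k7 k9
  rw [sqe'] at k2 k4 k6 k8 k10
  -- `t t' = 1`
  have htt : t * t' = 1 := by
    calc t * t' = t * t' * (q wX * q (winv wX)) := by rw [k1, mul_one]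
      _ = (t * t' * t) * (a * a * t' * q (winv wX)) := by rw [hX]; simp only [mul_assoc]
      _ = q wX * q (winv wX) := by rw [pt.reg h1, hX]; simp only [mul_assoc]
      _ = 1 := k1
  have pz : Pr q (s * t) (t' * s') := ps.mul pt
  have hzz : s * t * (t' * s') = 1 := by
    calc s * t * (t' * s') = s * t * (t' * s') * (q wA * q (winv wA)) := by rw [k7, mul_one]
      _ = (s * t * (t' * s') * (s * t)) * (a * (t' * s') * q (winv wA)) := by
          rw [hA]; simp only [mul_assoc]
      _ = q wA * q (winv wA) := by rw [pz.reg h1, hA]; simp only [mul_assoc]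
      _ = 1 := k7
  have hss : s * s' = 1 := by
    calc s * s' = s * (t * t') * s' := by rw [htt, mul_one]
      _ = s * t * (t' * s') := by simp only [mul_assoc]
      _ = 1 := hzz
  -- memberships for `z = t`
  have hXX := k1
  rw [hX, hX'] at hXX
  have hYY := k3
  rw [hY, hY'] at hYY
  have hZZ := k5
  rw [hZ, hZ'] at hZZ
  have paa : Pr q (a * a) (a' * a') := pa.mul pa
  have paba : Pr q (a * b * a') (a * b' * a') := by
    have := (pa.mul pb).mul pa.symm
    rw [← mul_assoc] at this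
    exact this
  have mX := key h1 h2 pt paa hXX
  have mY := key h1 h2 pt pb hYY
  have mZ := key h1 h2 pt paba hZZ
  -- memberships for `z = s t`
  have hAA := k7
  rw [hA, hA'] at hAA
  have hAA' := k8
  rw [hA, hA'] at hAA'
  have hBB := k9
  rw [hB, hB'] at hBB
  have nA := key h1 h2 pz pa hAA
  have nA' := key h1 h2 pz pa.symm hAA'
  have nB := key h1 h2 pz pb hBB
  have nmul : ∀ g h, s * t * g * (t' * s') * (s * t) = s * t * g →
      s * t * h * (t' * s') * (s * t) = s * t * h →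
      s * t * (g * h) * (t' * s') * (s * t) = s * t * (g * h) := fun g h hg hh =>
    (Nz (s * t) (t' * s') hzz).mul_mem (x := g) (y := h) hg hh
  have tmul : ∀ g h, s * t * g * (t' * s') * (s * t) = s * t * g →
      s * t * (g * h) * (t' * s') = s * t * g * (t' * s') * (s * t * h * (t' * s')) := by
    intro g h hg
    calc s * t * (g * h) * (t' * s') = (s * t * g) * h * (t' * s') := by simp only [mul_assoc]
      _ = (s * t * g * (t' * s') * (s * t)) * h * (t' * s') := by rw [hg]
      _ = s * t * g * (t' * s') * (s * t * h * (t' * s')) := by simp only [mul_assoc]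
  have nAA := nmul _ _ nA nA
  have nABA := nmul _ _ (nmul _ _ nA nB) nA'
  -- the relations
  have hR' : t * omW M (a * a) b (a * b * a') ^ p * t' = 1 := by
    rw [← hR]
    simp only [map_mul, map_pow, map_omW]
    rfl
  have rel2 : omW M (q wX) (q wY) (q wZ) ^ p = 1 := by
    rw [hX, hY, hZ, th_omW t t' htt mX mY mZ, hR']
  have rel1 : omW M (q wA * q wA) (q wB) (q wA * q wB * q (winv wA)) ^ p = 1 := by
    have e1 : q wA * q wA = s * t * (a * a) * (t' * s') := by
      rw [hA, tmul _ _ nA]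
    have e2 : q wA * q wB * q (winv wA) = s * t * (a * b * a') * (t' * s') := by
      rw [hA, hB, hA', tmul _ _ (nmul _ _ nA nB), tmul _ _ nA]
    rw [e1, e2, hB, th_omW (s * t) (t' * s') hzz nAA nB nABA]
    calc s * t * omW M (a * a) b (a * b * a') ^ p * (t' * s') =
        s * (t * omW M (a * a) b (a * b * a') ^ p * t') * s' := by simp only [mul_assoc]
      _ = 1 := by rw [hR', mul_one, hss]
  -- the homomorphisms
  let uX : Qˣ := ⟨q wX, q (winv wX), k1, k2⟩
  let uY : Qˣ := ⟨q wY, q (winv wY), k3, k4⟩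
  let uZ : Qˣ := ⟨q wZ, q (winv wZ), k5, k6⟩
  let uA : Qˣ := ⟨q wA, q (winv wA), k7, k8⟩
  let uB : Qˣ := ⟨q wB, q (winv wB), k9, k10⟩
  refine ⟨FreeGroup.lift ![uA, uB], FreeGroup.lift ![uX, uY, uZ], ?_, ?_, ?_, ?_, ?_, ?_, ?_⟩
  · simp [uA]
  · simp [uB]
  · simp [uX]
  · simp [uY]
  · simp [uZ]
  · rw [map_pow, ww_eq, map_omW]
    simp only [map_mul, map_inv, FreeGroup.lift_apply_of]
    apply Units.ext
    rw [Units.val_pow_eq_pow_val]
    have e := map_omW (Units.coeHom Q) M (uA * uA) uB (uA * uB * uA⁻¹)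
    simp only [Units.coeHom_apply] at e
    show ((omW M (uA * uA) uB (uA * uB * uA⁻¹) : Qˣ) : Q) ^ p = _
    rw [e]
    exact rel1
  · rw [map_pow, om, map_omW]
    simp only [FreeGroup.lift_apply_of]
    apply Units.ext
    rw [Units.val_pow_eq_pow_val]
    have e := map_omW (Units.coeHom Q) M uX uY uZ
    simp only [Units.coeHom_apply] at e
    show ((omW M uX uY uZ : Qˣ) : Q) ^ p = _
    rw [e]
    exact rel2

end Pool.Agent.H28.UE
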