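import Pool.Agent.H28.UE.UnitsA

set_option autoImplicit false

/-!
JOB UE-UB (representations of the inverse monoid; `P` and `U2` embed into the units).

`rep`: letters act by partial bijections (`PEquiv`, composition `PEquiv.trans`, left factor first; make
`PEquiv Ω Ω` a monoid by a local instance). `e (winv w) = (e w).symm`; `w winv w w = w` and commuting
idempotents hold for partial bijections (`PEquiv.self_trans_symm`: `f.trans f.symm = ofSet _`).
`toP`: homomorphism to the group `P = F2/⟨⟨w^p⟩⟩`: `a ↦ a, b ↦ b, s, t ↦ 1`; all relations hold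
(the image of `rr` is `w ^ p = 1`).
`Ω = U2 × ℕ`, `U2 = F3/⟨⟨ω^p⟩⟩` (right multiplication): `s (g, i) = (g, i+1)`, `t (g, i) = (g, 2 i)`
(partial inverses), `a (g,0) = (g,1)`, `a (g,1) = (g x, 0)`, `b (g,0) = (g y, 0)`, `b (g,1) = (g z, 1)`,
`a, b` fix `(g, i)`, `i ≥ 2` (bijections).
`wX = t a a t⁻¹` acts as `(g,0) ↦ (g x, 0)`, identity on `(g, i)`, `i ≥ 1`; `wY`: `(g,0) ↦ (g y, 0)`;
`wZ = t a b a⁻¹ t⁻¹`: `(g,0) ↦ (g z, 0)`; `wA`, `wB` act as the identity. The word
`t (omW (aa) b (aba⁻¹)) ^ p t⁻¹` acts on `(g,0)` as `(g ω ^ p, 0) = (g, 0)` and as the identity on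
`(g, i)`, `i ≥ 1` (`a a`, `b`, `a b a⁻¹` map `(g, i)`, `i ≥ 2`, to itself). `sq q` for a total bijection
`q` is the identity. So `rr` acts as the identity and the monoid acts.
`units_embed`: `units_homs` for `q = ` the quotient map (`Con.mk'`) give `f1, f2` by
`QuotientGroup.lift` (the kernel is normal and contains the relator). `f1` is injective: compose with
`toP` on units: identity on the generators. `f2` is injective: `f2 u` acts on `(g, 0)` as
`(g u, 0)` (check on generators; two homomorphisms from `FreeGroup (Fin 3)` to the units of the monoid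
of partial bijections), so `f2 u = 1` implies `u = 1`.
-/

namespace Pool.Agent.H28.UE

/-- the inverse monoid -/
abbrev IM (M p : ℕ) : Type := (conGen (IRel (rr M p))).Quotient

namespace UB

/-- `lift` and formal inverses. -/
theorem lift_winv {N : Type*} [Monoid N] (inv : N → N) (i1 : inv 1 = 1)
    (imul : ∀ f g, inv (f * g) = inv g * inv f) (act : Fin 4 ⊕ Fin 4 → N)
    (hact : ∀ c, act (Sum.swap c) = inv (act c)) (w : FreeMonoid (Fin 4 ⊕ Fin 4)) :
    FreeMonoid.lift act (winv w) = inv (FreeMonoid.lift act w) := by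
  induction w using FreeMonoid.inductionOn' with
  | one => rw [winv_one, map_one, i1]
  | of_mul b w ih =>
    have h : winv (FreeMonoid.of b) = FreeMonoid.of (Sum.swap b) := rfl
    rw [winv_mul, map_mul, map_mul, ih, imul, h, FreeMonoid.lift_eval_of, FreeMonoid.lift_eval_of,
      hact]

theorem rep_exists {N : Type*} [Monoid N] (inv : N → N) (i1 : inv 1 = 1)
    (imul : ∀ f g, inv (f * g) = inv g * inv f) (ireg : ∀ f, f * inv f * f = f)
    (icomm : ∀ f g, f * inv f * g * inv g = g * inv g * f * inv f)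
    (act : Fin 4 ⊕ Fin 4 → N) (hact : ∀ c, act (Sum.swap c) = inv (act c)) (M p : ℕ)
    (hrr : FreeMonoid.lift act (rr M p) = 1) :
    ∃ ρ : IM M p →* N, ∀ w, ρ (Con.mk' (conGen (IRel (rr M p))) w) = FreeMonoid.lift act w := by
  have hw := lift_winv inv i1 imul act hact
  refine ⟨Con.lift _ (FreeMonoid.lift act) ?_, fun w => Con.lift_mk' _ w⟩
  rw [Con.conGen_le]
  intro x y hxy
  rw [Con.ker_rel]
  rcases hxy with ⟨w, rfl, rfl⟩ | ⟨u, v, rfl, rfl⟩ | ⟨rfl, rfl⟩
  · rw [map_mul, map_mul, hw, ireg]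
  · simp only [map_mul, hw]
    exact icomm _ _
  · rw [hrr, map_one]

theorem lift_sq {N : Type*} [Monoid N] (act : Fin 4 ⊕ Fin 4 → N)
    (w : FreeMonoid (Fin 4 ⊕ Fin 4)) :
    FreeMonoid.lift act (sq w) = FreeMonoid.lift act w * FreeMonoid.lift act (winv w) :=
  map_mul _ _ _

theorem lift_rr {N : Type*} [Monoid N] (act : Fin 4 ⊕ Fin 4 → N) (M p : ℕ)
    (h : ∀ w ∈ ({wX, wY, wZ, wA, wB} : Set (FreeMonoid (Fin 4 ⊕ Fin 4))),
      FreeMonoid.lift act w * FreeMonoid.lift act (winv w) = 1 ∧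
      FreeMonoid.lift act (winv w) * FreeMonoid.lift act w = 1)
    (hR : FreeMonoid.lift act (lt * omW M (la * la) lb (la * lb * la') ^ p * lt') = 1) :
    FreeMonoid.lift act (rr M p) = 1 := by
  unfold rr
  rw [map_mul, hR, mul_one]
  have hX := h wX (by simp)
  have hY := h wY (by simp)
  have hZ := h wZ (by simp)
  have hA := h wA (by simp)
  have hB := h wB (by simp)
  simp only [map_mul (FreeMonoid.lift act) (_ * _) (sq _), map_mul (FreeMonoid.lift act) (sq _) (sq _), lift_sq, winv_winv, hX.1,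
    hX.2, hY.1, hY.2, hZ.1, hZ.2, hA.1, hA.2, hB.1, hB.2, mul_one]

/-! ### Partial bijections -/

/-- Partial bijections as a monoid (left factor first). -/
def PB (Ω : Type) : Type := Ω ≃. Ω

instance (Ω : Type) : Monoid (PB Ω) where
  mul f g := PEquiv.trans f g
  one := PEquiv.refl Ω
  mul_assoc := PEquiv.trans_assoc
  one_mul := PEquiv.refl_trans
  mul_one := PEquiv.trans_refl

variable {Ω : Type}

def ap (f : PB Ω) (a : Ω) : Option Ω := PEquiv.toFun (α := Ω) (β := Ω) f a

def pinv (f : PB Ω) : PB Ω := PEquiv.symm f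

theorem ap_mul (f g : PB Ω) (a : Ω) : ap (f * g) a = (ap f a).bind (ap g) := rfl

theorem ap_one (a : Ω) : ap (1 : PB Ω) a = some a := rfl

theorem PB_ext {f g : PB Ω} (h : ∀ a, ap f a = ap g a) : f = g :=
  PEquiv.ext (f := (show Ω ≃. Ω from f)) (g := (show Ω ≃. Ω from g)) h

theorem pinv_one : pinv (1 : PB Ω) = 1 := PEquiv.symm_refl

theorem pinv_mul (f g : PB Ω) : pinv (f * g) = pinv g * pinv f := PEquiv.symm_trans_rev f g

theorem ap_pinv (f : PB Ω) {a b : Ω} (h : ap f a = some b) : ap (pinv f) b = some a :=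
  (PEquiv.eq_some_iff (show Ω ≃. Ω from f)).mpr h

theorem ap_self (f : PB Ω) (a : Ω) : ap (f * pinv f) a = (ap f a).map fun _ => a := by
  rw [ap_mul]
  cases h : ap f a with
  | none => rfl
  | some b => exact ap_pinv f h

theorem p_reg (f : PB Ω) : f * pinv f * f = f := by
  apply PB_ext
  intro a
  rw [ap_mul, ap_self]
  cases h : ap f a with
  | none => rfl
  | some b => exact h

theorem p_comm (f g : PB Ω) :
    f * pinv f * g * pinv g = g * pinv g * f * pinv f := by
  rw [mul_assoc (f * pinv f), mul_assoc (g * pinv g)]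
  apply PB_ext
  intro a
  rw [ap_mul (f * pinv f), ap_mul (g * pinv g), ap_self, ap_self]
  cases h : ap f a with
  | none =>
    cases h' : ap g a with
    | none => rfl
    | some c =>
      show none = ap (f * pinv f) a
      rw [ap_self, h]
      rfl
  | some b =>
    cases h' : ap g a with
    | none =>
      show ap (g * pinv g) a = none
      rw [ap_self, h']
      rfl
    | some c =>
      show ap (g * pinv g) a = ap (f * pinv f) a
      rw [ap_self, ap_self, h, h']
      rfl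

section act

variable {U : Type} [Group U]

/-- The shift. -/
def ps : PB (U × ℕ) :=
  { toFun := fun a => some (a.1, a.2 + 1)
    invFun := fun a => if a.2 = 0 then none else some (a.1, a.2 - 1)
    inv := by
      rintro ⟨g, i⟩ ⟨h, j⟩
      show (if j = 0 then none else some (h, j - 1)) = some (g, i) ↔ some (g, i + 1) = some (h, j)
      constructor
      · intro h1
        split_ifs at h1 with h2
        simp only [Option.some.injEq, Prod.mk.injEq] at h1 ⊢
        refine ⟨h1.1.symm, ?_⟩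
        have := h1.2
        omega
      · intro h1
        simp only [Option.some.injEq, Prod.mk.injEq] at h1
        obtain ⟨rfl, rfl⟩ := h1
        simp }

/-- The doubling. -/
def pt : PB (U × ℕ) :=
  { toFun := fun a => some (a.1, 2 * a.2)
    invFun := fun a => if a.2 % 2 = 0 then some (a.1, a.2 / 2) else none
    inv := by
      rintro ⟨g, i⟩ ⟨h, j⟩
      show (if j % 2 = 0 then some (h, j / 2) else none) = some (g, i) ↔
        some (g, 2 * i) = some (h, j)
      constructor
      · intro h1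
        split_ifs at h1 with h2
        simp only [Option.some.injEq, Prod.mk.injEq] at h1 ⊢
        refine ⟨h1.1.symm, ?_⟩
        have := h1.2
        omega
      · intro h1
        simp only [Option.some.injEq, Prod.mk.injEq] at h1
        obtain ⟨rfl, rfl⟩ := h1
        simp }

/-- A bijection as a partial bijection. -/
def ofEq (e : Ω ≃ Ω) : PB Ω := e.toPEquiv

theorem ap_ofEq (e : Ω ≃ Ω) (a : Ω) : ap (ofEq e) a = some (e a) := rfl

theorem ap_pinv_ofEq (e : Ω ≃ Ω) (a : Ω) : ap (pinv (ofEq e)) a = some (e.symm a) := rfl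

/-- The action of the letter `a`. -/
def Ea (x : U) : U × ℕ ≃ U × ℕ where
  toFun a := if a.2 = 0 then (a.1, 1) else if a.2 = 1 then (a.1 * x, 0) else a
  invFun a := if a.2 = 1 then (a.1, 0) else if a.2 = 0 then (a.1 * x⁻¹, 1) else a
  left_inv := by
    rintro ⟨g, i⟩
    rcases i with _ | _ | i <;> simp
  right_inv := by
    rintro ⟨g, i⟩
    rcases i with _ | _ | i <;> simp

/-- The action of the letter `b`. -/
def Eb (y z : U) : U × ℕ ≃ U × ℕ where
  toFun a := if a.2 = 0 then (a.1 * y, 0) else if a.2 = 1 then (a.1 * z, 1) else a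
  invFun a := if a.2 = 0 then (a.1 * y⁻¹, 0) else if a.2 = 1 then (a.1 * z⁻¹, 1) else a
  left_inv := by
    rintro ⟨g, i⟩
    rcases i with _ | _ | i <;> simp
  right_inv := by
    rintro ⟨g, i⟩
    rcases i with _ | _ | i <;> simp

/-- Right multiplication at level `0`. -/
def Eu (u : U) : U × ℕ ≃ U × ℕ where
  toFun a := if a.2 = 0 then (a.1 * u, 0) else a
  invFun a := if a.2 = 0 then (a.1 * u⁻¹, 0) else a
  left_inv := by
    rintro ⟨g, i⟩
    rcases i with _ | i <;> simp
  right_inv := by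
    rintro ⟨g, i⟩
    rcases i with _ | i <;> simp

theorem Eu_one : ofEq (Eu (1 : U)) = 1 := by
  apply PB_ext
  rintro ⟨g, i⟩
  rw [ap_ofEq, ap_one]
  rcases i with _ | i <;> simp [Eu]

theorem ofEq_inv (e : Ω ≃ Ω) : ofEq e * pinv (ofEq e) = 1 ∧ pinv (ofEq e) * ofEq e = 1 := by
  constructor
  · apply PB_ext
    intro a
    rw [ap_mul, ap_ofEq, Option.bind_some, ap_pinv_ofEq, Equiv.symm_apply_apply, ap_one]
  · apply PB_ext
    intro a
    rw [ap_mul, ap_pinv_ofEq, Option.bind_some, ap_ofEq, Equiv.apply_symm_apply, ap_one]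

/-- The letters. -/
def act (x y z : U) : Fin 4 ⊕ Fin 4 → PB (U × ℕ) :=
  Sum.elim ![ofEq (Ea x), ofEq (Eb y z), ps, pt]
    ![pinv (ofEq (Ea x)), pinv (ofEq (Eb y z)), pinv ps, pinv pt]

theorem act_swap (x y z : U) (c : Fin 4 ⊕ Fin 4) : act x y z (Sum.swap c) = pinv (act x y z c) := by
  rcases c with i | i
  · fin_cases i <;> rfl
  · fin_cases i <;> rfl

theorem ap_la (x y z : U) (a : U × ℕ) : ap (FreeMonoid.lift (act x y z) la) a = some (Ea x a) := rfl

theorem ap_la' (x y z : U) (a : U × ℕ) :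
    ap (FreeMonoid.lift (act x y z) la') a = some ((Ea x).symm a) := rfl

theorem ap_lb (x y z : U) (a : U × ℕ) :
    ap (FreeMonoid.lift (act x y z) lb) a = some (Eb y z a) := rfl

theorem ap_lt (x y z : U) (a : U × ℕ) :
    ap (FreeMonoid.lift (act x y z) lt) a = some (a.1, 2 * a.2) := rfl

theorem ap_lt' (x y z : U) (a : U × ℕ) :
    ap (FreeMonoid.lift (act x y z) lt') a =
      if a.2 % 2 = 0 then some (a.1, a.2 / 2) else none := rfl

theorem ap_ls (x y z : U) (a : U × ℕ) :
    ap (FreeMonoid.lift (act x y z) ls) a = some (a.1, a.2 + 1) := rfl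

theorem ap_ls' (x y z : U) (a : U × ℕ) :
    ap (FreeMonoid.lift (act x y z) ls') a =
      if a.2 = 0 then none else some (a.1, a.2 - 1) := rfl

theorem act_wX (x y z : U) : FreeMonoid.lift (act x y z) wX = ofEq (Eu x) := by
  apply PB_ext
  rintro ⟨g, i⟩
  unfold wX
  rw [map_mul, map_mul, map_mul]
  simp only [ap_mul, ap_lt, ap_la, ap_lt', Option.bind_some, ap_ofEq]
  rcases i with _ | i
  · simp [Ea, Eu]
  · simp [Ea, Eu, show 2 * (i + 1) ≠ 1 by omega]

theorem act_wY (x y z : U) : FreeMonoid.lift (act x y z) wY = ofEq (Eu y) := by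
  apply PB_ext
  rintro ⟨g, i⟩
  unfold wY
  rw [map_mul, map_mul]
  simp only [ap_mul, ap_lt, ap_lb, ap_lt', Option.bind_some, ap_ofEq]
  rcases i with _ | i
  · simp [Eb, Eu]
  · simp [Eb, Eu, show 2 * (i + 1) ≠ 1 by omega]

theorem act_wZ (x y z : U) : FreeMonoid.lift (act x y z) wZ = ofEq (Eu z) := by
  apply PB_ext
  rintro ⟨g, i⟩
  unfold wZ
  rw [map_mul, map_mul, map_mul, map_mul]
  simp only [ap_mul, ap_lt, ap_la, ap_lb, ap_la', ap_lt', Option.bind_some, ap_ofEq]
  rcases i with _ | i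
  · simp [Ea, Eb, Eu]
  · simp [Ea, Eb, Eu, show 2 * (i + 1) ≠ 1 by omega]

theorem act_wA (x y z : U) : FreeMonoid.lift (act x y z) wA = 1 := by
  apply PB_ext
  rintro ⟨g, i⟩
  unfold wA
  rw [map_mul, map_mul, map_mul, map_mul]
  simp only [ap_mul, ap_lt, ap_la, ap_ls, ap_lt', Option.bind_some, ap_one]
  simp [Ea, show 2 * (i + 1) ≠ 1 by omega, ap_ls']

theorem act_wB (x y z : U) : FreeMonoid.lift (act x y z) wB = 1 := by
  apply PB_ext
  rintro ⟨g, i⟩
  unfold wB
  rw [map_mul, map_mul, map_mul, map_mul]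
  simp only [ap_mul, ap_lt, ap_lb, ap_ls, ap_lt', Option.bind_some, ap_one]
  simp [Eb, show 2 * (i + 1) ≠ 1 by omega, ap_ls']

/-- Partial bijections acting by right multiplication at level `0` and trivially at levels
`≥ 2`. -/
def AS (U : Type) [Group U] : Submonoid (PB (U × ℕ) × U) where
  carrier := {v | (∀ g : U, ap v.1 (g, 0) = some (g * v.2, 0)) ∧
    ∀ (g : U) (i : ℕ), 2 ≤ i → ap v.1 (g, i) = some (g, i)}
  one_mem' := by
    refine ⟨fun g => ?_, fun g i _ => ap_one _⟩
    show ap (1 : PB (U × ℕ)) (g, 0) = some (g * 1, 0)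
    rw [ap_one, mul_one]
  mul_mem' := by
    rintro ⟨f, u⟩ ⟨f', u'⟩ ⟨h1, h2⟩ ⟨h3, h4⟩
    refine ⟨fun g => ?_, fun g i hi => ?_⟩
    · show ap (f * f') (g, 0) = some (g * (u * u'), 0)
      have e1 : ap f (g, 0) = some (g * u, 0) := h1 g
      have e2 : ap f' (g * u, 0) = some (g * u * u', 0) := h3 (g * u)
      rw [ap_mul, e1, Option.bind_some, e2, mul_assoc]
    · show ap (f * f') (g, i) = some (g, i)
      have e1 : ap f (g, i) = some (g, i) := h2 g i hi
      have e2 : ap f' (g, i) = some (g, i) := h4 g i hi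
      rw [ap_mul, e1, Option.bind_some, e2]

theorem act_R (x y z : U) (M p : ℕ) (h : omW M x y z ^ p = 1) :
    FreeMonoid.lift (act x y z) (lt * omW M (la * la) lb (la * lb * la') ^ p * lt') = 1 := by
  set e := FreeMonoid.lift (act x y z) with he
  have m1 : (e (la * la), x) ∈ AS U := by
    refine ⟨fun g => ?_, fun g i hi => ?_⟩
    · show ap (e (la * la)) (g, 0) = some (g * x, 0)
      rw [map_mul]
      simp only [he, ap_mul, ap_la, Option.bind_some]
      simp [Ea]
    · show ap (e (la * la)) (g, i) = some (g, i)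
      rw [map_mul]
      simp only [he, ap_mul, ap_la, Option.bind_some]
      simp [Ea, show i ≠ 0 by omega, show i ≠ 1 by omega]
  have m2 : (e lb, y) ∈ AS U := by
    refine ⟨fun g => ?_, fun g i hi => ?_⟩
    · show ap (e lb) (g, 0) = some (g * y, 0)
      simp only [he, ap_lb]
      simp [Eb]
    · show ap (e lb) (g, i) = some (g, i)
      simp only [he, ap_lb]
      simp [Eb, show i ≠ 0 by omega, show i ≠ 1 by omega]
  have m3 : (e (la * lb * la'), z) ∈ AS U := by
    refine ⟨fun g => ?_, fun g i hi => ?_⟩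
    · show ap (e (la * lb * la')) (g, 0) = some (g * z, 0)
      rw [map_mul, map_mul]
      simp only [he, ap_mul, ap_la, ap_lb, ap_la', Option.bind_some]
      simp [Ea, Eb]
    · show ap (e (la * lb * la')) (g, i) = some (g, i)
      rw [map_mul, map_mul]
      simp only [he, ap_mul, ap_la, ap_lb, ap_la', Option.bind_some]
      simp [Ea, Eb, show i ≠ 0 by omega, show i ≠ 1 by omega]
  let v : AS U := omW M ⟨_, m1⟩ ⟨_, m2⟩ ⟨_, m3⟩ ^ p
  have hv1 : (v.1).1 = e (omW M (la * la) lb (la * lb * la')) ^ p := by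
    have h1 := map_omW ((MonoidHom.fst (PB (U × ℕ)) U).comp (AS U).subtype) M
      (⟨_, m1⟩ : AS U) ⟨_, m2⟩ ⟨_, m3⟩
    have h2 : (v.1).1 = ((MonoidHom.fst (PB (U × ℕ)) U).comp (AS U).subtype) v := rfl
    rw [h2]
    show ((MonoidHom.fst (PB (U × ℕ)) U).comp (AS U).subtype)
      (omW M (⟨_, m1⟩ : AS U) ⟨_, m2⟩ ⟨_, m3⟩ ^ p) = _
    rw [map_pow, h1, map_omW]
    rfl
  have hv2 : (v.1).2 = 1 := by
    have h1 := map_omW ((MonoidHom.snd (PB (U × ℕ)) U).comp (AS U).subtype) M
      (⟨_, m1⟩ : AS U) ⟨_, m2⟩ ⟨_, m3⟩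
    have h2 : (v.1).2 = ((MonoidHom.snd (PB (U × ℕ)) U).comp (AS U).subtype) v := rfl
    rw [h2]
    show ((MonoidHom.snd (PB (U × ℕ)) U).comp (AS U).subtype)
      (omW M (⟨_, m1⟩ : AS U) ⟨_, m2⟩ ⟨_, m3⟩ ^ p) = _
    rw [map_pow, h1]
    exact h
  obtain ⟨h5, h6⟩ := v.2
  rw [hv1] at h5 h6
  rw [hv2] at h5
  rw [map_mul, map_mul, map_pow]
  apply PB_ext
  rintro ⟨g, i⟩
  rw [ap_mul, ap_mul, ap_one]
  simp only [he, ap_lt, Option.bind_some]
  rcases Nat.eq_zero_or_pos i with hi | hi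
  · subst hi
    have h7 := h5 g
    rw [mul_one] at h7
    rw [show 2 * 0 = 0 from rfl]
    simp only [he] at h7
    rw [h7, Option.bind_some, ap_lt']
    simp
  · have h7 := h6 g (2 * i) (by omega)
    simp only [he] at h7
    rw [h7, Option.bind_some, ap_lt']
    simp

end act

end UB

namespace UB

theorem inj_first (M p : ℕ) (N : Subgroup (FreeGroup (Fin 2))) [N.Normal] (hN : ww M ^ p ∈ N)
    (j1 : FreeGroup (Fin 2) →* (IM M p)ˣ) (hk1 : N ≤ j1.ker)
    (hA : (j1 (FreeGroup.of 0) : IM M p) = Con.mk' (conGen (IRel (rr M p))) wA)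
    (hB : (j1 (FreeGroup.of 1) : IM M p) = Con.mk' (conGen (IRel (rr M p))) wB) :
    Function.Injective (QuotientGroup.lift N j1 hk1) := by
  let a : FreeGroup (Fin 2) ⧸ N := QuotientGroup.mk' N (FreeGroup.of 0)
  let b : FreeGroup (Fin 2) ⧸ N := QuotientGroup.mk' N (FreeGroup.of 1)
  let ac : Fin 4 ⊕ Fin 4 → FreeGroup (Fin 2) ⧸ N := Sum.elim ![a, b, 1, 1] ![a⁻¹, b⁻¹, 1, 1]
  have hac : ∀ c, ac (Sum.swap c) = (ac c)⁻¹ := by
    rintro (i | i)
    · fin_cases i
      · rfl
      · rfl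
      · exact inv_one.symm
      · exact inv_one.symm
    · fin_cases i
      · exact (inv_inv _).symm
      · exact (inv_inv _).symm
      · exact inv_one.symm
      · exact inv_one.symm
  have hw := lift_winv (fun g : FreeGroup (Fin 2) ⧸ N => g⁻¹) inv_one mul_inv_rev ac hac
  have hrr : FreeMonoid.lift ac (rr M p) = 1 := by
    apply lift_rr
    · intro w _
      rw [hw]
      exact ⟨mul_inv_cancel _, inv_mul_cancel _⟩
    · have e1 : FreeMonoid.lift ac lt = 1 := rfl
      have e2 : FreeMonoid.lift ac lt' = 1 := rfl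
      have e3 : FreeMonoid.lift ac la = a := rfl
      have e4 : FreeMonoid.lift ac lb = b := rfl
      have e5 : FreeMonoid.lift ac la' = a⁻¹ := rfl
      rw [map_mul, map_mul, map_pow, map_omW, e1, e2, one_mul, mul_one, map_mul, map_mul,
        map_mul, e3, e4, e5]
      have e6 : omW M (a * a) b (a * b * a⁻¹) = QuotientGroup.mk' N (ww M) := by
        rw [ww_eq, map_omW, map_mul, map_mul, map_mul, map_inv]
      rw [e6, ← map_pow]
      exact (QuotientGroup.eq_one_iff _).mpr hN
  obtain ⟨ρ, hρ⟩ := rep_exists (fun g : FreeGroup (Fin 2) ⧸ N => g⁻¹) inv_one mul_inv_rev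
    (fun f => by group) (fun f g => by group) ac hac M p hrr
  have hθ : (Units.coeHom _).comp ((Units.map ρ).comp (QuotientGroup.lift N j1 hk1)) =
      MonoidHom.id _ := by
    apply QuotientGroup.monoidHom_ext
    apply FreeGroup.ext_hom
    intro i
    fin_cases i
    · show ρ (j1 (FreeGroup.of 0) : IM M p) = a
      rw [hA, hρ]
      show (1 : FreeGroup (Fin 2) ⧸ N) * 1 * a * 1 * 1 = a
      rw [one_mul, one_mul, mul_one, mul_one]
    · show ρ (j1 (FreeGroup.of 1) : IM M p) = b
      rw [hB, hρ]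
      show (1 : FreeGroup (Fin 2) ⧸ N) * 1 * b * 1 * 1 = b
      rw [one_mul, one_mul, mul_one, mul_one]
  intro u v huv
  have h1 := DFunLike.congr_fun hθ u
  have h2 := DFunLike.congr_fun hθ v
  simp only [MonoidHom.comp_apply, MonoidHom.id_apply] at h1 h2
  rw [← h1, ← h2, huv]

theorem inj_second (M p : ℕ) (N : Subgroup (FreeGroup (Fin 3))) [N.Normal] (hN : om M ^ p ∈ N)
    (j2 : FreeGroup (Fin 3) →* (IM M p)ˣ) (hk2 : N ≤ j2.ker)
    (hX : (j2 (FreeGroup.of 0) : IM M p) = Con.mk' (conGen (IRel (rr M p))) wX)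
    (hY : (j2 (FreeGroup.of 1) : IM M p) = Con.mk' (conGen (IRel (rr M p))) wY)
    (hZ : (j2 (FreeGroup.of 2) : IM M p) = Con.mk' (conGen (IRel (rr M p))) wZ) :
    Function.Injective (QuotientGroup.lift N j2 hk2) := by
  let x : FreeGroup (Fin 3) ⧸ N := QuotientGroup.mk' N (FreeGroup.of 0)
  let y : FreeGroup (Fin 3) ⧸ N := QuotientGroup.mk' N (FreeGroup.of 1)
  let z : FreeGroup (Fin 3) ⧸ N := QuotientGroup.mk' N (FreeGroup.of 2)
  have hom : omW M x y z ^ p = 1 := by
    have e6 : omW M x y z = QuotientGroup.mk' N (om M) := by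
      unfold om
      rw [map_omW]
    rw [e6, ← map_pow]
    exact (QuotientGroup.eq_one_iff _).mpr hN
  have hw := lift_winv (pinv (Ω := (FreeGroup (Fin 3) ⧸ N) × ℕ)) pinv_one pinv_mul
    (act x y z) (act_swap x y z)
  have hrr : FreeMonoid.lift (act x y z) (rr M p) = 1 := by
    apply lift_rr
    · intro w hw'
      rw [hw]
      simp only [Set.mem_insert_iff, Set.mem_singleton_iff] at hw'
      rcases hw' with rfl | rfl | rfl | rfl | rfl
      · rw [act_wX]; exact ofEq_inv _
      · rw [act_wY]; exact ofEq_inv _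
      · rw [act_wZ]; exact ofEq_inv _
      · rw [act_wA, pinv_one, mul_one]; exact ⟨rfl, rfl⟩
      · rw [act_wB, pinv_one, mul_one]; exact ⟨rfl, rfl⟩
    · exact act_R x y z M p hom
  obtain ⟨ρ, hρ⟩ := rep_exists (pinv (Ω := (FreeGroup (Fin 3) ⧸ N) × ℕ)) pinv_one pinv_mul
    p_reg p_comm (act x y z) (act_swap x y z) M p hrr
  have hEu : ∀ (u g : FreeGroup (Fin 3) ⧸ N), ap (ofEq (Eu u)) (g, 0) = some (g * u, 0) := by
    intro u g
    rw [ap_ofEq]
    simp [Eu]
  have hgen : ∀ i : Fin 3, ∀ g : FreeGroup (Fin 3) ⧸ N,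
      ap (ρ (j2 (FreeGroup.of i) : IM M p)) (g, 0) =
        some (g * QuotientGroup.mk' N (FreeGroup.of i), 0) := by
    intro i g
    fin_cases i
    · show ap (ρ (j2 (FreeGroup.of 0) : IM M p)) (g, 0) = some (g * x, 0)
      rw [hX, hρ, act_wX, hEu]
    · show ap (ρ (j2 (FreeGroup.of 1) : IM M p)) (g, 0) = some (g * y, 0)
      rw [hY, hρ, act_wY, hEu]
    · show ap (ρ (j2 (FreeGroup.of 2) : IM M p)) (g, 0) = some (g * z, 0)
      rw [hZ, hρ, act_wZ, hEu]
  have hkey : ∀ w : FreeGroup (Fin 3), ∀ g : FreeGroup (Fin 3) ⧸ N,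
      ap (ρ (j2 w : IM M p)) (g, 0) = some (g * QuotientGroup.mk' N w, 0) := by
    intro w
    induction w using FreeGroup.induction_on with
    | C1 =>
      intro g
      rw [map_one, Units.val_one, map_one, ap_one, map_one, mul_one]
    | of i => exact hgen i
    | inv_of i _ =>
      intro g
      have h1 : ρ (j2 (FreeGroup.of i) : IM M p) * ρ (j2 (FreeGroup.of i)⁻¹ : IM M p) = 1 := by
        rw [← map_mul, ← Units.val_mul, ← map_mul, mul_inv_cancel, map_one, Units.val_one,
          map_one]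
      have h2 : ap (ρ (j2 (FreeGroup.of i) : IM M p) * ρ (j2 (FreeGroup.of i)⁻¹ : IM M p))
          (g * (QuotientGroup.mk' N (FreeGroup.of i))⁻¹, 0) =
          some (g * (QuotientGroup.mk' N (FreeGroup.of i))⁻¹, 0) := by
        rw [h1, ap_one]
      rw [ap_mul, hgen, Option.bind_some, inv_mul_cancel_right] at h2
      rw [h2, map_inv]
    | mul v w h1 h2 =>
      intro g
      rw [map_mul, Units.val_mul, map_mul, ap_mul, h1, Option.bind_some, h2, map_mul, mul_assoc]
  rw [injective_iff_map_eq_one]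
  intro u hu
  obtain ⟨w, rfl⟩ := QuotientGroup.mk_surjective u
  have h1 : j2 w = 1 := hu
  have h2 := hkey w 1
  rw [h1, Units.val_one, map_one, ap_one, one_mul] at h2
  have h3 := (Prod.mk.inj (Option.some.inj h2)).1
  exact h3.symm

end UB

open UB in
theorem units_embed (M p : ℕ) :
    ∃ (f1 : FreeGroup (Fin 2) ⧸ Subgroup.normalClosure {ww M ^ p} →* (IM M p)ˣ)
      (f2 : FreeGroup (Fin 3) ⧸ Subgroup.normalClosure {om M ^ p} →* (IM M p)ˣ),
      Function.Injective f1 ∧ Function.Injective f2 := by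
  obtain ⟨j1, j2, hA, hB, hX, hY, hZ, r1, r2⟩ := units_homs M p
    (Con.mk' (conGen (IRel (rr M p))))
    (fun w => (Con.eq _).mpr (ConGen.Rel.of _ _ (Or.inl ⟨w, rfl, rfl⟩)))
    (fun u v => (Con.eq _).mpr (ConGen.Rel.of _ _ (Or.inr (Or.inl ⟨u, v, rfl, rfl⟩))))
    ((Con.eq _).mpr (ConGen.Rel.of _ _ (Or.inr (Or.inr ⟨rfl, rfl⟩))))
  have hk1 : Subgroup.normalClosure {ww M ^ p} ≤ j1.ker := by
    apply Subgroup.normalClosure_le_normal
    rintro _ rfl
    exact r1
  have hk2 : Subgroup.normalClosure {om M ^ p} ≤ j2.ker := by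
    apply Subgroup.normalClosure_le_normal
    rintro _ rfl
    exact r2
  exact ⟨QuotientGroup.lift _ j1 hk1, QuotientGroup.lift _ j2 hk2,
    inj_first M p _ (Subgroup.subset_normalClosure (Set.mem_singleton _)) j1 hk1 hA hB,
    inj_second M p _ (Subgroup.subset_normalClosure (Set.mem_singleton _)) j2 hk2 hX hY hZ⟩

end Pool.Agent.H28.UE
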